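import Pool.Agent.Lib.MP_14f458_gt.Small

namespace Pool.Agent.Lib.MP_14f458_gt

variable {K K' : Type} [Group K] [Group K'] {l l' : List K}

theorem Bas.ext (h : Bas l) {H : Type} [Group H] {f g : K →* H} (hfg : ∀ x ∈ l, f x = g x) :
    f = g :=
  MonoidHom.eq_of_eqOn_dense h.gen fun x hx => hfg x hx

private theorem perm_aux {α β : Type} {l l' : List α} (hp : l.Perm l') :
    ∀ r' : List β, r'.length = l'.length →
      ∃ r : List β, r.length = l.length ∧ ∀ f : α → β, l.map f = r → l'.map f = r' := by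
  induction hp with
  | nil => exact fun r' h => ⟨r', h, fun _ hf => hf⟩
  | cons x _ ih =>
    rintro (_ | ⟨a, r'⟩) h
    · simp at h
    · obtain ⟨r, h1, h2⟩ := ih r' (by simpa using h)
      refine ⟨a :: r, by simp [h1], fun f hf => ?_⟩
      simp only [List.map_cons, List.cons.injEq] at hf ⊢
      exact ⟨hf.1, h2 f hf.2⟩
  | swap x y l =>
    rintro (_ | ⟨a, _ | ⟨b, r'⟩⟩) h
    · simp at h
    · simp at h
    · refine ⟨b :: a :: r', by simpa using h, fun f hf => ?_⟩
      simp only [List.map_cons, List.cons.injEq] at hf ⊢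
      exact ⟨hf.2.1, hf.1, hf.2.2⟩
  | trans _ _ ih1 ih2 =>
    intro r' h
    obtain ⟨r1, h1, h2⟩ := ih2 r' h
    obtain ⟨r2, h3, h4⟩ := ih1 r1 h1
    exact ⟨r2, h3, fun f hf => h2 f (h4 f hf)⟩

theorem Bas.perm (h : Bas l) (hp : l.Perm l') : Bas l' where
  gen := by
    rw [← h.gen]
    congr 1
    ext x
    exact hp.mem_iff.symm
  univ H _ r' hr := by
    obtain ⟨r, h1, h2⟩ := perm_aux hp r' hr
    obtain ⟨f, hf⟩ := h.univ H r h1
    exact ⟨f, h2 f hf⟩

private theorem gen_of (h : Bas l) (hl : ∀ x ∈ l, x ∈ Gen l') : Gen l' = ⊤ := by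
  rw [eq_top_iff, ← h.gen]
  exact (Subgroup.closure_le _).2 hl

theorem Bas.inv {x : K} (h : Bas (x :: l)) : Bas (x⁻¹ :: l) where
  gen := by
    refine gen_of h fun y hy => ?_
    rcases List.mem_cons.1 hy with rfl | hy
    · exact (Subgroup.inv_mem_iff _).1 (Subgroup.subset_closure List.mem_cons_self)
    · exact Subgroup.subset_closure (List.mem_cons_of_mem _ hy)
  univ H _ r hr := by
    rcases r with _ | ⟨a, r⟩
    · simp at hr
    · obtain ⟨f, hf⟩ := h.univ H (a⁻¹ :: r) (by simpa using hr)
      simp only [List.map_cons, List.cons.injEq] at hf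
      exact ⟨f, by simp [hf.1, hf.2]⟩

/-- BAS. The elementary move. -/
theorem Bas.repl {x u v : K} (h : Bas (x :: l)) (hu : u ∈ Gen l) (hv : v ∈ Gen l) :
    Bas ((u * x * v) :: l) where
  gen := by
    have hm : Gen l ≤ Gen ((u * x * v) :: l) :=
      Subgroup.closure_mono fun _ hx => List.mem_cons_of_mem _ hx
    refine gen_of h fun y hy => ?_
    rcases List.mem_cons.1 hy with rfl | hy
    · have h1 : u * y * v ∈ Gen ((u * y * v) :: l) := Subgroup.subset_closure List.mem_cons_self
      have h2 := mul_mem (mul_mem (inv_mem (hm hu)) h1) (inv_mem (hm hv))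
      simpa [mul_assoc] using h2
    · exact Subgroup.subset_closure (List.mem_cons_of_mem _ hy)
  univ H _ r hr := by
    rcases r with _ | ⟨a, r⟩
    · simp at hr
    · obtain ⟨f0, hf0⟩ := h.univ H (1 :: r) (by simpa using hr)
      obtain ⟨f, hf⟩ := h.univ H (((f0 u)⁻¹ * a * (f0 v)⁻¹) :: r) (by simpa using hr)
      simp only [List.map_cons, List.cons.injEq] at hf hf0
      have he : Set.EqOn f f0 (Gen l) :=
        MonoidHom.eqOn_closure fun y hy => List.map_inj_left.1 (hf.2.trans hf0.2.symm) y hy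
      refine ⟨f, ?_⟩
      simp only [List.map_cons, List.cons.injEq, map_mul]
      refine ⟨?_, hf.2⟩
      rw [he hu, he hv, hf.1]
      group

theorem Bas.equiv {r : List K'} (h : Bas l) (h' : Bas r) (hl : r.length = l.length) :
    ∃ e : K ≃* K', l.map e = r := by
  obtain ⟨f, hf⟩ := h.univ K' r hl
  obtain ⟨g, hg⟩ := h'.univ K l hl.symm
  have h1 : g.comp f = MonoidHom.id K := by
    refine h.ext (List.map_inj_left.1 ?_)
    rw [MonoidHom.coe_comp, ← List.map_map, hf, hg]
    simp
  have h2 : f.comp g = MonoidHom.id K' := by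
    refine h'.ext (List.map_inj_left.1 ?_)
    rw [MonoidHom.coe_comp, ← List.map_map, hg, hf]
    simp
  exact ⟨MonoidHom.toMulEquiv f g h1 h2, hf⟩

theorem Bas.map (h : Bas l) (e : K ≃* K') : Bas (l.map e) where
  gen := by
    have h1 := congrArg (Subgroup.map e.toMonoidHom) h.gen
    rw [MonoidHom.map_closure, Subgroup.map_top_of_surjective _ e.surjective] at h1
    rw [← h1]
    congr 1
    ext x
    simp
  univ H _ r hr := by
    obtain ⟨f, hf⟩ := h.univ H r (by simpa using hr)
    refine ⟨f.comp e.symm.toMonoidHom, ?_⟩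
    rw [← hf, List.map_map]
    exact List.map_congr_left fun x _ => by simp

private theorem exists_fun {ι β : Type} [Inhabited β] {L : List ι} (hn : L.Nodup) :
    ∀ r : List β, r.length = L.length → ∃ φ : ι → β, L.map φ = r := by
  classical
  induction L with
  | nil => exact fun r hr => ⟨fun _ => default, (List.length_eq_zero_iff.1 hr).symm⟩
  | cons i L ih =>
    rintro (_ | ⟨a, r⟩) hr
    · simp at hr
    · obtain ⟨φ, hφ⟩ := ih (List.nodup_cons.1 hn).2 r (by simpa using hr)
      refine ⟨Function.update φ i a, ?_⟩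
      rw [List.map_cons, Function.update_self, ← hφ]
      congr 1
      refine List.map_congr_left fun j hj => Function.update_of_ne ?_ _ _
      rintro rfl
      exact (List.nodup_cons.1 hn).1 hj

private theorem bas_list {ι : Type} {L : List ι} (hn : L.Nodup) (ha : ∀ i, i ∈ L) :
    Bas (L.map (FreeGroup.of : ι → FreeGroup ι)) where
  gen := by
    rw [← FreeGroup.closure_range_of ι]
    congr 1
    ext x
    simp [ha]
  univ H _ r hr := by
    have : Inhabited H := ⟨1⟩
    obtain ⟨φ, hφ⟩ := exists_fun hn r (by simpa using hr)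
    refine ⟨FreeGroup.lift φ, ?_⟩
    rw [← hφ, List.map_map]
    exact List.map_congr_left fun x _ => by simp

theorem bas_free (n : ℕ) : Bas (List.ofFn (FreeGroup.of : Fin n → FreeGroup (Fin n))) := by
  rw [List.ofFn_eq_map]
  exact bas_list (List.nodup_finRange n) List.mem_finRange

/-- For every `n` there is a group with a basis `γ 0, …, γ (n - 1)`. -/
theorem exists_bas (n : ℕ) : ∃ γ : ℕ → FreeGroup (Fin n), Bas ((List.range n).map γ) := by
  refine ⟨fun j => if h : j < n then FreeGroup.of ⟨j, h⟩ else 1, ?_⟩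
  convert bas_free n using 1
  refine List.ext_getElem (by simp) fun i h1 h2 => ?_
  have hi : i < n := by simpa using h1
  simp [hi]

theorem bas_pi (g n : ℕ) :
    Bas (List.ofFn (A g n) ++ List.ofFn (B g n) ++ List.ofFn (C0 g n)) := by
  have h := bas_list (ι := Fin g ⊕ Fin g ⊕ Fin (n - 1))
    (L := List.ofFn Sum.inl ++ List.ofFn (fun i => Sum.inr (Sum.inl i)) ++
      List.ofFn fun j => Sum.inr (Sum.inr j)) ?_ ?_
  · simp only [List.map_append, List.map_ofFn] at h
    exact h
  · rw [List.nodup_append, List.nodup_append]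
    refine ⟨⟨List.nodup_ofFn.2 Sum.inl_injective,
      List.nodup_ofFn.2 (Sum.inr_injective.comp Sum.inl_injective), ?_⟩,
      List.nodup_ofFn.2 (Sum.inr_injective.comp Sum.inr_injective), ?_⟩
    · simp only [List.mem_ofFn]
      rintro _ ⟨i, rfl⟩ _ ⟨j, rfl⟩
      simp
    · simp only [List.mem_append, List.mem_ofFn]
      rintro _ (⟨i, rfl⟩ | ⟨i, rfl⟩) _ ⟨j, rfl⟩ <;> simp
  · rintro (i | i | i) <;> simp

/-- BAS. Applying an automorphism given by words to a part of a basis. -/
theorem Bas.words {d : ℕ} {y : Fin d → K} (h : Bas (List.ofFn y ++ l)) {φ φi : Fin d → Wd d}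
    (h1 : ∀ i, red (sub φ (φi i)) = [(i, true)]) (h2 : ∀ i, red (sub φi (φ i)) = [(i, true)]) :
    Bas (List.ofFn (fun i => ev y (φ i)) ++ l) where
  gen := by
    refine gen_of h fun x hx => ?_
    rcases List.mem_append.1 hx with hx | hx
    · obtain ⟨i, rfl⟩ := List.mem_ofFn.1 hx
      have e : y i = ev (fun i => ev y (φ i)) (φi i) := by
        rw [← ev_sub, ← ev_red, h1]
        simp
      rw [e]
      refine ev_mem _ _ (fun j => Subgroup.subset_closure ?_) _
      exact List.mem_append_left _ (List.mem_ofFn.2 ⟨j, rfl⟩)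
    · exact Subgroup.subset_closure (List.mem_append_right _ hx)
  univ H _ r hr := by
    have hd : d ≤ r.length := by
      rw [hr]
      simp
    obtain ⟨z, r', rfl⟩ : ∃ (z : Fin d → H) (r' : List H), r = List.ofFn z ++ r' := by
      refine ⟨fun i => r[i.1]'(i.2.trans_le hd), r.drop d, ?_⟩
      conv_lhs => rw [← List.take_append_drop d r]
      congr 1
      refine List.ext_getElem (by simp [hd]) fun i h1 h2 => by simp
    obtain ⟨f, hf⟩ := h.univ H (List.ofFn (fun i => ev z (φi i)) ++ r') (by simpa using hr)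
    rw [List.map_append, List.map_ofFn] at hf
    obtain ⟨hf1, hf2⟩ := List.append_inj hf (by simp)
    have hf3 : (fun i => f (y i)) = fun i => ev z (φi i) := List.ofFn_injective hf1
    refine ⟨f, ?_⟩
    rw [List.map_append, List.map_ofFn, hf2]
    congr 2
    funext i
    rw [Function.comp_apply, map_ev, hf3, ← ev_sub, ← ev_red, h2]
    simp

theorem mem_Gen {x : K} (h : x ∈ l) : x ∈ Gen l := Subgroup.subset_closure h

theorem Gen_mono (h : l ⊆ l') : Gen l ≤ Gen l' := Subgroup.closure_mono fun _ hx => h hx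

end Pool.Agent.Lib.MP_14f458_gt
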