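import Pool.Agent.Lib.MP_14f458_gt.Defs

/-!
Framework definitions for MP_14f458_gt: words, presentations, weight sums, Fox calculus,
linear involutions, bases of free groups.
-/

namespace Pool.Agent.Lib.MP_14f458_gt

/-! ### Classes and words -/

abbrev Cl (G : Type) [Group G] : Type := G →* Multiplicative ℤ

section cv
variable {G : Type} [Group G]

/-- The integer value of a class. -/
def cv (β : Cl G) (g : G) : ℤ := Multiplicative.toAdd (β g)

@[simp] theorem cv_mul (β : Cl G) (g h : G) : cv β (g * h) = cv β g + cv β h := by simp [cv]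
@[simp] theorem cv_one (β : Cl G) : cv β 1 = 0 := by simp [cv]
@[simp] theorem cv_inv (β : Cl G) (g : G) : cv β g⁻¹ = -cv β g := by simp [cv]
@[simp] theorem cv_pow (β : Cl G) (g : G) (k : ℕ) : cv β (g ^ k) = k * cv β g := by simp [cv]
@[simp] theorem cv_zpow (β : Cl G) (g : G) (k : ℤ) : cv β (g ^ k) = k * cv β g := by simp [cv]
theorem cv_eq_zero {β : Cl G} {g : G} : cv β g = 0 ↔ β g = 1 := by simp [cv]
theorem mem_ker_iff_cv {β : Cl G} {g : G} : g ∈ β.ker ↔ cv β g = 0 := by
  simp [cv, MonoidHom.mem_ker]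
theorem cv_eq_iff {β : Cl G} {g : G} {k : ℤ} : cv β g = k ↔ β g = Multiplicative.ofAdd k := by
  constructor
  · rintro rfl; simp [cv]
  · intro h; simp [cv, h]
@[simp] theorem cv_cl_mul (α β : Cl G) (g : G) : cv (α * β) g = cv α g + cv β g := by simp [cv]
@[simp] theorem cv_cl_pow (α : Cl G) (k : ℕ) (g : G) : cv (α ^ k) g = k * cv α g := by
  simp [cv]
@[simp] theorem cv_cl_inv (α : Cl G) (g : G) : cv α⁻¹ g = -cv α g := by simp [cv]
@[simp] theorem cv_cl_one (g : G) : cv (1 : Cl G) g = 0 := by simp [cv]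
theorem cl_ext {α β : Cl G} (h : ∀ g, cv α g = cv β g) : α = β := by
  ext g; exact h g

end cv

abbrev Lt (d : ℕ) : Type := Fin d × Bool
abbrev Wd (d : ℕ) : Type := List (Lt d)

variable {d e : ℕ}

def linv (l : Lt d) : Lt d := (l.1, !l.2)

@[simp] theorem linv_linv (l : Lt d) : linv (linv l) = l := by simp [linv]

def winv (w : Wd d) : Wd d := (w.map linv).reverse

theorem winv_eq_invRev (w : Wd d) : winv w = FreeGroup.invRev w := rfl

/-- Substitution of words for letters (no reduction). -/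
def sub (σ : Fin d → Wd e) : Wd d → Wd e
  | [] => []
  | (i, true) :: w => σ i ++ sub σ w
  | (i, false) :: w => winv (σ i) ++ sub σ w

/-- Free reduction. -/
def red : Wd d → Wd d
  | [] => []
  | l :: w =>
    match red w with
    | [] => [l]
    | l' :: w' => if l' = linv l then w' else l :: l' :: w'

section ev
variable {G : Type} [Group G]

/-- The value of a word. -/
def ev (x : Fin d → G) : Wd d → G
  | [] => 1
  | (i, true) :: w => x i * ev x w
  | (i, false) :: w => (x i)⁻¹ * ev x w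

@[simp] theorem ev_nil (x : Fin d → G) : ev x [] = 1 := rfl
@[simp] theorem ev_true (x : Fin d → G) (i : Fin d) (w : Wd d) :
    ev x ((i, true) :: w) = x i * ev x w := rfl
@[simp] theorem ev_false (x : Fin d → G) (i : Fin d) (w : Wd d) :
    ev x ((i, false) :: w) = (x i)⁻¹ * ev x w := rfl

theorem ev_append (x : Fin d → G) (u w : Wd d) : ev x (u ++ w) = ev x u * ev x w := by
  induction u with
  | nil => simp
  | cons l u ih => rcases l with ⟨i, _ | _⟩ <;> simp [ih, mul_assoc]

theorem ev_cons (x : Fin d → G) (l : Lt d) (w : Wd d) : ev x (l :: w) = ev x [l] * ev x w :=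
  ev_append x [l] w

theorem ev_linv (x : Fin d → G) (l : Lt d) : ev x [linv l] = (ev x [l])⁻¹ := by
  rcases l with ⟨i, _ | _⟩ <;> simp [linv]

theorem ev_winv (x : Fin d → G) (w : Wd d) : ev x (winv w) = (ev x w)⁻¹ := by
  induction w with
  | nil => simp [winv]
  | cons l w ih =>
    have : winv (l :: w) = winv w ++ [linv l] := by simp [winv]
    rw [this, ev_append, ih, ev_linv, ev_cons x l w, mul_inv_rev]

theorem ev_sub (x : Fin e → G) (σ : Fin d → Wd e) (w : Wd d) :
    ev x (sub σ w) = ev (fun i => ev x (σ i)) w := by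
  induction w with
  | nil => rfl
  | cons l w ih => rcases l with ⟨i, _ | _⟩ <;> simp [sub, ev_append, ev_winv, ih]

theorem ev_red (x : Fin d → G) (w : Wd d) : ev x (red w) = ev x w := by
  induction w with
  | nil => rfl
  | cons l w ih =>
    rw [ev_cons x l w, ← ih, red]
    rcases h : red w with _ | ⟨l', w'⟩
    · simp
    · by_cases h' : l' = linv l
      · subst h'
        simp only [if_true]
        rw [ev_cons x (linv l) w', ev_linv]; simp
      · simp only [h', if_false]; exact ev_cons x l _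

theorem ev_eq_of_red (x : Fin d → G) {u w : Wd d} (h : red u = red w) : ev x u = ev x w := by
  rw [← ev_red x u, h, ev_red]

theorem map_ev {H : Type} [Group H] (f : G →* H) (x : Fin d → G) (w : Wd d) :
    f (ev x w) = ev (fun i => f (x i)) w := by
  induction w with
  | nil => simp
  | cons l w ih => rcases l with ⟨i, _ | _⟩ <;> simp [ih]

theorem conj_ev (g : G) (x : Fin d → G) (w : Wd d) :
    g * ev x w * g⁻¹ = ev (fun i => g * x i * g⁻¹) w := by
  simpa using map_ev (MulAut.conj g).toMonoidHom x w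

theorem ev_mem (x : Fin d → G) (S : Subgroup G) (h : ∀ i, x i ∈ S) (w : Wd d) : ev x w ∈ S := by
  induction w with
  | nil => exact S.one_mem
  | cons l w ih =>
    rcases l with ⟨i, _ | _⟩
    · exact S.mul_mem (S.inv_mem (h i)) ih
    · exact S.mul_mem (h i) ih

theorem ev_of (w : Wd d) : ev (FreeGroup.of : Fin d → FreeGroup (Fin d)) w = FreeGroup.mk w := by
  induction w with
  | nil => rfl
  | cons l w ih =>
    rcases l with ⟨i, _ | _⟩
    · rw [ev_false, ih]; rfl
    · rw [ev_true, ih]; rfl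

theorem lift_mk_eq (x : Fin d → G) (w : Wd d) : FreeGroup.lift x (FreeGroup.mk w) = ev x w := by
  rw [← ev_of, map_ev]; simp

end ev

/-- The endomorphism of the free group given by the words `σ i`. -/
def hom (σ : Fin d → Wd d) : FreeGroup (Fin d) →* FreeGroup (Fin d) :=
  FreeGroup.lift fun i => FreeGroup.mk (σ i)

theorem hom_mk (σ : Fin d → Wd d) (w : Wd d) :
    hom σ (FreeGroup.mk w) = FreeGroup.mk (sub σ w) := by
  rw [hom, lift_mk_eq, ← ev_of (sub σ w), ev_sub]; simp [ev_of]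

theorem mk_red (w : Wd d) : FreeGroup.mk (red w) = FreeGroup.mk w := by
  rw [← ev_of, ← ev_of, ev_red]

theorem mk_winv (w : Wd d) : FreeGroup.mk (winv w) = (FreeGroup.mk w)⁻¹ := by
  rw [← ev_of, ← ev_of, ev_winv]

/-- The total weight of a word. -/
def wt {A : Type} [AddCommGroup A] (a : Fin d → A) : Wd d → A
  | [] => 0
  | (i, true) :: w => a i + wt a w
  | (i, false) :: w => -a i + wt a w

theorem cv_ev {G : Type} [Group G] (β : Cl G) (x : Fin d → G) (w : Wd d) :
    cv β (ev x w) = wt (fun i => cv β (x i)) w := by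
  induction w with
  | nil => simp [wt]
  | cons l w ih => rcases l with ⟨i, _ | _⟩ <;> simp [wt, ih]

theorem map_wt {A B : Type} [AddCommGroup A] [AddCommGroup B] (f : A →+ B) (a : Fin d → A)
    (w : Wd d) : f (wt a w) = wt (fun i => f (a i)) w := by
  induction w with
  | nil => simp [wt]
  | cons l w ih => rcases l with ⟨i, _ | _⟩ <;> simp [wt, ih]

/-- The exponent sum of the letter `i`. -/
def ab (i : Fin d) (w : Wd d) : ℤ := wt (fun j => if j = i then 1 else 0) w

/-- `G` is presented by generators `x i`, `t` and relations `t * x i * t⁻¹ = σ i`. -/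
structure Pres {G : Type} [Group G] (σ : Fin d → Wd d) (x : Fin d → G) (t : G) : Prop where
  rel : ∀ i, t * x i * t⁻¹ = ev x (σ i)
  gen : Subgroup.closure (Set.range x ∪ {t}) = ⊤
  univ : ∀ (H : Type) [Group H] (y : Fin d → H) (s : H), (∀ i, s * y i * s⁻¹ = ev y (σ i)) →
    ∃ f : G →* H, (∀ i, f (x i) = y i) ∧ f t = s

theorem hom_ext_of_gen {G H : Type} [Group G] [Monoid H] {x : Fin d → G} {t : G}
    (gen : Subgroup.closure (Set.range x ∪ {t}) = ⊤) {f g : G →* H} (hx : ∀ i, f (x i) = g (x i))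
    (ht : f t = g t) : f = g := by
  apply MonoidHom.eq_of_eqOn_dense gen
  rintro _ (⟨i, rfl⟩ | rfl)
  · exact hx i
  · exact ht

theorem Pres.map {G H : Type} [Group G] [Group H] {σ : Fin d → Wd d} {x : Fin d → G} {t : G}
    (P : Pres σ x t) (e : G ≃* H) : Pres σ (fun i => e (x i)) (e t) where
  rel i := by
    have := congrArg e (P.rel i)
    simpa [map_ev e.toMonoidHom] using this.trans (map_ev e.toMonoidHom x (σ i))
  gen := by
    have h := congrArg (Subgroup.map e.toMonoidHom) P.gen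
    rw [MonoidHom.map_closure, Subgroup.map_top_of_surjective _ e.surjective] at h
    rw [← h]; congr 1
    rw [Set.image_union, ← Set.range_comp, Set.image_singleton]; rfl
  univ K _ y s hs := by
    obtain ⟨f, hf, hf'⟩ := P.univ K y s hs
    exact ⟨f.comp e.symm.toMonoidHom, fun i => by simp [hf], by simp [hf']⟩

theorem wt_of_rel {G : Type} [Group G] {σ : Fin d → Wd d} {x : Fin d → G} {t : G}
    (rel : ∀ i, t * x i * t⁻¹ = ev x (σ i)) (β : Cl G) (i : Fin d) :
    wt (fun k => cv β (x k)) (σ i) = cv β (x i) := by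
  rw [← cv_ev, ← rel]; simp

/-! ### Words in the letters and `t` -/

section evT
variable {G : Type} [Group G]

/-- Words in the letters `x i` (`some i`) and `t` (`none`). -/
abbrev WT (d : ℕ) : Type := List (Option (Fin d) × Bool)

def evT (x : Fin d → G) (t : G) : WT d → G
  | [] => 1
  | (some i, true) :: w => x i * evT x t w
  | (some i, false) :: w => (x i)⁻¹ * evT x t w
  | (none, true) :: w => t * evT x t w
  | (none, false) :: w => t⁻¹ * evT x t w

def emb (w : Wd d) : WT d := w.map fun l => (some l.1, l.2)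

/-- The normal form `u * t ^ n` of a word; `σi` is the inverse substitution. -/
def nf (σ σi : Fin d → Wd d) : WT d → Wd d × ℤ
  | [] => ([], 0)
  | (some i, b) :: w => (red ((i, b) :: (nf σ σi w).1), (nf σ σi w).2)
  | (none, true) :: w => (red (sub σ (nf σ σi w).1), (nf σ σi w).2 + 1)
  | (none, false) :: w => (red (sub σi (nf σ σi w).1), (nf σ σi w).2 - 1)

theorem evT_append (x : Fin d → G) (t : G) (u w : WT d) :
    evT x t (u ++ w) = evT x t u * evT x t w := by
  induction u with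
  | nil => simp [evT]
  | cons l u ih => rcases l with ⟨_ | i, _ | _⟩ <;> simp [evT, ih, mul_assoc]

theorem evT_emb (x : Fin d → G) (t : G) (w : Wd d) : evT x t (emb w) = ev x w := by
  induction w with
  | nil => rfl
  | cons l w ih =>
    rcases l with ⟨i, _ | _⟩ <;> simp only [emb, List.map_cons, evT, ev_true, ev_false] <;>
      rw [← ih] <;> rfl

theorem conj_ev_of_rel {σ : Fin d → Wd d} {x : Fin d → G} {t : G}
    (rel : ∀ i, t * x i * t⁻¹ = ev x (σ i)) (w : Wd d) : t * ev x w * t⁻¹ = ev x (sub σ w) := by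
  rw [conj_ev, ev_sub]; simp [rel]

theorem rel_inv {σ σi : Fin d → Wd d} {x : Fin d → G} {t : G}
    (rel : ∀ i, t * x i * t⁻¹ = ev x (σ i)) (h : ∀ i, red (sub σ (σi i)) = [(i, true)]) (i : Fin d) :
    t⁻¹ * x i * t⁻¹⁻¹ = ev x (σi i) := by
  have h1 := conj_ev_of_rel rel (σi i)
  rw [← ev_red x (sub σ (σi i)), h i] at h1
  simp only [ev_true, ev_nil, mul_one] at h1
  rw [← h1]; group

theorem evT_nf {σ σi : Fin d → Wd d} {x : Fin d → G} {t : G}
    (rel : ∀ i, t * x i * t⁻¹ = ev x (σ i)) (h : ∀ i, red (sub σ (σi i)) = [(i, true)])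
    (w : WT d) : evT x t w = ev x (nf σ σi w).1 * t ^ (nf σ σi w).2 := by
  induction w with
  | nil => simp [evT, nf]
  | cons l w ih =>
    rcases l with ⟨_ | i, _ | _⟩
    · simp only [evT, nf, ev_red, ih]
      rw [← conj_ev_of_rel (rel_inv rel h)]; group
    · simp only [evT, nf, ev_red, ih]
      rw [← conj_ev_of_rel rel]; group
    · simp only [evT, nf, ev_red, ih, ev_false, mul_assoc]
    · simp only [evT, nf, ev_red, ih, ev_true, mul_assoc]

/-- The word problem: two words with the same normal form have the same value. -/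
theorem evT_eq {σ σi : Fin d → Wd d} {x : Fin d → G} {t : G}
    (rel : ∀ i, t * x i * t⁻¹ = ev x (σ i)) (h : ∀ i, red (sub σ (σi i)) = [(i, true)])
    {u w : WT d} (huw : nf σ σi u = nf σ σi w) : evT x t u = evT x t w := by
  rw [evT_nf rel h, evT_nf rel h, huw]

end evT

/-! ### Weighted transition matrix -/

/-- The weighted sum of `v` along a word starting at height `s`. -/
noncomputable def SS (a v : Fin d → ℝ) : Wd d → ℝ → ℝ
  | [], _ => 0
  | (i, true) :: w, s => Real.exp s * v i + SS a v w (s + a i)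
  | (i, false) :: w, s => Real.exp (s - a i) * v i + SS a v w (s - a i)

/-- The weighted transition matrix at the class `(a, b)` has spectral radius `< 1`. -/
def Sup (σ : Fin d → Wd d) (a : Fin d → ℝ) (b : ℝ) : Prop :=
  ∃ v : Fin d → ℝ, (∀ i, 0 < v i) ∧ ∀ i, SS a v (σ i) (-b) < v i

noncomputable def Mat (σ : Fin d → Wd d) (a : Fin d → ℝ) (b : ℝ) : Matrix (Fin d) (Fin d) ℝ :=
  Matrix.of fun i k => SS a (fun j => if j = k then 1 else 0) (σ i) (-b)

noncomputable def Fd (σ : Fin d → Wd d) (a : Fin d → ℝ) (b : ℝ) : ℝ := (1 - Mat σ a b).det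

theorem SS_eq_sum (a v : Fin d → ℝ) (w : Wd d) (s : ℝ) :
    SS a v w s = ∑ k, SS a (fun j => if j = k then 1 else 0) w s * v k := by
  induction w generalizing s with
  | nil => simp [SS]
  | cons l w ih =>
    rcases l with ⟨i, _ | _⟩ <;>
      simp only [SS, add_mul, Finset.sum_add_distrib, ih] <;> simp

theorem Mat_mulVec (σ : Fin d → Wd d) (a : Fin d → ℝ) (b : ℝ) (v : Fin d → ℝ) (i : Fin d) :
    (Mat σ a b).mulVec v i = SS a v (σ i) (-b) := by
  rw [SS_eq_sum]; rfl

theorem SS_nonneg (a : Fin d → ℝ) {v : Fin d → ℝ} (hv : ∀ i, 0 ≤ v i) (w : Wd d) (s : ℝ) :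
    0 ≤ SS a v w s := by
  induction w generalizing s with
  | nil => simp [SS]
  | cons l w ih =>
    rcases l with ⟨i, _ | _⟩ <;> simp only [SS] <;>
      exact add_nonneg (mul_nonneg (Real.exp_pos _).le (hv i)) (ih _)

/-- Every letter `k` of the word, read at height `h`, satisfies `h + θ k ≤ c`. -/
def Pot (a θ : Fin d → ℝ) (c : ℝ) : Wd d → ℝ → Prop
  | [], _ => True
  | (i, true) :: w, s => s + θ i ≤ c ∧ Pot a θ c w (s + a i)
  | (i, false) :: w, s => s - a i + θ i ≤ c ∧ Pot a θ c w (s - a i)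

/-- Straightness of a word (`true` stands for the sign `-1`). -/
def Str (ε η : Fin d → Bool) : Wd d → Bool → Bool
  | [], _ => true
  | (i, true) :: w, s => (s == η i) && Str ε η w (xor s (ε i))
  | (i, false) :: w, s => (xor s (ε i) != η i) && Str ε η w (xor s (ε i))

def par (ε : Fin d → Bool) (w : Wd d) : Bool := (w.map fun l => ε l.1).foldr xor false

def Straight (σ : Fin d → Wd d) (ε η : Fin d → Bool) (εt : Bool) : Prop :=
  ∀ i, Str ε η (σ i) (xor εt (η i)) = true ∧ par ε (σ i) = ε i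

/-! ### Fox calculus and the Alexander matrix -/

/-- The value on a word of the crossed homomorphism with values `u i` on the letters, for the
character with values `c i` (inverses `ci i`). -/
def fx {R M : Type} [CommRing R] [AddCommGroup M] [Module R M] (c ci : Fin d → R)
    (u : Fin d → M) : Wd d → M
  | [] => 0
  | (i, true) :: w => u i + c i • fx c ci u w
  | (i, false) :: w => ci i • (fx c ci u w - u i)

/-- The matrix `y - Fox(σ)`. -/
def AlexM {R : Type} [CommRing R] (σ : Fin d → Wd d) (c ci : Fin d → R) (y : R) :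
    Matrix (Fin d) (Fin d) R :=
  Matrix.of fun i k =>
    (if i = k then y else 0) - fx c ci (fun j => if j = k then (1 : R) else 0) (σ i)

abbrev LR : Type := LaurentPolynomial ℚ

/-- The Alexander matrix of the integral class `(a, b)`. -/
noncomputable def Alex (σ : Fin d → Wd d) (a : Fin d → ℤ) (b : ℤ) : Matrix (Fin d) (Fin d) LR :=
  AlexM σ (fun i => LaurentPolynomial.T (a i)) (fun i => LaurentPolynomial.T (-a i))
    (LaurentPolynomial.T b)

/-- Two-sided sequences of rationals, a module over the Laurent polynomials by shifts. -/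
def Sq : Type := ℤ → ℚ

instance : AddCommGroup Sq := inferInstanceAs (AddCommGroup (ℤ → ℚ))
instance : Module ℚ Sq := inferInstanceAs (Module ℚ (ℤ → ℚ))

theorem Sq.ext {u v : Sq} (h : ∀ n, u n = v n) : u = v := funext h
@[simp] theorem Sq.add_apply (u v : Sq) (n : ℤ) : (u + v) n = u n + v n := rfl
@[simp] theorem Sq.sub_apply (u v : Sq) (n : ℤ) : (u - v) n = u n - v n := rfl
@[simp] theorem Sq.neg_apply (u : Sq) (n : ℤ) : (-u) n = -u n := rfl
@[simp] theorem Sq.zero_apply (n : ℤ) : (0 : Sq) n = 0 := rfl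
@[simp] theorem Sq.smul_apply (q : ℚ) (u : Sq) (n : ℤ) : (q • u) n = q * u n := rfl

def shift (j : ℤ) : Module.End ℚ Sq where
  toFun u := fun n => u (n + j)
  map_add' _ _ := rfl
  map_smul' _ _ := rfl

def shiftHom : Multiplicative ℤ →* Module.End ℚ Sq where
  toFun j := shift (Multiplicative.toAdd j)
  map_one' := by
    refine LinearMap.ext fun u => Sq.ext fun n => ?_
    show u (n + 0) = u n
    rw [add_zero]
  map_mul' i j := by
    refine LinearMap.ext fun u => Sq.ext fun n => ?_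
    show u (n + (Multiplicative.toAdd i + Multiplicative.toAdd j)) =
      u (n + Multiplicative.toAdd i + Multiplicative.toAdd j)
    rw [add_assoc]

noncomputable def act : LR →ₐ[ℚ] Module.End ℚ Sq :=
  AddMonoidAlgebra.lift ℚ (Module.End ℚ Sq) ℤ shiftHom

noncomputable instance : Module LR Sq := Module.compHom Sq act.toRingHom

theorem Sq.smul_def (c : LR) (u : Sq) : c • u = act c u := rfl

@[simp] theorem Sq.T_smul (j : ℤ) (u : Sq) (n : ℤ) :
    ((LaurentPolynomial.T j : LR) • u) n = u (n + j) := by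
  rw [Sq.smul_def]
  have : act (LaurentPolynomial.T j) = shift j := by
    simp only [act, LaurentPolynomial.T]
    erw [AddMonoidAlgebra.lift_single]
    simp [shiftHom]
  rw [this]; rfl

instance : IsScalarTower ℚ LR Sq where
  smul_assoc q c u := by rw [Sq.smul_def, Sq.smul_def, map_smul]; rfl

section tors
variable {R : Type} (M : Type) [CommRing R] [Algebra ℚ R] [AddCommGroup M] [Module R M]
  [Module ℚ M] [IsScalarTower ℚ R M]

/-- The elements killed by `c`. -/
def tors (c : R) : Submodule ℚ M where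
  carrier := {u | c • u = 0}
  add_mem' := by intro u v hu hv; simp_all
  zero_mem' := by simp
  smul_mem' q u hu := by
    have hu' : c • u = 0 := hu
    show c • q • u = 0
    rw [smul_comm, hu', smul_zero]

/-- The kernel of a matrix acting on `M ^ d`. -/
def kerM (P : Matrix (Fin d) (Fin d) R) : Submodule ℚ (Fin d → M) where
  carrier := {u | ∀ i, ∑ k, P i k • u k = 0}
  add_mem' := by
    intro u v hu hv i
    simp only [Pi.add_apply, smul_add, Finset.sum_add_distrib, hu i, hv i, add_zero]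
  zero_mem' := by simp
  smul_mem' q u hu i := by
    simp only [Pi.smul_apply]
    rw [Finset.sum_congr rfl fun k _ => smul_comm (P i k) q (u k), ← Finset.smul_sum, hu i,
      smul_zero]

end tors

/-- The width (top exponent minus bottom exponent) of a Laurent polynomial, as a dimension. -/
noncomputable def wd (c : LR) : ℕ := Module.finrank ℚ (tors Sq c)

/-- The Laurent polynomial with the listed (coefficient, exponent) pairs. -/
noncomputable def LP (l : List (ℤ × ℤ)) : LR :=
  (l.map fun p => (p.1 : LR) * LaurentPolynomial.T p.2).sum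

/-! ### Model data -/

variable {m nf' : ℕ}

def lin (c : Fin m → ℤ) (ξ : Fin m → ℝ) : ℝ := ∑ j, (c j : ℝ) * ξ j

def linZ (c n : Fin m → ℤ) : ℤ := ∑ j, c j * n j

def cst (n : Fin m → ℤ) : Fin m → ℝ := fun j => n j

theorem lin_cst (c n : Fin m → ℤ) : lin c (cst n) = linZ c n := by simp [lin, linZ, cst]
theorem lin_add (c : Fin m → ℤ) (ξ η : Fin m → ℝ) : lin c (ξ + η) = lin c ξ + lin c η := by
  simp [lin, mul_add, Finset.sum_add_distrib]
theorem lin_smul (c : Fin m → ℤ) (s : ℝ) (ξ : Fin m → ℝ) : lin c (s • ξ) = s * lin c ξ := by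
  simp [lin, Finset.mul_sum, mul_left_comm]
theorem continuous_lin (c : Fin m → ℤ) : Continuous (lin c) := by unfold lin; fun_prop

/-- An exponential polynomial. -/
noncomputable def EP (l : List (ℤ × (Fin m → ℤ))) (ξ : Fin m → ℝ) : ℝ :=
  (l.map fun p => (p.1 : ℝ) * Real.exp (lin p.2 ξ)).sum

/-- Its derivative in the direction `δ`. -/
noncomputable def EPd (l : List (ℤ × (Fin m → ℤ))) (ξ δ : Fin m → ℝ) : ℝ :=
  (l.map fun p => (p.1 : ℝ) * lin p.2 δ * Real.exp (lin p.2 ξ)).sum

/-- Data of a mapping torus: substitution, coordinates on cohomology, facets of the fibered cone,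
the norm and the base class. -/
structure MD (d m f : ℕ) where
  σ : Fin d → Wd d
  pa : Fin d → Fin m → ℤ
  pb : Fin m → ℤ
  fa : Fin f → Fin m → ℤ
  xn : Fin m → ℤ
  om : Fin m → ℤ

namespace MD
variable {f : ℕ} (M : MD d m f)

def a (ξ : Fin m → ℝ) : Fin d → ℝ := fun i => lin (M.pa i) ξ
def b (ξ : Fin m → ℝ) : ℝ := lin M.pb ξ
def C : Set (Fin m → ℝ) := {ξ | ∀ k, 0 < lin (M.fa k) ξ}
def Cb : Set (Fin m → ℝ) := {ξ | ∀ k, 0 ≤ lin (M.fa k) ξ}
def R : Set (Fin m → ℝ) := {ξ | Sup M.σ (M.a ξ) (M.b ξ)}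
noncomputable def F (ξ : Fin m → ℝ) : ℝ := Fd M.σ (M.a ξ) (M.b ξ)

/-- The class `β` has coordinates `n`. -/
def Has {G : Type} [Group G] (x : Fin d → G) (t : G) (β : Cl G) (n : Fin m → ℤ) : Prop :=
  (∀ i, cv β (x i) = linZ (M.pa i) n) ∧ cv β t = linZ M.pb n

/-- The elementary properties of the data. -/
structure Good : Prop where
  cls : ∀ i j, wt (fun k => M.pa k j) (M.σ i) = M.pa i j
  par : ∀ (a : Fin d → ℤ) (b : ℤ), (∀ i, wt a (M.σ i) = a i) →
    ∃ n, (∀ i, a i = linZ (M.pa i) n) ∧ b = linZ M.pb n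
  inj : ∀ n, (∀ i, linZ (M.pa i) n = 0) → linZ M.pb n = 0 → n = 0
  om_a : ∀ i, linZ (M.pa i) M.om = 0
  om_b : linZ M.pb M.om = 1
  om_f : ∀ k, 0 < linZ (M.fa k) M.om
  bf : ∃ k, M.fa k = M.pb
  xpos : ∀ ξ ∈ M.C, 0 < lin M.xn ξ
  supC : M.R ⊆ M.C
  small : ∃ r : ℝ, 0 < r ∧ ∀ ξ ∈ M.R, r < M.b ξ
  pot : ∀ η ∈ M.Cb, ∃ θ : Fin d → ℝ, ∀ i, Pot (M.a η) θ (θ i) (M.σ i) (-M.b η)
  str : ∃ ε η εt, Straight M.σ ε η εt
  rev : ∃ r ri : Fin d → Wd d, (∀ i, red (sub r (ri i)) = [(i, true)]) ∧
    (∀ i, red (sub M.σ (sub r (M.σ i))) = red (r i)) ∧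
    ∀ i j, wt (fun k => M.pa k j) (r i) = -M.pa i j

/-- The Alexander determinant computes the norm. -/
def RankOK : Prop :=
  ∀ n : Fin m → ℤ, cst n ∈ M.C →
    (Alex M.σ (fun i => linZ (M.pa i) n) (linZ M.pb n)).det ≠ 0 ∧
      (wd (Alex M.σ (fun i => linZ (M.pa i) n) (linZ M.pb n)).det : ℤ) =
        linZ M.pb n + linZ M.xn n

/-- No point of the level set on a rational ray is critical for the norm. -/
def LagOK : Prop :=
  ∃ Θ : List (ℤ × (Fin m → ℤ)), (∀ ξ ∈ M.C, M.F ξ = 0 ↔ EP Θ ξ = 0) ∧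
    ∀ (n : Fin m → ℤ) (s : ℝ), cst n ∈ M.C → 0 < s → EP Θ (s • cst n) = 0 →
      ∃ δ : Fin m → ℝ, lin M.xn δ = 0 ∧ EPd Θ (s • cst n) δ ≠ 0

end MD

/-! ### Linear involutions -/

section orb
variable (lo hi ε c : Lt d → ℝ)

/-- A pseudo-orbit from `p` to `q` along a word with total jump at most `r`. -/
def Path : Wd d → ℝ → ℝ → ℝ → Prop
  | [], p, q, r => |q - p| ≤ r
  | l :: w, p, q, r => ∃ p', lo l ≤ p' ∧ p' ≤ hi l ∧ Path w (ε l * p' + c l) q (r - |p' - p|)

/-- An exact orbit from `p` to `q` along a word. -/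
def Orb : Wd d → ℝ → ℝ → Prop
  | [], p, q => q = p
  | l :: w, p, q => lo l ≤ p ∧ p ≤ hi l ∧ Orb w (ε l * p + c l) q

end orb

/-- Every nontrivial periodic conjugacy class is the class of a power of a word `bd k`. -/
def Per {nb : ℕ} (σ : Fin d → Wd d) (bd : Fin nb → Wd d) : Prop :=
  ∀ (y : FreeGroup (Fin d)) (m : ℕ), 0 < m → y ≠ 1 → IsConj ((hom σ)^[m] y) y →
    ∃ (k : Fin nb) (j : ℤ), IsConj y (FreeGroup.mk (bd k) ^ j)

/-- `(a, b)` stands for `a + b μ`, where `μ ^ 2 = tr μ - 1` and `m ≤ N μ ≤ m + 1`. -/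
abbrev P2 : Type := ℤ × ℤ

def val (μ : ℝ) (z : P2) : ℝ := z.1 + z.2 * μ

structure LI (d nb : ℕ) where
  tr : ℤ
  N : ℤ
  m : ℤ
  B : ℤ
  side : Lt d → Bool
  lo : Lt d → P2
  hi : Lt d → P2
  c : Lt d → P2
  bd : Fin nb → Wd d
  Z : List (Lt d × P2 × Fin nb × Wd d)
  E : List (Lt d × P2)

def sg (b : Bool) : ℤ := if b then 1 else -1

namespace LI
variable {nb : ℕ} (L : LI d nb)

def cj (z : P2) : P2 := (z.1 + L.tr * z.2, -z.2)
def mul (z : P2) : P2 := (-z.2, z.1 + L.tr * z.2)
def nn (z : P2) : Bool := decide (0 ≤ z.1 * L.N + z.2 * L.m) && decide (0 ≤ z.1 * L.N + z.2 * (L.m + 1))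
def pos (z : P2) : Bool := decide (0 < z.1 * L.N + z.2 * L.m) && decide (0 < z.1 * L.N + z.2 * (L.m + 1))
def eps (l : Lt d) : ℤ := if L.side l = L.side (linv l) then -1 else 1
def T (l : Lt d) (z : P2) : P2 := (L.eps l * z.1 + (L.c l).1, L.eps l * z.2 + (L.c l).2)
def inI (l : Lt d) (z : P2) : Bool := L.nn (z - L.lo l) && L.nn (L.hi l - z)
def out (l : Lt d) (z : P2) : Bool := L.pos (L.lo l - z) || L.pos (z - L.hi l)
def orb : Wd d → P2 → P2 → Bool
  | [], z, z' => decide (z' = z)
  | l :: w, z, z' => L.inI l z && orb w (L.T l z) z'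
def big (l : Lt d) (z : P2) : Bool := L.pos ((-sg (L.side l)) • L.cj z - (L.B, 0))
def Zs : List (Lt d × P2) := L.Z.map fun p => (p.1, p.2.1)

/-- The finite checks. -/
structure OK (σ : Fin d → Wd d) : Prop where
  hN : 0 < L.N
  ne : ∀ l, L.nn (L.hi l - L.lo l) = true
  inv : ∀ l, L.eps l • L.c l + L.c (linv l) = 0
  img : ∀ l, L.inI (linv l) (L.T l (L.lo l)) = true ∧ L.inI (linv l) (L.T l (L.hi l)) = true
  scale : ∀ l, L.orb (sub σ [l]) (L.mul (L.lo l)) (L.mul (L.T l (L.lo l))) = true ∧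
    L.orb (sub σ [l]) (L.mul (L.hi l)) (L.mul (L.T l (L.hi l))) = true
  ht : ∀ l, L.pos (L.cj (sg (L.side (linv l)) • L.c l)) = true
  turn : ∀ l l', l' ≠ linv l → L.side l' = L.side (linv l) →
    L.pos (L.lo l' - L.hi (linv l)) = true ∨ L.pos (L.lo (linv l) - L.hi l') = true ∨
      (L.hi (linv l) = L.lo l' ∧ (l', L.lo l') ∈ L.Zs) ∨
      (L.hi l' = L.lo (linv l) ∧ (l', L.hi l') ∈ L.Zs)
  zb : ∀ p ∈ L.Zs, L.nn ((L.B, 0) - L.cj p.2) = true ∧ L.nn ((L.B, 0) + L.cj p.2) = true
  ez : ∀ p ∈ L.E, p ∉ L.Zs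
  nd : L.Zs.Nodup
  zs : ∀ p ∈ L.Z, ∀ l', l' ≠ linv p.1 → L.out l' (L.T p.1 p.2.1) = true ∨
    (∃ p' ∈ L.Z, p'.1 = l' ∧ p'.2.1 = L.T p.1 p.2.1 ∧ p'.2.2.1 = p.2.2.1 ∧
      red (p.2.2.2 ++ p.1 :: winv p'.2.2.2) ∈ [[], L.bd p.2.2.1, winv (L.bd p.2.2.1)]) ∨
    (l', L.T p.1 p.2.1) ∈ L.E ∨ L.big l' (L.T p.1 p.2.1) = true
  es : ∀ p ∈ L.E, ∀ l', l' ≠ linv p.1 → L.out l' (L.T p.1 p.2) = true ∨
    (l', L.T p.1 p.2) ∈ L.E ∨ L.big l' (L.T p.1 p.2) = true

/-- The real number `μ` fits the data. -/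
structure Mu (μ : ℝ) : Prop where
  sq : μ ^ 2 = L.tr * μ - 1
  pos : 0 < μ
  lt : μ < 1
  lb : (L.m : ℝ) ≤ L.N * μ
  ub : (L.N : ℝ) * μ ≤ L.m + 1

/-- The exact orbits of the real linear involution. -/
def ROrb (μ : ℝ) : Wd d → ℝ → ℝ → Prop :=
  Orb (fun l => val μ (L.lo l)) (fun l => val μ (L.hi l)) (fun l => L.eps l)
    (fun l => val μ (L.c l))

end LI

/-! ### Cusps -/

/-- Finite checks on the cusp data: `bd k` is fixed by `su k * t ^ sp k`. -/
structure Cusps {nb : ℕ} (σ σi : Fin d → Wd d) (bd su : Fin nb → Wd d) (sp : Fin nb → ℕ) :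
    Prop where
  inv1 : ∀ i, red (sub σ (σi i)) = [(i, true)]
  inv2 : ∀ i, red (sub σi (σ i)) = [(i, true)]
  per : ∀ k, sp k = 1 ∨ (sp k = 2 ∧ ∃ i, ab i (sub σ (bd k)) ≠ ab i (bd k))
  com : ∀ k, red (su k ++ (sub σ)^[sp k] (bd k) ++ winv (su k)) = red (bd k)
  prim : ∀ k, ∃ i, ab i (bd k) = 1 ∨ ab i (bd k) = -1

/-- `u` is conjugate into the cusp group generated by `c` and `s`, on which `α` is not trivial;
stated through its consequence. -/
def Cusp {G : Type} [Group G] (α : Cl G) (c s u : G) : Prop :=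
  Commute c s ∧ ∀ i j : ℤ, IsCoprime i j → α (c ^ i * s ^ j) = 1 →
    ∃ k : ℤ, IsConj u ((c ^ i * s ^ j) ^ k)

/-! ### Bases -/

section bas
variable {K : Type} [Group K]

/-- The list `l` is a free basis of `K`. -/
structure Bas (l : List K) : Prop where
  gen : Subgroup.closure {g | g ∈ l} = ⊤
  univ : ∀ (H : Type) [Group H] (l' : List H), l'.length = l.length → ∃ f : K →* H, l.map f = l'

/-- The subgroup generated by a list. -/
abbrev Gen (l : List K) : Subgroup K := Subgroup.closure {g | g ∈ l}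

/-- The product of the commutators. -/
def comm (as bs : List K) : K := (List.zipWith (fun a b => a * b * a⁻¹ * b⁻¹) as bs).prod

/-- The product of the entries at even positions. -/
def evs : List K → K
  | [] => 1
  | [x] => x
  | x :: _ :: l => x * evs l

/-- The product of the entries at odd positions. -/
def ods (l : List K) : K := evs l.tail

/-- `PP W γ (j + 2) = γ j * γ (j - 2) * ⋯`, ending with `γ 0 * W` or with `γ 1`. -/
def PP (W : K) (γ : ℕ → K) : ℕ → K
  | 0 => W
  | 1 => 1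
  | j + 2 => γ j * PP W γ j

/-- `DD γ j = γ (j - 1) * ⋯ * γ 0`. -/
def DD (γ : ℕ → K) : ℕ → K
  | 0 => 1
  | j + 1 => γ j * DD γ j

/-- `D` represents the puncture classes of an identification of `K` with `Pi1 g n`. -/
def Sys (g n : ℕ) (D : List K) : Prop :=
  ∃ e : K ≃* Pi1 g n, (∀ c ∈ Bd g n, ∃ x ∈ D, IsConj (e x) c) ∧
    ∀ x ∈ D, ∃ c ∈ Bd g n, IsConj (e x) c

/-- The stable letter of the mapping torus. -/
def tt (ψ : MulAut K) : Torus ψ := SemidirectProduct.inr (Multiplicative.ofAdd 1)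

/-- The inclusion of the fiber group. -/
abbrev il (ψ : MulAut K) : K →* Torus ψ := SemidirectProduct.inl

/-- The class of the fiber. -/
abbrev rh (ψ : MulAut K) : Cl (Torus ψ) := SemidirectProduct.rightHom

/-- The algebraic atoroidality of the mapping torus relative to `D`. -/
def Ator (ψ : MulAut K) (D : List K) : Prop :=
  ∀ u v : Torus ψ, Commute u v → rh ψ u = 1 → rh ψ v ≠ 1 → u ≠ 1 →
    ∃ x ∈ D, ∃ k : ℤ, IsConj u (il ψ x ^ k)

/-- The part of the monodromy common to both families. -/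
structure Tw (ψ : MulAut K) (q : ℕ) (Y W : K) (γ : ℕ → K) : Prop where
  hY : ψ Y = γ 0 * W * Y
  hγ : ∀ j < q, ψ (γ j) = γ (j + 1)
  hq : ψ (γ q) = Y⁻¹ * (γ 0 * W)⁻¹ * (ψ W)⁻¹ * Y

/-- The boundary classes of the twisted cusp: two for `q` even, one for `q` odd. -/
def UU (q : ℕ) (Y W : K) (γ : ℕ → K) : List K :=
  if q % 2 = 0 then [Y * PP W γ (q + 1), Y * PP W γ (q + 2)]
  else [Y * PP W γ (q + 2) * (Y * PP W γ (q + 1))]

end bas

end Pool.Agent.Lib.MP_14f458_gt
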