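import Pool.Agent.Lib.MP_14f458_gt.Dat

/-! Finite checks of the data. -/

namespace Pool.Agent.Lib.MP_14f458_gt

set_option synthInstance.maxSize 1024 in
theorem liB_ok : liB.OK sigB where
  hN := by decide
  ne := by decide +kernel
  inv := by decide +kernel
  img := by decide +kernel
  scale := by decide +kernel
  ht := by decide +kernel
  turn := by decide +kernel
  zb := by decide +kernel
  ez := by decide +kernel
  nd := by decide +kernel
  zs := by decide +kernel
  es := by decide +kernel

set_option synthInstance.maxSize 1024 in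
theorem liC_ok : liC.OK sigC where
  hN := by decide
  ne := by decide +kernel
  inv := by decide +kernel
  img := by decide +kernel
  scale := by decide +kernel
  ht := by decide +kernel
  turn := by decide +kernel
  zb := by decide +kernel
  ez := by decide +kernel
  nd := by decide +kernel
  zs := by decide +kernel
  es := by decide +kernel

theorem liB_mu : liB.Mu ((5 - Real.sqrt 21) / 2) := by
  have h : Real.sqrt 21 ^ 2 = 21 := Real.sq_sqrt (by norm_num)
  have h0 : 0 ≤ Real.sqrt 21 := Real.sqrt_nonneg _
  have h1 : (4.582 : ℝ) < Real.sqrt 21 := Real.lt_sqrt_of_sq_lt (by norm_num)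
  have h2 : Real.sqrt 21 < (4.583 : ℝ) := (Real.sqrt_lt' (by norm_num)).2 (by norm_num)
  refine ⟨?_, ?_, ?_, ?_, ?_⟩ <;> (try simp only [liB]) <;> (try push_cast) <;> nlinarith

theorem liC_mu : liC.Mu (5 - Real.sqrt 24) := by
  have h : Real.sqrt 24 ^ 2 = 24 := Real.sq_sqrt (by norm_num)
  have h0 : 0 ≤ Real.sqrt 24 := Real.sqrt_nonneg _
  have h1 : (4.8989 : ℝ) < Real.sqrt 24 := Real.lt_sqrt_of_sq_lt (by norm_num)
  have h2 : Real.sqrt 24 < (4.899 : ℝ) := (Real.sqrt_lt' (by norm_num)).2 (by norm_num)
  refine ⟨?_, ?_, ?_, ?_, ?_⟩ <;> (try simp only [liC]) <;> (try push_cast) <;> nlinarith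

theorem cuspsB : Cusps sigB sigBi bdB suB spB where
  inv1 := by decide +kernel
  inv2 := by decide +kernel
  per := by decide +kernel
  com := by decide +kernel
  prim := by decide +kernel

theorem cuspsC : Cusps sigC sigCi bdC suC spC where
  inv1 := by decide +kernel
  inv2 := by decide +kernel
  per := by decide +kernel
  com := by decide +kernel
  prim := by decide +kernel

theorem phiB_inv1 : ∀ i, red (sub phiB (phiBi i)) = [(i, true)] := by decide +kernel
theorem phiB_inv2 : ∀ i, red (sub phiBi (phiB i)) = [(i, true)] := by decide +kernel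
theorem phiC_inv1 : ∀ i, red (sub phiC (phiCi i)) = [(i, true)] := by decide +kernel
theorem phiC_inv2 : ∀ i, red (sub phiCi (phiC i)) = [(i, true)] := by decide +kernel

/-- Finite checks for a change of generators `x = xw(y)`, `y = yw(x)`, `τ = u(x) t`. -/
structure Chg {d : ℕ} (σ φ xw yw : Fin d → Wd d) (u : Wd d) : Prop where
  xy : ∀ i, red (sub xw (yw i)) = [(i, true)]
  yx : ∀ i, red (sub yw (xw i)) = [(i, true)]
  r1 : ∀ i, red (sub φ (xw i)) = red (sub xw (u ++ σ i ++ winv u))
  r2 : ∀ i, red (u ++ sub σ (yw i) ++ winv u) = red (sub yw (φ i))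

theorem chgB : Chg sigB phiB xwB ywB [] :=
  ⟨by decide +kernel, by decide +kernel, by decide +kernel, by decide +kernel⟩

theorem chgC : Chg sigC phiC xwC ywC uC :=
  ⟨by decide +kernel, by decide +kernel, by decide +kernel, by decide +kernel⟩

theorem strB : Straight sigB ![false, false, false, false] ![false, false, false, false] false := by
  unfold Straight; decide +kernel

theorem strC : Straight sigC ![true, true, true, false] ![false, false, true, true] false := by
  unfold Straight; decide +kernel

theorem revB : (∀ i, red (sub rB (rB i)) = [(i, true)]) ∧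
    (∀ i, red (sub mdB.σ (sub rB (mdB.σ i))) = red (rB i)) ∧
    ∀ i j, wt (fun k => mdB.pa k j) (rB i) = -mdB.pa i j := by decide +kernel

theorem revC : (∀ i, red (sub rC (rC i)) = [(i, true)]) ∧
    (∀ i, red (sub mdC.σ (sub rC (mdC.σ i))) = red (rC i)) ∧
    ∀ i j, wt (fun k => mdC.pa k j) (rC i) = -mdC.pa i j := by decide +kernel

theorem clsB : ∀ i j, wt (fun k => mdB.pa k j) (mdB.σ i) = mdB.pa i j := by decide +kernel

theorem clsC : ∀ i j, wt (fun k => mdC.pa k j) (mdC.σ i) = mdC.pa i j := by decide +kernel

end Pool.Agent.Lib.MP_14f458_gt
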