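import Pool.Agent.Lib.MP_14f458_gt.Small

namespace Pool.Agent.Lib.MP_14f458_gt

variable {d nb : ℕ}

namespace LI
variable (L : LI d nb) (μ : ℝ)

/-- The position `p` lies in the interval of the letter `l`. -/
def RI (l : Lt d) (p : ℝ) : Prop := val μ (L.lo l) ≤ p ∧ p ≤ val μ (L.hi l)

/-- The real map of the letter `l`. -/
def RT (l : Lt d) (p : ℝ) : ℝ := L.eps l * p + val μ (L.c l)

/-- A reduced chain of states from `(l, p)` through the letters of the word to `(l', q)`. -/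
def Ch (l' : Lt d) (q : ℝ) : Lt d → ℝ → Wd d → Prop
  | l, p, [] => L.RI μ l p ∧ l' ≠ linv l ∧ q = L.RT μ l p
  | l, p, l1 :: w => L.RI μ l p ∧ l1 ≠ linv l ∧ Ch l' q l1 (L.RT μ l p) w

/-- The invariant along an orbit starting at a singular point. -/
def St (k : Fin nb) (g : FreeGroup (Fin d)) (l : Lt d) (z : P2) : Prop :=
  (∃ u, (l, z, k, u) ∈ L.Z ∧
    g * (FreeGroup.mk u)⁻¹ ∈ Subgroup.zpowers (FreeGroup.mk (L.bd k))) ∨
  (l, z) ∈ L.E ∨ (L.B : ℝ) < -sg (L.side l) * val μ (L.cj z)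

variable {L μ} {σ : Fin d → Wd d}

theorem Ch.ri {l' l : Lt d} {q p : ℝ} {w : Wd d} (h : L.Ch μ l' q l p w) : L.RI μ l p := by
  cases w <;> exact h.1

theorem Ch.append {l' l1 : Lt d} {q z : ℝ} {v : Wd d} (hv : L.Ch μ l' q l1 z v) {u : Wd d} :
    ∀ {l : Lt d} {p : ℝ}, L.Ch μ l1 z l p u → L.Ch μ l' q l p (u ++ l1 :: v) := by
  induction u with
  | nil =>
    rintro l p ⟨h1, h2, rfl⟩
    exact ⟨h1, h2, hv⟩
  | cons l2 u ih =>
    rintro l p ⟨h1, h2, h3⟩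
    exact ⟨h1, h2, ih h3⟩

theorem li2_ne {a b : Lt d} (h : a.1 = b.1 → a.2 = b.2) : b ≠ linv a := by
  rintro rfl
  simp [linv] at h

theorem li2_ch {l' : Lt d} {q : ℝ} {w : Wd d} : ∀ {l : Lt d} {p : ℝ}, L.ROrb μ (l :: w) p q →
    FreeGroup.IsReduced (l :: w ++ [l']) → L.Ch μ l' q l p w := by
  induction w with
  | nil =>
    rintro l p ⟨h1, h2, h3⟩ hr
    exact ⟨⟨h1, h2⟩, li2_ne (List.isChain_cons_cons.1 hr).1, h3⟩
  | cons l1 w ih =>
    rintro l p ⟨h1, h2, h3⟩ hr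
    exact ⟨⟨h1, h2⟩, li2_ne (List.isChain_cons_cons.1 hr).1, ih h3 (List.isChain_cons_cons.1 hr).2⟩

theorem li2_inI (h : L.OK σ) (hμ : L.Mu μ) {l : Lt d} {z : P2} (hz : L.inI l z = true) :
    L.RI μ l (val μ z) := by
  rw [inI, Bool.and_eq_true] at hz
  have h1 := hμ.nn h.hN hz.1
  have h2 := hμ.nn h.hN hz.2
  rw [val_sub] at h1 h2
  exact ⟨by linarith, by linarith⟩

theorem li2_img (h : L.OK σ) (hμ : L.Mu μ) {l : Lt d} {p : ℝ} (hp : L.RI μ l p) :
    L.RI μ (linv l) (L.RT μ l p) := by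
  obtain ⟨h1, h2⟩ := li2_inI h hμ (h.img l).1
  obtain ⟨h3, h4⟩ := li2_inI h hμ (h.img l).2
  obtain ⟨h5, h6⟩ := hp
  rw [val_T] at h1 h2 h3 h4
  have he : L.eps l = 1 ∨ L.eps l = -1 := by unfold eps; split_ifs <;> simp
  rcases he with he | he <;> simp only [RI, RT, he] at * <;> push_cast at * <;>
    constructor <;> linarith

theorem li2_sg {l l' : Lt d} (hs : L.side l' ≠ L.side (linv l)) :
    -sg (L.side l') = sg (L.side (linv l)) ∧ sg (L.side (linv l)) * L.eps l = -sg (L.side l) := by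
  unfold eps
  revert hs
  cases L.side l' <;> cases L.side (linv l) <;> cases L.side l <;> simp [sg]

theorem li2_turn (h : L.OK σ) (hμ : L.Mu μ) {l l' : Lt d} {p : ℝ} (hp : L.RI μ l p)
    (hl : l' ≠ linv l) (hq : L.RI μ l' (L.RT μ l p)) (hs : L.side l' = L.side (linv l)) :
    ∃ z, (l', z) ∈ L.Zs ∧ val μ z = L.RT μ l p := by
  obtain ⟨h1, h2⟩ := li2_img h hμ hp
  obtain ⟨h3, h4⟩ := hq
  rcases h.turn l l' hl hs with h5 | h5 | ⟨h5, h6⟩ | ⟨h5, h6⟩
  · have := hμ.pos' h.hN h5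
    rw [val_sub] at this; linarith
  · have := hμ.pos' h.hN h5
    rw [val_sub] at this; linarith
  · rw [h5] at h2
    exact ⟨_, h6, le_antisymm h3 h2⟩
  · rw [← h5] at h1
    exact ⟨_, h6, le_antisymm h1 h4⟩

theorem li2_str {l l' : Lt d} (p : ℝ) (hs : L.side l' ≠ L.side (linv l)) :
    -(sg (L.side l') : ℝ) * L.RT μ l p =
      -(sg (L.side l) : ℝ) * p + val μ (sg (L.side (linv l)) • L.c l) := by
  obtain ⟨h1, h2⟩ := li2_sg hs
  have h1' : -(sg (L.side l') : ℝ) = sg (L.side (linv l)) := by exact_mod_cast h1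
  have h2' : (sg (L.side (linv l)) : ℝ) * L.eps l = -sg (L.side l) := by exact_mod_cast h2
  rw [h1', val_zsmul, RT, ← h2']; ring

/-- A chain is straight or passes through a singular point. -/
theorem li2_dich (h : L.OK σ) (hμ : L.Mu μ) {l' : Lt d} {q : ℝ} (hq : L.RI μ l' q) {w : Wd d} :
    ∀ {l : Lt d} {p : ℝ}, L.Ch μ l' q l p w →
      (∃ s : P2, 0 < val μ (L.cj s) ∧
        -(sg (L.side l') : ℝ) * q = -(sg (L.side l) : ℝ) * p + val μ s) ∨
      (∃ z, (l', z) ∈ L.Zs ∧ val μ z = q) ∨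
      ∃ u l1 v z, w = u ++ l1 :: v ∧ (l1, z) ∈ L.Zs ∧ L.Ch μ l1 (val μ z) l p u ∧
        L.Ch μ l' q l1 (val μ z) v := by
  induction w with
  | nil =>
    rintro l p ⟨h1, h2, rfl⟩
    by_cases hs : L.side l' = L.side (linv l)
    · exact Or.inr (Or.inl (li2_turn h hμ h1 h2 hq hs))
    · exact Or.inl ⟨_, hμ.pos' h.hN (h.ht l), li2_str p hs⟩
  | cons l1 w ih =>
    rintro l p ⟨h1, h2, h3⟩
    by_cases hs : L.side l1 = L.side (linv l)
    · obtain ⟨z, hz, hz'⟩ := li2_turn h hμ h1 h2 h3.ri hs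
      exact Or.inr (Or.inr ⟨[], l1, w, z, rfl, hz, ⟨h1, h2, hz'⟩, by rw [hz']; exact h3⟩)
    · rcases ih h3 with ⟨s, hs1, hs2⟩ | h4 | ⟨u, l2, v, z, rfl, h4, h5, h6⟩
      · refine Or.inl ⟨sg (L.side (linv l)) • L.c l + s, ?_, ?_⟩
        · rw [cj_add, val_add]
          exact add_pos (hμ.pos' h.hN (h.ht l)) hs1
        · rw [hs2, li2_str p hs, val_add]; ring
      · exact Or.inr (Or.inl h4)
      · exact Or.inr (Or.inr ⟨l1 :: u, l2, v, z, rfl, h4, ⟨h1, h2, h5⟩, h6⟩)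

theorem li2_zb (h : L.OK σ) (hμ : L.Mu μ) {l : Lt d} {z : P2} (hz : (l, z) ∈ L.Zs) (b : Bool) :
    (sg b : ℝ) * val μ (L.cj z) ≤ L.B ∧ -(sg b : ℝ) * val μ (L.cj z) ≤ L.B := by
  have h1 := hμ.nn h.hN (h.zb _ hz).1
  have h2 := hμ.nn h.hN (h.zb _ hz).2
  rw [val_sub, val_int] at h1
  rw [val_add, val_int] at h2
  cases b <;> simp only [sg] <;> push_cast <;> constructor <;> linarith

theorem li2_out (h : L.OK σ) (hμ : L.Mu μ) {l : Lt d} {z : P2} (hz : L.out l z = true) :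
    ¬L.RI μ l (val μ z) := by
  rintro ⟨h1, h2⟩
  rw [out, Bool.or_eq_true] at hz
  rcases hz with hz | hz <;> have := hμ.pos' h.hN hz <;> rw [val_sub] at this <;> linarith

theorem li2_big (h : L.OK σ) (hμ : L.Mu μ) {l : Lt d} {z : P2} (hz : L.big l z = true) :
    (L.B : ℝ) < -sg (L.side l) * val μ (L.cj z) := by
  have := hμ.pos' h.hN hz
  rw [val_sub, val_zsmul, val_int] at this
  push_cast at this
  linarith

theorem li2_step (h : L.OK σ) (hμ : L.Mu μ) {k : Fin nb} {g : FreeGroup (Fin d)} {l l' : Lt d}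
    {z : P2} (hs : L.St μ k g l z) (hp : L.RI μ l (val μ z)) (hl : l' ≠ linv l)
    (hq : L.RI μ l' (L.RT μ l (val μ z))) : L.St μ k (g * FreeGroup.mk [l]) l' (L.T l z) := by
  have hT : val μ (L.T l z) = L.RT μ l (val μ z) := val_T l z
  rcases hs with ⟨u, hu, hg⟩ | hs | hs
  · rcases h.zs _ hu l' hl with h1 | ⟨⟨l2, z2, k2, u2⟩, h1, h2, h3, h4, h5⟩ | h1 | h1
    · exact absurd (hT ▸ hq) (li2_out h hμ h1)
    · dsimp only at h2 h3 h4 h5
      subst h2 h3 h4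
      refine Or.inl ⟨u2, h1, ?_⟩
      have e : FreeGroup.mk (red (u ++ l :: winv u2)) =
          FreeGroup.mk u * FreeGroup.mk [l] * (FreeGroup.mk u2)⁻¹ := by
        rw [mk_red, ← mk_winv, FreeGroup.mul_mk, FreeGroup.mul_mk]; simp
      have hm : FreeGroup.mk u * FreeGroup.mk [l] * (FreeGroup.mk u2)⁻¹ ∈
          Subgroup.zpowers (FreeGroup.mk (L.bd k2)) := by
        rw [← e]
        simp only [List.mem_cons, List.not_mem_nil, or_false] at h5
        rcases h5 with h5 | h5 | h5 <;> rw [h5]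
        · exact one_mem _
        · exact Subgroup.mem_zpowers _
        · rw [mk_winv]; exact inv_mem (Subgroup.mem_zpowers _)
      have := mul_mem hg hm
      convert this using 1
      group
    · exact Or.inr (Or.inl h1)
    · exact Or.inr (Or.inr (li2_big h hμ h1))
  · rcases h.es _ hs l' hl with h1 | h1 | h1
    · exact absurd (hT ▸ hq) (li2_out h hμ h1)
    · exact Or.inr (Or.inl h1)
    · exact Or.inr (Or.inr (li2_big h hμ h1))
  · have key : (L.B : ℝ) < sg (L.side (linv l)) * val μ (L.cj (L.T l z)) := by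
      have h1 := hμ.pos' h.hN (h.ht l)
      have h2 : sg (L.side (linv l)) * L.eps l = -sg (L.side l) := by
        unfold eps
        cases L.side (linv l) <;> cases L.side l <;> simp [sg]
      have h2' : (sg (L.side (linv l)) : ℝ) * L.eps l = -sg (L.side l) := by exact_mod_cast h2
      rw [cj_zsmul, val_zsmul] at h1
      rw [T_eq, cj_add, cj_zsmul, val_add, val_zsmul, mul_add, ← mul_assoc, h2']
      linarith
    by_cases ht : L.side l' = L.side (linv l)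
    · obtain ⟨z', hz', hz''⟩ := li2_turn h hμ hp hl hq ht
      rw [hμ.val_inj (hz''.trans hT.symm)] at hz'
      exact absurd key (not_lt.2 (li2_zb h hμ hz' _).1)
    · have h1' : -(sg (L.side l') : ℝ) = sg (L.side (linv l)) := by exact_mod_cast (li2_sg ht).1
      exact Or.inr (Or.inr (by rw [h1']; exact key))

theorem li2_run (h : L.OK σ) (hμ : L.Mu μ) {k : Fin nb} {l' : Lt d} {q : ℝ} (hq : L.RI μ l' q)
    {w : Wd d} : ∀ {g : FreeGroup (Fin d)} {l : Lt d} {z : P2}, L.St μ k g l z →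
      L.Ch μ l' q l (val μ z) w → ∃ z', val μ z' = q ∧ L.St μ k (g * FreeGroup.mk (l :: w)) l' z' := by
  induction w with
  | nil =>
    rintro g l z hs ⟨h1, h2, rfl⟩
    exact ⟨_, val_T l z, li2_step h hμ hs h1 h2 hq⟩
  | cons l1 w ih =>
    rintro g l z hs ⟨h1, h2, h3⟩
    have hT : val μ (L.T l z) = L.RT μ l (val μ z) := val_T l z
    obtain ⟨z', h4, h5⟩ := ih (li2_step h hμ hs h1 h2 h3.ri) (by rw [hT]; exact h3)
    refine ⟨z', h4, ?_⟩
    rwa [mul_assoc, FreeGroup.mul_mk] at h5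

theorem li2_sing (h : L.OK σ) (hμ : L.Mu μ) {l : Lt d} {z : P2} (hz : (l, z) ∈ L.Zs) {w : Wd d}
    (hc : L.Ch μ l (val μ z) l (val μ z) w) :
    ∃ (k : Fin nb) (j : ℤ), IsConj (FreeGroup.mk (l :: w)) (FreeGroup.mk (L.bd k) ^ j) := by
  obtain ⟨⟨l0, z0, k, u⟩, h1, h2⟩ := List.mem_map.1 hz
  obtain ⟨rfl, rfl⟩ := Prod.mk.inj h2
  obtain ⟨z', h3, h4⟩ := li2_run h hμ (k := k) (g := FreeGroup.mk u) hc.ri
    (Or.inl ⟨u, h1, by rw [mul_inv_cancel]; exact one_mem _⟩) hc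
  obtain rfl := hμ.val_inj h3
  rcases h4 with ⟨u', h5, j, hj⟩ | h4 | h4
  · have := List.inj_on_of_nodup_map h.nd h1 h5 rfl
    obtain rfl : u = u' := by simpa using this
    exact ⟨k, j, isConj_iff.2 ⟨_, hj.symm⟩⟩
  · exact absurd hz (h.ez _ h4)
  · exact absurd h4 (not_lt.2 (li2_zb h hμ hz _).2)

end LI

/-- LI2. Exact closed orbits are powers of the boundary words. -/
theorem LI.classify (L : LI d nb) {σ : Fin d → Wd d} (h : L.OK σ) {μ : ℝ} (hμ : L.Mu μ)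
    (w : Wd d) (hw : FreeGroup.IsCyclicallyReduced w) (hne : w ≠ []) (p : ℝ)
    (ho : L.ROrb μ w p p) :
    ∃ (k : Fin nb) (j : ℤ), IsConj (FreeGroup.mk w) (FreeGroup.mk (L.bd k) ^ j) := by
  obtain ⟨l, w, rfl⟩ := List.exists_cons_of_ne_nil hne
  have hr : FreeGroup.IsReduced (l :: w ++ [l]) :=
    List.IsChain.append hw.1 (List.isChain_singleton _) fun a ha b hb => hw.2 a ha b hb
  have hc := LI.li2_ch ho hr
  rcases LI.li2_dich h hμ hc.ri hc with ⟨s, h1, h2⟩ | ⟨z, h1, rfl⟩ | ⟨u, l1, v, z, rfl, h1, h2, h3⟩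
  · have : s = 0 := hμ.val_eq_zero (by linarith)
    rw [this, LI.cj_zero, val_zero] at h1
    exact absurd h1 (lt_irrefl _)
  · exact LI.li2_sing h hμ h1 hc
  · obtain ⟨k, j, hj⟩ := LI.li2_sing h hμ h1 (h2.append h3)
    refine ⟨k, j, IsConj.trans (isConj_iff.2 ⟨(FreeGroup.mk (l :: u))⁻¹, ?_⟩) hj⟩
    have e1 : FreeGroup.mk (l :: (u ++ l1 :: v)) = FreeGroup.mk (l :: u) * FreeGroup.mk (l1 :: v) := by
      rw [FreeGroup.mul_mk]; rfl
    have e2 : FreeGroup.mk (l1 :: (v ++ l :: u)) = FreeGroup.mk (l1 :: v) * FreeGroup.mk (l :: u) := by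
      rw [FreeGroup.mul_mk]; rfl
    rw [e1, e2]; group

end Pool.Agent.Lib.MP_14f458_gt
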