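import Pool.Agent.Lib.MP_14f458_gt.LI1
import Pool.Agent.Lib.MP_14f458_gt.LI2
import Pool.Agent.Lib.MP_14f458_gt.Chk

namespace Pool.Agent.Lib.MP_14f458_gt

variable {d nb : ℕ}

theorem li3_eps (L : LI d nb) (l : Lt d) : L.eps l = 1 ∨ L.eps l = -1 := by
  unfold LI.eps
  split_ifs <;> simp

theorem li3_eps_linv (L : LI d nb) (l : Lt d) : L.eps (linv l) = L.eps l := by
  unfold LI.eps
  rw [linv_linv]
  by_cases h : L.side l = L.side (linv l)
  · rw [if_pos h, if_pos h.symm]
  · rw [if_neg h, if_neg fun h' => h h'.symm]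

theorem li3_inI {L : LI d nb} {μ : ℝ} (hμ : L.Mu μ) (hN : 0 < L.N) {l : Lt d} {z : P2}
    (h : L.inI l z = true) : val μ (L.lo l) ≤ val μ z ∧ val μ z ≤ val μ (L.hi l) := by
  simp only [LI.inI, Bool.and_eq_true] at h
  have h1 := hμ.nn hN h.1
  have h2 := hμ.nn hN h.2
  rw [val_sub] at h1 h2
  constructor <;> linarith

theorem li3_orb {L : LI d nb} {μ : ℝ} (hμ : L.Mu μ) (hN : 0 < L.N) {u : ℝ} (h0 : 0 ≤ u)
    (h1 : u ≤ 1) (w : Wd d) : ∀ z1 z1' z2 z2' : P2, L.orb w z1 z1' = true →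
      L.orb w z2 z2' = true →
      L.ROrb μ w ((1 - u) * val μ z1 + u * val μ z2) ((1 - u) * val μ z1' + u * val μ z2') := by
  induction w with
  | nil =>
    intro z1 z1' z2 z2' ha hb
    simp only [LI.orb, decide_eq_true_eq] at ha hb
    subst ha hb
    rfl
  | cons l w ih =>
    intro z1 z1' z2 z2' ha hb
    simp only [LI.orb, Bool.and_eq_true] at ha hb
    obtain ⟨a1, a2⟩ := li3_inI hμ hN ha.1
    obtain ⟨b1, b2⟩ := li3_inI hμ hN hb.1
    have h1' : 0 ≤ 1 - u := by linarith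
    have key := ih _ _ _ _ ha.2 hb.2
    rw [LI.val_T, LI.val_T] at key
    refine ⟨?_, ?_, ?_⟩
    · change val μ (L.lo l) ≤ _
      nlinarith [mul_le_mul_of_nonneg_left a1 h1', mul_le_mul_of_nonneg_left b1 h0]
    · change _ ≤ val μ (L.hi l)
      nlinarith [mul_le_mul_of_nonneg_left a2 h1', mul_le_mul_of_nonneg_left b2 h0]
    · have e : (L.eps l : ℝ) * ((1 - u) * val μ z1 + u * val μ z2) + val μ (L.c l) =
          (1 - u) * (L.eps l * val μ z1 + val μ (L.c l)) +
            u * (L.eps l * val μ z2 + val μ (L.c l)) := by ring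
      change L.ROrb μ w ((L.eps l : ℝ) * ((1 - u) * val μ z1 + u * val μ z2) + val μ (L.c l)) _
      rw [e]
      exact key

theorem li3_comb {a b p : ℝ} (h1 : a ≤ p) (h2 : p ≤ b) :
    ∃ u : ℝ, 0 ≤ u ∧ u ≤ 1 ∧ p = (1 - u) * a + u * b := by
  rcases eq_or_lt_of_le (h1.trans h2) with h | h
  · exact ⟨0, le_rfl, zero_le_one, by linarith⟩
  · have hp : 0 < b - a := by linarith
    refine ⟨(p - a) / (b - a), div_nonneg (by linarith) hp.le,
      (div_le_one hp).2 (by linarith), ?_⟩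
    field_simp
    ring

/-- LI3. Periodic conjugacy classes are peripheral. -/
theorem LI.per (L : LI d nb) {σ : Fin d → Wd d} (h : L.OK σ) {μ : ℝ} (hμ : L.Mu μ) :
    Per σ L.bd := by
  intro y m hm hy1 hy
  obtain ⟨w, p, hw, hyw, ho⟩ := exists_orb (fun l => val μ (L.lo l)) (fun l => val μ (L.hi l))
    (fun l => L.eps l) (fun l => val μ (L.c l)) σ μ hμ.pos.le hμ.lt
    (fun l => by
      have := hμ.nn h.hN (h.ne l)
      rw [val_sub] at this
      linarith)
    (fun l => by
      rcases li3_eps L l with e | e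
      · left; simp [e]
      · right; simp [e])
    (fun l p => by
      have h1 := congrArg (val μ) (h.inv l)
      rw [val_add, val_zsmul, val_zero] at h1
      simp only [li3_eps_linv]
      rcases li3_eps L l with e | e <;> rw [e] at h1 ⊢ <;> push_cast at h1 ⊢ <;> linarith)
    (fun l p h1 h2 => by
      obtain ⟨u, u0, u1, rfl⟩ := li3_comb h1 h2
      have key := li3_orb hμ h.hN u0 u1 (sub σ [l]) _ _ _ _ (h.scale l).1 (h.scale l).2
      simp only [hμ.val_mul, LI.val_T] at key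
      unfold LI.ROrb at key
      convert key using 1 <;> ring)
    y m hm hy
  have hne : w ≠ [] := by
    rintro rfl
    exact hy1 (isConj_one_left.1 hyw)
  obtain ⟨k, j, hk⟩ := L.classify h hμ w hw hne p ho
  exact ⟨k, j, hyw.trans hk⟩

theorem perB : Per sigB bdB := liB.per liB_ok liB_mu

theorem perC : Per sigC bdC := liC.per liC_ok liC_mu

end Pool.Agent.Lib.MP_14f458_gt
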