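import Pool.Agent.Lib.MP_14f458_gt.Free

namespace Pool.Agent.Lib.MP_14f458_gt

variable {G : Type} [Group G] {d nb : ℕ}

theorem Cusp.conj {α : Cl G} {c s u : G} (g : G) (h : Cusp α (g * c * g⁻¹) (g * s * g⁻¹) u) :
    Cusp α c s u := by
  have e : ∀ i j : ℤ, (g * c * g⁻¹) ^ i * (g * s * g⁻¹) ^ j = g * (c ^ i * s ^ j) * g⁻¹ := by
    intro i j; rw [conj_zpow, conj_zpow]; group
  refine ⟨?_, fun i j hij h0 => ?_⟩
  · have := h.1.eq
    have h2 : g * (c * s) * g⁻¹ = g * (s * c) * g⁻¹ := by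
      calc g * (c * s) * g⁻¹ = g * c * g⁻¹ * (g * s * g⁻¹) := by group
        _ = g * s * g⁻¹ * (g * c * g⁻¹) := this
        _ = _ := by group
    exact mul_left_cancel (mul_right_cancel h2)
  · obtain ⟨k, hk⟩ := h.2 i j hij (by
      rw [e, ← cv_eq_zero]
      have := cv_eq_zero.2 h0
      simp only [cv_mul, cv_inv] at this ⊢
      omega)
    refine ⟨k, hk.trans ?_⟩
    rw [e, conj_zpow]
    exact (isConj_iff.2 ⟨g, rfl⟩).symm

theorem Cusp.inv {α : Cl G} {c s u : G} (h : Cusp α c⁻¹ s u) : Cusp α c s u := by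
  refine ⟨by simpa using h.1.inv_left, fun i j hij h0 => ?_⟩
  have e : c⁻¹ ^ (-i) = c ^ i := by simp
  have := h.2 (-i) j hij.neg_left (by rwa [e])
  rwa [e] at this

/-- ZZ. Two elements of the group generated by `c` and `s`. -/
theorem cusp_of {α : Cl G} {c s u g v : G} (hc : Commute c s) {i j i' j' : ℤ}
    (hu : g * u * g⁻¹ = c ^ i * s ^ j) (hv : g * v * g⁻¹ = c ^ i' * s ^ j') (hu0 : α u = 1)
    (hv0 : α v ≠ 1) : Cusp α c s u := by
  refine ⟨hc, fun i0 j0 hij h0 => ?_⟩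
  have h1 := congrArg (cv α) hu
  have h2 := congrArg (cv α) hv
  have h3 := cv_eq_zero.2 h0
  have h4 := cv_eq_zero.2 hu0
  have h5 : cv α v ≠ 0 := fun h => hv0 (cv_eq_zero.1 h)
  simp only [cv_mul, cv_inv, cv_zpow] at h1 h2 h3
  have h6 : i * cv α c + j * cv α s = 0 := by omega
  have h7 : i' * cv α c + j' * cv α s ≠ 0 := by omega
  have h8 : i * j0 = j * i0 := by
    by_contra hne
    have hne' : i * j0 - j * i0 ≠ 0 := sub_ne_zero.2 hne
    have a1 : (i * j0 - j * i0) * cv α c = 0 := by linear_combination j0 * h6 - j * h3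
    have a2 : (i * j0 - j * i0) * cv α s = 0 := by linear_combination i * h3 - i0 * h6
    rw [(mul_eq_zero.1 a1).resolve_left hne', (mul_eq_zero.1 a2).resolve_left hne'] at h7
    simp at h7
  obtain ⟨a, b, hab⟩ := hij
  refine ⟨a * i + b * j, isConj_iff.2 ⟨g, ?_⟩⟩
  rw [hu, (hc.zpow_zpow i0 j0).mul_zpow, ← zpow_mul, ← zpow_mul]
  congr 2
  · linear_combination (-i) * hab + b * h8
  · linear_combination (-j) * hab - a * h8

theorem zz_iter {σ : Fin d → Wd d} {x : Fin d → G} {t : G}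
    (rel : ∀ i, t * x i * t⁻¹ = ev x (σ i)) (m : ℕ) (w : Wd d) :
    t ^ m * ev x w * (t ^ m)⁻¹ = ev x ((sub σ)^[m] w) := by
  induction m with
  | zero => simp
  | succ m ih => rw [Function.iterate_succ_apply', ← conj_ev_of_rel rel, ← ih, pow_succ']; group

/-- ZZ. Every rank two abelian subgroup is peripheral. -/
theorem zz {σ σi : Fin d → Wd d} {bd su : Fin nb → Wd d} {sp : Fin nb → ℕ} {x : Fin d → G}
    {t : G} (P : Pres σ x t) (hc : Cusps σ σi bd su sp) (hp : Per σ bd) (α : Cl G) {u v : G}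
    (huv : Commute u v) (hu : α u = 1) (hv : α v ≠ 1) (hu1 : u ≠ 1) :
    ∃ k, Cusp α (ev x (bd k)) (ev x (su k) * t ^ sp k) u := by
  obtain ⟨hinj, ω, hωx, hωt, hdec⟩ := P.struct hc.inv1 hc.inv2
  set ι : FreeGroup (Fin d) →* G := FreeGroup.lift x with hι
  have hωev : ∀ w, cv ω (ev x w) = 0 := by
    intro w
    induction w with
    | nil => simp
    | cons l w ih => rcases l with ⟨i, _ | _⟩ <;> simp [ih, hωx]
  have hωι : ∀ y, cv ω (ι y) = 0 := by
    intro y
    rw [← FreeGroup.mk_toWord (x := y), hι, lift_mk_eq, hωev]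
  have hker : ∀ g, cv ω g = 0 → ∃ y, g = ι y := by
    intro g hg
    obtain ⟨y, hy⟩ := hdec g
    exact ⟨y, by rw [hy, hg]; simp⟩
  have hu0 := cv_eq_zero.2 hu
  have hv0 : cv α v ≠ 0 := fun h => hv (cv_eq_zero.1 h)
  have hcomm : ∀ a b, Commute (ι a) (ι b) → Commute a b := fun a b h =>
    hinj (by rw [map_mul, map_mul]; exact h.eq)
  -- a nontrivial element `z` of the fiber group commuting with `u`, `v` and some `h`
  obtain ⟨z, h, hz0, hz1, hzu, hzv, hzh, hh⟩ : ∃ z h : G, cv ω z = 0 ∧ z ≠ 1 ∧ Commute u z ∧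
      Commute v z ∧ Commute h z ∧ cv ω h ≠ 0 := by
    by_cases h0 : cv ω u = 0
    · refine ⟨u, v, h0, hu1, Commute.refl u, huv.symm, huv.symm, fun h1 => ?_⟩
      obtain ⟨a, rfl⟩ := hker u h0
      obtain ⟨b, rfl⟩ := hker v h1
      obtain ⟨ρ, i, j, rfl, rfl⟩ := comm_root a b (hcomm a b huv)
      rw [map_zpow, cv_zpow] at hu0 hv0
      have : i = 0 := (mul_eq_zero.1 hu0).resolve_right fun h => hv0 (by rw [h, mul_zero])
      exact hu1 (by simp [this])
    · refine ⟨u ^ cv ω v * v ^ (-cv ω u), u, by simp [mul_comm], fun h1 => ?_,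
        ((Commute.refl u).zpow_right _).mul_right (huv.zpow_right _),
        (huv.symm.zpow_right _).mul_right ((Commute.refl v).zpow_right _),
        ((Commute.refl u).zpow_right _).mul_right (huv.zpow_right _), h0⟩
      have := congrArg (cv α) h1
      simp only [cv_mul, cv_zpow, hu0, cv_one, mul_zero, zero_add] at this
      rcases mul_eq_zero.1 this with h2 | h2
      · exact h0 (neg_eq_zero.1 h2)
      · exact hv0 h2
  obtain ⟨h, hzh, hh⟩ : ∃ h : G, Commute h z ∧ 0 < cv ω h := by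
    rcases lt_or_gt_of_ne hh with h1 | h1
    · exact ⟨h⁻¹, hzh.inv_left, by simpa using h1⟩
    · exact ⟨h, hzh, h1⟩
  obtain ⟨y, rfl⟩ := hker z hz0
  obtain ⟨f, hf⟩ := hdec h
  obtain ⟨m, hm⟩ := Int.eq_ofNat_of_zero_le hh.le
  have hper : IsConj ((hom σ)^[m] y) y := by
    refine isConj_iff.2 ⟨f, hinj ?_⟩
    rw [map_mul, map_mul, map_inv, ← pow_conj_lift P.rel]
    have e := hzh.eq
    rw [hf, hm, zpow_natCast] at e
    calc ι f * (t ^ m * ι y * (t ^ m)⁻¹) * (ι f)⁻¹
        = (ι f * t ^ m * ι y) * (ι f * t ^ m)⁻¹ := by group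
      _ = ι y := by rw [e]; group
  obtain ⟨k, j, hkj⟩ := hp y m (by omega) (fun h1 => hz1 (by rw [h1, map_one])) hper
  obtain ⟨g, hg⟩ := isConj_iff.1 hkj
  have hj : j ≠ 0 := by
    rintro rfl
    apply hz1
    have : y = 1 := by simpa using hg
    rw [this, map_one]
  set c : G := ev x (bd k) with hcdef
  have hcι : c = ι (FreeGroup.mk (bd k)) := (lift_mk_eq x _).symm
  set s : G := ev x (su k) * t ^ sp k with hsdef
  have hcs : Commute c s := by
    have e1 := zz_iter P.rel (sp k) (bd k)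
    have e2 := ev_eq_of_red x (hc.com k)
    rw [ev_append, ev_append, ev_winv, ← e1] at e2
    have : s * c * s⁻¹ = c := by
      refine Eq.trans ?_ e2
      rw [hsdef, hcdef]; group
    exact (mul_inv_eq_iff_eq_mul.1 this).symm
  have hωs : cv ω s = sp k := by simp [hsdef, hωev, hωt]
  -- commuting with `z` gives commuting with `c` after conjugation
  have hc1 : ∀ a : G, Commute a (ι y) → Commute (ι g * a * (ι g)⁻¹) c := by
    intro a ha
    set b := ι g * a * (ι g)⁻¹ with hb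
    have e0 : ι g * ι y * (ι g)⁻¹ = c ^ j := by
      rw [hcι, ← map_zpow, ← hg]; simp
    have e1 : b * c ^ j * b⁻¹ = c ^ j := by
      rw [← e0, hb]
      calc ι g * a * (ι g)⁻¹ * (ι g * ι y * (ι g)⁻¹) * (ι g * a * (ι g)⁻¹)⁻¹
          = ι g * (a * ι y) * a⁻¹ * (ι g)⁻¹ := by group
        _ = _ := by rw [ha.eq]; group
    obtain ⟨y', hy'⟩ := hker (b * c * b⁻¹) (by simp [hcdef, hωev])
    have e2 : y' ^ j = FreeGroup.mk (bd k) ^ j := hinj (by
      rw [map_zpow, map_zpow, ← hy', ← hcι, conj_zpow, e1])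
    have e3 : b * c * b⁻¹ = c := by rw [hy', zpow_inj hj e2, ← hcι]
    exact mul_inv_eq_iff_eq_mul.1 e3
  -- the centralizer of `c`
  have hcent : ∀ b : G, Commute b c → ∃ i n : ℤ, b = c ^ i * s ^ n := by
    have base : ∀ (b : G) (n : ℤ), Commute b c → cv ω b = n * sp k → ∃ i : ℤ, b = c ^ i * s ^ n := by
      intro b n hb hn
      obtain ⟨y', hy'⟩ := hker (b * s ^ (-n)) (by simp [hωs, hn])
      have h1 : Commute (ι y') (ι (FreeGroup.mk (bd k))) := by
        rw [← hy', ← hcι]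
        exact hb.mul_left (hcs.symm.zpow_left _)
      obtain ⟨i, hi⟩ := cent_prim (bd k) (hc.prim k) y' (hcomm _ _ h1)
      refine ⟨i, ?_⟩
      rw [hcι, ← map_zpow, ← hi, ← hy']; group
    intro b hb
    rcases hc.per k with h1 | ⟨h2, i, hi⟩
    · obtain ⟨i, hi⟩ := base b (cv ω b) hb (by simp [h1])
      exact ⟨i, _, hi⟩
    · rcases Int.even_or_odd' (cv ω b) with ⟨n, hn | hn⟩
      · obtain ⟨i, hi⟩ := base b n hb (by rw [hn, h2]; push_cast; ring)
        exact ⟨i, _, hi⟩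
      · exfalso
        obtain ⟨f', hf'⟩ := hdec (b * s ^ (-n))
        have h1 : cv ω (b * s ^ (-n)) = 1 := by
          simp only [cv_mul, cv_zpow, hωs, hn, h2]; push_cast; ring
        rw [h1, zpow_one] at hf'
        have h3 : Commute (ι f' * t) c := by
          rw [← hf']; exact hb.mul_left (hcs.symm.zpow_left _)
        apply hi
        refine ab_eq_of_isConj (isConj_iff.2 ⟨f', hinj ?_⟩) i
        rw [map_mul, map_mul, map_inv, ← hcι]
        have e1 : ι (FreeGroup.mk (sub σ (bd k))) = t * c * t⁻¹ := by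
          rw [hι, lift_mk_eq, ← conj_ev_of_rel P.rel]
        rw [e1]
        calc ι f' * (t * c * t⁻¹) * (ι f')⁻¹ = (ι f' * t * c) * (ι f' * t)⁻¹ := by group
          _ = c := by rw [h3.eq]; group
  obtain ⟨i1, j1, e1⟩ := hcent _ (hc1 u hzu)
  obtain ⟨i2, j2, e2⟩ := hcent _ (hc1 v hzv)
  exact ⟨k, cusp_of hcs e1 e2 hu hv⟩

end Pool.Agent.Lib.MP_14f458_gt
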