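import Pool.Agent.Lib.MP_14f458_gt.Chk
import Pool.Agent.Lib.MP_14f458_gt.ZZ
import Pool.Agent.Lib.MP_14f458_gt.LI3

namespace Pool.Agent.Lib.MP_14f458_gt

variable {G : Type} [Group G]

theorem change_letter {d : ℕ} (x : Fin d → G) {w : Wd d} {i : Fin d} (h : red w = [(i, true)]) :
    ev x w = x i := by
  rw [← ev_red, h]; simp

/-- CHANGE. Change of generators in a presentation. -/
theorem Pres.change {d : ℕ} {σ φ xw yw : Fin d → Wd d} {u : Wd d} (h : Chg σ φ xw yw u)
    {y : Fin d → G} {τ : G} (P : Pres φ y τ) :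
    Pres σ (fun i => ev y (xw i)) ((ev (fun i => ev y (xw i)) u)⁻¹ * τ) where
  rel i := by
    have h1 := conj_ev_of_rel P.rel (xw i)
    rw [ev_eq_of_red y (h.r1 i), ev_sub, ev_append, ev_append, ev_winv] at h1
    calc (ev (fun i => ev y (xw i)) u)⁻¹ * τ * ev y (xw i) *
          ((ev (fun i => ev y (xw i)) u)⁻¹ * τ)⁻¹
        = (ev (fun i => ev y (xw i)) u)⁻¹ * (τ * ev y (xw i) * τ⁻¹) *
            ev (fun i => ev y (xw i)) u := by group
      _ = ev (fun i => ev y (xw i)) (σ i) := by rw [h1]; group
  gen := by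
    rw [eq_top_iff, ← P.gen, Subgroup.closure_le]
    generalize hS : Subgroup.closure
      (Set.range (fun i => ev y (xw i)) ∪ {(ev (fun i => ev y (xw i)) u)⁻¹ * τ}) = S
    have h0 : ∀ i, ev y (xw i) ∈ S := fun i =>
      hS ▸ Subgroup.subset_closure (Or.inl ⟨i, rfl⟩)
    have ht : (ev (fun i => ev y (xw i)) u)⁻¹ * τ ∈ S :=
      hS ▸ Subgroup.subset_closure (Or.inr rfl)
    have hx : ∀ w : Wd d, ev (fun i => ev y (xw i)) w ∈ S := fun w => ev_mem _ S h0 w
    rintro _ (⟨i, rfl⟩ | rfl)
    · have h1 := hx (yw i)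
      rw [← ev_sub, change_letter y (h.xy i)] at h1
      exact h1
    · have h1 := S.mul_mem (hx u) ht
      rw [mul_inv_cancel_left] at h1
      exact h1
  univ H _ x' t' hs := by
    obtain ⟨f, hf, hft⟩ := P.univ H (fun i => ev x' (yw i)) (ev x' u * t') fun i => by
      have h1 := conj_ev_of_rel hs (yw i)
      have h2 := ev_eq_of_red x' (h.r2 i)
      rw [ev_append, ev_append, ev_winv, ← h1, ev_sub] at h2
      rw [← h2]; group
    have hx : ∀ i, f (ev y (xw i)) = x' i := fun i => by
      rw [map_ev]
      simp only [hf]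
      rw [← ev_sub, change_letter x' (h.yx i)]
    refine ⟨f, hx, ?_⟩
    rw [map_mul, map_inv, map_ev, hft]
    simp only [hx]
    group

/-- The inverse of a word in the letters and `t`. -/
def invT {d : ℕ} (w : WT d) : WT d := (w.map fun l => (l.1, !l.2)).reverse

theorem evT_invT {d : ℕ} (x : Fin d → G) (t : G) (w : WT d) :
    evT x t (invT w) = (evT x t w)⁻¹ := by
  induction w with
  | nil => simp [invT, evT]
  | cons l w ih =>
    have : invT (l :: w) = invT w ++ [(l.1, !l.2)] := by simp [invT]
    rw [this, evT_append, ih]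
    rcases l with ⟨_ | i, _ | _⟩ <;> simp [evT]

/-- A power of a word. -/
def powT {d : ℕ} (w : WT d) : ℕ → WT d
  | 0 => []
  | n + 1 => powT w n ++ w

theorem evT_powT {d : ℕ} (x : Fin d → G) (t : G) (w : WT d) (n : ℕ) :
    evT x t (powT w n) = evT x t w ^ n := by
  induction n with
  | zero => simp [powT, evT]
  | succ n ih => rw [powT, evT_append, ih, pow_succ]

/-- The second generator of a cusp group in the old letters. -/
def secT {d : ℕ} (xw : Fin d → Wd d) (u su : Wd d) (n : ℕ) : WT d :=
  emb (sub xw su) ++ powT (invT (emb (sub xw u)) ++ [(none, true)]) n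

theorem change_cusp {d : ℕ} {φ φi xw : Fin d → Wd d} {y : Fin d → G} {τ : G}
    (rel : ∀ i, τ * y i * τ⁻¹ = ev y (φ i)) (hi : ∀ i, red (sub φ (φi i)) = [(i, true)])
    {α : Cl G} {z : G} {u bd su : Wd d} {n : ℕ}
    (h : Cusp α (ev (fun i => ev y (xw i)) bd)
      (ev (fun i => ev y (xw i)) su * ((ev (fun i => ev y (xw i)) u)⁻¹ * τ) ^ n) z)
    (g c s : WT d) (hc : nf φ φi (emb (sub xw bd)) = nf φ φi (g ++ c ++ invT g))
    (hs : nf φ φi (secT xw u su n) = nf φ φi (g ++ s ++ invT g)) :
    Cusp α (evT y τ c) (evT y τ s) z := by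
  have h1 := evT_eq rel hi hc
  have h2 := evT_eq rel hi hs
  rw [evT_emb, ev_sub, evT_append, evT_append, evT_invT] at h1
  rw [secT, evT_append, evT_emb, ev_sub, evT_powT, evT_append, evT_invT, evT_emb, ev_sub,
    evT_append, evT_append, evT_invT] at h2
  have h3 : evT y τ [(none, true)] = τ := by simp [evT]
  rw [h3] at h2
  rw [h1, h2] at h
  exact h.conj _

/-- CHANGE. The cusps of `B`. -/
theorem atorB {y : Fin 4 → G} {τ : G} (P : Pres phiB y τ) (α : Cl G) {u v : G}
    (huv : Commute u v) (hu : α u = 1) (hv : α v ≠ 1) (hu1 : u ≠ 1) :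
    Cusp α (z0B y) τ u ∨ Cusp α (y 0) (τ * (y 3)⁻¹ * τ) u := by
  obtain ⟨k, hk⟩ := zz (P.change chgB) cuspsB perB α huv hu hv hu1
  fin_cases k
  · left
    have h := change_cusp P.rel phiB_inv1 hk []
      (invT [(some 1, false), (some 2, true), (some 2, true), (some 0, true), (some 3, true),
        (some 1, true), (some 2, true), (some 0, true)]) [(none, true)]
      (by decide +kernel) (by decide +kernel)
    rw [evT_invT] at h
    have h' := h.inv
    simpa [evT, z0B, pow_two, mul_assoc] using h'
  · right
    have h := change_cusp P.rel phiB_inv1 hk [(none, true)] (invT [(some 0, true)])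
      [(none, true), (some 3, false), (none, true)] (by decide +kernel) (by decide +kernel)
    rw [evT_invT] at h
    have h' := h.inv
    simpa [evT, mul_assoc] using h'
  · right
    have h := change_cusp P.rel phiB_inv1 hk [] (invT [(some 0, true)])
      [(none, true), (some 3, false), (none, true)] (by decide +kernel) (by decide +kernel)
    rw [evT_invT] at h
    have h' := h.inv
    simpa [evT, mul_assoc] using h'

/-- CHANGE. The cusps of `C`. -/
theorem atorC {y : Fin 4 → G} {τ : G} (P : Pres phiC y τ) (α : Cl G) {u v : G}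
    (huv : Commute u v) (hu : α u = 1) (hv : α v ≠ 1) (hu1 : u ≠ 1) :
    Cusp α (z0C y) τ u ∨ Cusp α (y 1) (τ * (y 3)⁻¹ * τ) u ∨ (∃ s, Cusp α (y 2) s u) ∨
      Cusp α ((y 2)⁻¹ * y 0) ((y 2)⁻¹ * τ) u := by
  obtain ⟨k, hk⟩ := zz (P.change chgC) cuspsC perC α huv hu hv hu1
  fin_cases k
  · left
    have h := change_cusp P.rel phiC_inv1 hk []
      [(some 0, true), (some 2, false), (some 1, true), (some 3, true), (some 0, false),
        (some 2, true), (some 0, true), (some 1, true)] [(none, true)]
      (by decide +kernel) (by decide +kernel)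
    simpa [evT, z0C, mul_assoc] using h
  · right; left
    have h := change_cusp P.rel phiC_inv1 hk
      ([(some 0, true), (some 2, false)] ++ invT [(some 3, true), (some 0, false), (some 2, true),
        (some 0, true), (some 2, false)] ++ [(none, true)]) [(some 1, true)]
      [(none, true), (some 3, false), (none, true)] (by decide +kernel) (by decide +kernel)
    simpa [evT, mul_assoc] using h
  · right; right; left
    have h := change_cusp P.rel phiC_inv1 hk [] [(some 2, true)]
      (secT xwC uC (suC 2) (spC 2)) (by decide +kernel) (by decide +kernel)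
    exact ⟨_, by simpa [evT] using h⟩
  · right; left
    have h := change_cusp P.rel phiC_inv1 hk [(some 2, false), (some 0, true)] [(some 1, true)]
      [(none, true), (some 3, false), (none, true)] (by decide +kernel) (by decide +kernel)
    simpa [evT, mul_assoc] using h
  · right; right; right
    have h := change_cusp P.rel phiC_inv1 hk [] [(some 2, false), (some 0, true)]
      [(some 2, false), (none, true)] (by decide +kernel) (by decide +kernel)
    simpa [evT, mul_assoc] using h

end Pool.Agent.Lib.MP_14f458_gt
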