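import Pool.Agent.Lib.MP_14f458_gt.Small

namespace Pool.Agent.Lib.MP_14f458_gt

variable {G R M : Type} [Group G] [CommRing R] [AddCommGroup M] [Module R M] {d : ℕ}
  {χ : G →* Rˣ} {D D' : G → M}

theorem IsCross.one (h : IsCross χ D) : D 1 = 0 := by
  have h1 := h 1 1
  rw [mul_one, map_one, Units.val_one, one_smul] at h1
  exact left_eq_add.1 h1

theorem IsCross.inv (h : IsCross χ D) (g : G) : D g⁻¹ = -(((χ g)⁻¹ : Rˣ) : R) • D g := by
  have h1 := h g⁻¹ g
  rw [inv_mul_cancel, h.one, map_inv] at h1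
  rw [neg_smul]
  exact eq_neg_of_add_eq_zero_left h1.symm

/-- Principal crossed homomorphisms. -/
theorem isCross_principal (χ : G →* Rˣ) (u : M) : IsCross χ fun g => (χ g : R) • u - u := by
  intro g h
  simp only [map_mul, Units.val_mul, mul_smul, smul_sub]
  abel

theorem IsCross.sub (h : IsCross χ D) (h' : IsCross χ D') : IsCross χ fun g => D g - D' g := by
  intro g k
  simp only [h g k, h' g k, smul_sub]
  abel

/-- The set where a crossed homomorphism vanishes is a subgroup. -/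
theorem IsCross.eq_zero_of_closure (h : IsCross χ D) {S : Set G} (hS : ∀ g ∈ S, D g = 0) {g : G}
    (hg : g ∈ Subgroup.closure S) : D g = 0 := by
  induction hg using Subgroup.closure_induction with
  | mem x hx => exact hS x hx
  | one => exact h.one
  | mul x y _ _ hx hy => rw [h x y, hx, hy, smul_zero, add_zero]
  | inv x _ hx => rw [h.inv, hx, smul_zero]

theorem IsCross.conj (h : IsCross χ D) (k g : G) :
    D (k * g * k⁻¹) = (χ k : R) • D g + (D k - (χ g : R) • D k) := by
  rw [h (k * g) k⁻¹, h k g, h.inv k, smul_smul, map_mul, Units.val_mul, mul_neg,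
    mul_right_comm, Units.mul_inv, one_mul, neg_smul]
  abel

theorem IsCross.map_ev (h : IsCross χ D) (x : Fin d → G) (w : Wd d) :
    D (ev x w) = fx (fun i => (χ (x i) : R)) (fun i => (((χ (x i))⁻¹ : Rˣ) : R))
      (fun i => D (x i)) w := by
  induction w with
  | nil => exact h.one
  | cons l w ih =>
    rcases l with ⟨i, _ | _⟩
    · rw [ev_false, h, h.inv, ih, fx, map_inv, smul_sub, neg_smul]
      abel
    · rw [ev_true, h, ih, fx]

theorem fx_eq_sum (c ci : Fin d → R) (u : Fin d → M) (w : Wd d) :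
    fx c ci u w = ∑ k, fx c ci (fun j => if j = k then (1 : R) else 0) w • u k := by
  induction w with
  | nil => simp [fx]
  | cons l w ih =>
    rcases l with ⟨i, _ | _⟩
    · simp only [fx, smul_eq_mul, mul_smul, sub_smul, ← Finset.smul_sum, Finset.sum_sub_distrib,
        ← ih]
      simp
    · simp only [fx, smul_eq_mul, mul_smul, add_smul, ← Finset.smul_sum, Finset.sum_add_distrib,
        ← ih]
      simp

theorem map_fx {R' : Type} [CommRing R'] (f : R →+* R') (c ci u : Fin d → R) (w : Wd d) :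
    f (fx c ci u w) = fx (fun i => f (c i)) (fun i => f (ci i)) (fun i => f (u i)) w := by
  induction w with
  | nil => simp [fx]
  | cons l w ih => rcases l with ⟨i, _ | _⟩ <;> simp [fx, ih]

theorem map_AlexM {R' : Type} [CommRing R'] (f : R →+* R') (σ : Fin d → Wd d) (c ci : Fin d → R)
    (y : R) : (AlexM σ c ci y).map f = AlexM σ (fun i => f (c i)) (fun i => f (ci i)) (f y) := by
  ext i k
  simp only [AlexM, Matrix.map_apply, Matrix.of_apply, map_sub, map_fx, apply_ite f, map_zero,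
    map_one]

/-- The group of maps `m ↦ v + c • m`. -/
@[ext] structure CrossAff (R M : Type) [CommRing R] where
  v : M
  c : Rˣ

instance : Group (CrossAff R M) where
  mul p q := ⟨p.v + (p.c : R) • q.v, p.c * q.c⟩
  one := ⟨0, 1⟩
  inv p := ⟨-((p.c⁻¹ : Rˣ) : R) • p.v, p.c⁻¹⟩
  mul_assoc p q r := CrossAff.ext
    (show p.v + (p.c : R) • q.v + ((p.c * q.c : Rˣ) : R) • r.v =
      p.v + (p.c : R) • (q.v + (q.c : R) • r.v) by
      rw [Units.val_mul, mul_smul, smul_add, add_assoc]) (mul_assoc p.c q.c r.c)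
  one_mul p := CrossAff.ext (show 0 + ((1 : Rˣ) : R) • p.v = p.v by simp) (one_mul p.c)
  mul_one p := CrossAff.ext (show p.v + (p.c : R) • (0 : M) = p.v by simp) (mul_one p.c)
  inv_mul_cancel p := CrossAff.ext
    (show -((p.c⁻¹ : Rˣ) : R) • p.v + ((p.c⁻¹ : Rˣ) : R) • p.v = 0 by simp) (inv_mul_cancel p.c)

theorem crossAff_mul (p q : CrossAff R M) : p * q = ⟨p.v + (p.c : R) • q.v, p.c * q.c⟩ := rfl

theorem crossAff_inv (p : CrossAff R M) : p⁻¹ = ⟨-((p.c⁻¹ : Rˣ) : R) • p.v, p.c⁻¹⟩ := rfl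

/-- The linear part. -/
def crossAffC : CrossAff R M →* Rˣ where
  toFun p := p.c
  map_one' := rfl
  map_mul' _ _ := rfl

theorem crossAff_ev (c : Fin d → Rˣ) (u : Fin d → M) (w : Wd d) :
    ev (fun i => (⟨u i, c i⟩ : CrossAff R M)) w =
      ⟨fx (fun i => (c i : R)) (fun i => (((c i)⁻¹ : Rˣ) : R)) u w, ev c w⟩ := by
  induction w with
  | nil => rfl
  | cons l w ih =>
    rcases l with ⟨i, _ | _⟩
    · rw [ev_false, ih, crossAff_inv, crossAff_mul, fx, ev_false, smul_sub, neg_smul,
        neg_add_eq_sub]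
    · rw [ev_true, ih, crossAff_mul, fx, ev_true]

/-- CROSS. Existence of crossed homomorphisms with prescribed values. -/
theorem exists_cross {σ : Fin d → Wd d} {x : Fin d → G} {t : G} (P : Pres σ x t) (χ : G →* Rˣ)
    (u : Fin d → M) (hu : ∀ i, (χ t : R) • u i =
      fx (fun k => (χ (x k) : R)) (fun k => (((χ (x k))⁻¹ : Rˣ) : R)) u (σ i)) :
    ∃ D : G → M, IsCross χ D ∧ D t = 0 ∧ ∀ i, D (x i) = u i := by
  obtain ⟨f, hf, ht⟩ := P.univ (CrossAff R M) (fun i => ⟨u i, χ (x i)⟩) ⟨0, χ t⟩ fun i => by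
    rw [crossAff_ev, ← hu, ← map_ev χ, ← P.rel, crossAff_inv, crossAff_mul, crossAff_mul]
    simp
  have hc : crossAffC.comp f = χ := hom_ext_of_gen P.gen
    (fun i => by rw [MonoidHom.comp_apply, hf]; rfl) (by rw [MonoidHom.comp_apply, ht]; rfl)
  refine ⟨fun g => (f g).v, fun g h => ?_, by simp only [ht], fun i => by simp only [hf]⟩
  rw [← hc]
  simp only [map_mul, crossAff_mul]
  rfl

private noncomputable def crossU (e : Bool) (a : ℝ) : ℝˣ :=
  Units.mk0 ((if e then -1 else 1) * Real.exp a) (by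
    cases e <;> simp [Real.exp_ne_zero])

private theorem crossU_val (e : Bool) (a : ℝ) :
    (crossU e a : ℝ) = (if e then -1 else 1) * Real.exp a := rfl

private theorem crossU_mul (e e' : Bool) (a a' : ℝ) :
    crossU e a * crossU e' a' = crossU (xor e e') (a + a') := by
  ext
  cases e <;> cases e' <;> simp [crossU_val, Real.exp_add]

private theorem crossU_inv (e : Bool) (a : ℝ) : (crossU e a)⁻¹ = crossU e (-a) := by
  rw [inv_eq_iff_mul_eq_one, crossU_mul]
  ext
  simp [crossU_val]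

private theorem crossU_ev (ε : Fin d → Bool) (a : Fin d → ℝ) (w : Wd d) :
    ev (fun i => crossU (ε i) (a i)) w = crossU (par ε w) (wt a w) := by
  induction w with
  | nil =>
    ext
    simp [crossU_val, par, wt]
  | cons l w ih =>
    rcases l with ⟨i, _ | _⟩
    · rw [ev_false, ih, crossU_inv, crossU_mul]; rfl
    · rw [ev_true, ih, crossU_mul]; rfl

private theorem crossU_fx (ε η : Fin d → Bool) (a v : Fin d → ℝ) (w : Wd d) (e : Bool) (h : ℝ)
    (hs : Str ε η w e = true) :
    (crossU e h : ℝ) * fx (fun i => (crossU (ε i) (a i) : ℝ))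
      (fun i => (((crossU (ε i) (a i))⁻¹ : ℝˣ) : ℝ))
      (fun i => (if η i then -1 else 1) * v i) w = SS a v w h := by
  induction w generalizing e h with
  | nil => simp [fx, SS]
  | cons l w ih =>
    rcases l with ⟨i, _ | _⟩
    · rw [Str, Bool.and_eq_true] at hs
      rw [fx, SS, ← ih _ _ hs.2, smul_eq_mul, ← mul_assoc, crossU_inv, ← Units.val_mul, crossU_mul,
        ← sub_eq_add_neg, mul_sub, crossU_val (xor e (ε i))]
      have h1 := hs.1
      revert h1
      cases xor e (ε i) <;> cases η i <;> simp <;> ring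
    · rw [Str, Bool.and_eq_true] at hs
      rw [fx, SS, ← ih _ _ hs.2, smul_eq_mul, mul_add, ← mul_assoc _ (crossU (ε i) (a i) : ℝ),
        ← Units.val_mul, crossU_mul, crossU_val e, ← beq_iff_eq.1 hs.1]
      cases e <;> simp

/-- CROSS. A root of the determinant gives a nonzero real crossed homomorphism. -/
theorem cross_of_det {σ : Fin d → Wd d} {x : Fin d → G} {t : G} (P : Pres σ x t)
    {ε η : Fin d → Bool} {εt : Bool} (hs : Straight σ ε η εt) (a : Fin d → ℝ) (b : ℝ)
    (ha : ∀ i, wt a (σ i) = a i) (hF : Fd σ a b = 0) :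
    ∃ (χ : G →* ℝˣ) (D : G → ℝ), IsCross χ D ∧ D t = 0 ∧ (∃ i, D (x i) ≠ 0) ∧
      (∀ i, |(χ (x i) : ℝ)| = Real.exp (a i)) ∧ |(χ t : ℝ)| = Real.exp b := by
  obtain ⟨v, hv0, hv⟩ := Matrix.exists_mulVec_eq_zero_iff.2 hF
  have hv' : ∀ i, SS a v (σ i) (-b) = v i := fun i => by
    have := congrFun hv i
    rw [Matrix.sub_mulVec, Matrix.one_mulVec, Pi.sub_apply, Mat_mulVec, Pi.zero_apply,
      sub_eq_zero] at this
    exact this.symm
  obtain ⟨χ, hx, ht⟩ := P.univ ℝˣ (fun i => crossU (ε i) (a i)) (crossU εt b) fun i => by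
    rw [crossU_ev, (hs i).2, ha, mul_inv_cancel_comm]
  obtain ⟨D, h1, h2, h3⟩ := exists_cross P χ (fun i => (if η i then -1 else 1) * v i) fun i => by
    have h := crossU_fx ε η a v (σ i) _ (-b) (hs i).1
    rw [hv', ← crossU_inv, Units.inv_mul_eq_iff_eq_mul] at h
    simp only [hx, ht]
    rw [h, crossU_val, crossU_val]
    cases εt <;> cases η i <;> simp
  refine ⟨χ, D, h1, h2, ?_, fun i => ?_, ?_⟩
  · obtain ⟨i, hi⟩ := Function.ne_iff.1 hv0
    refine ⟨i, ?_⟩
    rw [h3]
    cases η i <;> simpa using hi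
  · rw [hx, crossU_val]
    cases ε i <;> simp
  · rw [ht, crossU_val]
    cases εt <;> simp

end Pool.Agent.Lib.MP_14f458_gt
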