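import Pool.Agent.Lib.MP_14f458_gt.Base

/-!
Explicit data for MP_14f458_gt: the two mapping tori `B` (two cusps) and `C` (four cusps).
-/

namespace Pool.Agent.Lib.MP_14f458_gt

/-! ### The manifold B -/

def sigB : Fin 4 → Wd 4 :=
  ![[(0,true), (3,true)], [(0,true), (3,true), (1,true), (1,true), (2,true), (3,true)], [(1,true),
    (1,true), (1,true), (2,true), (3,true)], [(1,true), (1,true), (1,true), (3,true)]]

def sigBi : Fin 4 → Wd 4 :=
  ![[(0,true), (3,false), (2,true), (1,false), (0,true), (2,true), (1,false), (0,true), (2,true),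
    (1,false), (0,true)], [(2,true), (1,false), (0,true)], [(0,false), (1,true), (2,false),
    (0,false), (1,true), (2,false), (0,false), (1,true), (3,false), (2,true), (1,false), (0,true),
    (2,true), (1,false), (0,true), (2,true), (1,false), (0,true)], [(0,false), (1,true),
    (2,false), (0,false), (1,true), (2,false), (0,false), (1,true), (2,false), (3,true)]]

def rB : Fin 4 → Wd 4 :=
  ![[(3,false), (2,true), (3,true)], [(3,false), (2,true), (1,false), (0,true), (3,true)],
    [(3,false), (0,true), (3,true)], [(3,false)]]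

def bdB : Fin 3 → Wd 4 :=
  ![[(0,true), (2,false), (3,true)], [(0,true), (3,true), (1,false)], [(1,true), (2,false)]]

def suB : Fin 3 → Wd 4 :=
  ![[], [(0,true), (3,true), (1,false), (3,false), (2,false), (1,false), (1,false), (3,false),
    (0,false), (3,false), (2,false), (1,false), (1,false), (3,false), (0,false), (3,false),
    (1,false), (1,false), (1,false), (3,false), (0,false)], [(1,true), (2,false), (1,false),
    (1,false), (3,false), (0,false)]]

def spB : Fin 3 → ℕ := ![1, 2, 2]

def phiB : Fin 4 → Wd 4 :=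
  ![[(3,true), (2,true), (2,true), (2,true), (0,true)], [(3,true), (1,true), (2,false), (2,false),
    (1,true)], [(1,false), (3,false)], [(0,false), (2,false), (2,false), (2,false), (1,true),
    (3,true), (1,true), (3,true), (1,true), (0,true)]]

def phiBi : Fin 4 → Wd 4 :=
  ![[(2,true), (2,true), (2,true), (0,true), (3,true)], [(2,true), (1,true), (2,true), (0,true),
    (3,false), (0,false), (2,false), (2,false), (1,true), (2,true), (0,true), (3,false),
    (0,false), (2,false), (2,false), (1,true)], [(2,true), (1,true), (2,true), (0,true),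
    (3,false), (0,false), (2,false), (2,false), (2,false)], [(2,false), (1,false), (2,true),
    (2,true), (0,true), (3,true), (0,false), (2,false), (1,false), (2,true), (2,true), (0,true),
    (3,true), (0,false), (2,false), (1,false), (2,false)]]

def xwB : Fin 4 → Wd 4 :=
  ![[(0,false), (2,false)], [(3,true), (1,true)], [(0,true), (3,true), (1,true)], [(2,false),
    (2,false), (1,true)]]

def ywB : Fin 4 → Wd 4 :=
  ![[(2,true), (1,false)], [(0,false), (1,true), (2,false), (0,false), (1,true), (2,false),
    (3,true)], [(0,false), (1,true), (2,false)], [(1,true), (3,false), (2,true), (1,false),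
    (0,true), (2,true), (1,false), (0,true)]]

def liB : LI 4 3 where
  tr := 5
  N := 1000
  m := 208
  B := 110
  side := fun l => if l.2 then ![true, true, true, true] l.1 else ![false, false, false, false]
    l.1
  lo := fun l => if l.2 then ![(0, 0), (-3, 18), (3, 3), (0, 21)] l.1 else ![(7, -7), (4, -10),
    (10, -25), (0, 0)] l.1
  hi := fun l => if l.2 then ![(-3, 18), (3, 3), (0, 21), (4, 11)] l.1 else ![(4, 11), (10, -25),
    (7, -7), (4, -10)] l.1
  c := fun l => if l.2 then ![(7, -7), (7, -28), (7, -28), (0, -21)] l.1 else ![(-7, 7), (-7, 28),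
    (-7, 28), (0, 21)] l.1
  bd := bdB
  Z := [((0,true), (0, 0), 0, []), ((2,false), (7, -7), 0, [(0,true)]), ((3,true), (0, 21), 0,
    [(0,true), (2,false)]), ((0,true), (-3, 18), 1, []), ((3,true), (4, 11), 1, [(0,true)]),
    ((1,false), (4, -10), 1, [(0,true), (3,true)]), ((0,false), (7, -7), 0, [(3,false),
    (2,true)]), ((3,false), (0, 0), 0, [(3,false), (2,true), (0,false)]), ((2,true), (0, 21), 0,
    [(3,false), (2,true), (0,false), (3,false)]), ((0,false), (4, 11), 1, [(1,true), (3,false)]),
    ((1,true), (-3, 18), 1, [(1,true), (3,false), (0,false)]), ((3,false), (4, -10), 1, [(1,true),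
    (3,false), (0,false), (1,true)]), ((1,true), (3, 3), 2, []), ((2,false), (10, -25), 2,
    [(1,true)]), ((1,false), (10, -25), 2, [(2,true)]), ((2,true), (3, 3), 2, [(2,true),
    (1,false)])]
  E := [((1,false), (3, 3)), ((3,false), (-3, 18)), ((3,true), (7, -7)), ((1,true), (4, -10)),
    ((1,false), (0, 21)), ((3,true), (10, -25))]

/-- Coordinates `(a₁, b)`. -/
def mdB : MD 4 2 2 where
  σ := sigB
  pa := ![![1, 0], ![0, 0], ![-1, 0], ![0, 0]]
  pb := ![0, 1]
  fa := ![![0, 1], ![-1, 1]]
  xn := ![-1, 3]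
  om := ![0, 1]

/-- `Y³ + X - 2XY² - 2Y² - 2XY - 2Y`. -/
def thB : List (ℤ × (Fin 2 → ℤ)) :=
  [(1, ![0, 3]), (1, ![1, 0]), (-2, ![1, 2]), (-2, ![0, 2]), (-2, ![1, 1]), (-2, ![0, 1])]

/-! ### The manifold C -/

def sigC : Fin 4 → Wd 4 :=
  ![[(3,false), (0,false), (2,true), (0,true), (3,true), (2,false), (0,true), (2,true), (3,false),
    (0,false), (2,false), (0,true), (3,true)], [(3,false), (0,false), (2,true), (0,true),
    (3,true)], [(2,false), (0,false), (2,true), (3,false), (1,true), (3,true), (2,false),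
    (0,true), (2,true)], [(2,false), (0,false), (2,true), (3,false), (1,true), (3,true),
    (2,false), (0,true), (3,true)]]

def sigCi : Fin 4 → Wd 4 :=
  ![[(1,false), (0,true), (1,true), (2,false), (3,true), (1,true), (3,false), (2,true), (1,false),
    (0,true), (1,true), (2,false), (3,true), (1,false), (3,false), (2,true), (1,false), (0,false),
    (1,true)], [(1,false), (0,true), (1,true), (2,false), (3,true), (1,true), (3,false), (2,true),
    (1,false), (0,false), (1,true), (2,false), (3,true), (1,false), (0,true), (1,true), (2,true),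
    (1,false), (0,false), (1,true), (3,false), (2,true), (1,false), (0,true), (1,true), (2,false),
    (3,true), (1,false), (3,false), (2,true), (1,false), (0,false), (1,true)], [(1,false),
    (0,true), (1,true), (2,false), (3,true), (1,true), (3,false), (2,true), (1,false), (0,false),
    (1,true)], [(1,false), (0,true), (1,true), (2,false), (3,true), (1,true), (3,false), (2,true),
    (1,false), (0,false), (1,true), (2,false), (3,true)]]

def rC : Fin 4 → Wd 4 :=
  ![[(2,false), (1,false), (0,false), (1,true), (2,true)], [(2,false), (1,false), (2,true)],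
    [(2,false)], [(2,false), (3,false), (2,true)]]

def bdC : Fin 5 → Wd 4 :=
  ![[(1,true), (3,true), (0,true)], [(1,true)], [(3,true), (2,false)], [(2,true)], [(0,true)]]

def suC : Fin 5 → Wd 4 :=
  ![[(3,true), (2,false), (0,true), (2,true), (3,false), (0,false), (2,false), (0,true), (3,true)],
    [(1,false), (1,false), (3,true), (2,false), (0,true), (2,true), (3,false), (0,false),
    (2,true), (0,true), (3,true), (2,false), (0,true), (2,true), (3,false), (0,false), (2,false),
    (0,true), (3,true), (2,false), (0,false), (2,true), (3,false), (1,true), (3,true), (2,false),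
    (0,true), (3,true)], [(0,false), (2,true), (3,false), (1,false), (3,true), (2,false),
    (0,true), (2,true)], [(2,false), (2,false), (0,true), (3,true), (2,false), (0,false),
    (2,true), (3,false), (1,true), (3,true), (2,false), (0,true), (3,true), (2,false), (0,false),
    (2,true), (3,false), (1,false), (3,true), (2,false), (0,true), (2,true), (3,false), (0,false),
    (2,true), (0,true), (3,true), (2,false), (0,true), (2,true), (3,false), (0,false), (2,false),
    (0,true), (3,true), (2,false), (0,false), (2,true), (3,false), (1,true), (3,true), (2,false),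
    (0,true), (2,true)], [(0,true), (2,true), (3,false), (0,false), (2,false), (0,true),
    (3,true)]]

def spC : Fin 5 → ℕ := ![1, 2, 1, 2, 1]

def phiC : Fin 4 → Wd 4 :=
  ![[(0,true), (2,false), (3,true), (0,false), (2,true), (0,true), (2,true), (0,false), (2,false),
    (0,true), (3,false)], [(3,true), (0,false), (2,true), (0,true), (2,false), (1,true)],
    [(0,true), (2,false), (3,true), (0,false), (2,true), (0,true), (2,true), (0,false), (2,false),
    (0,true), (3,false), (2,true), (0,false)], [(1,false), (2,true), (0,false), (2,false),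
    (0,true), (3,false), (0,true), (2,false), (3,true), (0,false), (2,true), (0,true), (2,true),
    (0,false), (2,false), (0,true), (3,false), (2,true), (0,false), (3,true), (0,false), (2,true),
    (0,true), (2,false), (0,false), (2,false), (0,true), (3,false), (1,true)]]

def phiCi : Fin 4 → Wd 4 :=
  ![[(0,true), (2,false), (1,true), (3,true), (1,false), (0,false), (2,true), (0,true), (1,true),
    (3,false), (1,false), (2,true), (0,false), (2,false), (0,true)], [(0,false), (2,true),
    (0,true), (2,false), (1,true), (3,true)], [(0,false), (2,true), (0,true), (2,false), (1,true),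
    (3,true), (1,false), (0,false), (2,true), (0,true), (1,true), (3,false), (1,false), (2,true),
    (0,false), (2,false), (0,true)], [(1,true), (3,false), (1,false), (2,true), (0,false),
    (0,false), (2,true), (0,true), (2,false), (1,true), (3,true), (1,false), (0,false), (2,false),
    (0,true), (1,true), (3,false), (1,false), (2,true), (0,false), (2,false), (0,true), (0,true),
    (2,false), (1,true), (3,true), (1,false), (0,false), (2,true), (0,true), (1,true), (3,false),
    (1,false), (2,true), (0,false), (2,false), (0,true)]]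

def xwC : Fin 4 → Wd 4 :=
  ![[(2,false), (0,true)], [(0,true), (2,false), (1,true), (3,true), (0,false), (2,true)],
    [(2,false), (0,true), (1,true), (0,false), (2,true)], [(0,true), (1,true), (0,false),
    (2,true)]]

def ywC : Fin 4 → Wd 4 :=
  ![[(3,true), (2,false), (0,true)], [(0,false), (2,true), (0,true)], [(3,true), (2,false)],
    [(0,false), (2,false), (0,true), (3,true), (2,false), (0,false), (2,true), (3,false),
    (1,true), (0,true)]]

def uC : Wd 4 :=
  [(3,true), (2,false), (0,true), (2,true), (3,false), (0,false), (2,false), (0,true), (3,true)]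

def liC : LI 4 5 where
  tr := 10
  N := 1000
  m := 101
  B := 40
  side := fun l => if l.2 then ![true, true, false, false] l.1 else ![true, true, false, true] l.1
  lo := fun l => if l.2 then ![(3, 1), (9, 3), (4, -2), (8, -4)] l.1 else ![(6, 2), (10, 0), (0,
    0), (0, 0)] l.1
  hi := fun l => if l.2 then ![(6, 2), (10, 0), (8, -4), (11, -3)] l.1 else ![(9, 3), (11, -3),
    (4, -2), (3, 1)] l.1
  c := fun l => if l.2 then ![(12, 4), (20, 0), (8, -4), (-8, 4)] l.1 else ![(12, 4), (20, 0), (8,
    -4), (8, -4)] l.1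
  bd := bdC
  Z := [((1,true), (9, 3), 0, []), ((3,true), (11, -3), 0, [(1,true)]), ((0,true), (3, 1), 0,
    [(1,true), (3,true)]), ((1,true), (10, 0), 1, []), ((1,false), (10, 0), 1, []), ((1,false),
    (11, -3), 0, [(0,false), (3,false)]), ((0,false), (9, 3), 0, [(0,false), (3,false),
    (1,false)]), ((3,false), (3, 1), 0, [(0,false), (3,false), (1,false), (0,false)]), ((3,true),
    (8, -4), 2, []), ((2,false), (0, 0), 2, [(3,true)]), ((3,false), (0, 0), 2, [(2,true)]),
    ((2,true), (8, -4), 2, [(2,true), (3,false)]), ((2,true), (4, -2), 3, []), ((2,false), (4,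
    -2), 3, []), ((0,true), (6, 2), 4, []), ((0,false), (6, 2), 4, [])]
  E := [((2,true), (6, 2)), ((3,true), (9, 3)), ((3,true), (10, 0)), ((0,false), (8, -4)),
    ((0,true), (4, -2)), ((2,false), (3, 1))]

/-- Coordinates `(a₁, a₂ = a₃, a₄, b)`. -/
def mdC : MD 4 4 8 where
  σ := sigC
  pa := ![![1, 0, 0, 0], ![0, 1, 0, 0], ![0, 1, 0, 0], ![0, 0, 1, 0]]
  pb := ![0, 0, 0, 1]
  fa := ![![0, -1, 1, 1], ![0, 0, 0, 1], ![0, 0, 1, 1], ![0, 1, 0, 1], ![1, -1, 1, 1],
    ![1, 0, 0, 1], ![1, 0, 1, 1], ![1, 1, 0, 1]]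
  xn := ![2, -1, 2, 3]
  om := ![0, 0, 0, 1]

/-- `XYZW² + Y - XY²W - 2XYZW - XYW - XZW - Y²W - YZW - 2YW - ZW`. -/
def thC : List (ℤ × (Fin 4 → ℤ)) :=
  [(1, ![1, 1, 1, 2]), (1, ![0, 1, 0, 0]), (-1, ![1, 2, 0, 1]), (-2, ![1, 1, 1, 1]),
    (-1, ![1, 1, 0, 1]), (-1, ![1, 0, 1, 1]), (-1, ![0, 2, 0, 1]), (-1, ![0, 1, 1, 1]),
    (-2, ![0, 1, 0, 1]), (-1, ![0, 0, 1, 1])]

/-! ### The two families of fibers -/

section fam
variable {K : Type} [Group K]

/-- The fiber of the class `(-q, 1)` of `B` with its monodromy. -/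
structure FB (ψ : MulAut K) (q : ℕ) (Y a b : K) (γ : ℕ → K) : Prop where
  bas : Bas (Y :: a :: b :: (List.range (q + 1)).map γ)
  tw : Tw ψ q Y (b ^ 3) γ
  ha : ψ a = γ 0 * a * b⁻¹ * b⁻¹ * a
  hb : ψ b = a⁻¹ * (γ 0)⁻¹

def ZB (q : ℕ) (Y a b : K) (γ : ℕ → K) : K := a⁻¹ * b ^ 2 * Y * DD γ (q + 1) * a * b * Y

def DB (q : ℕ) (Y a b : K) (γ : ℕ → K) : List K := (ZB q Y a b γ)⁻¹ :: UU q Y (b ^ 3) γ

def z0B (y : Fin 4 → K) : K := (y 1)⁻¹ * y 2 ^ 2 * y 0 * y 3 * y 1 * y 2 * y 0

def WC (p : ℕ) (d : K) (e : ℕ → K) : K := d⁻¹ * e p * d * (e 0)⁻¹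

def kC (p : ℕ) (d : K) (e γ : ℕ → K) : K := γ 0 * WC p d e * e 0 * (γ 0 * WC p d e)⁻¹

/-- The fiber of the class `(-p, q, q, 1 + p)` of `C` with its monodromy. -/
structure FC (ψ : MulAut K) (p q : ℕ) (d Y : K) (e γ : ℕ → K) : Prop where
  bas : Bas (d :: Y :: ((List.range (p + 1)).map e ++ (List.range (q + 1)).map γ))
  tw : Tw ψ q Y (WC p d e) γ
  hd : ψ d = d * (e 0)⁻¹ * kC p d e γ
  he : ∀ j < p, ψ (e j) = e (j + 1)
  hp : ψ (e p) = ψ d * kC p d e γ * (ψ d)⁻¹

def ZC (p q : ℕ) (d Y : K) (e γ : ℕ → K) : K :=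
  d * (e 0)⁻¹ * Y * DD γ (q + 1) * (d⁻¹ * e p * d) * Y

def EC (p : ℕ) (d : K) (e : ℕ → K) : K := (DD e (p + 1))⁻¹ * d

def DC (p q : ℕ) (d Y : K) (e γ : ℕ → K) : List K :=
  (ZC p q d Y e γ)⁻¹ :: EC p d e :: ((List.range (p + 1)).map e ++ UU q Y (WC p d e) γ)

def z0C (y : Fin 4 → K) : K := y 0 * (y 2)⁻¹ * y 1 * y 3 * ((y 0)⁻¹ * y 2 * y 0) * y 1

end fam

end Pool.Agent.Lib.MP_14f458_gt
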