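import Mathlib

/-!
Definitions used in the statement for MP_14f458_gt (minimal point of a fibered face).
Everything is expressed through fundamental groups.
-/

namespace Pool.Agent.Lib.MP_14f458_gt

/-- The fundamental group of the orientable surface of genus `g` with `n ≥ 1` punctures: the free
group on `A i`, `B i` (`i < g`) and the loops `C0 j` (`j < n - 1`) around all punctures but one. -/
abbrev Pi1 (g n : ℕ) : Type := FreeGroup (Fin g ⊕ Fin g ⊕ Fin (n - 1))

def A (g n : ℕ) (i : Fin g) : Pi1 g n := FreeGroup.of (Sum.inl i)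

def B (g n : ℕ) (i : Fin g) : Pi1 g n := FreeGroup.of (Sum.inr (Sum.inl i))

def C0 (g n : ℕ) (j : Fin (n - 1)) : Pi1 g n := FreeGroup.of (Sum.inr (Sum.inr j))

/-- The loop around the last puncture, so that `∏ [A i, B i] * ∏ C0 j * cLast = 1`. -/
def cLast (g n : ℕ) : Pi1 g n :=
  ((List.ofFn fun i => A g n i * B g n i * (A g n i)⁻¹ * (B g n i)⁻¹).prod *
    (List.ofFn (C0 g n)).prod)⁻¹

/-- The `n` loops around the punctures. -/
def Bd (g n : ℕ) : Set (Pi1 g n) := Set.range (C0 g n) ∪ {cLast g n}

/-- `φ` permutes the conjugacy classes of the puncture loops (so it is induced by an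
orientation-preserving homeomorphism), and every conjugacy class that is periodic under `φ` is
the class of a power of a puncture loop (so the mapping class is pseudo-Anosov). -/
def IsPA (g n : ℕ) (φ : MulAut (Pi1 g n)) : Prop :=
  (∀ c ∈ Bd g n, ∃ c' ∈ Bd g n, IsConj (φ c) c') ∧
    ∀ (x : Pi1 g n) (m : ℕ), 0 < m → IsConj ((φ ^ m) x) x →
      ∃ c ∈ Bd g n, ∃ k : ℤ, IsConj x (c ^ k)

/-- The fundamental group of the mapping torus of `φ`. -/
abbrev Torus {K : Type} [Group K] (φ : MulAut K) : Type :=
  K ⋊[zpowersHom (MulAut K) φ] Multiplicative ℤ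

variable {G : Type} [Group G]

/-- An integral cohomology class is fibered: nonzero with finitely generated kernel. -/
def Fibered (α : G →* Multiplicative ℤ) : Prop := α ≠ 1 ∧ α.ker.FG

/-- `α` lies in the open fibered cone of `S`: all classes `a S + b α` are fibered. -/
def InCone (S α : G →* Multiplicative ℤ) : Prop :=
  ∀ a b : ℕ, (a ≠ 0 ∨ b ≠ 0) → Fibered (S ^ a * α ^ b)

/-- The Thurston norm of a primitive fibered class: `-χ = b₁ - 1` of the fiber. -/
noncomputable def nrm (α : G →* Multiplicative ℤ) : ℝ :=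
  (Module.finrank ℚ (Additive α.ker →+ ℚ) : ℝ) - 1

/-- `g` has word length at most `r` in the letters of `S` and their inverses. -/
def Len (S : Set G) (g : G) (r : ℝ) : Prop :=
  ∃ l : List G, (∀ s ∈ l, s ∈ S ∨ s⁻¹ ∈ S) ∧ l.prod = g ∧ (l.length : ℝ) ≤ r

/-- The exponents `h` such that word lengths in the fiber group grow at most like `exp (h k)`
under the `k`-th power of the monodromy. -/
def EntSet (α : G →* Multiplicative ℤ) : Set ℝ :=
  {h | ∃ τ : G, α τ = Multiplicative.ofAdd 1 ∧ ∃ S : Finset G,
    Subgroup.closure (S : Set G) = α.ker ∧ ∃ C : ℝ, ∀ s ∈ S, ∀ k : ℕ,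
      Len (S : Set G) (τ ^ k * s * (τ ^ k)⁻¹) (C * Real.exp (h * k))}

/-- The logarithm of the dilatation (growth rate) of the monodromy of a primitive fibered class. -/
noncomputable def ent (α : G →* Multiplicative ℤ) : ℝ := sInf (EntSet α)

/-- The normalized entropy `‖α‖ log λ(α)` on the cone of `S` is minimal at a rational class. -/
def RatMin (S : G →* Multiplicative ℤ) : Prop :=
  ∃ α : G →* Multiplicative ℤ, Function.Surjective α ∧ InCone S α ∧
    ∀ β : G →* Multiplicative ℤ, Function.Surjective β → InCone S β →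
      ent α * nrm α ≤ ent β * nrm β

end Pool.Agent.Lib.MP_14f458_gt
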