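import Pool.Agent.Lib.MP_14f458_gt.Base

/-! The unfolding lemmas of `DD`, `PP` and `Pot` are realised once, in this module. -/

namespace Pool.Agent.Lib.MP_14f458_gt

theorem eqfix1 : True := by have := @DD.eq_def; trivial

theorem eqfix2 : True := by have := @PP.eq_def; trivial

theorem eqfix3 : True := by have := @Pot.eq_def; trivial

end Pool.Agent.Lib.MP_14f458_gt
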