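import Pool.Agent.Lib.MP_14f458_gt.FamC2

namespace Pool.Agent.Lib.MP_14f458_gt

variable {K : Type} [Group K] {ψ : MulAut K} {q : ℕ} {Y a b : K} {γ : ℕ → K}

section words
variable {G : Type} [Group G]

theorem famB_ev0 (y : Fin 4 → G) : ev y (phiB 0) = y 3 * y 2 ^ 3 * y 0 := by
  simp only [phiB, Matrix.cons_val_zero, ev_true, ev_nil, pow_succ, pow_zero, one_mul, mul_one,
    mul_assoc]

theorem famB_ev1 (y : Fin 4 → G) : ev y (phiB 1) = y 3 * y 1 * (y 2)⁻¹ * (y 2)⁻¹ * y 1 := by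
  simp only [phiB, Matrix.cons_val_one, Matrix.cons_val_zero, ev_true, ev_false, ev_nil]
  group

theorem famB_ev2 (y : Fin 4 → G) : ev y (phiB 2) = (y 1)⁻¹ * (y 3)⁻¹ := by
  simp only [phiB, Matrix.cons_val, ev_false, ev_nil]
  group

theorem famB_ev3 (y : Fin 4 → G) : ev y (phiB 3) =
    (y 0)⁻¹ * (y 3 * y 2 ^ 3)⁻¹ * (((y 1)⁻¹ * (y 3)⁻¹) ^ 3)⁻¹ * y 0 := by
  simp only [phiB, Matrix.cons_val, ev_true, ev_false, ev_nil, pow_succ]
  group

end words

theorem famB_exists (h : Bas (Y :: a :: b :: (List.range (q + 1)).map γ)) :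
    ∃ ψ : MulAut K, FB ψ q Y a b γ := by
  set G := (List.range q).map (fun j => γ (j + 1)) with hG
  have hG0 : (List.range (q + 1)).map γ = γ 0 :: G := by
    rw [List.range_succ_eq_map, List.map_cons, List.map_map]; rfl
  set y : Fin 4 → K := ![Y, a, b, γ 0] with hy
  have h0 : Bas (List.ofFn y ++ G) := by
    rw [hG0] at h
    exact h
  have h1 : Bas (ev y (phiB 0) :: ev y (phiB 1) :: ev y (phiB 2) :: ev y (phiB 3) :: G) :=
    h0.words phiB_inv1 phiB_inv2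
  have h2 : Bas (ev y (phiB 0) :: ev y (phiB 1) :: ev y (phiB 2) ::
      (List.range (q + 1)).map (fun j => if j = q then ev y (phiB 3) else γ (j + 1))) := by
    rw [famC1_shift, ← hG]
    exact h1.perm ((((List.perm_append_singleton _ _).symm.cons _).cons _).cons _)
  obtain ⟨ψ, hψ⟩ := h.equiv h2 (by simp)
  simp only [List.map_cons, List.map_map, List.cons.injEq] at hψ
  obtain ⟨hY, ha, hb, hr⟩ := hψ
  have hrg : ∀ j ≤ q, ψ (γ j) = if j = q then ev y (phiB 3) else γ (j + 1) := fun j hj =>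
    List.map_inj_left.1 hr j (List.mem_range.2 (Nat.lt_succ_of_le hj))
  rw [famB_ev0] at hY
  rw [famB_ev1] at ha
  rw [famB_ev2] at hb
  refine ⟨ψ, h, ⟨hY, fun j hj => ?_, ?_⟩, ha, hb⟩
  · rw [hrg j hj.le, if_neg hj.ne]
  · rw [hrg q le_rfl, if_pos rfl, map_pow, hb, famB_ev3]
    rfl

/-- FAMB1. -/
theorem exists_FB (q : ℕ) : ∃ (ψ : MulAut (FreeGroup (Fin (q + 4)))) (Y a b : FreeGroup (Fin (q + 4)))
    (γ : ℕ → FreeGroup (Fin (q + 4))), FB ψ q Y a b γ := by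
  obtain ⟨g, hg⟩ := exists_bas (q + 4)
  have hl : (List.range (q + 4)).map g = g 0 :: g 1 :: g 2 ::
      (List.range (q + 1)).map (fun j => g (3 + j)) := by
    have : List.range (q + 4) = List.range (3 + (q + 1)) := by
      congr 1
      omega
    rw [this, List.range_add]
    simp [List.range_succ, Function.comp_def]
  rw [hl] at hg
  obtain ⟨ψ, hψ⟩ := famB_exists hg
  exact ⟨ψ, _, _, _, _, hψ⟩

theorem FB.pres (h : FB ψ q Y a b γ) :
    Pres phiB ![il ψ Y * tt ψ ^ q, il ψ a, il ψ b, il ψ (γ 0)] (tt ψ) := by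
  set y : Fin 4 → Torus ψ := ![il ψ Y * tt ψ ^ q, il ψ a, il ψ b, il ψ (γ 0)] with hy
  have y0 : y 0 = il ψ Y * tt ψ ^ q := rfl
  have y1 : y 1 = il ψ a := rfl
  have y2 : y 2 = il ψ b := rfl
  have y3 : y 3 = il ψ (γ 0) := rfl
  clear_value y
  have iY : il ψ Y = y 0 * (tt ψ ^ q)⁻¹ := by rw [y0]; group
  have ig : ∀ j ≤ q, il ψ (γ j) = tt ψ ^ j * y 3 * (tt ψ ^ j)⁻¹ := fun j hj => by
    rw [y3, h.tw.il_γ j hj]
  refine ⟨?_, ?_, ?_⟩
  · have r0 : tt ψ * y 0 * (tt ψ)⁻¹ = y 3 * y 2 ^ 3 * y 0 := by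
      have := tt_conj ψ Y
      rw [h.tw.hY, map_mul, map_mul, map_pow, ← y2, ← y3, iY] at this
      calc tt ψ * y 0 * (tt ψ)⁻¹
          = (tt ψ * (y 0 * (tt ψ ^ q)⁻¹) * (tt ψ)⁻¹) * tt ψ ^ q := by group
        _ = y 3 * y 2 ^ 3 * y 0 := by rw [this]; group
    have r1 : tt ψ * y 1 * (tt ψ)⁻¹ = y 3 * y 1 * (y 2)⁻¹ * (y 2)⁻¹ * y 1 := by
      rw [y1, y2, y3, tt_conj, h.ha]; simp
    have r2 : tt ψ * y 2 * (tt ψ)⁻¹ = (y 1)⁻¹ * (y 3)⁻¹ := by
      rw [y1, y2, y3, tt_conj, h.hb]; simp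
    have r3 : tt ψ * y 3 * (tt ψ)⁻¹ =
        (y 0)⁻¹ * (y 3 * y 2 ^ 3)⁻¹ * (((y 1)⁻¹ * (y 3)⁻¹) ^ 3)⁻¹ * y 0 := by
      have := tt_conj ψ (γ q)
      rw [h.tw.hq, map_pow, h.hb] at this
      simp only [map_mul, map_inv, map_pow] at this
      rw [← y1, ← y2, ← y3, iY, ig q le_rfl] at this
      calc tt ψ * y 3 * (tt ψ)⁻¹ = (tt ψ ^ q)⁻¹ *
            (tt ψ * (tt ψ ^ q * y 3 * (tt ψ ^ q)⁻¹) * (tt ψ)⁻¹) * tt ψ ^ q := by group
        _ = _ := by
          rw [this]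
          generalize ((y 1)⁻¹ * (y 3)⁻¹) ^ 3 = w
          group
    intro i
    fin_cases i
    · exact r0.trans (famB_ev0 y).symm
    · exact r1.trans (famB_ev1 y).symm
    · exact r2.trans (famB_ev2 y).symm
    · exact r3.trans (famB_ev3 y).symm
  · set S := Subgroup.closure (Set.range y ∪ {tt ψ}) with hS
    have ht : tt ψ ∈ S := Subgroup.subset_closure (Or.inr rfl)
    have hyS : ∀ i, y i ∈ S := fun i => Subgroup.subset_closure (Or.inl ⟨i, rfl⟩)
    refine torus_gen ψ S (fun k => ?_) ht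
    have : (⊤ : Subgroup K) ≤ S.comap (il ψ) := by
      rw [← h.bas.gen, Subgroup.closure_le]
      intro x hx
      simp only [Set.mem_ofPred_eq, List.mem_cons, List.mem_map, List.mem_range] at hx
      rw [SetLike.mem_coe, Subgroup.mem_comap]
      rcases hx with rfl | rfl | rfl | ⟨j, hj, rfl⟩
      · rw [iY]
        exact mul_mem (hyS _) (inv_mem (pow_mem ht _))
      · rw [← y1]; exact hyS _
      · rw [← y2]; exact hyS _
      · rw [ig j (Nat.le_of_lt_succ hj)]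
        exact mul_mem (mul_mem (pow_mem ht _) (hyS _)) (inv_mem (pow_mem ht _))
    exact this (Subgroup.mem_top k)
  · intro H _ z s hs
    have r0 := (hs 0).trans (famB_ev0 z)
    have r1 := (hs 1).trans (famB_ev1 z)
    have r2 := (hs 2).trans (famB_ev2 z)
    have r3 := (hs 3).trans (famB_ev3 z)
    obtain ⟨f, hf⟩ := h.bas.univ H ((z 0 * (s ^ q)⁻¹) :: z 1 :: z 2 ::
      (List.range (q + 1)).map (fun j => s ^ j * z 3 * (s ^ j)⁻¹)) (by simp)
    simp only [List.map_cons, List.map_map, List.cons.injEq] at hf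
    obtain ⟨fY, fa, fb, hr⟩ := hf
    have fg : ∀ j ≤ q, f (γ j) = s ^ j * z 3 * (s ^ j)⁻¹ := fun j hj =>
      List.map_inj_left.1 hr j (List.mem_range.2 (Nat.lt_succ_of_le hj))
    have fg0 : f (γ 0) = z 3 := by simpa using fg 0 (Nat.zero_le _)
    have key : f.comp ψ.toMonoidHom = (MulAut.conj s).toMonoidHom.comp f := by
      refine h.bas.ext fun x hx => ?_
      show f (ψ x) = s * f x * s⁻¹
      simp only [List.mem_cons, List.mem_map, List.mem_range] at hx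
      rcases hx with rfl | rfl | rfl | ⟨j, hj, rfl⟩
      · rw [h.tw.hY, map_mul, map_mul, map_pow, fb, fg0, fY, ← mul_assoc, ← r0]
        group
      · rw [h.ha, fa, r1]; simp [fa, fb, fg0]
      · rw [h.hb, fb, r2]; simp [fa, fg0]
      · rcases (Nat.le_of_lt_succ hj).lt_or_eq with hj' | rfl
        · rw [h.tw.hγ j hj', fg j hj'.le, fg (j + 1) hj', pow_succ']
          group
        · rw [h.tw.hq, map_pow, h.hb]
          simp only [map_mul, map_inv, map_pow]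
          rw [fa, fb, fg0, fY, fg j le_rfl]
          revert r3
          generalize ((z 1)⁻¹ * (z 3)⁻¹) ^ 3 = w
          intro r3
          calc _ = s ^ j * ((z 0)⁻¹ * (z 3 * z 2 ^ 3)⁻¹ * w⁻¹ * z 0) * (s ^ j)⁻¹ := by group
            _ = _ := by rw [← r3]; group
    obtain ⟨F, hF, hFt⟩ := torus_lift ψ f s fun k => DFunLike.congr_fun key k
    refine ⟨F, fun i => ?_, hFt⟩
    fin_cases i
    · show F (y 0) = z 0
      rw [y0, map_mul, map_pow, hF, hFt, fY]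
      group
    · show F (y 1) = z 1
      rw [y1, hF, fa]
    · show F (y 2) = z 2
      rw [y2, hF, fb]
    · show F (y 3) = z 3
      rw [y3, hF, fg0]

theorem famB_map_f (h : FB ψ q Y a b γ) : ψ (a * b * Y) = γ 0 * (a * b * Y) := by
  rw [map_mul, map_mul, h.ha, h.hb, h.tw.hY]
  group

theorem famB_map_Z (h : FB ψ q Y a b γ) : ψ (ZB q Y a b γ) = ZB q Y a b γ := by
  have e2 : ψ (DD γ (q + 1)) = ψ (γ q) * DD γ (q + 1) * (γ 0)⁻¹ := by
    rw [← h.tw.map_DD]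
    group
  have e3 : ψ (γ q) = (ψ Y)⁻¹ * ((ψ b ^ 3)⁻¹ * Y) := by
    rw [← map_pow, ← h.tw.map_Y_γ]
    group
  have e4 : ZB q Y a b γ = a⁻¹ * b ^ 2 * Y * DD γ (q + 1) * (a * b * Y) := by
    unfold ZB
    group
  have e5 : (ψ a)⁻¹ * (ψ b)⁻¹ = a⁻¹ * b ^ 2 := by
    rw [h.ha, h.hb]
    group
  rw [e4, map_mul, famB_map_f h, map_mul, map_mul, map_mul, map_inv, map_pow, e2, e3, ← e5]
  group

theorem FB.perm (h : FB ψ q Y a b γ) :
    ∀ x ∈ DB q Y a b γ, ∃ x' ∈ DB q Y a b γ, IsConj (ψ x) x' := by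
  intro x hx
  rcases List.mem_cons.1 hx with rfl | hx
  · refine ⟨_, List.mem_cons_self, ?_⟩
    rw [map_inv, famB_map_Z h]
  · obtain ⟨x', hx', hc⟩ := h.tw.perm x hx
    exact ⟨x', List.mem_cons_of_mem _ hx', hc⟩

theorem famB_il_Z (h : FB ψ q Y a b γ) :
    il ψ (ZB q Y a b γ) = z0B ![il ψ Y * tt ψ ^ q, il ψ a, il ψ b, il ψ (γ 0)] *
      (tt ψ ^ q)⁻¹ * (tt ψ ^ q)⁻¹ := by
  have e1 : tt ψ * (il ψ (a * b * Y) * tt ψ ^ q) * (tt ψ)⁻¹ =
      il ψ (γ 0) * (il ψ (a * b * Y) * tt ψ ^ q) := by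
    rw [← mul_assoc (il ψ (γ 0)), ← map_mul, ← famB_map_f h, ← tt_conj]
    group
  have e2 := famC2_shift e1 q
  have e3 : ZB q Y a b γ = a⁻¹ * b ^ 2 * Y * (DD γ (q + 1) * (a * b * Y)) := by
    unfold ZB
    group
  have e4 : il ψ (DD γ (q + 1) * (a * b * Y)) =
      tt ψ ^ q * ((il ψ (γ 0) * (tt ψ)⁻¹) ^ q *
        (il ψ (γ 0) * (il ψ (a * b * Y) * tt ψ ^ q))) * (tt ψ ^ q)⁻¹ := by
    rw [map_mul, h.tw.il_DD]
    generalize (il ψ (γ 0) * (tt ψ)⁻¹) ^ q = z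
    group
  rw [e3, map_mul, e4, e2]
  simp only [z0B, Matrix.cons_val_zero, Matrix.cons_val_one, Matrix.cons_val, map_mul, map_inv,
    map_pow]
  group

theorem FB.ator (h : FB ψ q Y a b γ) : Ator ψ (DB q Y a b γ) := by
  intro u v huv hu hv hu1
  rcases atorB h.pres (rh ψ) huv hu hv hu1 with hc | hc
  · have e1 := famB_il_Z h
    generalize z0B ![il ψ Y * tt ψ ^ q, il ψ a, il ψ b, il ψ (γ 0)] = z at hc e1
    have e2 : z ^ (1 : ℤ) * tt ψ ^ (-(2 * q : ℤ)) = il ψ (ZB q Y a b γ) := by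
      rw [e1]
      group
    obtain ⟨k, hk⟩ := hc.2 1 (-(2 * q : ℤ)) isCoprime_one_left (by rw [e2]; simp)
    rw [e2] at hk
    refine ⟨_, List.mem_cons_self, -k, ?_⟩
    rwa [map_inv, inv_zpow, zpow_neg, inv_inv]
  · obtain ⟨x, hx, k, hk⟩ := h.tw.cusp hc
    exact ⟨x, List.mem_cons_of_mem _ hx, k, hk⟩

theorem famB_bas (h : FB ψ q Y a b γ) :
    Bas (Y :: (γ 0 * b ^ 3) :: ((List.range q).map (fun j => γ (j + 1)) ++
      [(b * Y)⁻¹, (b ^ 2)⁻¹ * a])) := by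
  set G := (List.range q).map (fun j => γ (j + 1)) with hG
  have hG0 : (List.range (q + 1)).map γ = γ 0 :: G := by
    rw [List.range_succ_eq_map, List.map_cons, List.map_map]; rfl
  have b0 := h.bas
  rw [hG0] at b0
  have b1 : Bas ([Y, a, b] ++ (γ 0 * b ^ 3) :: G) :=
    shuffle_mv [Y, a, b] G (u := 1) (v := b ^ 3) b0 (one_mem _)
      (pow_mem (mem_Gen (by simp)) _) (by group)
  have b2 : Bas ([Y] ++ ((b ^ 2)⁻¹ * a) :: b :: (γ 0 * b ^ 3) :: G) :=
    shuffle_mv [Y] _ (u := (b ^ 2)⁻¹) (v := 1) b1 (inv_mem (pow_mem (mem_Gen (by simp)) _))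
      (one_mem _) (by group)
  have b3 : Bas ([Y, (b ^ 2)⁻¹ * a] ++ (b * Y) :: (γ 0 * b ^ 3) :: G) :=
    shuffle_mv [Y, (b ^ 2)⁻¹ * a] _ (u := 1) (v := Y) b2 (one_mem _) (mem_Gen (by simp))
      (by group)
  refine (b3.perm List.perm_middle).inv.perm ?_
  classical
  rw [List.perm_iff_count]
  intro x
  simp only [List.count_cons, List.count_append, List.count_nil]
  omega

theorem FB.sys (h : FB ψ q Y a b γ) : Sys ((q + 1) / 2 + 1) (3 - q % 2) (DB q Y a b γ) := by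
  obtain ⟨as, bs, us, ha, hb, hU, hB, hZ⟩ := core q Y (b ^ 3) γ _ (famB_bas h)
  have hlen : us.length = 2 - q % 2 := by
    rw [← hU.length_eq]
    unfold UU
    split_ifs with hq
    · simp [hq]
    · have : q % 2 = 1 := by omega
      simp [this]
  have hZ' : IsConj (ZB q Y a b γ)⁻¹
      (comm ((b * Y)⁻¹ :: as) (((b ^ 2)⁻¹ * a) :: bs) * us.prod)⁻¹ := by
    refine isConj_iff.2 ⟨(b * Y)⁻¹ * ((b ^ 2)⁻¹ * a) * (b * Y), ?_⟩
    rw [shuffle_comm_cons, mul_assoc _ (comm as bs), ← hZ]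
    unfold ZB
    group
  refine sys_of_bas _ _ ((b * Y)⁻¹ :: as) (((b ^ 2)⁻¹ * a) :: bs) us _ (hB.perm ?_)
    (by simp [ha]) (by simp [hb]) (by omega) ?_ ?_
  · classical
    rw [List.perm_iff_count]
    intro x
    simp only [List.count_cons, List.count_append, List.count_nil]
    omega
  · intro c hc
    rcases List.mem_cons.mp hc with rfl | hc
    · exact ⟨_, List.mem_cons_self, hZ'⟩
    · obtain ⟨x, hx, hr⟩ := famC2_right hU c hc
      exact ⟨x, List.mem_cons_of_mem _ hx, hr⟩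
  · intro x hx
    rcases List.mem_cons.mp hx with rfl | hx
    · exact ⟨_, List.mem_cons_self, hZ'⟩
    · obtain ⟨c, hc, hr⟩ := famC2_left hU x hx
      exact ⟨c, List.mem_cons_of_mem _ hc, hr⟩

end Pool.Agent.Lib.MP_14f458_gt
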