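import Pool.Agent.Lib.MP_14f458_gt.Small
import Pool.Agent.Lib.MP_14f458_gt.EqFix

namespace Pool.Agent.Lib.MP_14f458_gt

variable {K : Type} [Group K] {ψ : MulAut K} {q : ℕ} {Y W : K} {γ : ℕ → K}

theorem tw_PP_succ (W : K) (γ : ℕ → K) (j : ℕ) : PP W γ (j + 2) = γ j * PP W γ j := rfl

theorem tw_DD_succ (γ : ℕ → K) (j : ℕ) : DD γ (j + 1) = γ j * DD γ j := rfl

theorem Tw.map_PP_odd (h : Tw ψ q Y W γ) (i : ℕ) (hi : 2 * i ≤ q) :
    ψ (PP W γ (2 * i + 1)) = PP W γ (2 * i + 2) * (γ 0 * W)⁻¹ := by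
  induction i with
  | zero => simp [PP]
  | succ i ih =>
    have e1 : 2 * (i + 1) + 1 = 2 * i + 1 + 2 := by ring
    have e2 : 2 * (i + 1) + 2 = 2 * i + 2 + 2 := by ring
    rw [e1, e2, tw_PP_succ, tw_PP_succ W γ (2 * i + 2), map_mul, ih (by omega),
      h.hγ _ (by omega)]
    group

theorem Tw.map_PP_even (h : Tw ψ q Y W γ) (i : ℕ) (hi : 2 * i ≤ q + 1) :
    ψ (PP W γ (2 * i)) = PP W γ (2 * i + 1) * ψ W := by
  induction i with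
  | zero => simp [PP]
  | succ i ih =>
    have e1 : 2 * (i + 1) = 2 * i + 2 := by ring
    have e2 : 2 * i + 2 + 1 = 2 * i + 1 + 2 := by ring
    rw [e1, e2, tw_PP_succ, tw_PP_succ W γ (2 * i + 1), map_mul, ih (by omega),
      h.hγ _ (by omega)]
    group

theorem Tw.map_Y_γ (h : Tw ψ q Y W γ) : ψ Y * ψ (γ q) = (ψ W)⁻¹ * Y := by
  rw [h.hY, h.hq]; group

/-- TW. The monodromy permutes the boundary classes of the twisted cusp. -/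
theorem Tw.perm (h : Tw ψ q Y W γ) : ∀ x ∈ UU q Y W γ, ∃ x' ∈ UU q Y W γ, IsConj (ψ x) x' := by
  intro x hx
  rcases Nat.even_or_odd' q with ⟨i, hq | hq⟩
  · have hm : q % 2 = 0 := by omega
    simp only [UU, hm, if_true, List.mem_cons, List.not_mem_nil, or_false] at hx ⊢
    rcases hx with rfl | rfl
    · refine ⟨_, Or.inr rfl, isConj_iff.2 ⟨(γ 0 * W)⁻¹, ?_⟩⟩
      have e := h.map_PP_odd i (by omega)
      rw [← hq] at e
      rw [map_mul, e, h.hY]; group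
    · refine ⟨_, Or.inl rfl, isConj_iff.2 ⟨ψ W, ?_⟩⟩
      have e := h.map_PP_even i (by omega)
      rw [← hq] at e
      rw [tw_PP_succ, map_mul, map_mul, ← mul_assoc (ψ Y), h.map_Y_γ, e]; group
  · have hm : ¬ q % 2 = 0 := by omega
    simp only [UU, hm, if_false, List.mem_cons, List.not_mem_nil, or_false] at hx ⊢
    subst hx
    refine ⟨_, rfl, isConj_iff.2 ⟨Y * PP W γ (q + 2) * ψ W, ?_⟩⟩
    have e1 := h.map_PP_odd i (by omega)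
    have e2 := h.map_PP_even (i + 1) (by omega)
    have a1 : 2 * i + 2 = q + 1 := by omega
    have a2 : 2 * (i + 1) = q + 1 := by omega
    rw [a1, ← hq] at e1
    rw [a2] at e2
    have e3 : ψ (Y * PP W γ (q + 2)) = (ψ W)⁻¹ * Y * (PP W γ (q + 1) * (γ 0 * W)⁻¹) := by
      rw [tw_PP_succ, map_mul, map_mul, ← mul_assoc (ψ Y), h.map_Y_γ, e1]
    rw [map_mul, e3, map_mul, e2, h.hY]; group

theorem Tw.il_γ (h : Tw ψ q Y W γ) (j : ℕ) (hj : j ≤ q) :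
    il ψ (γ j) = tt ψ ^ j * il ψ (γ 0) * (tt ψ ^ j)⁻¹ := by
  induction j with
  | zero => simp
  | succ j ih =>
    rw [← h.hγ j (by omega), ← tt_conj, ih (by omega)]; group

theorem Tw.il_DD_aux (h : Tw ψ q Y W γ) (j : ℕ) (hj : j ≤ q) :
    il ψ (DD γ (j + 1)) = tt ψ ^ j * (il ψ (γ 0) * (tt ψ)⁻¹) ^ j * il ψ (γ 0) := by
  induction j with
  | zero => simp [DD]
  | succ j ih =>
    rw [tw_DD_succ, map_mul, ih (by omega), h.il_γ _ hj, pow_succ' (il ψ (γ 0) * (tt ψ)⁻¹)]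
    generalize (il ψ (γ 0) * (tt ψ)⁻¹) ^ j = z
    group

theorem Tw.il_DD (h : Tw ψ q Y W γ) :
    il ψ (DD γ (q + 1)) = tt ψ ^ q * (il ψ (γ 0) * (tt ψ)⁻¹) ^ q * il ψ (γ 0) :=
  h.il_DD_aux q le_rfl

theorem Tw.map_DD_aux (h : Tw ψ q Y W γ) (j : ℕ) (hj : j ≤ q) :
    ψ (DD γ (j + 1)) * γ 0 = ψ (γ j) * DD γ (j + 1) := by
  induction j with
  | zero => simp [DD]
  | succ j ih =>
    rw [tw_DD_succ γ (j + 1), map_mul, mul_assoc, ih (by omega), h.hγ j (by omega)]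

theorem Tw.map_DD (h : Tw ψ q Y W γ) : ψ (DD γ (q + 1)) * γ 0 = ψ (γ q) * DD γ (q + 1) :=
  h.map_DD_aux q le_rfl

theorem Tw.il_PP_odd (h : Tw ψ q Y W γ) (i : ℕ) (hi : 2 * i ≤ q + 1) :
    il ψ (PP W γ (2 * i + 1)) =
      tt ψ ^ (2 * i) * ((tt ψ)⁻¹ * il ψ (γ 0) * (tt ψ)⁻¹) ^ i := by
  induction i with
  | zero => simp [PP]
  | succ i ih =>
    have e1 : 2 * (i + 1) + 1 = 2 * i + 1 + 2 := by ring
    rw [e1, tw_PP_succ, map_mul, ih (by omega), h.il_γ _ (by omega),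
      pow_succ' ((tt ψ)⁻¹ * il ψ (γ 0) * (tt ψ)⁻¹)]
    generalize ((tt ψ)⁻¹ * il ψ (γ 0) * (tt ψ)⁻¹) ^ i = z
    group

theorem Tw.il_PP_even (h : Tw ψ q Y W γ) (i : ℕ) (hi : 2 * i ≤ q) :
    il ψ (PP W γ (2 * i + 2)) =
      tt ψ ^ (2 * i + 1) * ((tt ψ)⁻¹ * il ψ (γ 0) * (tt ψ)⁻¹) ^ (i + 1) * tt ψ * il ψ W := by
  induction i with
  | zero => simp [PP, mul_assoc]
  | succ i ih =>
    have e1 : 2 * (i + 1) + 2 = 2 * i + 2 + 2 := by ring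
    rw [e1, tw_PP_succ, map_mul, ih (by omega), h.il_γ _ (by omega),
      pow_succ' ((tt ψ)⁻¹ * il ψ (γ 0) * (tt ψ)⁻¹) (i + 1)]
    generalize ((tt ψ)⁻¹ * il ψ (γ 0) * (tt ψ)⁻¹) ^ (i + 1) = z
    group

/-- TW. Elements of the fiber group in the twisted cusp. -/
theorem Tw.cusp (h : Tw ψ q Y W γ) {u : Torus ψ}
    (hu : Cusp (rh ψ) (il ψ Y * tt ψ ^ q) (tt ψ * (il ψ (γ 0))⁻¹ * tt ψ) u) :
    ∃ x ∈ UU q Y W γ, ∃ k : ℤ, IsConj u (il ψ x ^ k) := by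
  have hs : (tt ψ)⁻¹ * il ψ (γ 0) * (tt ψ)⁻¹ = (tt ψ * (il ψ (γ 0))⁻¹ * tt ψ)⁻¹ := by group
  rcases Nat.even_or_odd' q with ⟨i, hq | hq⟩
  · have hm : q % 2 = 0 := by omega
    have e := h.il_PP_odd i (by omega)
    rw [← hq, hs] at e
    have e' : (il ψ Y * tt ψ ^ q) ^ (1 : ℤ) * (tt ψ * (il ψ (γ 0))⁻¹ * tt ψ) ^ (-(i : ℤ)) =
        il ψ (Y * PP W γ (q + 1)) := by
      rw [map_mul, e, zpow_one, zpow_neg, zpow_natCast, inv_pow, mul_assoc]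
    obtain ⟨k, hk⟩ := hu.2 1 (-(i : ℤ)) isCoprime_one_left (by rw [e']; simp)
    rw [e'] at hk
    exact ⟨Y * PP W γ (q + 1), by simp [UU, hm], k, hk⟩
  · have hm : ¬ q % 2 = 0 := by omega
    have e1 := h.il_PP_odd (i + 1) (by omega)
    have e2 := h.il_PP_even i (by omega)
    have a1 : 2 * (i + 1) + 1 = q + 2 := by omega
    have a2 : 2 * (i + 1) = q + 1 := by omega
    have a3 : 2 * i + 2 = q + 1 := by omega
    rw [a1, a2, hs] at e1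
    rw [a3, ← hq, hs] at e2
    have hc := hu.1
    have hY : tt ψ * il ψ Y * (tt ψ)⁻¹ = il ψ (γ 0) * il ψ W * il ψ Y := by
      rw [tt_conj, h.hY, map_mul, map_mul]
    have hW : tt ψ * il ψ W * (il ψ Y * tt ψ ^ q) * tt ψ =
        (tt ψ * (il ψ (γ 0))⁻¹ * tt ψ) * (il ψ Y * tt ψ ^ q) := by
      have : il ψ W = (il ψ (γ 0))⁻¹ * (tt ψ * il ψ Y * (tt ψ)⁻¹) * (il ψ Y)⁻¹ := by
        rw [hY]; group
      rw [this]; group
    have e' : (il ψ Y * tt ψ ^ q) ^ (2 : ℤ) * (tt ψ * (il ψ (γ 0))⁻¹ * tt ψ) ^ (-(q : ℤ)) =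
        (tt ψ * il ψ W) * il ψ (Y * PP W γ (q + 2) * (Y * PP W γ (q + 1))) *
          (tt ψ * il ψ W)⁻¹ := by
      have b1 : (tt ψ * il ψ W) * il ψ (Y * PP W γ (q + 2) * (Y * PP W γ (q + 1))) *
          (tt ψ * il ψ W)⁻¹ = (tt ψ * il ψ W * (il ψ Y * tt ψ ^ q) * tt ψ) *
            ((tt ψ * (il ψ (γ 0))⁻¹ * tt ψ)⁻¹ ^ (i + 1) * (il ψ Y * tt ψ ^ q)) *
              (tt ψ * (il ψ (γ 0))⁻¹ * tt ψ)⁻¹ ^ (i + 1) := by
        rw [map_mul, map_mul, map_mul, e1, e2]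
        generalize (tt ψ * (il ψ (γ 0))⁻¹ * tt ψ)⁻¹ ^ (i + 1) = z
        group
      rw [b1, hW]
      generalize il ψ Y * tt ψ ^ q = c at hc ⊢
      generalize tt ψ * (il ψ (γ 0))⁻¹ * tt ψ = s at hc ⊢
      rw [← (hc.inv_right.pow_right (i + 1)).eq, ← hc.eq]
      have b2 : c * s * (c * s⁻¹ ^ (i + 1)) = c * c * (s * s⁻¹ ^ (i + 1)) := by
        rw [mul_assoc c s, ← mul_assoc s c, ← hc.eq]; group
      rw [b2, hq, zpow_two]
      push_cast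
      group
    have hcop : IsCoprime (2 : ℤ) (-(q : ℤ)) := ⟨-(i : ℤ), -1, by rw [hq]; push_cast; ring⟩
    obtain ⟨k, hk⟩ := hu.2 2 (-(q : ℤ)) hcop (by rw [e']; simp)
    rw [e', conj_zpow] at hk
    refine ⟨Y * PP W γ (q + 2) * (Y * PP W γ (q + 1)), by simp [UU, hm], k,
      hk.trans (isConj_iff.2 ⟨(tt ψ * il ψ W)⁻¹, ?_⟩)⟩
    generalize il ψ (Y * PP W γ (q + 2) * (Y * PP W γ (q + 1))) ^ k = z
    group

end Pool.Agent.Lib.MP_14f458_gt
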