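import Pool.Agent.Lib.MP_14f458_gt.BasL
import Pool.Agent.Lib.MP_14f458_gt.TwL
import Pool.Agent.Lib.MP_14f458_gt.Chk

namespace Pool.Agent.Lib.MP_14f458_gt

variable {K : Type} [Group K] {ψ : MulAut K} {p q : ℕ} {d Y : K} {e γ : ℕ → K}

/-- The sequence of elementary moves. -/
theorem famC1_moves {d Y e0 g0 ep : K} {R : List K} (h : Bas (g0 :: d :: Y :: e0 :: R))
    (hep : ep ∈ Gen (e0 :: R)) {H k d' e' e1 : K} (hH : H = g0 * (d⁻¹ * ep * d * e0⁻¹))
    (hk : k = H * e0 * H⁻¹) (hd' : d' = d * e0⁻¹ * k) (he' : e' = d' * k * d'⁻¹)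
    (he1 : e1 ∈ Gen (e' :: R)) :
    Bas ((Y⁻¹ * H⁻¹ * (k * e1⁻¹)⁻¹ * Y) :: e' :: d' :: (H * Y) :: R) := by
  have h1 : Bas (H :: d :: Y :: e0 :: R) := by
    have hd : d ∈ Gen (d :: Y :: e0 :: R) := mem_Gen (by simp)
    have he0 : e0 ∈ Gen (d :: Y :: e0 :: R) := mem_Gen (by simp)
    have hep' : ep ∈ Gen (d :: Y :: e0 :: R) :=
      Gen_mono (List.subset_cons_of_subset _ (List.subset_cons_self _ _)) hep
    have := h.repl (one_mem _)
      (mul_mem (mul_mem (mul_mem (inv_mem hd) hep') hd) (inv_mem he0))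
    rwa [one_mul, ← hH] at this
  have h2 : Bas ((H * Y) :: H :: d :: e0 :: R) := by
    have h' : Bas (Y :: H :: d :: e0 :: R) :=
      h1.perm (((List.Perm.swap _ _ _).cons _).trans (List.Perm.swap _ _ _))
    have := h'.repl (u := H) (mem_Gen (by simp)) (one_mem _)
    rwa [mul_one] at this
  have h3 : Bas (k :: (H * Y) :: H :: d :: R) := by
    have h' : Bas (e0 :: (H * Y) :: H :: d :: R) :=
      h2.perm (List.perm_middle (l₁ := [H * Y, H, d]) (l₂ := R))
    have hH' : H ∈ Gen ((H * Y) :: H :: d :: R) := mem_Gen (by simp)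
    have := h'.repl hH' (inv_mem hH')
    rwa [← hk] at this
  have h4 : Bas (d' :: k :: (H * Y) :: H :: R) := by
    have h' : Bas (d :: k :: (H * Y) :: H :: R) :=
      h3.perm (List.perm_middle (l₁ := [k, H * Y, H]) (l₂ := R))
    have hH' : H ∈ Gen (k :: (H * Y) :: H :: R) := mem_Gen (by simp)
    have hk' : k ∈ Gen (k :: (H * Y) :: H :: R) := mem_Gen (by simp)
    have := h'.repl (one_mem _)
      (mul_mem (mul_mem (mul_mem (inv_mem hH') (inv_mem hk')) hH') hk')
    have e1 : 1 * d * (H⁻¹ * k⁻¹ * H * k) = d' := by rw [hd', hk]; group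
    rwa [e1] at this
  have h5 : Bas (e' :: d' :: (H * Y) :: H :: R) := by
    have h' : Bas (k :: d' :: (H * Y) :: H :: R) := h4.perm (List.Perm.swap _ _ _)
    have hd : d' ∈ Gen (d' :: (H * Y) :: H :: R) := mem_Gen (by simp)
    have := h'.repl hd (inv_mem hd)
    rwa [← he'] at this
  have h' : Bas (H⁻¹ :: e' :: d' :: (H * Y) :: R) :=
    (h5.perm (List.perm_middle (l₁ := [e', d', H * Y]) (l₂ := R))).inv
  have hd : d' ∈ Gen (e' :: d' :: (H * Y) :: R) := mem_Gen (by simp)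
  have he : e' ∈ Gen (e' :: d' :: (H * Y) :: R) := mem_Gen (by simp)
  have hY : H * Y ∈ Gen (e' :: d' :: (H * Y) :: R) := mem_Gen (by simp)
  have he1' : e1 ∈ Gen (e' :: d' :: (H * Y) :: R) :=
    Gen_mono (List.cons_subset_cons _
      (List.subset_cons_of_subset _ (List.subset_cons_self _ _))) he1
  have := h'.repl (mul_mem (mul_mem (inv_mem hY) he1')
    (mul_mem (mul_mem (inv_mem hd) (inv_mem he)) hd)) hY
  have e2 : (H * Y)⁻¹ * e1 * (d'⁻¹ * e'⁻¹ * d') * H⁻¹ * (H * Y) =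
      Y⁻¹ * H⁻¹ * (k * e1⁻¹)⁻¹ * Y := by rw [he']; group
  rwa [e2] at this

omit [Group K] in
theorem famC1_shift (f : ℕ → K) (n : ℕ) (x : K) :
    (List.range (n + 1)).map (fun j => if j = n then x else f (j + 1)) =
      (List.range n).map (fun j => f (j + 1)) ++ [x] := by
  rw [List.range_succ, List.map_append]
  congr 1
  · refine List.map_congr_left fun j hj => ?_
    rw [if_neg (List.mem_range.1 hj).ne]
  · simp

theorem famC1_exists (h : Bas (d :: Y :: ((List.range (p + 1)).map e ++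
    (List.range (q + 1)).map γ))) : ∃ ψ : MulAut K, FC ψ p q d Y e γ := by
  set E := (List.range p).map (fun j => e (j + 1)) with hE
  set G := (List.range q).map (fun j => γ (j + 1)) with hG
  have hE0 : (List.range (p + 1)).map e = e 0 :: E := by
    rw [List.range_succ_eq_map, List.map_cons, List.map_map]; rfl
  have hG0 : (List.range (q + 1)).map γ = γ 0 :: G := by
    rw [List.range_succ_eq_map, List.map_cons, List.map_map]; rfl
  have h0 : Bas (γ 0 :: d :: Y :: e 0 :: (E ++ G)) := by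
    rw [hE0, hG0] at h
    exact h.perm (List.perm_middle (l₁ := d :: Y :: e 0 :: E) (l₂ := G))
  have hep : e p ∈ Gen (e 0 :: (E ++ G)) := by
    apply mem_Gen
    have : e p ∈ e 0 :: E := by
      rw [← hE0]
      exact List.mem_map.2 ⟨p, by simp, rfl⟩
    exact List.mem_append_left G this
  set k := kC p d e γ with hk
  set d' := d * (e 0)⁻¹ * k with hd'
  set e' := d' * k * d'⁻¹ with he'
  set e1 : K := if 0 = p then e' else e 1 with he1
  have he1m : e1 ∈ Gen (e' :: (E ++ G)) := by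
    apply mem_Gen
    rw [he1]
    split_ifs with hp
    · simp
    · refine List.mem_cons_of_mem _ (List.mem_append_left G ?_)
      exact List.mem_map.2 ⟨0, List.mem_range.2 (Nat.pos_of_ne_zero (Ne.symm hp)), rfl⟩
  have h1 := famC1_moves (H := γ 0 * WC p d e) (k := k) (d' := d') (e' := e') h0 hep rfl rfl rfl
    rfl he1m
  set g' := Y⁻¹ * (γ 0 * WC p d e)⁻¹ * (k * e1⁻¹)⁻¹ * Y with hg'
  have h2 : Bas (d' :: (γ 0 * WC p d e * Y) ::
      ((List.range (p + 1)).map (fun j => if j = p then e' else e (j + 1)) ++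
        (List.range (q + 1)).map (fun j => if j = q then g' else γ (j + 1)))) := by
    rw [famC1_shift, famC1_shift, ← hE, ← hG]
    refine h1.perm ?_
    have a1 : (E ++ [e'] ++ (G ++ [g'])).Perm (g' :: e' :: (E ++ G)) := by
      rw [← List.append_assoc]
      refine (List.perm_append_singleton _ _).trans (List.Perm.cons _ ?_)
      rw [List.append_assoc]
      exact List.perm_middle
    refine List.Perm.trans ?_ ((a1.symm.cons _).cons _)
    exact List.perm_append_comm (l₁ := [g', e']) (l₂ := [d', γ 0 * WC p d e * Y]) |>.append_right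
      (E ++ G)
  obtain ⟨ψ, hψ⟩ := h.equiv h2 (by simp)
  simp only [List.map_cons, List.map_append, List.map_map, List.cons.injEq] at hψ
  obtain ⟨hd, hY, hr⟩ := hψ
  obtain ⟨hre, hrg⟩ := List.append_inj hr (by simp)
  have hre' : ∀ j ≤ p, ψ (e j) = if j = p then e' else e (j + 1) := fun j hj =>
    List.map_inj_left.1 hre j (List.mem_range.2 (Nat.lt_succ_of_le hj))
  have hrg' : ∀ j ≤ q, ψ (γ j) = if j = q then g' else γ (j + 1) := fun j hj =>
    List.map_inj_left.1 hrg j (List.mem_range.2 (Nat.lt_succ_of_le hj))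
  have hpp : ψ (e p) = e' := by rw [hre' p le_rfl, if_pos rfl]
  have h00 : ψ (e 0) = e1 := hre' 0 (Nat.zero_le _)
  have hW : ψ (WC p d e) = k * e1⁻¹ := by
    rw [WC, map_mul, map_mul, map_mul, map_inv, map_inv, hd, hpp, h00, he']
    group
  refine ⟨ψ, h, ⟨hY, fun j hj => ?_, ?_⟩, hd, fun j hj => ?_, ?_⟩
  · rw [hrg' j hj.le, if_neg hj.ne]
  · rw [hrg' q le_rfl, if_pos rfl, hW]
  · rw [hre' j hj.le, if_neg hj.ne]
  · rw [hpp, hd]

/-- FAMC1. -/
theorem exists_FC (p q : ℕ) : ∃ (ψ : MulAut (FreeGroup (Fin (p + q + 4))))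
    (d Y : FreeGroup (Fin (p + q + 4))) (e γ : ℕ → FreeGroup (Fin (p + q + 4))),
    FC ψ p q d Y e γ := by
  obtain ⟨g, hg⟩ := exists_bas (p + q + 4)
  have hl : (List.range (p + q + 4)).map g = g 0 :: g 1 ::
      ((List.range (p + 1)).map (fun j => g (2 + j)) ++
        (List.range (q + 1)).map (fun j => g (2 + (p + 1 + j)))) := by
    have : List.range (p + q + 4) = List.range (2 + (p + 1 + (q + 1))) := by
      congr 1
      omega
    rw [this, List.range_add, List.range_add (n := p + 1)]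
    simp [List.range_succ, Function.comp_def]
  rw [hl] at hg
  obtain ⟨ψ, hψ⟩ := famC1_exists hg
  exact ⟨ψ, _, _, _, _, hψ⟩

section words
variable {G : Type} [Group G]

/-- The word `W`. -/
def famC1W (y : Fin 4 → G) : G := (y 0)⁻¹ * y 2 * y 0 * (y 2)⁻¹

/-- The word `k`. -/
def famC1K (y : Fin 4 → G) : G := y 3 * famC1W y * y 2 * (y 3 * famC1W y)⁻¹

/-- The word `D'`. -/
def famC1D (y : Fin 4 → G) : G := y 0 * (y 2)⁻¹ * famC1K y

theorem famC1_ev0 (y : Fin 4 → G) : ev y (phiC 0) = famC1D y := by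
  simp only [phiC, Matrix.cons_val_zero, ev_true, ev_false, ev_nil, famC1D, famC1K, famC1W]
  group

theorem famC1_ev1 (y : Fin 4 → G) : ev y (phiC 1) = y 3 * famC1W y * y 1 := by
  simp only [phiC, Matrix.cons_val_one, Matrix.cons_val_zero, ev_true, ev_false, ev_nil, famC1W]
  group

theorem famC1_ev2 (y : Fin 4 → G) : ev y (phiC 2) = famC1D y * famC1K y * (famC1D y)⁻¹ := by
  simp only [phiC, Matrix.cons_val, ev_true, ev_false, ev_nil, famC1D, famC1K, famC1W]
  group

theorem famC1_ev3 (y : Fin 4 → G) : ev y (phiC 3) = (y 1)⁻¹ * (y 3 * famC1W y)⁻¹ *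
    (famC1K y * (famC1D y * famC1K y * (famC1D y)⁻¹)⁻¹)⁻¹ * y 1 := by
  simp only [phiC, Matrix.cons_val, ev_true, ev_false, ev_nil, famC1D, famC1K, famC1W]
  group

theorem famC1_conjW {y : Fin 4 → G} {s : G} (h0 : s * y 0 * s⁻¹ = famC1D y)
    (h2 : s * y 2 * s⁻¹ = famC1D y * famC1K y * (famC1D y)⁻¹) :
    s * famC1W y * s⁻¹ = famC1K y * (famC1D y * famC1K y * (famC1D y)⁻¹)⁻¹ := by
  have : s * famC1W y * s⁻¹ = (s * y 0 * s⁻¹)⁻¹ * (s * y 2 * s⁻¹) * (s * y 0 * s⁻¹) *
      (s * y 2 * s⁻¹)⁻¹ := by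
    rw [famC1W]
    group
  rw [this, h0, h2]
  group

theorem famC1_mapW (f : K →* G) {y : Fin 4 → G} {s : G} (hd : f d = s ^ p * y 0)
    (h0 : f (e 0) = y 2) (hp : f (e p) = s ^ p * y 2 * (s ^ p)⁻¹) :
    f (WC p d e) = famC1W y := by
  rw [WC, map_mul, map_mul, map_mul, map_inv, map_inv, hd, h0, hp, famC1W]
  group

theorem famC1_mapK (f : K →* G) {y : Fin 4 → G} (hW : f (WC p d e) = famC1W y)
    (h0 : f (e 0) = y 2) (hg : f (γ 0) = y 3) : f (kC p d e γ) = famC1K y := by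
  rw [kC, map_mul, map_mul, map_inv, map_mul, hW, h0, hg, famC1K]

end words

theorem famC1_il_e (h : FC ψ p q d Y e γ) (j : ℕ) (hj : j ≤ p) :
    il ψ (e j) = tt ψ ^ j * il ψ (e 0) * (tt ψ ^ j)⁻¹ := by
  induction j with
  | zero => simp
  | succ j ih =>
    rw [← h.he j hj, ← tt_conj, ih (Nat.le_of_succ_le hj), pow_succ']
    group

theorem FC.pres (h : FC ψ p q d Y e γ) :
    Pres phiC ![(tt ψ ^ p)⁻¹ * il ψ d, il ψ Y * tt ψ ^ q, il ψ (e 0), il ψ (γ 0)] (tt ψ) := by
  set y : Fin 4 → Torus ψ :=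
    ![(tt ψ ^ p)⁻¹ * il ψ d, il ψ Y * tt ψ ^ q, il ψ (e 0), il ψ (γ 0)] with hy
  have y0 : y 0 = (tt ψ ^ p)⁻¹ * il ψ d := rfl
  have y1 : y 1 = il ψ Y * tt ψ ^ q := rfl
  have y2 : y 2 = il ψ (e 0) := rfl
  have y3 : y 3 = il ψ (γ 0) := rfl
  clear_value y
  have id : il ψ d = tt ψ ^ p * y 0 := by rw [y0]; group
  have iY : il ψ Y = y 1 * (tt ψ ^ q)⁻¹ := by rw [y1]; group
  have ie : ∀ j ≤ p, il ψ (e j) = tt ψ ^ j * y 2 * (tt ψ ^ j)⁻¹ := fun j hj => by
    rw [y2, famC1_il_e h j hj]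
  have ig : ∀ j ≤ q, il ψ (γ j) = tt ψ ^ j * y 3 * (tt ψ ^ j)⁻¹ := fun j hj => by
    rw [y3, h.tw.il_γ j hj]
  refine ⟨?_, ?_, ?_⟩
  · have iW : il ψ (WC p d e) = famC1W y := famC1_mapW _ id y2.symm (ie p le_rfl)
    have iK : il ψ (kC p d e γ) = famC1K y := famC1_mapK _ iW y2.symm y3.symm
    have iD : il ψ (ψ d) = tt ψ ^ p * famC1D y := by
      rw [h.hd, map_mul, map_mul, map_inv, id, iK, ← y2, famC1D]
      group
    have r0 : tt ψ * y 0 * (tt ψ)⁻¹ = famC1D y := by
      have := tt_conj ψ d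
      rw [iD, id] at this
      calc tt ψ * y 0 * (tt ψ)⁻¹
          = (tt ψ ^ p)⁻¹ * (tt ψ * (tt ψ ^ p * y 0) * (tt ψ)⁻¹) := by group
        _ = famC1D y := by rw [this]; group
    have r1 : tt ψ * y 1 * (tt ψ)⁻¹ = y 3 * famC1W y * y 1 := by
      have := tt_conj ψ Y
      rw [h.tw.hY, map_mul, map_mul, iW, ← y3, iY] at this
      calc tt ψ * y 1 * (tt ψ)⁻¹
          = (tt ψ * (y 1 * (tt ψ ^ q)⁻¹) * (tt ψ)⁻¹) * tt ψ ^ q := by group
        _ = y 3 * famC1W y * y 1 := by rw [this]; group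
    have r2 : tt ψ * y 2 * (tt ψ)⁻¹ = famC1D y * famC1K y * (famC1D y)⁻¹ := by
      have := tt_conj ψ (e p)
      rw [h.hp, map_mul, map_mul, map_inv, iD, iK, ie p le_rfl] at this
      calc tt ψ * y 2 * (tt ψ)⁻¹ = (tt ψ ^ p)⁻¹ *
            (tt ψ * (tt ψ ^ p * y 2 * (tt ψ ^ p)⁻¹) * (tt ψ)⁻¹) * tt ψ ^ p := by group
        _ = famC1D y * famC1K y * (famC1D y)⁻¹ := by rw [this]; group
    have r3 : tt ψ * y 3 * (tt ψ)⁻¹ = (y 1)⁻¹ * (y 3 * famC1W y)⁻¹ *
        (famC1K y * (famC1D y * famC1K y * (famC1D y)⁻¹)⁻¹)⁻¹ * y 1 := by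
      have := tt_conj ψ (γ q)
      rw [h.tw.hq, map_mul, map_mul, map_mul, map_inv, map_inv, map_inv, map_mul,
        ← tt_conj ψ (WC p d e), iW, famC1_conjW r0 r2, ← y3, iY, ig q le_rfl] at this
      calc tt ψ * y 3 * (tt ψ)⁻¹ = (tt ψ ^ q)⁻¹ *
            (tt ψ * (tt ψ ^ q * y 3 * (tt ψ ^ q)⁻¹) * (tt ψ)⁻¹) * tt ψ ^ q := by group
        _ = _ := by rw [this]; group
    intro i
    fin_cases i
    · exact r0.trans (famC1_ev0 y).symm
    · exact r1.trans (famC1_ev1 y).symm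
    · exact r2.trans (famC1_ev2 y).symm
    · exact r3.trans (famC1_ev3 y).symm
  · set S := Subgroup.closure (Set.range y ∪ {tt ψ}) with hS
    have ht : tt ψ ∈ S := Subgroup.subset_closure (Or.inr rfl)
    have hyS : ∀ i, y i ∈ S := fun i => Subgroup.subset_closure (Or.inl ⟨i, rfl⟩)
    refine torus_gen ψ S (fun k => ?_) ht
    have hk : k ∈ S.comap (il ψ) := by
      have : (⊤ : Subgroup K) ≤ S.comap (il ψ) := by
        rw [← h.bas.gen, Subgroup.closure_le]
        intro x hx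
        simp only [Set.mem_ofPred_eq, List.mem_cons, List.mem_append, List.mem_map,
          List.mem_range] at hx
        rw [SetLike.mem_coe, Subgroup.mem_comap]
        rcases hx with rfl | rfl | ⟨j, hj, rfl⟩ | ⟨j, hj, rfl⟩
        · rw [id]
          exact mul_mem (pow_mem ht _) (hyS _)
        · rw [iY]
          exact mul_mem (hyS _) (inv_mem (pow_mem ht _))
        · rw [ie j (Nat.le_of_lt_succ hj)]
          exact mul_mem (mul_mem (pow_mem ht _) (hyS _)) (inv_mem (pow_mem ht _))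
        · rw [ig j (Nat.le_of_lt_succ hj)]
          exact mul_mem (mul_mem (pow_mem ht _) (hyS _)) (inv_mem (pow_mem ht _))
      exact this (Subgroup.mem_top k)
    exact hk
  · intro H _ z s hs
    have r0 := (hs 0).trans (famC1_ev0 z)
    have r1 := (hs 1).trans (famC1_ev1 z)
    have r2 := (hs 2).trans (famC1_ev2 z)
    have r3 := (hs 3).trans (famC1_ev3 z)
    obtain ⟨f, hf⟩ := h.bas.univ H ((s ^ p * z 0) :: (z 1 * (s ^ q)⁻¹) ::
      ((List.range (p + 1)).map (fun j => s ^ j * z 2 * (s ^ j)⁻¹) ++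
        (List.range (q + 1)).map (fun j => s ^ j * z 3 * (s ^ j)⁻¹))) (by simp)
    simp only [List.map_cons, List.map_append, List.map_map, List.cons.injEq] at hf
    obtain ⟨fd, fY, hr⟩ := hf
    obtain ⟨hre, hrg⟩ := List.append_inj hr (by simp)
    have fe : ∀ j ≤ p, f (e j) = s ^ j * z 2 * (s ^ j)⁻¹ := fun j hj =>
      List.map_inj_left.1 hre j (List.mem_range.2 (Nat.lt_succ_of_le hj))
    have fg : ∀ j ≤ q, f (γ j) = s ^ j * z 3 * (s ^ j)⁻¹ := fun j hj =>
      List.map_inj_left.1 hrg j (List.mem_range.2 (Nat.lt_succ_of_le hj))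
    have fe0 : f (e 0) = z 2 := by simpa using fe 0 (Nat.zero_le _)
    have fg0 : f (γ 0) = z 3 := by simpa using fg 0 (Nat.zero_le _)
    have fW : f (WC p d e) = famC1W z := famC1_mapW f fd fe0 (fe p le_rfl)
    have fK : f (kC p d e γ) = famC1K z := famC1_mapK f fW fe0 fg0
    have fD : f (ψ d) = s ^ p * famC1D z := by
      rw [h.hd, map_mul, map_mul, map_inv, fd, fK, fe0, famC1D]
      group
    have cd : f (ψ d) = s * f d * s⁻¹ := by
      rw [fD, fd, ← r0]
      group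
    have ce : ∀ j ≤ p, f (ψ (e j)) = s * f (e j) * s⁻¹ := by
      intro j hj
      rcases hj.lt_or_eq with hj' | rfl
      · rw [h.he j hj', fe j hj, fe (j + 1) hj', pow_succ']
        group
      · rw [h.hp, map_mul, map_mul, map_inv, fD, fK, fe j le_rfl]
        calc s ^ j * famC1D z * famC1K z * (s ^ j * famC1D z)⁻¹
            = s ^ j * (famC1D z * famC1K z * (famC1D z)⁻¹) * (s ^ j)⁻¹ := by group
          _ = _ := by rw [← r2]; group
    have cW : f (ψ (WC p d e)) = s * famC1W z * s⁻¹ := by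
      rw [← fW]
      simp only [WC, map_mul, map_inv, cd, ce p le_rfl, ce 0 (Nat.zero_le _)]
      group
    have key : f.comp ψ.toMonoidHom = (MulAut.conj s).toMonoidHom.comp f := by
      refine h.bas.ext fun x hx => ?_
      show f (ψ x) = s * f x * s⁻¹
      simp only [List.mem_cons, List.mem_append, List.mem_map, List.mem_range] at hx
      rcases hx with rfl | rfl | ⟨j, hj, rfl⟩ | ⟨j, hj, rfl⟩
      · exact cd
      · rw [h.tw.hY, map_mul, map_mul, fW, fg0, fY, ← mul_assoc, ← r1]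
        group
      · exact ce j (Nat.le_of_lt_succ hj)
      · rcases (Nat.le_of_lt_succ hj).lt_or_eq with hj' | rfl
        · rw [h.tw.hγ j hj', fg j hj'.le, fg (j + 1) hj', pow_succ']
          group
        · rw [h.tw.hq, map_mul, map_mul, map_mul, map_inv, map_inv, map_inv, map_mul, cW,
            famC1_conjW r0 r2, fW, fg0, fY, fg j le_rfl]
          calc _ = s ^ j * ((z 1)⁻¹ * (z 3 * famC1W z)⁻¹ *
              (famC1K z * (famC1D z * famC1K z * (famC1D z)⁻¹)⁻¹)⁻¹ * z 1) * (s ^ j)⁻¹ := by group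
            _ = _ := by rw [← r3]; group
    obtain ⟨F, hF, hFt⟩ := torus_lift ψ f s fun k => DFunLike.congr_fun key k
    refine ⟨F, fun i => ?_, hFt⟩
    fin_cases i
    · show F (y 0) = z 0
      rw [y0, map_mul, map_inv, map_pow, hF, hFt, fd]
      group
    · show F (y 1) = z 1
      rw [y1, map_mul, map_pow, hF, hFt, fY]
      group
    · show F (y 2) = z 2
      rw [y2, hF, fe0]
    · show F (y 3) = z 3
      rw [y3, hF, fg0]

end Pool.Agent.Lib.MP_14f458_gt
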