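import Pool.Agent.Lib.MP_14f458_gt.BasL
import Pool.Agent.Lib.MP_14f458_gt.EqFix

namespace Pool.Agent.Lib.MP_14f458_gt

variable {K : Type} [Group K]

/-- The elementary move at any position. -/
theorem shuffle_mv (l1 l2 : List K) {x u v y : K} (h : Bas (l1 ++ x :: l2))
    (hu : u ∈ Gen (l1 ++ l2)) (hv : v ∈ Gen (l1 ++ l2)) (hy : y = u * x * v) :
    Bas (l1 ++ y :: l2) := by
  subst hy
  exact ((h.perm List.perm_middle).repl hu hv).perm List.perm_middle.symm

theorem shuffle_evs_cons (x : K) (l : List K) : evs (x :: l) = x * ods l := by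
  cases l with
  | nil => simp [evs, ods]
  | cons y l => simp [evs, ods]

theorem shuffle_ods_cons (x : K) (l : List K) : ods (x :: l) = evs l := rfl

theorem shuffle_comm_cons (a b : K) (as bs : List K) :
    comm (a :: as) (b :: bs) = a * b * a⁻¹ * b⁻¹ * comm as bs := by
  simp [comm]

theorem shuffle_comm_snoc (a b : K) (as bs : List K) (h : as.length = bs.length) :
    comm (as ++ [a]) (bs ++ [b]) = comm as bs * (a * b * a⁻¹ * b⁻¹) := by
  simp [comm, List.zipWith_append h]

theorem shuffle_step (f0 f1 f2 f3 : K) (m : List K) (hb : Bas (f0 :: f1 :: f2 :: f3 :: m)) :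
    Bas ((f0 * f2) :: (f0 * f1 * f0⁻¹) :: (f0 * f2 * f0⁻¹) :: (f1 * f3) :: m) := by
  have h1 : Bas (f0 :: f1 :: f2 :: (f1 * f3) :: m) :=
    shuffle_mv [f0, f1, f2] m (u := f1) (v := 1) hb (mem_Gen (by simp)) (one_mem _) (by group)
  have h2 : Bas (f0 :: (f0 * f1 * f0⁻¹) :: f2 :: (f1 * f3) :: m) :=
    shuffle_mv [f0] (f2 :: (f1 * f3) :: m) (u := f0) (v := f0⁻¹) h1 (mem_Gen (by simp))
      (inv_mem (mem_Gen (by simp))) rfl
  have h3 : Bas (f0 :: (f0 * f1 * f0⁻¹) :: (f0 * f2 * f0⁻¹) :: (f1 * f3) :: m) :=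
    shuffle_mv [f0, f0 * f1 * f0⁻¹] ((f1 * f3) :: m) (u := f0) (v := f0⁻¹) h2 (mem_Gen (by simp))
      (inv_mem (mem_Gen (by simp))) rfl
  exact shuffle_mv [] ((f0 * f1 * f0⁻¹) :: (f0 * f2 * f0⁻¹) :: (f1 * f3) :: m)
    (u := f0 * f2 * f0⁻¹) (v := 1) h3 (mem_Gen (by simp)) (one_mem _) (by group)

/-- SHUFFLE. A product of an even number of basis elements as a surface word. -/
theorem shuffle (h : ℕ) (f rest : List K) (hf : f.length = 2 * h + 2) (hb : Bas (f ++ rest)) :
    ∃ as bs : List K, as.length = h ∧ bs.length = h ∧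
      Bas (as ++ bs ++ [evs f, ods f] ++ rest) ∧ f.prod = comm as bs * evs f * ods f := by
  classical
  induction h generalizing f rest with
  | zero =>
    match f, hf with
    | [f0, f1], _ =>
      refine ⟨[], [], rfl, rfl, ?_, ?_⟩
      · simpa [evs, ods] using hb
      · simp [comm, evs, ods]
  | succ h ih =>
    match f, hf with
    | f0 :: f1 :: f2 :: f3 :: l, hf =>
      have hs := shuffle_step f0 f1 f2 f3 (l ++ rest) hb
      have hp : Bas (((f0 * f2) :: (f1 * f3) :: l) ++
          ((f0 * f1 * f0⁻¹) :: (f0 * f2 * f0⁻¹) :: rest)) := by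
        refine hs.perm ?_
        rw [List.perm_iff_count]
        intro a
        simp only [List.count_cons, List.count_append]
        omega
      obtain ⟨as, bs, ha, hbl, hB, hprod⟩ := ih _ _ (by simp at hf ⊢; omega) hp
      have he : evs ((f0 * f2) :: (f1 * f3) :: l) = evs (f0 :: f1 :: f2 :: f3 :: l) := by
        simp only [shuffle_evs_cons, shuffle_ods_cons, mul_assoc]
      have ho : ods ((f0 * f2) :: (f1 * f3) :: l) = ods (f0 :: f1 :: f2 :: f3 :: l) := by
        simp only [shuffle_evs_cons, shuffle_ods_cons, mul_assoc]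
      rw [he, ho] at hB hprod
      refine ⟨(f0 * f1 * f0⁻¹) :: as, (f0 * f2 * f0⁻¹) :: bs, by simp [ha], by simp [hbl], ?_, ?_⟩
      · refine hB.perm ?_
        rw [List.perm_iff_count]
        intro a
        simp only [List.count_cons, List.count_append]
        omega
      · rw [shuffle_comm_cons, mul_assoc, mul_assoc, ← mul_assoc (comm as bs), ← hprod]
        simp only [List.prod_cons]
        group

/-- The list `γ j, …, γ 1, γ 0 * W`. -/
def shuffle_gl (W : K) (γ : ℕ → K) : ℕ → List K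
  | 0 => [γ 0 * W]
  | j + 1 => γ (j + 1) :: shuffle_gl W γ j

theorem shuffle_gl_length (W : K) (γ : ℕ → K) (j : ℕ) : (shuffle_gl W γ j).length = j + 1 := by
  induction j with
  | zero => rfl
  | succ j ih => simp [shuffle_gl, ih]

theorem shuffle_gl_prod (W : K) (γ : ℕ → K) (j : ℕ) :
    (shuffle_gl W γ j).prod = DD γ (j + 1) * W := by
  induction j with
  | zero => simp [shuffle_gl, DD]
  | succ j ih => rw [shuffle_gl, List.prod_cons, ih, DD, DD, DD]; group

theorem shuffle_gl_evs (W : K) (γ : ℕ → K) (j : ℕ) :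
    evs (shuffle_gl W γ j) = PP W γ (j + 2) ∧ ods (shuffle_gl W γ j) = PP W γ (j + 1) := by
  induction j with
  | zero => simp [shuffle_gl, evs, ods, PP]
  | succ j ih =>
    refine ⟨?_, ?_⟩
    · rw [shuffle_gl, shuffle_evs_cons, ih.2]; rfl
    · rw [shuffle_gl, shuffle_ods_cons, ih.1]

theorem shuffle_gl_perm (W : K) (γ : ℕ → K) (j : ℕ) :
    ((γ 0 * W) :: (List.range j).map (fun j => γ (j + 1))).Perm (shuffle_gl W γ j) := by
  induction j with
  | zero => simp [shuffle_gl]
  | succ j ih =>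
    rw [List.range_succ, List.map_append, shuffle_gl, ← List.cons_append]
    exact List.perm_append_comm.trans (ih.cons _)

theorem shuffle_PP_odd (W Y : K) (γ : ℕ → K) (h : ℕ) :
    PP (W * Y) γ (2 * h + 1) = PP W γ (2 * h + 1) := by
  induction h with
  | zero => rfl
  | succ h ih =>
    have e : 2 * (h + 1) + 1 = (2 * h + 1) + 2 := by ring
    rw [e, PP, PP, ih]

theorem shuffle_PP_even (W Y : K) (γ : ℕ → K) (h : ℕ) :
    PP (W * Y) γ (2 * h) = PP W γ (2 * h) * Y := by
  induction h with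
  | zero => rfl
  | succ h ih =>
    have e : 2 * (h + 1) = (2 * h) + 2 := by ring
    rw [e, PP, PP, ih, mul_assoc]

theorem shuffle_last (U od Y : K) (m : List K) (hb : Bas (U :: od :: Y :: m)) :
    Bas ((U * Y * od) :: (U * od * U⁻¹) :: (U * Y * U⁻¹) :: m) := by
  have h1 : Bas (U :: (U * od * U⁻¹) :: Y :: m) :=
    shuffle_mv [U] (Y :: m) (u := U) (v := U⁻¹) hb (mem_Gen (by simp))
      (inv_mem (mem_Gen (by simp))) rfl
  have h2 : Bas (U :: (U * od * U⁻¹) :: (U * Y * U⁻¹) :: m) :=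
    shuffle_mv [U, U * od * U⁻¹] m (u := U) (v := U⁻¹) h1 (mem_Gen (by simp))
      (inv_mem (mem_Gen (by simp))) rfl
  exact shuffle_mv [] ((U * od * U⁻¹) :: (U * Y * U⁻¹) :: m)
    (u := (U * Y * U⁻¹) * (U * od * U⁻¹)) (v := 1) h2
    (mul_mem (mem_Gen (by simp)) (mem_Gen (by simp))) (one_mem _) (by group)

/-- SHUFFLE. The twisted part of the fiber as a surface. -/
theorem core (q : ℕ) (Y W : K) (γ : ℕ → K) (rest : List K)
    (hb : Bas (Y :: (γ 0 * W) :: ((List.range q).map (fun j => γ (j + 1)) ++ rest))) :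
    ∃ as bs us : List K, as.length = (q + 1) / 2 ∧ bs.length = (q + 1) / 2 ∧
      List.Forall₂ IsConj (UU q Y W γ) us ∧ Bas (as ++ bs ++ us ++ rest) ∧
      Y * DD γ (q + 1) * W * Y = comm as bs * us.prod := by
  classical
  obtain ⟨h, rfl | rfl⟩ := Nat.even_or_odd' q
  · have h1 : Bas (Y :: (γ 0 * (W * Y)) ::
        ((List.range (2 * h)).map (fun j => γ (j + 1)) ++ rest)) :=
      shuffle_mv [Y] _ (u := 1) (v := Y) hb (one_mem _) (mem_Gen (by simp)) (by group)
    have h2 : Bas ((Y :: shuffle_gl (W * Y) γ (2 * h)) ++ rest) :=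
      h1.perm (((shuffle_gl_perm (W * Y) γ (2 * h)).append_right rest).cons Y)
    obtain ⟨as, bs, ha, hbl, hB, hprod⟩ :=
      shuffle h _ rest (by simp [shuffle_gl_length]) h2
    have he : evs (Y :: shuffle_gl (W * Y) γ (2 * h)) = Y * PP W γ (2 * h + 1) := by
      rw [shuffle_evs_cons, (shuffle_gl_evs _ _ _).2, shuffle_PP_odd]
    have ho : ods (Y :: shuffle_gl (W * Y) γ (2 * h)) = PP W γ (2 * h + 2) * Y := by
      rw [shuffle_ods_cons, (shuffle_gl_evs _ _ _).1]
      exact shuffle_PP_even W Y γ (h + 1)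
    rw [he, ho] at hB hprod
    refine ⟨as, bs, [Y * PP W γ (2 * h + 1), PP W γ (2 * h + 2) * Y], by omega, by omega, ?_, hB,
      ?_⟩
    · have e : 2 * h % 2 = 0 := by omega
      rw [UU, if_pos e]
      refine List.Forall₂.cons (IsConj.refl _) (List.Forall₂.cons ?_ List.Forall₂.nil)
      exact isConj_iff.2 ⟨Y⁻¹, by group⟩
    · rw [List.prod_cons, shuffle_gl_prod] at hprod
      simp only [List.prod_cons, List.prod_nil, mul_one]
      rw [← mul_assoc (comm as bs), ← hprod]
      group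
  · have h1 : Bas (Y :: γ (2 * h + 1) :: (shuffle_gl W γ (2 * h) ++ rest)) :=
      hb.perm (((shuffle_gl_perm W γ (2 * h + 1)).append_right rest).cons Y)
    have h2 : Bas (Y :: (Y * γ (2 * h + 1)) :: (shuffle_gl W γ (2 * h) ++ rest)) :=
      shuffle_mv [Y] _ (u := Y) (v := 1) h1 (mem_Gen (by simp)) (one_mem _) (by group)
    have h3 : Bas (((Y * γ (2 * h + 1)) :: shuffle_gl W γ (2 * h)) ++ (Y :: rest)) :=
      h2.perm (List.perm_middle (l₁ := (Y * γ (2 * h + 1)) :: shuffle_gl W γ (2 * h))).symm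
    obtain ⟨as, bs, ha, hbl, hB, hprod⟩ :=
      shuffle h _ (Y :: rest) (by simp [shuffle_gl_length]) h3
    have he : evs ((Y * γ (2 * h + 1)) :: shuffle_gl W γ (2 * h)) =
        Y * PP W γ (2 * h + 1 + 2) := by
      rw [shuffle_evs_cons, (shuffle_gl_evs _ _ _).2, PP, mul_assoc]
    have ho : ods ((Y * γ (2 * h + 1)) :: shuffle_gl W γ (2 * h)) = PP W γ (2 * h + 1 + 1) := by
      rw [shuffle_ods_cons, (shuffle_gl_evs _ _ _).1]
    rw [he, ho] at hB hprod
    rw [List.prod_cons, shuffle_gl_prod] at hprod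
    have hD : DD γ (2 * h + 1 + 1) = γ (2 * h + 1) * DD γ (2 * h + 1) := rfl
    have e : ¬ (2 * h + 1) % 2 = 0 := by omega
    rw [UU, if_neg e, hD]
    generalize Y * PP W γ (2 * h + 1 + 2) = U at hB hprod ⊢
    generalize PP W γ (2 * h + 1 + 1) = od at hB hprod ⊢
    have h4 : Bas (U :: od :: Y :: (as ++ bs ++ rest)) := by
      refine hB.perm ?_
      rw [List.perm_iff_count]
      intro a
      simp only [List.count_cons, List.count_append, List.count_nil]
      omega
    have h5 := shuffle_last U od Y _ h4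
    refine ⟨as ++ [U * od * U⁻¹], bs ++ [U * Y * U⁻¹], [U * Y * od], by simp [ha]; omega,
      by simp [hbl]; omega, ?_, ?_, ?_⟩
    · refine List.Forall₂.cons ?_ List.Forall₂.nil
      rw [mul_assoc]
    · refine h5.perm ?_
      rw [List.perm_iff_count]
      intro a
      simp only [List.count_cons, List.count_append, List.count_nil]
      omega
    · rw [shuffle_comm_snoc _ _ _ _ (ha.trans hbl.symm)]
      simp only [List.prod_cons, List.prod_nil, mul_one]
      have e2 : Y * (γ (2 * h + 1) * DD γ (2 * h + 1)) * W * Y =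
          Y * γ (2 * h + 1) * (DD γ (2 * h + 1) * W) * Y := by group
      rw [e2, hprod]
      group

end Pool.Agent.Lib.MP_14f458_gt
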