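import Pool.Agent.Lib.MP_14f458_gt.BasL

namespace Pool.Agent.Lib.MP_14f458_gt

variable {K : Type} [Group K]

private theorem conj_map {K' : Type} [Group K'] (e : K ≃* K') {a b : K} (h : IsConj a b) :
    IsConj (e a) (e b) :=
  e.toMonoidHom.map_isConj h

private theorem map_comm {K' : Type} [Group K'] (e : K ≃* K') (as bs : List K) :
    e (comm as bs) = comm (as.map e) (bs.map e) := by
  induction as generalizing bs with
  | nil => simp [comm]
  | cons a as ih =>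
    rcases bs with _ | ⟨b, bs⟩
    · simp [comm]
    · have := ih bs
      simp only [comm] at this
      simp only [comm, List.zipWith_cons_cons, List.prod_cons, map_mul, map_inv, List.map_cons,
        this]

private theorem comm_ofFn {g : ℕ} (a b : Fin g → K) :
    comm (List.ofFn a) (List.ofFn b) = (List.ofFn fun i => a i * b i * (a i)⁻¹ * (b i)⁻¹).prod := by
  unfold comm
  congr 1
  refine List.ext_getElem (by simp) fun i h1 h2 => by simp

/-- SURF. A surface basis identifies the group with `Pi1 g n`. -/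
theorem sys_of_bas (g n : ℕ) (as bs cs D : List K) (hb : Bas (as ++ bs ++ cs))
    (ha : as.length = g) (hb' : bs.length = g) (hc : cs.length = n - 1)
    (h1 : ∀ c ∈ (comm as bs * cs.prod)⁻¹ :: cs, ∃ x ∈ D, IsConj x c)
    (h2 : ∀ x ∈ D, ∃ c ∈ (comm as bs * cs.prod)⁻¹ :: cs, IsConj x c) : Sys g n D := by
  obtain ⟨e, he⟩ := hb.equiv (bas_pi g n) (by simp [ha, hb', hc])
  rw [List.map_append, List.map_append] at he
  obtain ⟨he1, hC⟩ := List.append_inj he (by simp [ha, hb'])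
  obtain ⟨hA, hB⟩ := List.append_inj he1 (by simp [ha])
  have hL : e (comm as bs * cs.prod)⁻¹ = cLast g n := by
    rw [map_inv, map_mul, map_comm, map_list_prod, hA, hB, hC, comm_ofFn, cLast]
  have key : ∀ c, c ∈ Bd g n ↔ ∃ c' ∈ (comm as bs * cs.prod)⁻¹ :: cs, e c' = c := by
    intro c
    have h3 : c ∈ Set.range (C0 g n) ↔ ∃ c' ∈ cs, e c' = c := by
      rw [← List.mem_map, hC, List.mem_ofFn]
      rfl
    simp only [Bd, Set.mem_union, Set.mem_singleton_iff, List.mem_cons, exists_eq_or_imp, h3, hL]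
    constructor
    · rintro (h | h)
      · exact Or.inr h
      · exact Or.inl h.symm
    · rintro (h | h)
      · exact Or.inr h.symm
      · exact Or.inl h
  refine ⟨e, fun c hc => ?_, fun x hx => ?_⟩
  · obtain ⟨c', hc', rfl⟩ := (key c).1 hc
    obtain ⟨x, hx, h⟩ := h1 c' hc'
    exact ⟨x, hx, conj_map e h⟩
  · obtain ⟨c, hc, h⟩ := h2 x hx
    exact ⟨e c, (key _).2 ⟨c, hc, rfl⟩, conj_map e h⟩

private theorem perm_nat (ψ : MulAut K) (D : List K)
    (hperm : ∀ x ∈ D, ∃ x' ∈ D, IsConj (ψ x) x') {c : K} (hc : c ∈ D) (n : ℕ) :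
    ∃ c' ∈ D, IsConj ((ψ ^ n) c) c' := by
  induction n with
  | zero => exact ⟨c, hc, IsConj.refl _⟩
  | succ n ih =>
    obtain ⟨c', hc', h⟩ := ih
    obtain ⟨c'', hc'', h'⟩ := hperm c' hc'
    refine ⟨c'', hc'', IsConj.trans ?_ h'⟩
    rw [pow_succ', MulAut.mul_apply]
    exact conj_map ψ h

private theorem perm_per (ψ : MulAut K) (D : List K)
    (hperm : ∀ x ∈ D, ∃ x' ∈ D, IsConj (ψ x) x') {c : K} (hc : c ∈ D) :
    ∃ N : ℕ, 0 < N ∧ IsConj c ((ψ ^ N) c) := by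
  choose f hf hf' using perm_nat ψ D hperm hc
  have : Finite {x // x ∈ D} := (List.finite_toSet D).to_subtype
  have main : ∀ a b : ℕ, a < b → f a = f b → ∃ N : ℕ, 0 < N ∧ IsConj c ((ψ ^ N) c) := by
    intro a b hab h
    obtain ⟨N, rfl⟩ := Nat.exists_eq_add_of_lt hab
    refine ⟨N + 1, Nat.succ_pos _, ?_⟩
    have h1 : IsConj ((ψ ^ a) c) ((ψ ^ (a + N + 1)) c) := (hf' a).trans (h ▸ (hf' _).symm)
    rw [add_assoc, pow_add, MulAut.mul_apply] at h1
    simpa using conj_map (ψ ^ a).symm h1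
  obtain ⟨a, b, hab, h⟩ :=
    Finite.exists_ne_map_eq_of_infinite (fun n : ℕ => (⟨f n, hf n⟩ : {x // x ∈ D}))
  have h' : f a = f b := congrArg Subtype.val h
  rcases lt_or_gt_of_ne hab with h1 | h1
  · exact main a b h1 h'
  · exact main b a h1 h'.symm

private theorem perm_int (ψ : MulAut K) (D : List K)
    (hperm : ∀ x ∈ D, ∃ x' ∈ D, IsConj (ψ x) x') {c : K} (hc : c ∈ D) (n : ℤ) :
    ∃ c' ∈ D, IsConj ((ψ ^ n) c) c' := by
  obtain ⟨N, hN, h⟩ := perm_per ψ D hperm hc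
  have h1 : ∀ j : ℕ, IsConj c ((ψ ^ (j * N)) c) := by
    intro j
    induction j with
    | zero => rw [zero_mul, pow_zero]; exact IsConj.refl _
    | succ j ih =>
      rw [add_mul, one_mul, pow_add, MulAut.mul_apply]
      exact ih.trans (conj_map (ψ ^ (j * N)) h)
  obtain ⟨k, hk⟩ : ∃ k : ℕ, n + (n.natAbs * N : ℕ) = k := by
    refine ⟨(n + (n.natAbs * N : ℕ)).toNat, (Int.toNat_of_nonneg ?_).symm⟩
    have : n.natAbs ≤ n.natAbs * N := Nat.le_mul_of_pos_right _ hN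
    omega
  obtain ⟨c', hc', h2⟩ := perm_nat ψ D hperm hc k
  refine ⟨c', hc', IsConj.trans ?_ h2⟩
  have h3 := conj_map (ψ ^ n) (h1 n.natAbs)
  rwa [← MulAut.mul_apply, ← zpow_natCast ψ (n.natAbs * N), ← zpow_add, hk, zpow_natCast] at h3

private theorem conj_zpow' {a b : K} (h : IsConj a b) (k : ℤ) : IsConj (a ^ k) (b ^ k) := by
  obtain ⟨c, rfl⟩ := isConj_iff.1 h
  exact isConj_iff.2 ⟨c, conj_zpow.symm⟩

/-- SURF. From conjugacy in the mapping torus to conjugacy in the fiber group. -/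
theorem ator_fiber (ψ : MulAut K) (D : List K) (hD : D ≠ [])
    (hperm : ∀ x ∈ D, ∃ x' ∈ D, IsConj (ψ x) x') (hat : Ator ψ D) (x : K) (m : ℕ) (hm : 0 < m)
    (hx : IsConj ((ψ ^ m) x) x) : ∃ c ∈ D, ∃ k : ℤ, IsConj x (c ^ k) := by
  by_cases h1 : x = 1
  · obtain ⟨c, hc⟩ := List.exists_mem_of_ne_nil D hD
    exact ⟨c, hc, 0, by rw [h1, zpow_zero]⟩
  obtain ⟨g, hg⟩ := isConj_iff.1 hx
  have hcom : Commute (il ψ x) (il ψ g * tt ψ ^ m) := by
    have h2 : il ψ g * tt ψ ^ m * il ψ x * (il ψ g * tt ψ ^ m)⁻¹ = il ψ x := by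
      calc _ = il ψ g * (tt ψ ^ m * il ψ x * (tt ψ ^ m)⁻¹) * (il ψ g)⁻¹ := by group
        _ = il ψ x := by rw [tt_pow_conj, ← map_mul, ← map_inv, ← map_mul, hg]
    exact (mul_inv_eq_iff_eq_mul.1 h2).symm
  have hv : rh ψ (il ψ g * tt ψ ^ m) ≠ 1 := by
    rw [Ne, ← cv_eq_zero]
    simp only [cv_mul, cv_rh_il, cv_pow, cv_rh_tt]
    omega
  obtain ⟨c, hc, k, h⟩ := hat _ _ hcom (cv_eq_zero.1 (cv_rh_il ψ x)) hv
    (fun h => h1 (il_injective ψ (h.trans (map_one _).symm)))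
  obtain ⟨f, hf⟩ := isConj_iff.1 h.symm
  obtain ⟨c', hc', h'⟩ := perm_int ψ D hperm hc (cv (rh ψ) f)
  refine ⟨c', hc', k, IsConj.trans ?_ (conj_zpow' h' k)⟩
  refine (isConj_iff.2 ⟨f.left, il_injective ψ ?_⟩).symm
  have hd := torus_decomp ψ f
  rw [← hf, map_mul, map_mul, map_inv, map_zpow, ← tt_zpow_conj, conj_zpow]
  generalize cv (rh ψ) f = j at hd ⊢
  generalize f.left = a at hd ⊢
  rw [hd]
  group

private theorem torus_ext {ψ : MulAut K} {H : Type} [Group H] {F G : Torus ψ →* H}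
    (h : ∀ k, F (il ψ k) = G (il ψ k)) (ht : F (tt ψ) = G (tt ψ)) : F = G := by
  refine MonoidHom.ext fun u => ?_
  rw [torus_decomp ψ u, map_mul, map_mul, map_zpow, map_zpow, h, ht]

private theorem torus_hom {K' : Type} [Group K'] (ψ : MulAut K) (φ : MulAut K') (e : K ≃* K')
    (h : ∀ k, e (ψ k) = φ (e k)) :
    ∃ F : Torus ψ →* Torus φ, (∀ k, F (il ψ k) = il φ (e k)) ∧ F (tt ψ) = tt φ :=
  torus_lift ψ ((il φ).comp e.toMonoidHom) (tt φ) fun k => by
    rw [MonoidHom.comp_apply, MonoidHom.comp_apply, tt_conj]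
    exact congrArg _ (h k)

/-- SURF. Transport to `Pi1 g n`. -/
theorem assemble (g n : ℕ) (ψ : MulAut K) (D : List K) (hs : Sys g n D)
    (hperm : ∀ x ∈ D, ∃ x' ∈ D, IsConj (ψ x) x') (hat : Ator ψ D)
    (hirr : ∀ (G : Type) [Group G] (e : Torus ψ ≃* G) (S : Cl G), (∀ u, S (e u) = rh ψ u) →
      ¬ RatMin S) :
    ∃ φ : MulAut (Pi1 g n), IsPA g n φ ∧ ¬ RatMin (rh φ) := by
  obtain ⟨e, h1, h2⟩ := hs
  obtain ⟨φ, hφ⟩ : ∃ φ : MulAut (Pi1 g n), ∀ k, e (ψ k) = φ (e k) :=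
    ⟨e.symm.trans (ψ.trans e), fun k => by simp⟩
  have hφ' : ∀ k, e.symm (φ k) = ψ (e.symm k) := fun k => by
    rw [MulEquiv.symm_apply_eq, hφ, MulEquiv.apply_symm_apply]
  have hpow : ∀ (m : ℕ) (k : K), e ((ψ ^ m) k) = (φ ^ m) (e k) := by
    intro m
    induction m with
    | zero => exact fun _ => rfl
    | succ m ih => intro k; rw [pow_succ', pow_succ', MulAut.mul_apply, MulAut.mul_apply, hφ, ih]
  have hD : D ≠ [] := by
    obtain ⟨x, hx, -⟩ := h1 (cLast g n) (Or.inr rfl)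
    exact List.ne_nil_of_mem hx
  refine ⟨φ, ⟨fun c hc => ?_, fun x m hm hx => ?_⟩, ?_⟩
  · obtain ⟨x, hx, h⟩ := h1 c hc
    obtain ⟨x', hx', h'⟩ := hperm x hx
    obtain ⟨c', hc', h''⟩ := h2 x' hx'
    refine ⟨c', hc', (conj_map φ h).symm.trans ?_⟩
    rw [← hφ]
    exact (conj_map e h').trans h''
  · obtain ⟨y, rfl⟩ := e.surjective x
    rw [← hpow] at hx
    have hy : IsConj ((ψ ^ m) y) y := by simpa using conj_map e.symm hx
    obtain ⟨c, hc, k, h⟩ := ator_fiber ψ D hD hperm hat y m hm hy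
    obtain ⟨c', hc', h'⟩ := h2 c hc
    refine ⟨c', hc', k, (conj_map e h).trans ?_⟩
    rw [map_zpow]
    exact conj_zpow' h' k
  · obtain ⟨F, hF, hF'⟩ := torus_hom ψ φ e hφ
    obtain ⟨G, hG, hG'⟩ := torus_hom φ ψ e.symm hφ'
    have e1 : G.comp F = MonoidHom.id _ :=
      torus_ext (fun k => by simp [hF, hG]) (by simp [hF', hG'])
    have e2 : F.comp G = MonoidHom.id _ :=
      torus_ext (fun k => by simp [hF, hG]) (by simp [hF', hG'])
    have e3 : (rh φ).comp F = rh ψ :=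
      torus_ext (fun k => by simp [hF]) (by rw [MonoidHom.comp_apply, hF']; rfl)
    exact hirr _ (MonoidHom.toMulEquiv F G e1 e2) (rh φ) fun u => DFunLike.congr_fun e3 u

end Pool.Agent.Lib.MP_14f458_gt
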