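import Pool.Agent.Lib.MP_14f458_gt.FamC1
import Pool.Agent.Lib.MP_14f458_gt.Shuffle
import Pool.Agent.Lib.MP_14f458_gt.Surf
import Pool.Agent.Lib.MP_14f458_gt.Change

namespace Pool.Agent.Lib.MP_14f458_gt

variable {K : Type} [Group K] {ψ : MulAut K} {p q : ℕ} {d Y : K} {e γ : ℕ → K}

theorem famC2_map_DD (h : FC ψ p q d Y e γ) (j : ℕ) (hj : j ≤ p) :
    ψ (DD e (j + 1)) * e 0 = ψ (e j) * DD e (j + 1) := by
  induction j with
  | zero => simp [DD]
  | succ j ih =>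
    rw [tw_DD_succ e (j + 1), map_mul, mul_assoc, ih (by omega), h.he j (by omega)]

theorem famC2_il_DD (h : FC ψ p q d Y e γ) (j : ℕ) (hj : j ≤ p) :
    il ψ (DD e (j + 1)) = tt ψ ^ j * (il ψ (e 0) * (tt ψ)⁻¹) ^ j * il ψ (e 0) := by
  induction j with
  | zero => simp [DD]
  | succ j ih =>
    rw [tw_DD_succ, map_mul, ih (by omega), famC1_il_e h _ hj,
      pow_succ' (il ψ (e 0) * (tt ψ)⁻¹)]
    generalize (il ψ (e 0) * (tt ψ)⁻¹) ^ j = z
    group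

theorem famC2_map_f (h : FC ψ p q d Y e γ) : ψ (d⁻¹ * e p * d) = kC p d e γ := by
  rw [map_mul, map_mul, map_inv, h.hp]
  group

theorem famC2_map_fY (h : FC ψ p q d Y e γ) :
    ψ (d⁻¹ * e p * d * Y) = γ 0 * (d⁻¹ * e p * d * Y) := by
  rw [map_mul, famC2_map_f h, h.tw.hY]
  unfold kC WC
  group

theorem famC2_map_Z (h : FC ψ p q d Y e γ) : ψ (ZC p q d Y e γ) = ZC p q d Y e γ := by
  have e1 : ψ (WC p d e) = kC p d e γ * (ψ (e 0))⁻¹ := by
    rw [WC, map_mul, famC2_map_f h, map_inv]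
  have e2 : ψ (DD γ (q + 1)) = ψ (γ q) * DD γ (q + 1) * (γ 0)⁻¹ := by
    rw [← h.tw.map_DD]
    group
  have e3 : ψ (γ q) = (ψ Y)⁻¹ * ((kC p d e γ * (ψ (e 0))⁻¹)⁻¹ * Y) := by
    rw [← e1, ← h.tw.map_Y_γ]
    group
  have e4 : ZC p q d Y e γ = d * (e 0)⁻¹ * Y * DD γ (q + 1) * (d⁻¹ * e p * d * Y) := by
    unfold ZC
    group
  rw [e4, map_mul, famC2_map_fY h, map_mul, map_mul, map_mul, map_inv, e2, e3, h.hd]
  group

theorem famC2_map_E (h : FC ψ p q d Y e γ) : ψ (EC p d e) = e 0 * EC p d e * (e 0)⁻¹ := by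
  have e1 : ψ (DD e (p + 1)) = ψ (e p) * DD e (p + 1) * (e 0)⁻¹ := by
    rw [← famC2_map_DD h p le_rfl]
    group
  have e2 : (ψ (e p))⁻¹ * ψ d = d * (e 0)⁻¹ := by
    rw [h.hp, h.hd]
    group
  unfold EC
  rw [map_mul, map_inv, e1, mul_inv_rev, mul_inv_rev, mul_assoc, mul_assoc, e2]
  group

theorem famC2_mem_e {j : ℕ} (hj : j ≤ p) : e j ∈ DC p q d Y e γ := by
  unfold DC
  refine List.mem_cons_of_mem _ (List.mem_cons_of_mem _ (List.mem_append_left _ ?_))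
  exact List.mem_map.mpr ⟨j, List.mem_range.mpr (by omega), rfl⟩

theorem famC2_mem_U {x : K} (hx : x ∈ UU q Y (WC p d e) γ) : x ∈ DC p q d Y e γ :=
  List.mem_cons_of_mem _ (List.mem_cons_of_mem _ (List.mem_append_right _ hx))

theorem famC2_mem_Z : (ZC p q d Y e γ)⁻¹ ∈ DC p q d Y e γ := List.mem_cons_self

theorem famC2_mem_E : EC p d e ∈ DC p q d Y e γ := List.mem_cons_of_mem _ List.mem_cons_self

theorem famC2_cases {x : K} (hx : x ∈ DC p q d Y e γ) :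
    x = (ZC p q d Y e γ)⁻¹ ∨ x = EC p d e ∨ (∃ j ≤ p, x = e j) ∨ x ∈ UU q Y (WC p d e) γ := by
  unfold DC at hx
  rcases List.mem_cons.mp hx with hx | hx
  · exact Or.inl hx
  rcases List.mem_cons.mp hx with hx | hx
  · exact Or.inr (Or.inl hx)
  rcases List.mem_append.mp hx with hx | hx
  · obtain ⟨j, hj, rfl⟩ := List.mem_map.mp hx
    exact Or.inr (Or.inr (Or.inl ⟨j, Nat.lt_succ_iff.mp (List.mem_range.mp hj), rfl⟩))
  · exact Or.inr (Or.inr (Or.inr hx))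

/-- FAMC2. -/
theorem FC.perm (h : FC ψ p q d Y e γ) :
    ∀ x ∈ DC p q d Y e γ, ∃ x' ∈ DC p q d Y e γ, IsConj (ψ x) x' := by
  intro x hx
  rcases famC2_cases hx with rfl | rfl | ⟨j, hj, rfl⟩ | hx
  · refine ⟨_, famC2_mem_Z, ?_⟩
    rw [map_inv, famC2_map_Z h]
  · refine ⟨_, famC2_mem_E, ?_⟩
    rw [famC2_map_E h]
    exact isConj_iff.2 ⟨(e 0)⁻¹, by group⟩
  · rcases hj.lt_or_eq with hj | rfl
    · refine ⟨e (j + 1), famC2_mem_e hj, ?_⟩
      rw [h.he j hj]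
    · refine ⟨e 0, famC2_mem_e (Nat.zero_le _), ?_⟩
      rw [h.hp]
      refine isConj_iff.2 ⟨(ψ d * (γ 0 * WC j d e))⁻¹, ?_⟩
      unfold kC
      group
  · obtain ⟨x', hx', hc⟩ := h.tw.perm x hx
    exact ⟨x', famC2_mem_U hx', hc⟩

theorem famC2_shift {G : Type} [Group G] {g t c : G} (h : t * c * t⁻¹ = g * c) (n : ℕ) :
    (g * t⁻¹) ^ n * (g * c) = g * c * (t ^ n)⁻¹ := by
  induction n with
  | zero => simp
  | succ n ih =>
    have e1 : g * t⁻¹ * (g * c) = g * c * t⁻¹ := by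
      rw [← h]
      have e2 : g = t * c * t⁻¹ * c⁻¹ := by
        rw [h]
        group
      rw [e2]
      group
    rw [pow_succ', mul_assoc, ih, ← mul_assoc, e1]
    group

theorem famC2_il_Z (h : FC ψ p q d Y e γ) :
    il ψ (ZC p q d Y e γ) = tt ψ ^ p *
      z0C ![(tt ψ ^ p)⁻¹ * il ψ d, il ψ Y * tt ψ ^ q, il ψ (e 0), il ψ (γ 0)] *
        (tt ψ ^ q)⁻¹ * (tt ψ ^ q)⁻¹ := by
  have e1 : tt ψ * (il ψ (d⁻¹ * e p * d * Y) * tt ψ ^ q) * (tt ψ)⁻¹ =
      il ψ (γ 0) * (il ψ (d⁻¹ * e p * d * Y) * tt ψ ^ q) := by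
    rw [← mul_assoc (il ψ (γ 0)), ← map_mul, ← famC2_map_fY h, ← tt_conj]
    group
  have e2 := famC2_shift e1 q
  have e3 : ZC p q d Y e γ = d * (e 0)⁻¹ * Y * (DD γ (q + 1) * (d⁻¹ * e p * d * Y)) := by
    unfold ZC
    group
  have e4 : il ψ (DD γ (q + 1) * (d⁻¹ * e p * d * Y)) =
      tt ψ ^ q * ((il ψ (γ 0) * (tt ψ)⁻¹) ^ q *
        (il ψ (γ 0) * (il ψ (d⁻¹ * e p * d * Y) * tt ψ ^ q))) * (tt ψ ^ q)⁻¹ := by
    rw [map_mul, h.tw.il_DD]
    generalize (il ψ (γ 0) * (tt ψ)⁻¹) ^ q = z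
    group
  rw [e3, map_mul, e4, e2]
  simp only [z0C, Matrix.cons_val_zero, Matrix.cons_val_one, Matrix.cons_val, map_mul, map_inv,
    famC1_il_e h p le_rfl]
  group

theorem famC2_il_E (h : FC ψ p q d Y e γ) :
    il ψ (EC p d e) = ((il ψ (e 0))⁻¹ * tt ψ) ^ p *
      ((il ψ (e 0))⁻¹ * ((tt ψ ^ p)⁻¹ * il ψ d)) := by
  have e1 : (il ψ (e 0))⁻¹ * tt ψ =
      (il ψ (e 0))⁻¹ * (il ψ (e 0) * (tt ψ)⁻¹)⁻¹ * (il ψ (e 0))⁻¹⁻¹ := by group
  unfold EC
  rw [map_mul, map_inv, famC2_il_DD h p le_rfl, e1, conj_pow, inv_pow]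
  generalize (il ψ (e 0) * (tt ψ)⁻¹) ^ p = z
  group

theorem FC.ator (h : FC ψ p q d Y e γ) : Ator ψ (DC p q d Y e γ) := by
  intro u v huv hu hv hu1
  rcases atorC h.pres (rh ψ) huv hu hv hu1 with hc | hc | ⟨s, hc⟩ | hc
  · have e1 := famC2_il_Z h
    generalize z0C ![(tt ψ ^ p)⁻¹ * il ψ d, il ψ Y * tt ψ ^ q, il ψ (e 0), il ψ (γ 0)] = z
      at hc e1
    have e2 : z ^ (1 : ℤ) * tt ψ ^ ((p : ℤ) - 2 * q) = il ψ (ZC p q d Y e γ) := by
      rw [e1, ← (hc.1.pow_right p).eq]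
      group
    obtain ⟨k, hk⟩ := hc.2 1 ((p : ℤ) - 2 * q) isCoprime_one_left (by rw [e2]; simp)
    rw [e2] at hk
    refine ⟨_, famC2_mem_Z, -k, ?_⟩
    rwa [map_inv, inv_zpow, zpow_neg, inv_inv]
  · obtain ⟨x, hx, k, hk⟩ := h.tw.cusp hc
    exact ⟨x, famC2_mem_U hx, k, hk⟩
  · have hc' : Cusp (rh ψ) (il ψ (e 0)) s u := hc
    obtain ⟨k, hk⟩ := hc'.2 1 0 isCoprime_one_left (by simp)
    refine ⟨e 0, famC2_mem_e (Nat.zero_le _), k, ?_⟩
    simpa using hk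
  · have hc' : Cusp (rh ψ) ((il ψ (e 0))⁻¹ * ((tt ψ ^ p)⁻¹ * il ψ d))
        ((il ψ (e 0))⁻¹ * tt ψ) u := hc
    have e2 : ((il ψ (e 0))⁻¹ * ((tt ψ ^ p)⁻¹ * il ψ d)) ^ (1 : ℤ) *
        ((il ψ (e 0))⁻¹ * tt ψ) ^ (p : ℤ) = il ψ (EC p d e) := by
      rw [famC2_il_E h, zpow_one, zpow_natCast, (hc'.1.pow_right p).eq]
    obtain ⟨k, hk⟩ := hc'.2 1 p isCoprime_one_left (by rw [e2]; simp)
    rw [e2] at hk
    exact ⟨_, famC2_mem_E, k, hk⟩

/-- The list `e p, …, e 1`. -/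
def famC2L (e : ℕ → K) (p : ℕ) : List K := ((List.range p).map fun j => e (j + 1)).reverse

theorem famC2L_prod (e : ℕ → K) (p : ℕ) : DD e (p + 1) = (famC2L e p).prod * e 0 := by
  induction p with
  | zero => simp [DD, famC2L]
  | succ p ih =>
    rw [tw_DD_succ, ih]
    simp [famC2L, List.range_succ, mul_assoc]

omit [Group K] in
theorem famC2L_mem {x : K} : x ∈ famC2L e p ↔ ∃ j < p, e (j + 1) = x := by
  simp [famC2L]

omit [Group K] in
theorem famC2_left {R : K → K → Prop} {l m : List K} (h : List.Forall₂ R l m) :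
    ∀ x ∈ l, ∃ y ∈ m, R x y := by
  induction h with
  | nil => simp
  | cons h _ ih =>
    intro x hx
    rcases List.mem_cons.mp hx with rfl | hx
    · exact ⟨_, List.mem_cons_self, h⟩
    · obtain ⟨y, hy, hr⟩ := ih x hx
      exact ⟨y, List.mem_cons_of_mem _ hy, hr⟩

omit [Group K] in
theorem famC2_right {R : K → K → Prop} {l m : List K} (h : List.Forall₂ R l m) :
    ∀ y ∈ m, ∃ x ∈ l, R x y := by
  induction h with
  | nil => simp
  | cons h _ ih =>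
    intro y hy
    rcases List.mem_cons.mp hy with rfl | hy
    · exact ⟨_, List.mem_cons_self, h⟩
    · obtain ⟨x, hx, hr⟩ := ih y hy
      exact ⟨x, List.mem_cons_of_mem _ hx, hr⟩

theorem famC2_bas (h : FC ψ p q d Y e γ) :
    Bas (Y :: (γ 0 * WC p d e) :: ((List.range q).map (fun j => γ (j + 1)) ++
      ((Y⁻¹ * e 0 * Y) :: (famC2L e p ++ [e 0 * EC p d e * (e 0)⁻¹])))) := by
  have b0 : Bas ([Y] ++ γ 0 :: ((List.range q).map (fun j => γ (j + 1)) ++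
      (e 0 :: (famC2L e p ++ [d])))) := by
    refine h.bas.perm ?_
    classical
    rw [List.perm_iff_count]
    intro a
    simp only [List.range_succ_eq_map, List.map_cons, List.map_map, famC2L, List.count_cons,
      List.count_append, List.count_reverse, List.count_nil, Function.comp_def, Nat.succ_eq_add_one]
    omega
  have hep : ∀ l : List K, e 0 ∈ l → (∀ x ∈ famC2L e p, x ∈ l) → e p ∈ Gen l := by
    intro l h0 h1
    rcases p with _ | p
    · exact mem_Gen h0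
    · exact mem_Gen (h1 _ (famC2L_mem.mpr ⟨p, Nat.lt_succ_self p, rfl⟩))
  have b1 : Bas ([Y] ++ (γ 0 * WC p d e) :: ((List.range q).map (fun j => γ (j + 1)) ++
      (e 0 :: (famC2L e p ++ [d])))) := by
    refine shuffle_mv _ _ (u := 1) (v := WC p d e) b0 (one_mem _) ?_ (by group)
    unfold WC
    refine mul_mem (mul_mem (mul_mem (inv_mem (mem_Gen ?_)) (hep _ ?_ ?_)) (mem_Gen ?_))
      (inv_mem (mem_Gen ?_))
    · simp
    · simp
    · intro x hx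
      simp [hx]
    · simp
    · simp
  have b2 : Bas ((Y :: (γ 0 * WC p d e) :: ((List.range q).map (fun j => γ (j + 1)) ++
      (e 0 :: famC2L e p))) ++ (e 0 * EC p d e * (e 0)⁻¹) :: []) := by
    refine shuffle_mv _ _ (x := d) (u := (famC2L e p).prod⁻¹) (v := (e 0)⁻¹) ?_ ?_ ?_ ?_
    · simpa using b1
    · refine inv_mem (list_prod_mem fun x hx => mem_Gen ?_)
      simp [hx]
    · refine inv_mem (mem_Gen ?_)
      simp
    · unfold EC
      rw [famC2L_prod]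
      group
  have b3 : Bas ((Y :: (γ 0 * WC p d e) :: (List.range q).map (fun j => γ (j + 1))) ++
      (Y⁻¹ * e 0 * Y) :: (famC2L e p ++ [e 0 * EC p d e * (e 0)⁻¹])) := by
    refine shuffle_mv _ _ (x := e 0) (u := Y⁻¹) (v := Y) ?_ ?_ ?_ rfl
    · simpa using b2
    · exact inv_mem (mem_Gen (by simp))
    · exact mem_Gen (by simp)
  simpa using b3

theorem FC.sys (h : FC ψ p q d Y e γ) :
    Sys ((q + 1) / 2) (p + 5 - q % 2) (DC p q d Y e γ) := by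
  obtain ⟨as, bs, us, ha, hb, hU, hB, hZ⟩ := core q Y (WC p d e) γ _ (famC2_bas h)
  have hlen : us.length = 2 - q % 2 := by
    rw [← hU.length_eq]
    unfold UU
    split_ifs with hq
    · simp [hq]
    · have : q % 2 = 1 := by omega
      simp [this]
  have hZ' : IsConj (ZC p q d Y e γ)⁻¹ (comm as bs *
      (us ++ ((Y⁻¹ * e 0 * Y) :: (famC2L e p ++ [e 0 * EC p d e * (e 0)⁻¹]))).prod)⁻¹ := by
    refine isConj_iff.2 ⟨(d * (e 0)⁻¹)⁻¹, ?_⟩
    rw [List.prod_append, ← mul_assoc (comm as bs), ← hZ, List.prod_cons, List.prod_append,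
      List.prod_singleton]
    unfold ZC EC WC
    rw [famC2L_prod e p]
    group
  have h0 : IsConj (e 0) (Y⁻¹ * e 0 * Y) := isConj_iff.2 ⟨Y⁻¹, by group⟩
  have hE : IsConj (EC p d e) (e 0 * EC p d e * (e 0)⁻¹) := isConj_iff.2 ⟨e 0, rfl⟩
  refine sys_of_bas _ _ as bs
    (us ++ ((Y⁻¹ * e 0 * Y) :: (famC2L e p ++ [e 0 * EC p d e * (e 0)⁻¹]))) _ ?_ ha hb ?_ ?_ ?_
  · rw [← List.append_assoc]
    exact hB
  · simp only [List.length_append, List.length_cons, List.length_nil, hlen, famC2L,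
      List.length_reverse, List.length_map, List.length_range]
    omega
  · intro c hc
    rcases List.mem_cons.mp hc with rfl | hc
    · exact ⟨_, famC2_mem_Z, hZ'⟩
    rcases List.mem_append.mp hc with hc | hc
    · obtain ⟨x, hx, hr⟩ := famC2_right hU c hc
      exact ⟨x, famC2_mem_U hx, hr⟩
    rcases List.mem_cons.mp hc with rfl | hc
    · exact ⟨_, famC2_mem_e (Nat.zero_le _), h0⟩
    rcases List.mem_append.mp hc with hc | hc
    · obtain ⟨j, hj, rfl⟩ := famC2L_mem.mp hc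
      exact ⟨_, famC2_mem_e hj, IsConj.refl _⟩
    · rw [List.mem_singleton.mp hc]
      exact ⟨_, famC2_mem_E, hE⟩
  · intro x hx
    rcases famC2_cases hx with rfl | rfl | ⟨j, hj, rfl⟩ | hx
    · exact ⟨_, List.mem_cons_self, hZ'⟩
    · exact ⟨_, by simp, hE⟩
    · rcases j with _ | j
      · exact ⟨_, by simp, h0⟩
      · have hm : e (j + 1) ∈ famC2L e p := famC2L_mem.mpr ⟨j, hj, rfl⟩
        exact ⟨_, by simp [hm], IsConj.refl _⟩
    · obtain ⟨c, hc, hr⟩ := famC2_left hU x hx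
      exact ⟨c, by simp [hc], hr⟩

end Pool.Agent.Lib.MP_14f458_gt
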