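import Pool.Agent.Lib.MP_14f458_gt.Chk
import Pool.Agent.Lib.MP_14f458_gt.EqFix

namespace Pool.Agent.Lib.MP_14f458_gt

private theorem goodB_a (ξ : Fin 2 → ℝ) : mdB.a ξ = ![ξ 0, 0, -ξ 0, 0] := by
  funext i
  fin_cases i <;> simp [MD.a, mdB, lin, Fin.sum_univ_two]

private theorem goodB_b (ξ : Fin 2 → ℝ) : mdB.b ξ = ξ 1 := by
  simp [MD.b, mdB, lin, Fin.sum_univ_two]

private theorem goodB_f0 (ξ : Fin 2 → ℝ) : lin (mdB.fa 0) ξ = ξ 1 := by
  simp [mdB, lin, Fin.sum_univ_two]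

private theorem goodB_f1 (ξ : Fin 2 → ℝ) : lin (mdB.fa 1) ξ = -ξ 0 + ξ 1 := by
  simp [mdB, lin, Fin.sum_univ_two]

/-- A loop of weight `exp s` forces `s < 0`. -/
private theorem goodB_loop {s v : ℝ} (hv : 0 < v) (h : Real.exp s * v < v) : s < 0 := by
  have h1 : Real.exp s < 1 := by
    by_contra h2
    have h3 : 1 * v ≤ Real.exp s * v := mul_le_mul_of_nonneg_right (not_lt.1 h2) hv.le
    linarith
  exact Real.exp_lt_one_iff.1 h1

private theorem goodB_rows {ξ : Fin 2 → ℝ} (h : ξ ∈ mdB.R) :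
    ∃ v0 v1 v3 : ℝ, 0 < v0 ∧ 0 < v1 ∧ 0 < v3 ∧ Real.exp (-ξ 1) * v0 < v0 ∧
      Real.exp (-ξ 1 + ξ 0) * v1 < v1 ∧ Real.exp (-ξ 1) * v3 < v1 ∧
      3 * (Real.exp (-ξ 1) * v1) < v3 := by
  obtain ⟨v, hv, hr⟩ := h
  rw [goodB_a, goodB_b] at hr
  have h0 := hr 0
  have h1 := hr 1
  have h3 := hr 3
  simp only [mdB, sigB, SS, Matrix.cons_val, add_zero, add_neg_cancel_right] at h0 h1 h3
  have p : ∀ (s : ℝ) (i : Fin 4), 0 < Real.exp s * v i := fun s i =>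
    mul_pos (Real.exp_pos s) (hv i)
  refine ⟨v 0, v 1, v 3, hv 0, hv 1, hv 3, ?_, ?_, ?_, ?_⟩
  · linarith [p (-ξ 1 + ξ 0) 3]
  · linarith [p (-ξ 1) 0, p (-ξ 1 + ξ 0) 3, p (-ξ 1 + ξ 0) 1, p (-ξ 1 + ξ 0) 2, p (-ξ 1) 3]
  · linarith [p (-ξ 1) 0, p (-ξ 1 + ξ 0) 3, p (-ξ 1 + ξ 0) 1, p (-ξ 1 + ξ 0) 2, p (-ξ 1) 3]
  · linarith [p (-ξ 1) 3]

/-- GOOD. -/
theorem goodB : mdB.Good where
  cls := clsB
  par a b h := by
    have h0 := h 0
    have h1 := h 1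
    have h3 := h 3
    simp only [mdB, sigB, wt, Matrix.cons_val] at h0 h1 h3
    refine ⟨![a 0, b], fun i => ?_, by simp [mdB, linZ, Fin.sum_univ_two]⟩
    fin_cases i <;> simp [mdB, linZ, Fin.sum_univ_two] <;> omega
  inj n h hb := by
    have h0 := h 0
    simp [mdB, linZ, Fin.sum_univ_two] at h0 hb
    funext j
    fin_cases j
    · exact h0
    · exact hb
  om_a := by decide
  om_b := by decide
  om_f := by decide
  bf := ⟨0, rfl⟩
  xpos ξ h := by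
    have h0 := h 0
    have h1 := h 1
    rw [goodB_f0] at h0
    rw [goodB_f1] at h1
    have : lin mdB.xn ξ = -ξ 0 + 3 * ξ 1 := by simp [mdB, lin, Fin.sum_univ_two]
    rw [this]; linarith
  supC ξ h := by
    obtain ⟨v0, v1, v3, p0, p1, -, h0, h1, -, -⟩ := goodB_rows h
    have g0 := goodB_loop p0 h0
    have g1 := goodB_loop p1 h1
    intro k
    fin_cases k
    · show 0 < lin (mdB.fa 0) ξ
      rw [goodB_f0]; linarith
    · show 0 < lin (mdB.fa 1) ξ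
      rw [goodB_f1]; linarith
  small := by
    refine ⟨1 / 2, by norm_num, fun ξ h => ?_⟩
    obtain ⟨v0, v1, v3, -, p1, p3, -, -, h1, h3⟩ := goodB_rows h
    rw [goodB_b]
    by_contra hb
    have hb' : -(1 / 2 : ℝ) ≤ -ξ 1 := by linarith [not_lt.1 hb]
    have e1 : Real.exp (-(1 / 2 : ℝ)) ≤ Real.exp (-ξ 1) := Real.exp_le_exp.2 hb'
    have e2 : (3 / 5 : ℝ) ≤ Real.exp (-(1 / 2 : ℝ)) := by
      have h4 : Real.exp (-(1 / 2 : ℝ)) = Real.exp (-(1 / 32 : ℝ)) ^ 16 := by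
        rw [← Real.exp_nat_mul]; norm_num
      have h5 : (31 / 32 : ℝ) ≤ Real.exp (-(1 / 32 : ℝ)) := by
        have := Real.add_one_le_exp (-(1 / 32 : ℝ)); linarith
      rw [h4]
      exact le_trans (by norm_num) (pow_le_pow_left₀ (by norm_num) h5 16)
    have e3 : (3 / 5 : ℝ) ≤ Real.exp (-ξ 1) := e2.trans e1
    have e4 := mul_le_mul_of_nonneg_right e3 p1.le
    have e5 := mul_le_mul_of_nonneg_right e3 p3.le
    linarith
  pot η h := by
    have h0 := h 0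
    have h1 := h 1
    rw [goodB_f0] at h0
    rw [goodB_f1] at h1
    refine ⟨![0, 0, -η 0, 0], fun i => ?_⟩
    rw [goodB_a, goodB_b]
    fin_cases i <;> simp only [mdB, sigB, Pot, Matrix.cons_val, Fin.zero_eta, Fin.mk_one,
      Fin.reduceFinMk, and_true] <;> (repeat (first | linarith | constructor))
  str := ⟨_, _, _, strB⟩
  rev := ⟨rB, rB, revB⟩

end Pool.Agent.Lib.MP_14f458_gt
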