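import Pool.Agent.Lib.MP_14f458_gt.Chk
import Pool.Agent.Lib.MP_14f458_gt.EqFix

namespace Pool.Agent.Lib.MP_14f458_gt

private theorem goodC_a (ξ : Fin 4 → ℝ) : mdC.a ξ = ![ξ 0, ξ 1, ξ 1, ξ 2] := by
  funext i
  fin_cases i <;> simp [MD.a, mdC, lin, Fin.sum_univ_four]

private theorem goodC_b (ξ : Fin 4 → ℝ) : mdC.b ξ = ξ 3 := by
  simp [MD.b, mdC, lin, Fin.sum_univ_four]

private theorem goodC_f (ξ : Fin 4 → ℝ) (k : Fin 8) : lin (mdC.fa k) ξ =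
    ![-ξ 1 + ξ 2 + ξ 3, ξ 3, ξ 2 + ξ 3, ξ 1 + ξ 3, ξ 0 - ξ 1 + ξ 2 + ξ 3, ξ 0 + ξ 3,
      ξ 0 + ξ 2 + ξ 3, ξ 0 + ξ 1 + ξ 3] k := by
  fin_cases k <;> simp [mdC, lin, Fin.sum_univ_four] <;> ring

/-- A loop of weight `exp s` forces `s < 0`. -/
private theorem goodC_loop {s v : ℝ} (hv : 0 < v) (h : Real.exp s * v < v) : s < 0 := by
  have h1 : Real.exp s < 1 := by
    by_contra h2
    have h3 : 1 * v ≤ Real.exp s * v := mul_le_mul_of_nonneg_right (not_lt.1 h2) hv.le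
    linarith
  exact Real.exp_lt_one_iff.1 h1

private theorem goodC_row0 (A B C b : ℝ) (v : Fin 4 → ℝ) :
    SS ![A, B, B, C] v (sigC 0) (-b) =
      Real.exp (-b - C) * v 3 + Real.exp (-b - C - A) * v 0 + Real.exp (-b - C - A) * v 2 +
      Real.exp (-b - C - A + B) * v 0 + Real.exp (-b - C + B) * v 3 + Real.exp (-b) * v 2 +
      Real.exp (-b) * v 0 + Real.exp (-b + A) * v 2 + Real.exp (-b + A + B - C) * v 3 +
      Real.exp (-b - C + B) * v 0 + Real.exp (-b - C) * v 2 + Real.exp (-b - C) * v 0 +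
      Real.exp (-b - C + A) * v 3 := by
  simp only [sigC, SS, Matrix.cons_val]
  ring_nf

private theorem goodC_row2 (A B C b : ℝ) (v : Fin 4 → ℝ) :
    SS ![A, B, B, C] v (sigC 2) (-b) =
      Real.exp (-b - B) * v 2 + Real.exp (-b - B - A) * v 0 + Real.exp (-b - B - A) * v 2 +
      Real.exp (-b - A - C) * v 3 + Real.exp (-b - A - C) * v 1 +
      Real.exp (-b - A - C + B) * v 3 + Real.exp (-b - A) * v 2 + Real.exp (-b - A) * v 0 +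
      Real.exp (-b) * v 2 := by
  simp only [sigC, SS, Matrix.cons_val]
  ring_nf

private theorem goodC_rows {ξ : Fin 4 → ℝ} (h : ξ ∈ mdC.R) :
    ∃ v0 v2 : ℝ, 0 < v0 ∧ 0 < v2 ∧
      Real.exp (-ξ 3 - ξ 2 - ξ 0) * v0 + Real.exp (-ξ 3 - ξ 2 - ξ 0 + ξ 1) * v0 +
        Real.exp (-ξ 3) * v0 + Real.exp (-ξ 3 - ξ 2 + ξ 1) * v0 + Real.exp (-ξ 3 - ξ 2) * v0 +
        Real.exp (-ξ 3 + ξ 0) * v2 < v0 ∧
      Real.exp (-ξ 3 - ξ 1) * v2 + Real.exp (-ξ 3 - ξ 1 - ξ 0) * v2 +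
        Real.exp (-ξ 3 - ξ 0) * v2 + Real.exp (-ξ 3) * v2 + Real.exp (-ξ 3 - ξ 0) * v0 < v2 := by
  obtain ⟨v, hv, hr⟩ := h
  rw [goodC_a, goodC_b] at hr
  have h0 : SS _ v (sigC 0) _ < v 0 := hr 0
  have h2 : SS _ v (sigC 2) _ < v 2 := hr 2
  rw [goodC_row0] at h0
  rw [goodC_row2] at h2
  have p : ∀ (s : ℝ) (i : Fin 4), 0 < Real.exp s * v i := fun s i =>
    mul_pos (Real.exp_pos s) (hv i)
  refine ⟨v 0, v 2, hv 0, hv 2, ?_, ?_⟩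
  · linarith [p (-ξ 3 - ξ 2) 3, p (-ξ 3 - ξ 2 - ξ 0) 2, p (-ξ 3 - ξ 2 + ξ 1) 3, p (-ξ 3) 2,
      p (-ξ 3 + ξ 0 + ξ 1 - ξ 2) 3, p (-ξ 3 - ξ 2) 2, p (-ξ 3 - ξ 2 + ξ 0) 3]
  · linarith [p (-ξ 3 - ξ 1 - ξ 0) 0, p (-ξ 3 - ξ 0 - ξ 2) 3, p (-ξ 3 - ξ 0 - ξ 2) 1,
      p (-ξ 3 - ξ 0 - ξ 2 + ξ 1) 3]

private theorem goodC_supC (ξ : Fin 4 → ℝ) (h : ξ ∈ mdC.R) : ξ ∈ mdC.C := by
  obtain ⟨v0, v2, p0, p2, h0, h2⟩ := goodC_rows h
  have q0 : ∀ s : ℝ, 0 < Real.exp s * v0 := fun s => mul_pos (Real.exp_pos s) p0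
  have q2 : ∀ s : ℝ, 0 < Real.exp s * v2 := fun s => mul_pos (Real.exp_pos s) p2
  have a1 := q0 (-ξ 3 - ξ 2 - ξ 0)
  have a2 := q0 (-ξ 3 - ξ 2 - ξ 0 + ξ 1)
  have a3 := q0 (-ξ 3)
  have a4 := q0 (-ξ 3 - ξ 2 + ξ 1)
  have a5 := q0 (-ξ 3 - ξ 2)
  have a6 := q2 (-ξ 3 + ξ 0)
  have b1 := q2 (-ξ 3 - ξ 1)
  have b2 := q2 (-ξ 3 - ξ 1 - ξ 0)
  have b3 := q2 (-ξ 3 - ξ 0)
  have b4 := q2 (-ξ 3)
  have b5 := q0 (-ξ 3 - ξ 0)
  have g6 := goodC_loop (s := -ξ 3 - ξ 2 - ξ 0) p0 (by linarith)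
  have g4 := goodC_loop (s := -ξ 3 - ξ 2 - ξ 0 + ξ 1) p0 (by linarith)
  have g1 := goodC_loop (s := -ξ 3) p0 (by linarith)
  have g0 := goodC_loop (s := -ξ 3 - ξ 2 + ξ 1) p0 (by linarith)
  have g2 := goodC_loop (s := -ξ 3 - ξ 2) p0 (by linarith)
  have g3 := goodC_loop (s := -ξ 3 - ξ 1) p2 (by linarith)
  have g7 := goodC_loop (s := -ξ 3 - ξ 1 - ξ 0) p2 (by linarith)
  have g5 := goodC_loop (s := -ξ 3 - ξ 0) p2 (by linarith)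
  intro k
  rw [goodC_f]
  fin_cases k <;> simp only [Matrix.cons_val, Fin.zero_eta, Fin.mk_one, Fin.reduceFinMk] <;>
    linarith

private theorem goodC_small (ξ : Fin 4 → ℝ) (h : ξ ∈ mdC.R) : 1 / 2 < ξ 3 := by
  obtain ⟨v0, v2, p0, p2, h0, h2⟩ := goodC_rows h
  have q0 : ∀ s : ℝ, 0 < Real.exp s * v0 := fun s => mul_pos (Real.exp_pos s) p0
  have q2 : ∀ s : ℝ, 0 < Real.exp s * v2 := fun s => mul_pos (Real.exp_pos s) p2
  by_contra hb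
  have e1 : (1 / 2 : ℝ) ≤ Real.exp (-ξ 3) := by
    have := Real.add_one_le_exp (-ξ 3); linarith [not_lt.1 hb]
  have e2 := mul_le_mul_of_nonneg_right e1 p0.le
  have e3 := mul_le_mul_of_nonneg_right e1 p2.le
  have k0 : Real.exp (-ξ 3 + ξ 0) * v2 < Real.exp (-ξ 3) * v0 := by
    linarith [q0 (-ξ 3 - ξ 2 - ξ 0), q0 (-ξ 3 - ξ 2 - ξ 0 + ξ 1), q0 (-ξ 3 - ξ 2 + ξ 1),
      q0 (-ξ 3 - ξ 2)]
  have k2 : Real.exp (-ξ 3 - ξ 0) * v0 < Real.exp (-ξ 3) * v2 := by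
    linarith [q2 (-ξ 3 - ξ 1), q2 (-ξ 3 - ξ 1 - ξ 0), q2 (-ξ 3 - ξ 0)]
  have k3 := mul_lt_mul'' k0 k2 (q2 _).le (q0 _).le
  have k4 : Real.exp (-ξ 3 + ξ 0) * Real.exp (-ξ 3 - ξ 0) = Real.exp (-ξ 3) * Real.exp (-ξ 3) := by
    rw [← Real.exp_add, ← Real.exp_add]; congr 1; ring
  have k5 : Real.exp (-ξ 3 + ξ 0) * v2 * (Real.exp (-ξ 3 - ξ 0) * v0) =
      Real.exp (-ξ 3) * v0 * (Real.exp (-ξ 3) * v2) := by
    linear_combination (v0 * v2) * k4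
  linarith

private theorem goodC_pot (A B C b m : ℝ) (m0 : 0 ≤ m) (mA : A ≤ m) (hm : m = 0 ∨ m = A)
    (f0 : 0 ≤ -B + C + b) (f1 : 0 ≤ b) (f2 : 0 ≤ C + b) (f3 : 0 ≤ B + b)
    (f4 : 0 ≤ A - B + C + b) (f5 : 0 ≤ A + b) (f6 : 0 ≤ A + C + b) (f7 : 0 ≤ A + B + b)
    (i : Fin 4) :
    Pot ![A, B, B, C] ![0, 0, -m, -m] (![0, 0, -m, -m] i) (sigC i) (-b) := by
  rcases hm with hm | hm <;> fin_cases i <;>
    simp only [sigC, Pot, Matrix.cons_val, Fin.zero_eta, Fin.mk_one, Fin.reduceFinMk,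
      and_true] <;> (repeat (first | linarith | constructor))

/-- GOOD. -/
theorem goodC : mdC.Good where
  cls := clsC
  par a b h := by
    have h1 := h 1
    simp only [mdC, sigC, wt, Matrix.cons_val] at h1
    refine ⟨![a 0, a 1, a 3, b], fun i => ?_, by simp [mdC, linZ, Fin.sum_univ_four]⟩
    fin_cases i <;> simp [mdC, linZ, Fin.sum_univ_four] <;> omega
  inj n h hb := by
    have h0 := h 0
    have h1 := h 1
    have h3 := h 3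
    simp [mdC, linZ, Fin.sum_univ_four] at h0 h1 h3 hb
    funext j
    fin_cases j
    · exact h0
    · exact h1
    · exact h3
    · exact hb
  om_a := by decide
  om_b := by decide
  om_f := by decide
  bf := ⟨1, rfl⟩
  xpos ξ h := by
    have h1 := h 1
    have h4 := h 4
    have h6 := h 6
    rw [goodC_f] at h1 h4 h6
    simp only [Matrix.cons_val] at h1 h4 h6
    have : lin mdC.xn ξ = 2 * ξ 0 - ξ 1 + 2 * ξ 2 + 3 * ξ 3 := by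
      simp [mdC, lin, Fin.sum_univ_four]; ring
    rw [this]; linarith
  supC := goodC_supC
  small := ⟨1 / 2, by norm_num, fun ξ h => by rw [goodC_b]; exact goodC_small ξ h⟩
  pot η h := by
    have h0 := h 0
    have h1 := h 1
    have h2 := h 2
    have h3 := h 3
    have h4 := h 4
    have h5 := h 5
    have h6 := h 6
    have h7 := h 7
    rw [goodC_f] at h0 h1 h2 h3 h4 h5 h6 h7
    simp only [Matrix.cons_val] at h0 h1 h2 h3 h4 h5 h6 h7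
    refine ⟨![0, 0, -max 0 (η 0), -max 0 (η 0)], fun i => ?_⟩
    rw [goodC_a, goodC_b]
    exact goodC_pot _ _ _ _ _ (le_max_left _ _) (le_max_right _ _) (max_choice _ _)
      h0 h1 h2 h3 h4 h5 h6 h7 i
  str := ⟨_, _, _, strC⟩
  rev := ⟨rC, rC, revC⟩

end Pool.Agent.Lib.MP_14f458_gt
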