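import Pool.Agent.Lib.MP_14f458_gt.RankA

namespace Pool.Agent.Lib.MP_14f458_gt

/-- The pairing of a sequence with the Laurent polynomials. -/
noncomputable def Sq.toDual : Sq →ₗ[ℚ] Module.Dual ℚ LR where
  toFun u :=
    { toFun := fun c => (c • u) 0
      map_add' := fun a b => by rw [add_smul]; rfl
      map_smul' := fun q a => by rw [smul_assoc]; rfl }
  map_add' u v := by
    refine LinearMap.ext fun c => ?_
    show (c • (u + v)) 0 = (c • u) 0 + (c • v) 0
    rw [smul_add]; rfl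
  map_smul' q u := by
    refine LinearMap.ext fun c => ?_
    show (c • (q • u)) 0 = q • (c • u) 0
    rw [smul_comm]; rfl

theorem Sq.toDual_apply (u : Sq) (c : LR) : Sq.toDual u c = (c • u) 0 := rfl

theorem Sq.toDual_T (u : Sq) (n : ℤ) : Sq.toDual u (LaurentPolynomial.T n) = u n := by
  rw [Sq.toDual_apply, Sq.T_smul, zero_add]

theorem LR_dual_ext {f g : Module.Dual ℚ LR}
    (h : ∀ n : ℤ, f (LaurentPolynomial.T n) = g (LaurentPolynomial.T n)) : f = g := by
  refine LinearMap.ext fun c => ?_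
  induction c using LaurentPolynomial.induction_on' with
  | add p q hp hq => rw [map_add, map_add, hp, hq]
  | C_mul_T n a =>
    rw [← LaurentPolynomial.smul_eq_C_mul, map_smul, map_smul, h]

theorem Sq.toDual_bij : Function.Bijective Sq.toDual := by
  constructor
  · intro u v h
    refine Sq.ext fun n => ?_
    exact (Sq.toDual_T u n).symm.trans (by rw [h]; exact Sq.toDual_T v n)
  · intro f
    refine ⟨fun n => f (LaurentPolynomial.T n), LR_dual_ext fun n => ?_⟩
    rw [Sq.toDual_T]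

noncomputable def Sq.dualEquiv : Sq ≃ₗ[ℚ] Module.Dual ℚ LR :=
  LinearEquiv.ofBijective Sq.toDual Sq.toDual_bij

theorem Sq.dualEquiv_apply (u : Sq) (c : LR) : Sq.dualEquiv u c = (c • u) 0 := rfl

theorem Sq.dualEquiv_smul (c : LR) (u : Sq) :
    Sq.dualEquiv (c • u) = (LinearMap.mulRight ℚ c).dualMap (Sq.dualEquiv u) := by
  refine LinearMap.ext fun a => ?_
  rw [LinearMap.dualMap_apply, Sq.dualEquiv_apply, Sq.dualEquiv_apply, LinearMap.mulRight_apply,
    mul_smul]

theorem Sq.surj (c : LR) (hc : c ≠ 0) : Function.Surjective fun u : Sq => c • u := by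
  intro v
  have hinj : Function.Injective (LinearMap.mulRight ℚ c) := fun a b h =>
    mul_right_cancel₀ hc h
  obtain ⟨f, hf⟩ := LinearMap.dualMap_surjective_of_injective hinj (Sq.dualEquiv v)
  refine ⟨Sq.dualEquiv.symm f, Sq.dualEquiv.injective ?_⟩
  rw [Sq.dualEquiv_smul, LinearEquiv.apply_symm_apply, hf]

theorem tors_map (c : LR) :
    (tors Sq c).map Sq.dualEquiv.toLinearMap =
      ((Ideal.span {c}).restrictScalars ℚ).dualAnnihilator := by
  ext f
  obtain ⟨u, rfl⟩ := Sq.dualEquiv.surjective f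
  rw [Submodule.mem_dualAnnihilator]
  constructor
  · rintro ⟨v, hv, hvu⟩ w hw
    have hvu' : v = u := Sq.dualEquiv.injective hvu
    subst hvu'
    obtain ⟨a, rfl⟩ := Ideal.mem_span_singleton'.1 hw
    have hv' : c • v = 0 := hv
    rw [Sq.dualEquiv_apply, mul_smul, hv', smul_zero]; rfl
  · intro h
    refine ⟨u, ?_, rfl⟩
    show c • u = 0
    refine Sq.ext fun n => ?_
    have := h (LaurentPolynomial.T n * c) (Ideal.mem_span_singleton'.2 ⟨_, rfl⟩)
    rw [Sq.dualEquiv_apply, mul_smul, Sq.T_smul, zero_add] at this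
    exact this

/-- The elements killed by `c` are dual to the quotient by `c`. -/
noncomputable def torsEquiv (c : LR) :
    tors Sq c ≃ₗ[ℚ] Module.Dual ℚ (LR ⧸ Ideal.span {c}) :=
  ((Sq.dualEquiv.submoduleMap (tors Sq c)).trans (LinearEquiv.ofEq _ _ (tors_map c))).trans
    (((Submodule.dualQuotEquivDualAnnihilator ((Ideal.span {c}).restrictScalars ℚ)).symm).trans
      (Submodule.Quotient.restrictScalarsEquiv ℚ (Ideal.span {c})).symm.dualMap)

open Polynomial in
theorem quot_equiv (p : ℚ[X]) (h0 : p.coeff 0 ≠ 0) :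
    Nonempty ((ℚ[X] ⧸ Ideal.span {p}) ≃ₗ[ℚ] (LR ⧸ Ideal.span {(toLaurent p : LR)})) := by
  let ψ : ℚ[X] →ₐ[ℚ] (LR ⧸ Ideal.span {(toLaurent p : LR)}) :=
    (Ideal.Quotient.mkₐ ℚ (Ideal.span {(toLaurent p : LR)})).comp toLaurentAlg
  have hψ : ∀ q, ψ q = Ideal.Quotient.mk _ (toLaurent q) := fun q => rfl
  have hcop : IsCoprime p (X : ℚ[X]) := by
    refine ⟨C (p.coeff 0)⁻¹, -(C (p.coeff 0)⁻¹ * p.divX), ?_⟩
    have h1 := p.divX_mul_X_add
    have h2 : C (p.coeff 0)⁻¹ * C (p.coeff 0) = (1 : ℚ[X]) := by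
      rw [← C_mul, inv_mul_cancel₀ h0, C_1]
    linear_combination (-C (p.coeff 0)⁻¹) * h1 + h2
  have hp0 : ψ p = 0 := by
    rw [hψ, Ideal.Quotient.eq_zero_iff_mem]; exact Ideal.mem_span_singleton_self _
  have hsurj : Function.Surjective ψ := by
    intro y
    obtain ⟨x, rfl⟩ := Ideal.Quotient.mk_surjective y
    obtain ⟨n, q, hq⟩ := LaurentPolynomial.exists_T_pow x
    obtain ⟨a, b, hab⟩ := hcop
    have h1 : ψ b * ψ X = 1 := by
      have := congrArg ψ hab
      rwa [map_add, map_mul, map_mul, hp0, mul_zero, zero_add, map_one] at this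
    refine ⟨q * b ^ n, ?_⟩
    have h2 : ψ q = Ideal.Quotient.mk _ x * ψ X ^ n := by
      rw [hψ, hq, map_mul, ← map_pow, hψ, toLaurent_X_pow]
    rw [map_mul, h2, map_pow, mul_assoc, ← mul_pow, mul_comm (ψ X), h1, one_pow, mul_one]
  have hker : RingHom.ker ψ = Ideal.span {p} := by
    ext q
    rw [RingHom.mem_ker, Ideal.mem_span_singleton]
    constructor
    · intro h
      rw [hψ, Ideal.Quotient.eq_zero_iff_mem] at h
      obtain ⟨r, hr⟩ := Ideal.mem_span_singleton'.1 h
      obtain ⟨n, r', hr'⟩ := LaurentPolynomial.exists_T_pow r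
      have h3 : r' * p = q * X ^ n := by
        apply toLaurent_injective
        rw [map_mul, map_mul, hr', ← hr, toLaurent_X_pow]; ring
      have h4 : p ∣ q * X ^ n := ⟨r', by rw [← h3, mul_comm]⟩
      exact (hcop.pow_right (n := n)).dvd_of_dvd_mul_right h4
    · rintro ⟨r, rfl⟩
      rw [map_mul, hp0, zero_mul]
  exact ⟨((Ideal.quotientEquivAlgOfEq ℚ hker.symm).trans
    (Ideal.quotientKerAlgEquivOfSurjective hsurj)).toLinearEquiv⟩

theorem tors_T_mul (j : ℤ) (c : LR) : tors Sq (LaurentPolynomial.T j * c) = tors Sq c := by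
  ext u
  show (LaurentPolynomial.T j * c) • u = 0 ↔ c • u = 0
  rw [mul_smul]
  exact (LaurentPolynomial.isUnit_T j).smul_eq_zero

open Polynomial in
theorem tors_poly (p : ℚ[X]) (h0 : p.coeff 0 ≠ 0) :
    FiniteDimensional ℚ (tors Sq (toLaurent p : LR)) ∧
      Module.finrank ℚ (tors Sq (toLaurent p : LR)) = p.natDegree := by
  have hp : p ≠ 0 := by rintro rfl; simp at h0
  obtain ⟨e⟩ := quot_equiv p h0
  haveI : Module.Finite ℚ (ℚ[X] ⧸ Ideal.span {p}) := (AdjoinRoot.powerBasis hp).finite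
  haveI : Module.Finite ℚ (LR ⧸ Ideal.span {(toLaurent p : LR)}) := Module.Finite.equiv e
  refine ⟨Module.Finite.equiv (torsEquiv _).symm, ?_⟩
  rw [(torsEquiv _).finrank_eq, Subspace.dual_finrank_eq, ← e.finrank_eq,
    finrank_quotient_span_eq_natDegree]

open Polynomial in
theorem exists_T_mul (c : LR) (hc : c ≠ 0) :
    ∃ (j : ℤ) (p : ℚ[X]), p.coeff 0 ≠ 0 ∧ c = LaurentPolynomial.T j * toLaurent p := by
  obtain ⟨n, q, hq⟩ := LaurentPolynomial.exists_T_pow c
  have hq0 : q ≠ 0 := by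
    rintro rfl
    rw [map_zero] at hq
    exact mul_ne_zero hc (LaurentPolynomial.isUnit_T (R := ℚ) n).ne_zero hq.symm
  obtain ⟨p, hp, hnd⟩ := q.exists_eq_pow_rootMultiplicity_mul_and_not_dvd hq0 0
  rw [C_0, sub_zero] at hp hnd
  refine ⟨(q.rootMultiplicity 0 : ℤ) - n, p, fun h => hnd (X_dvd_iff.2 h), ?_⟩
  have h1 : c = toLaurent q * LaurentPolynomial.T (-n) := by
    rw [hq, mul_assoc, ← LaurentPolynomial.T_add, add_neg_cancel, LaurentPolynomial.T_zero, mul_one]
  rw [h1, LaurentPolynomial.T_sub]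
  conv_lhs => rw [hp]
  rw [map_mul, toLaurent_X_pow]; ring

theorem Sq.fin (c : LR) (hc : c ≠ 0) : FiniteDimensional ℚ (tors Sq c) := by
  obtain ⟨j, p, h0, rfl⟩ := exists_T_mul c hc
  rw [tors_T_mul]
  exact (tors_poly p h0).1

theorem wd_mul {a b : LR} (ha : a ≠ 0) (hb : b ≠ 0) : wd (a * b) = wd a + wd b :=
  finrank_tors_mul Sq.surj Sq.fin ha hb

open Polynomial in
theorem wd_T_mul_poly (j : ℤ) (p : ℚ[X]) (h0 : p.coeff 0 ≠ 0) :
    wd (LaurentPolynomial.T j * toLaurent p) = p.natDegree := by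
  unfold wd
  rw [tors_T_mul]
  exact (tors_poly p h0).2

theorem wd_T (j : ℤ) : wd (LaurentPolynomial.T j) = 0 := by
  have := wd_T_mul_poly j 1 (by simp)
  rwa [map_one, mul_one, Polynomial.natDegree_one] at this

open Polynomial in
/-- The polynomial obtained after removing the factor `T e`. -/
noncomputable def PP0 (e : ℤ) (l : List (ℤ × ℤ)) : ℚ[X] :=
  (l.map fun p => C (p.1 : ℚ) * X ^ (p.2 - e).toNat).sum

open Polynomial in
theorem LP_eq (e : ℤ) (l : List (ℤ × ℤ)) (hl : ∀ p ∈ l, e ≤ p.2) :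
    LP l = LaurentPolynomial.T e * toLaurent (PP0 e l) := by
  induction l with
  | nil => simp [LP, PP0]
  | cons a l ih =>
    have ih' := ih fun p hp => hl p (List.mem_cons_of_mem _ hp)
    have ha := hl a List.mem_cons_self
    unfold LP PP0 at *
    rw [List.map_cons, List.sum_cons, List.map_cons, List.sum_cons, map_add, mul_add, ← ih',
      map_mul, toLaurent_C, toLaurent_X_pow, Int.toNat_of_nonneg (by omega), map_intCast,
      mul_left_comm, ← LaurentPolynomial.T_add]
    congr 3; ring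

open Polynomial in
theorem PP0_coeff (e : ℤ) (l : List (ℤ × ℤ)) (k : ℕ) (hl : ∀ p ∈ l, (p.2 - e).toNat ≠ k) :
    (PP0 e l).coeff k = 0 := by
  induction l with
  | nil => simp [PP0]
  | cons a l ih =>
    have ih' := ih fun p hp => hl p (List.mem_cons_of_mem _ hp)
    have ha := hl a List.mem_cons_self
    unfold PP0 at *
    rw [List.map_cons, List.sum_cons, coeff_add, ih', coeff_C_mul_X_pow, if_neg (Ne.symm ha),
      add_zero]

open Polynomial in
theorem PP0_cons (e : ℤ) (a : ℤ × ℤ) (l : List (ℤ × ℤ)) :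
    PP0 e (a :: l) = C (a.1 : ℚ) * X ^ (a.2 - e).toNat + PP0 e l := by
  simp [PP0]

/-- RANKB. The width of a Laurent polynomial with known top and bottom terms. -/
theorem wd_LP (c₀ e₀ c₁ e₁ : ℤ) (l : List (ℤ × ℤ)) (h₀ : c₀ ≠ 0) (h₁ : c₁ ≠ 0) (h : e₁ < e₀)
    (hl : ∀ p ∈ l, e₁ < p.2 ∧ p.2 < e₀) :
    LP ((c₀, e₀) :: (c₁, e₁) :: l) ≠ 0 ∧ (wd (LP ((c₀, e₀) :: (c₁, e₁) :: l)) : ℤ) = e₀ - e₁ := by
  have hle : ∀ p ∈ ((c₀, e₀) :: (c₁, e₁) :: l), e₁ ≤ p.2 := by
    intro p hp
    rcases List.mem_cons.1 hp with rfl | hp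
    · exact h.le
    rcases List.mem_cons.1 hp with rfl | hp
    · exact le_rfl
    · exact (hl p hp).1.le
  rw [LP_eq e₁ _ hle]
  set p := PP0 e₁ ((c₀, e₀) :: (c₁, e₁) :: l) with hp
  have hc0 : p.coeff 0 ≠ 0 := by
    rw [hp, PP0_cons, PP0_cons, Polynomial.coeff_add, Polynomial.coeff_add,
      PP0_coeff e₁ l 0 (fun q hq => by have := hl q hq; omega), Polynomial.coeff_C_mul_X_pow,
      Polynomial.coeff_C_mul_X_pow, if_neg (by simp only; omega), if_pos (by simp)]
    simpa using h₁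
  have hdeg : p.natDegree = (e₀ - e₁).toNat := by
    refine Polynomial.natDegree_eq_of_le_of_coeff_ne_zero ?_ ?_
    · rw [Polynomial.natDegree_le_iff_coeff_eq_zero]
      intro N hN
      refine PP0_coeff e₁ _ N fun q hq => ?_
      rcases List.mem_cons.1 hq with rfl | hq
      · simp only; omega
      rcases List.mem_cons.1 hq with rfl | hq
      · simp only; omega
      · have := hl q hq; omega
    · rw [hp, PP0_cons, Polynomial.coeff_add, PP0_coeff e₁ _ _ (fun q hq => ?_),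
        Polynomial.coeff_C_mul_X_pow, if_pos rfl]
      · simpa using h₀
      · rcases List.mem_cons.1 hq with rfl | hq
        · simp only; omega
        · have := hl q hq; omega
  have hp0 : p ≠ 0 := by intro h0; rw [h0] at hc0; simp at hc0
  refine ⟨mul_ne_zero (LaurentPolynomial.isUnit_T (R := ℚ) e₁).ne_zero ?_, ?_⟩
  · intro h0
    apply hp0
    apply Polynomial.toLaurent_injective
    rw [h0, map_zero]
  · rw [wd_T_mul_poly e₁ p hc0, hdeg]
    omega

end Pool.Agent.Lib.MP_14f458_gt
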