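import Pool.Agent.Lib.MP_14f458_gt.Cross
import Pool.Agent.Lib.MP_14f458_gt.RankB

namespace Pool.Agent.Lib.MP_14f458_gt

open LaurentPolynomial Module

variable {G : Type} [Group G] {d : ℕ}

/-- The character `g ↦ T ^ β g`. -/
noncomputable def rcChi (β : Cl G) : G →* LRˣ where
  toFun g := ⟨T (cv β g), T (-cv β g), by rw [← T_add]; simp, by rw [← T_add]; simp⟩
  map_one' := Units.ext (by simp)
  map_mul' g h := Units.ext (show (T (cv β (g * h)) : LR) = T (cv β g) * T (cv β h) by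
    rw [cv_mul, T_add])

theorem rcChi_val (β : Cl G) (g : G) : (rcChi β g : LR) = T (cv β g) := rfl

theorem rcChi_inv (β : Cl G) (g : G) : (((rcChi β g)⁻¹ : LRˣ) : LR) = T (-cv β g) := rfl

theorem rcChi_ker {β : Cl G} {g : G} (hg : g ∈ β.ker) : (rcChi β g : LR) = 1 := by
  rw [rcChi_val, mem_ker_iff_cv.1 hg, T_zero]

theorem rc_alex {R M : Type} [CommRing R] [AddCommGroup M] [Module R M] (σ : Fin d → Wd d)
    (c ci : Fin d → R) (y : R) (u : Fin d → M) (i : Fin d) :
    ∑ k, AlexM σ c ci y i k • u k = y • u i - fx c ci u (σ i) := by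
  rw [fx_eq_sum c ci u]
  simp [AlexM, sub_smul, Finset.sum_sub_distrib, ite_smul]

theorem rc_wd {b : ℤ} (hb : 0 < b) :
    (T b - 1 : LR) ≠ 0 ∧ (finrank ℚ (tors Sq (T b - 1 : LR)) : ℤ) = b := by
  have h := wd_LP 1 b (-1) 0 [] one_ne_zero (by norm_num) hb (by simp)
  have e : LP [(1, b), (-1, 0)] = T b - 1 := by simp [LP, sub_eq_add_neg]
  rw [e, sub_zero] at h
  exact h

theorem rc_mem_tors {c : LR} {m : Sq} : m ∈ tors Sq (c - 1) ↔ c • m - m = 0 := by
  show (c - 1) • m = 0 ↔ _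
  rw [sub_smul, one_smul]

theorem rc_const {m : Sq} (h : (T 1 : LR) • m - m = 0) (k : ℤ) : (T k : LR) • m - m = 0 := by
  have h1 : ∀ n, m (n + 1) = m n := fun n => by
    have := congrFun h n
    rw [Sq.sub_apply, Sq.T_smul] at this
    exact sub_eq_zero.1 this
  have h2 : ∀ n, m n = m 0 := fun n => by
    induction n using Int.induction_on with
    | zero => rfl
    | succ n ih => rw [h1, ih]
    | pred n ih => rw [← h1, sub_add_cancel, ih]
  refine Sq.ext fun n => ?_
  rw [Sq.sub_apply, Sq.T_smul, h2, h2 n, sub_self, Sq.zero_apply]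

/-- Crossed homomorphisms that vanish on `t`. -/
def rcZ (β : Cl G) (t : G) : Submodule ℚ (G → Sq) where
  carrier := {D | IsCross (rcChi β) D ∧ D t = 0}
  add_mem' := by
    rintro D D' ⟨h, h0⟩ ⟨h', h0'⟩
    refine ⟨fun g k => ?_, by simp [h0, h0']⟩
    simp only [Pi.add_apply, h g k, h' g k, smul_add]
    abel
  zero_mem' := ⟨fun g k => by simp, rfl⟩
  smul_mem' := by
    rintro q D ⟨h, h0⟩
    refine ⟨fun g k => ?_, by simp [h0]⟩
    simp only [Pi.smul_apply, h g k, smul_add]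
    rw [smul_comm q]

/-- Evaluation on the generators. -/
noncomputable def rcE {σ : Fin d → Wd d} {x : Fin d → G} {t : G} (P : Pres σ x t) (β : Cl G) :
    rcZ β t →ₗ[ℚ] kerM Sq (Alex σ (fun i => cv β (x i)) (cv β t)) where
  toFun D := ⟨fun i => D.1 (x i), fun i => by
    have h := D.2.1.conj t (x i)
    rw [P.rel, D.2.1.map_ev, D.2.2, smul_zero, sub_zero, add_zero] at h
    rw [Alex, rc_alex, sub_eq_zero]
    exact h.symm⟩
  map_add' _ _ := rfl
  map_smul' _ _ := rfl

theorem rcE_bij {σ : Fin d → Wd d} {x : Fin d → G} {t : G} (P : Pres σ x t) (β : Cl G) :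
    Function.Bijective (rcE P β) := by
  refine ⟨(injective_iff_map_eq_zero _).2 fun D hD => Subtype.ext (funext fun g => ?_), fun u => ?_⟩
  · refine D.2.1.eq_zero_of_closure (S := Set.range x ∪ {t}) ?_ (by rw [P.gen]; trivial)
    rintro _ (⟨i, rfl⟩ | rfl)
    · exact congrFun (congrArg Subtype.val hD) i
    · exact D.2.2
  · obtain ⟨D, h1, h2, h3⟩ := exists_cross P (rcChi β) u.1 fun i => by
      have h := u.2 i
      unfold Alex at h
      exact sub_eq_zero.1 ((rc_alex _ _ _ _ _ _).symm.trans h)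
    exact ⟨⟨D, h1, h2⟩, Subtype.ext (funext h3)⟩

/-- Restriction to the kernel. -/
noncomputable def rcPhi (β : Cl G) (t : G) : rcZ β t →ₗ[ℚ] (Additive β.ker →+ ℚ) where
  toFun D := AddMonoidHom.mk' (fun g => D.1 (g.toMul : β.ker) 0) fun g h => by
    have := D.2.1 (g.toMul : β.ker) (h.toMul : β.ker)
    rw [rcChi_ker g.toMul.2, one_smul] at this
    exact congrFun this 0
  map_add' _ _ := rfl
  map_smul' _ _ := rfl

theorem rcPhi_apply (β : Cl G) (t : G) (D : rcZ β t) (g : Additive β.ker) :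
    rcPhi β t D g = D.1 (g.toMul : β.ker) 0 := rfl

theorem rcPhi_surj {β : Cl G} {t τ : G} (hτ : cv β τ = 1) (hb : 0 < cv β t) :
    Function.Surjective (rcPhi β t) := fun f => by
  classical
  let F : G → ℚ := fun g => if h : g ∈ β.ker then f (Additive.ofMul ⟨g, h⟩) else 0
  have hF : ∀ g h, g ∈ β.ker → h ∈ β.ker → F (g * h) = F g + F h := fun g h hg hh => by
    simp only [F, dif_pos hg, dif_pos hh, dif_pos (β.ker.mul_mem hg hh)]
    rw [← map_add]
    rfl
  let D0 : G → Sq := fun g n => F (τ ^ n * g * τ ^ (-n - cv β g))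
  have hm : ∀ g n, τ ^ n * g * τ ^ (-n - cv β g) ∈ β.ker := fun g n => by
    rw [mem_ker_iff_cv]
    simp [hτ]
  have h0 : IsCross (rcChi β) D0 := fun g h => Sq.ext fun n => by
    rw [Sq.add_apply, rcChi_val, Sq.T_smul]
    show F _ = F _ + F _
    rw [← hF _ _ (hm g n) (hm h _), cv_mul]
    congr 1
    group
  obtain ⟨m, hm0⟩ := Sq.surj _ (rc_wd hb).1 (D0 t)
  refine ⟨⟨fun g => D0 g - ((rcChi β g : LR) • m - m), h0.sub (isCross_principal _ m), ?_⟩, ?_⟩
  · show D0 t - ((T (cv β t) : LR) • m - m) = 0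
    rw [← hm0]
    show (T (cv β t) - 1 : LR) • m - _ = 0
    rw [sub_smul, one_smul, sub_self]
  · refine AddMonoidHom.ext fun g => ?_
    have hg := g.toMul.2
    show (D0 _ - ((rcChi β _ : LR) • m - m)) 0 = f g
    rw [rcChi_ker hg, one_smul, sub_self, sub_zero]
    show F _ = _
    rw [mem_ker_iff_cv.1 hg, neg_zero, sub_zero, zpow_zero, one_mul, mul_one]
    exact dif_pos hg

/-- Principal crossed homomorphisms. -/
noncomputable def rcPsi (β : Cl G) (t : G) : tors Sq (T (cv β t) - 1 : LR) →ₗ[ℚ] rcZ β t where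
  toFun m := ⟨fun g => (rcChi β g : LR) • m.1 - m.1, isCross_principal _ _, rc_mem_tors.1 m.2⟩
  map_add' m m' := Subtype.ext (funext fun g => by
    show (rcChi β g : LR) • (m.1 + m'.1) - (m.1 + m'.1) =
      ((rcChi β g : LR) • m.1 - m.1) + ((rcChi β g : LR) • m'.1 - m'.1)
    rw [smul_add]
    abel)
  map_smul' q m := Subtype.ext (funext fun g => by
    show (rcChi β g : LR) • q • m.1 - q • m.1 = q • ((rcChi β g : LR) • m.1 - m.1)
    rw [smul_sub, smul_comm q])

theorem rcPsi_range {β : Cl G} {t τ : G} (hτ : cv β τ = 1) :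
    LinearMap.range (rcPsi β t) = LinearMap.ker (rcPhi β t) := by
  refine le_antisymm ?_ fun D hD => ?_
  · rintro _ ⟨m, rfl⟩
    refine AddMonoidHom.ext fun g => ?_
    show ((rcChi β _ : LR) • m.1 - m.1) 0 = 0
    rw [rcChi_ker g.toMul.2, one_smul, sub_self, Sq.zero_apply]
  · have h1 : ∀ g ∈ β.ker, D.1 g 0 = 0 := fun g hg =>
      DFunLike.congr_fun hD (Additive.ofMul ⟨g, hg⟩)
    have h2 : ∀ g ∈ β.ker, D.1 g = 0 := fun g hg => Sq.ext fun n => by
      have h := congrFun (D.2.1.conj (τ ^ n) g) 0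
      rw [h1 _ ((MonoidHom.normal_ker β).conj_mem g hg _), rcChi_ker hg, one_smul, sub_self,
        add_zero, rcChi_val, Sq.T_smul] at h
      simpa [hτ] using h.symm
    obtain ⟨m, hm⟩ := Sq.surj _ (rc_wd one_pos).1 (D.1 τ)
    have hm' : (T 1 : LR) • m - m = D.1 τ := by
      rw [← hm]
      show _ = (T 1 - 1 : LR) • m
      rw [sub_smul, one_smul]
    have h3 : ∀ g, D.1 g - ((rcChi β g : LR) • m - m) = 0 := fun g => by
      refine (D.2.1.sub (isCross_principal _ m)).eq_zero_of_closure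
        (S := (β.ker : Set G) ∪ {τ}) ?_ ?_
      · rintro k (hk | rfl)
        · show D.1 k - ((rcChi β k : LR) • m - m) = 0
          rw [h2 k hk, rcChi_ker hk, one_smul, sub_self, sub_self]
        · show D.1 k - ((T (cv β k) : LR) • m - m) = 0
          rw [hτ, hm', sub_self]
      · have e : g = g * τ ^ (-cv β g) * τ ^ cv β g := by group
        rw [e]
        refine mul_mem (Subgroup.subset_closure (.inl ?_))
          (zpow_mem (Subgroup.subset_closure (.inr rfl)) _)
        show _ ∈ β.ker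
        rw [mem_ker_iff_cv]
        simp [hτ]
    refine ⟨⟨m, rc_mem_tors.2 ?_⟩, Subtype.ext (funext fun g => (sub_eq_zero.1 (h3 g)).symm)⟩
    have := h3 t
    rwa [D.2.2, zero_sub, neg_eq_zero] at this

theorem rcPsi_ker {β : Cl G} {t τ : G} (hτ : cv β τ = 1) :
    finrank ℚ (LinearMap.ker (rcPsi β t)) = 1 := by
  have e : (LinearMap.ker (rcPsi β t)).map (tors Sq (T (cv β t) - 1 : LR)).subtype =
      tors Sq (T 1 - 1 : LR) := by
    refine le_antisymm ?_ fun m hm => ?_
    · rintro _ ⟨m, hm, rfl⟩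
      have h : (T (cv β τ) : LR) • m.1 - m.1 = 0 := congrFun (congrArg Subtype.val hm) τ
      rw [hτ] at h
      exact rc_mem_tors.2 h
    · have h := rc_const (rc_mem_tors.1 hm)
      exact ⟨⟨m, rc_mem_tors.2 (h _)⟩, Subtype.ext (funext fun g => h _), rfl⟩
  rw [← Submodule.finrank_map_subtype_eq, e]
  exact_mod_cast (rc_wd one_pos).2

/-- RANKC. The first Betti number of the kernel from the Alexander determinant. -/
theorem nrm_eq {σ : Fin d → Wd d} {x : Fin d → G} {t : G} (P : Pres σ x t) (β : Cl G)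
    (hβ : Function.Surjective β) (hb : 0 < cv β t)
    (hdet : (Alex σ (fun i => cv β (x i)) (cv β t)).det ≠ 0) :
    nrm β = (wd (Alex σ (fun i => cv β (x i)) (cv β t)).det : ℝ) - cv β t := by
  obtain ⟨τ, hτ⟩ := hβ (Multiplicative.ofAdd 1)
  rw [← cv_eq_iff] at hτ
  have := finite_kerM Sq.fin _ hdet
  have := Sq.fin _ (rc_wd hb).1
  let E := LinearEquiv.ofBijective _ (rcE_bij P β)
  have : FiniteDimensional ℚ (rcZ β t) := E.symm.finiteDimensional
  have h1 : finrank ℚ (rcZ β t) = wd (Alex σ (fun i => cv β (x i)) (cv β t)).det :=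
    E.finrank_eq.trans (finrank_kerM Sq.surj Sq.fin _ hdet)
  have h2 := (rcPhi β t).finrank_range_add_finrank_ker
  have h3 := (rcPsi β t).finrank_range_add_finrank_ker
  rw [LinearMap.range_eq_top.2 (rcPhi_surj hτ hb), finrank_top, h1] at h2
  rw [rcPsi_range hτ, rcPsi_ker hτ] at h3
  have h4 := (rc_wd hb).2
  rw [← h3] at h4
  rw [nrm, ← h2, ← h4]
  push_cast
  ring

end Pool.Agent.Lib.MP_14f458_gt
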