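import Pool.Agent.Lib.MP_14f458_gt.Irr2
import Pool.Agent.Lib.MP_14f458_gt.RankC

namespace Pool.Agent.Lib.MP_14f458_gt

namespace MD
variable {d m f : ℕ} {M : MD d m f} {G : Type} [Group G] {x : Fin d → G} {t : G}

/-- The norm of a primitive class of the cone is linear in the coordinates. -/
theorem Good.irr_nrm (hM : M.Good) (hR : M.RankOK) (P : Pres M.σ x t) {γ : Cl G}
    (hγ : Function.Surjective γ) {n : Fin m → ℤ} (hn : M.Has x t γ n) (hC : cst n ∈ M.C) :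
    nrm γ = lin M.xn (cst n) := by
  obtain ⟨h1, h2⟩ := hR n hC
  have h3 : (fun i => cv γ (x i)) = fun i => linZ (M.pa i) n := funext hn.1
  have h4 := nrm_eq P γ hγ (hM.irr_pos hn hC) (by rwa [h3, hn.2])
  rw [h3, hn.2] at h4
  have h5 := congrArg (Int.cast : ℤ → ℝ) h2
  push_cast at h5
  rw [h4, h5, lin_cst]
  ring

/-- IRR3. The minimal point is not rational. -/
theorem irr (hM : M.Good) (hR : M.RankOK) (hL : M.LagOK) (P : Pres M.σ x t) {S : Cl G}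
    {nS : Fin m → ℤ} (hS : M.Has x t S nS) (hSC : cst nS ∈ M.C) : ¬ RatMin S := by
  rintro ⟨α, hα, hαC, hmin⟩
  obtain ⟨n, hn⟩ := hM.exists_has P α
  have hC := (hM.inCone_iff P hS hSC hn).1 hαC
  obtain ⟨-, hpos, hF, hup, -⟩ := hM.ent_spec P hα hn hC
  obtain ⟨Θ, hΘ1, hΘ2⟩ := hL
  have hξ : ent α • cst n ∈ M.C := (irr_smul_mem_C hpos).2 hC
  have h0 := (hΘ1 _ hξ).1 hF
  obtain ⟨δ, hδ, hδ'⟩ := hΘ2 n (ent α) hC hpos h0
  obtain ⟨L, hL1, hL2⟩ := hasFDerivAt_EP Θ (ent α • cst n)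
  refine hδ' ((hL2 δ).symm.trans (lagrange M.C M.R M.isOpen_C (EP Θ) _ hξ L hL1 h0
    (fun η hη ε hε => ?_)
    (fun p q hp h => R_seg hp fun ξ h1 h2 => (h ξ h1).2 ((hΘ1 ξ (h ξ h1).1).1 h2))
    M.xn (hM.xpos _ hξ) (fun ξ hξR => ?_) δ hδ))
  · have h1 : ContinuousAt (fun κ : ℝ => ε • η - κ • cst n) 0 := by fun_prop
    have h2 : ∀ᶠ κ : ℝ in nhds 0, ε • η - κ • cst n ∈ M.C :=
      h1.eventually (M.isOpen_C.mem_nhds (by simpa using (irr_smul_mem_C hε).2 hη))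
    obtain ⟨κ, h3, h4⟩ := ((h2.filter_mono nhdsWithin_le_nhds).and
      (self_mem_nhdsWithin (s := Set.Ioi (0 : ℝ)) (a := 0))).exists
    have h5 := hM.R_add (hup (ent α + κ) (by simpa using h4)) (irr_C_sub h3)
    convert h5 using 1
    rw [add_smul]
    abel
  · by_contra h1
    rw [not_le] at h1
    obtain ⟨n', s, hs, h2, h3⟩ := dense_rat (M.R ∩ {ξ | lin M.xn ξ < lin M.xn (ent α • cst n)})
      (M.isOpen_R.inter (isOpen_lt (continuous_lin _) continuous_const)) ⟨hξR, h1⟩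
    obtain ⟨β, hβ⟩ := hM.exists_cl P n'
    obtain ⟨-, k, γ, n'', hk, hγ, hn'', -, rfl, h4⟩ :=
      hM.irr_root_C P hβ ((irr_smul_mem_C hs).1 (hM.supC h2))
    rw [irr_cst_smul, smul_smul] at h2 h3
    have h5 := (hM.ent_spec P hγ hn'' h4).2.2.2.2 _ h2
    have h6 := hmin γ hγ ((hM.inCone_iff P hS hSC hn'').2 h4)
    rw [hM.irr_nrm hR P hα hn hC, hM.irr_nrm hR P hγ hn'' h4] at h6
    rw [Set.mem_ofPred_eq, lin_smul, lin_smul] at h3
    nlinarith [hM.xpos _ h4]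

end MD

end Pool.Agent.Lib.MP_14f458_gt
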