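import Pool.Agent.Lib.MP_14f458_gt.Small

namespace Pool.Agent.Lib.MP_14f458_gt

variable {m : ℕ}

private theorem opt_aux (C R : Set (Fin m → ℝ)) (hC : IsOpen C) (Θ : (Fin m → ℝ) → ℝ)
    (ξ₀ : Fin m → ℝ) (hξ : ξ₀ ∈ C) (L : (Fin m → ℝ) →L[ℝ] ℝ) (hΘ : HasFDerivAt Θ L ξ₀)
    (h0 : Θ ξ₀ = 0) (hR : ∀ η ∈ C, ∀ ε : ℝ, 0 < ε → ξ₀ + ε • η ∈ R)
    (hseg : ∀ p q, p ∈ R → (∀ ξ ∈ segment ℝ p q, ξ ∈ C ∧ Θ ξ ≠ 0) → q ∈ R)
    (η : Fin m → ℝ) (hη : η ∈ C) (δ : Fin m → ℝ) (hpos : 0 < L η * L δ) :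
    ∃ ε : ℝ, 0 < ε ∧ ξ₀ + ε • δ ∈ R := by
  have hη0 : L η ≠ 0 := fun h => by simp [h] at hpos
  have hδ0 : L δ ≠ 0 := fun h => by simp [h] at hpos
  set μ : ℝ := min |L η| |L δ| with hμ
  have hμ0 : 0 < μ := lt_min (abs_pos.2 hη0) (abs_pos.2 hδ0)
  set N : ℝ := max ‖η‖ ‖δ‖ + 1 with hN
  have hN0 : 0 < N := by
    have := le_max_left ‖η‖ ‖δ‖
    have := norm_nonneg η
    linarith
  have hlow : ∀ a b : ℝ, 0 ≤ a → 0 ≤ b → a + b = 1 → μ ≤ |L (a • η + b • δ)| := by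
    intro a b ha hb hab
    have h1 : μ ≤ |L η| := min_le_left _ _
    have h2 : μ ≤ |L δ| := min_le_right _ _
    rw [map_add, map_smul, map_smul, smul_eq_mul, smul_eq_mul]
    rcases lt_or_gt_of_ne hη0 with h | h
    · have h' : L δ < 0 := by
        by_contra hh
        have := mul_nonpos_of_nonpos_of_nonneg h.le (not_lt.1 hh)
        linarith
      rw [abs_of_neg h] at h1
      rw [abs_of_neg h'] at h2
      refine le_trans ?_ (neg_le_abs _)
      have e : μ = a * μ + b * μ := by rw [← add_mul, hab, one_mul]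
      have h3 := mul_le_mul_of_nonneg_left h1 ha
      have h4 := mul_le_mul_of_nonneg_left h2 hb
      linarith
    · have h' : 0 < L δ := by
        by_contra hh
        have := mul_nonpos_of_nonneg_of_nonpos h.le (not_lt.1 hh)
        linarith
      rw [abs_of_pos h] at h1
      rw [abs_of_pos h'] at h2
      refine le_trans ?_ (le_abs_self _)
      have e : μ = a * μ + b * μ := by rw [← add_mul, hab, one_mul]
      have h3 := mul_le_mul_of_nonneg_left h1 ha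
      have h4 := mul_le_mul_of_nonneg_left h2 hb
      linarith
  have hup : ∀ a b : ℝ, 0 ≤ a → 0 ≤ b → a + b = 1 → ‖a • η + b • δ‖ ≤ N := by
    intro a b ha hb hab
    have h1 : ‖η‖ ≤ N := by
      have := le_max_left ‖η‖ ‖δ‖
      linarith
    have h2 : ‖δ‖ ≤ N := by
      have := le_max_right ‖η‖ ‖δ‖
      linarith
    refine (norm_add_le _ _).trans ?_
    rw [norm_smul, norm_smul, Real.norm_of_nonneg ha, Real.norm_of_nonneg hb]
    have e : N = a * N + b * N := by rw [← add_mul, hab, one_mul]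
    have h3 := mul_le_mul_of_nonneg_left h1 ha
    have h4 := mul_le_mul_of_nonneg_left h2 hb
    linarith
  have hc : 0 < μ / (2 * N) := by positivity
  have hev := (hΘ.isLittleO.bound hc).and (hC.mem_nhds hξ)
  obtain ⟨r, hr, hball⟩ := Metric.eventually_nhds_iff.1 hev
  have hε : 0 < r / (2 * N) := by positivity
  refine ⟨r / (2 * N), hε, hseg _ _ (hR η hη _ hε) ?_⟩
  rintro ξ ⟨a, b, ha, hb, hab, rfl⟩
  set ε : ℝ := r / (2 * N) with hεd
  have e : a • (ξ₀ + ε • η) + b • (ξ₀ + ε • δ) = ξ₀ + ε • (a • η + b • δ) := by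
    have e1 : ξ₀ = a • ξ₀ + b • ξ₀ := by rw [← add_smul, hab, one_smul]
    conv_rhs => rw [e1]
    simp only [smul_add, smul_smul, mul_comm ε]
    abel
  rw [e]
  set d := a • η + b • δ with hd
  have hdN : ‖d‖ ≤ N := hup a b ha hb hab
  have hdμ : μ ≤ |L d| := hlow a b ha hb hab
  have hnorm : ‖ε • d‖ ≤ ε * N := by
    rw [norm_smul, Real.norm_of_nonneg hε.le]
    exact mul_le_mul_of_nonneg_left hdN hε.le
  have hεN : ε * N = r / 2 := by
    rw [hεd]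
    field_simp
  have hdist : dist (ξ₀ + ε • d) ξ₀ < r := by
    rw [dist_eq_norm, add_sub_cancel_left]
    linarith
  obtain ⟨h1, h2⟩ := hball hdist
  refine ⟨h2, fun hz => ?_⟩
  rw [hz, h0, add_sub_cancel_left, map_smul, smul_eq_mul, sub_self, zero_sub, norm_neg,
    Real.norm_eq_abs, abs_mul, abs_of_pos hε] at h1
  have h3 : μ / (2 * N) * ‖ε • d‖ ≤ μ / (2 * N) * (ε * N) :=
    mul_le_mul_of_nonneg_left hnorm hc.le
  have h4 : μ / (2 * N) * (ε * N) = ε * μ / 2 := by field_simp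
  have h5 : ε * μ ≤ ε * |L d| := mul_le_mul_of_nonneg_left hdμ hε.le
  have h6 : 0 < ε * μ := mul_pos hε hμ0
  linarith

/-- OPT. The Lagrange condition at a minimum of a linear form on the boundary of `R`. -/
theorem lagrange (C R : Set (Fin m → ℝ)) (hC : IsOpen C) (Θ : (Fin m → ℝ) → ℝ)
    (ξ₀ : Fin m → ℝ) (hξ : ξ₀ ∈ C) (L : (Fin m → ℝ) →L[ℝ] ℝ) (hΘ : HasFDerivAt Θ L ξ₀)
    (h0 : Θ ξ₀ = 0) (hR : ∀ η ∈ C, ∀ ε : ℝ, 0 < ε → ξ₀ + ε • η ∈ R)
    (hseg : ∀ p q, p ∈ R → (∀ ξ ∈ segment ℝ p q, ξ ∈ C ∧ Θ ξ ≠ 0) → q ∈ R)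
    (c : Fin m → ℤ) (hc : 0 < lin c ξ₀) (hmin : ∀ ξ ∈ R, lin c ξ₀ ≤ lin c ξ) (δ : Fin m → ℝ)
    (hδ : lin c δ = 0) : L δ = 0 := by
  by_contra hne
  obtain ⟨η, hη, hη0⟩ : ∃ η ∈ C, L η ≠ 0 := by
    by_cases h : L ξ₀ = 0
    · have hcont : Continuous fun t : ℝ => ξ₀ + t • δ := by fun_prop
      have hev : ∀ᶠ t : ℝ in nhds 0, ξ₀ + t • δ ∈ C :=
        hcont.continuousAt.eventually (hC.mem_nhds (by simpa using hξ))
      obtain ⟨t, ht, ht0⟩ :=
        ((hev.filter_mono (nhdsWithin_le_nhds (s := Set.Ioi (0 : ℝ)))).and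
          self_mem_nhdsWithin).exists
      refine ⟨_, ht, ?_⟩
      rw [map_add, map_smul, h, zero_add, smul_eq_mul]
      exact mul_ne_zero (ne_of_gt ht0) hne
    · exact ⟨ξ₀, hξ, h⟩
  obtain ⟨δ₁, hδ₁, hpos⟩ : ∃ δ₁ : Fin m → ℝ, lin c δ₁ = 0 ∧ 0 < L η * L δ₁ := by
    rcases lt_or_gt_of_ne (mul_ne_zero hη0 hne) with h | h
    · refine ⟨(-1 : ℝ) • δ, by rw [lin_smul, hδ, mul_zero], ?_⟩
      rw [map_smul, smul_eq_mul]
      linarith
    · exact ⟨δ, hδ, h⟩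
  obtain ⟨κ, hκ, hκ0⟩ : ∃ κ : ℝ, 0 < L η * L (δ₁ + (-κ) • ξ₀) ∧ 0 < κ := by
    have hcont : Continuous fun t : ℝ => L η * L (δ₁ + (-t) • ξ₀) := by fun_prop
    have hev : ∀ᶠ t : ℝ in nhds 0, 0 < L η * L (δ₁ + (-t) • ξ₀) :=
      hcont.continuousAt.eventually (lt_mem_nhds (by simpa using hpos))
    exact ((hev.filter_mono (nhdsWithin_le_nhds (s := Set.Ioi (0 : ℝ)))).and
      self_mem_nhdsWithin).exists
  obtain ⟨ε, hε, hq⟩ := opt_aux C R hC Θ ξ₀ hξ L hΘ h0 hR hseg η hη _ hκ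
  have h1 := hmin _ hq
  rw [lin_add, lin_smul, lin_add, lin_smul, hδ₁] at h1
  have h2 : 0 < ε * (κ * lin c ξ₀) := mul_pos hε (mul_pos hκ0 hc)
  linarith

private theorem opt_lin_deriv (c : Fin m → ℤ) (ξ : Fin m → ℝ) :
    ∃ L : (Fin m → ℝ) →L[ℝ] ℝ, HasFDerivAt (lin c) L ξ ∧ ∀ δ, L δ = lin c δ := by
  let L : (Fin m → ℝ) →L[ℝ] ℝ := ∑ j, (c j : ℝ) • ContinuousLinearMap.proj j
  have hL : ∀ δ, L δ = lin c δ := fun δ => by simp [L, lin]
  refine ⟨L, ?_, hL⟩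
  have e : lin c = fun δ => L δ := funext fun δ => (hL δ).symm
  rw [e]
  exact L.hasFDerivAt

theorem hasFDerivAt_EP (l : List (ℤ × (Fin m → ℤ))) (ξ : Fin m → ℝ) :
    ∃ L : (Fin m → ℝ) →L[ℝ] ℝ, HasFDerivAt (EP l) L ξ ∧ ∀ δ, L δ = EPd l ξ δ := by
  induction l with
  | nil =>
    refine ⟨0, ?_, fun δ => by simp [EPd]⟩
    have e : EP ([] : List (ℤ × (Fin m → ℤ))) = fun _ => 0 := funext fun _ => by simp [EP]
    rw [e]
    exact hasFDerivAt_const _ _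
  | cons p l ih =>
    obtain ⟨L, hL, hLδ⟩ := ih
    obtain ⟨L₁, hL₁, hL₁δ⟩ := opt_lin_deriv p.2 ξ
    have e : EP (p :: l) = fun x => (p.1 : ℝ) * Real.exp (lin p.2 x) + EP l x :=
      funext fun _ => by simp [EP]
    refine ⟨(p.1 : ℝ) • Real.exp (lin p.2 ξ) • L₁ + L, ?_, fun δ => ?_⟩
    · rw [e]
      exact (hL₁.exp.const_mul (p.1 : ℝ)).add hL
    simp only [add_apply, smul_apply, smul_eq_mul, hLδ,
      hL₁δ, EPd, List.map_cons, List.sum_cons]
    ring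

theorem dense_rat (R : Set (Fin m → ℝ)) (hR : IsOpen R) {ξ : Fin m → ℝ} (hξ : ξ ∈ R) :
    ∃ (n : Fin m → ℤ) (s : ℝ), 0 < s ∧ s • cst n ∈ R := by
  obtain ⟨ε, hε, hball⟩ := Metric.isOpen_iff.1 hR ξ hξ
  have hs : 0 < ε / 2 := by positivity
  refine ⟨fun j => ⌊ξ j / (ε / 2)⌋, ε / 2, hs, hball ?_⟩
  rw [Metric.mem_ball, dist_pi_lt_iff hε]
  intro j
  have h1 := Int.floor_le (ξ j / (ε / 2))
  have h2 := Int.lt_floor_add_one (ξ j / (ε / 2))
  rw [le_div_iff₀ hs] at h1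
  rw [div_lt_iff₀ hs] at h2
  rw [Real.dist_eq, abs_lt]
  simp only [Pi.smul_apply, cst, smul_eq_mul]
  constructor <;> nlinarith

theorem prim_root {G : Type} [Group G] (β : Cl G) (h : β ≠ 1) :
    ∃ (k : ℕ) (γ : Cl G), 0 < k ∧ Function.Surjective γ ∧ β = γ ^ k := by
  let H : AddSubgroup ℤ :=
    { carrier := Set.range (cv β)
      add_mem' := by
        rintro _ _ ⟨g, rfl⟩ ⟨g', rfl⟩
        exact ⟨g * g', cv_mul β g g'⟩
      zero_mem' := ⟨1, cv_one β⟩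
      neg_mem' := by
        rintro _ ⟨g, rfl⟩
        exact ⟨g⁻¹, cv_inv β g⟩ }
  obtain ⟨a, ha⟩ := Int.subgroup_cyclic H
  have hdvd : ∀ g, a ∣ cv β g := fun g => by
    have hg : cv β g ∈ H := ⟨g, rfl⟩
    rw [ha, AddSubgroup.mem_closure_singleton] at hg
    obtain ⟨n, hn⟩ := hg
    exact ⟨n, by rw [← hn, smul_eq_mul, mul_comm]⟩
  have hdvd' : ∀ g, (a.natAbs : ℤ) ∣ cv β g := fun g => Int.natAbs_dvd.2 (hdvd g)
  have ha0 : a ≠ 0 := by
    rintro rfl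
    refine h (cl_ext fun g => ?_)
    rw [cv_cl_one]
    exact zero_dvd_iff.1 (hdvd g)
  have hk0 : (a.natAbs : ℤ) ≠ 0 := by
    have := Int.natAbs_pos.2 ha0
    omega
  have hmem : ∃ g, cv β g = (a.natAbs : ℤ) := by
    have h1 : a ∈ H := by
      rw [ha]
      exact AddSubgroup.subset_closure rfl
    rcases Int.natAbs_eq a with h2 | h2
    · rw [← h2]
      exact h1
    · have h3 : (a.natAbs : ℤ) = -a := by omega
      rw [h3]
      exact H.neg_mem h1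
  let γ : Cl G := MonoidHom.mk' (fun g => Multiplicative.ofAdd (cv β g / (a.natAbs : ℤ)))
    (fun g g' => by
      rw [← ofAdd_add, cv_mul, Int.add_ediv_of_dvd_left (hdvd' g)])
  have hγ : ∀ g, cv γ g = cv β g / (a.natAbs : ℤ) := fun g => rfl
  refine ⟨a.natAbs, γ, Int.natAbs_pos.2 ha0, fun y => ?_, cl_ext fun g => ?_⟩
  · obtain ⟨g, hg⟩ := hmem
    refine ⟨g ^ Multiplicative.toAdd y, ?_⟩
    have h1 : cv γ (g ^ Multiplicative.toAdd y) = Multiplicative.toAdd y := by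
      rw [cv_zpow, hγ, hg, Int.ediv_self hk0, mul_one]
    exact cv_eq_iff.1 h1
  · rw [cv_cl_pow, hγ, Int.mul_ediv_cancel' (hdvd' g)]

private theorem opt_integral_nat (x : ℝ) (N : ℕ) (l : List (ℤ × ℕ)) (hl : ∀ p ∈ l, p.2 < N)
    (h : x ^ N = (l.map fun p => (p.1 : ℝ) * x ^ p.2).sum) : IsIntegral ℤ x := by
  have key : ∀ l : List (ℤ × ℕ), (∀ p ∈ l, p.2 < N) → ∃ q : Polynomial ℤ, q.degree < N ∧
      Polynomial.aeval x q = (l.map fun p => (p.1 : ℝ) * x ^ p.2).sum := by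
    intro l hl
    induction l with
    | nil => exact ⟨0, by simp, by simp⟩
    | cons p l ih =>
      obtain ⟨q, hq, hq'⟩ := ih fun p' hp' => hl p' (List.mem_cons_of_mem _ hp')
      refine ⟨Polynomial.C p.1 * Polynomial.X ^ p.2 + q, ?_, ?_⟩
      · refine lt_of_le_of_lt (Polynomial.degree_add_le _ _) (max_lt ?_ hq)
        refine lt_of_le_of_lt (Polynomial.degree_C_mul_X_pow_le _ _) ?_
        exact_mod_cast hl p List.mem_cons_self
      · simp [hq']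
  obtain ⟨q, hq, hq'⟩ := key l hl
  refine ⟨Polynomial.X ^ N - q, Polynomial.monic_X_pow_sub hq, ?_⟩
  rw [← Polynomial.aeval_def]
  simp [hq', h]

private theorem opt_integral_int (s : ℝ) (c : ℤ) (hc : c = 1 ∨ c = -1) (a b : ℤ) (hab : a < b)
    (l : List (ℤ × ℤ)) (hl : ∀ p ∈ l, a ≤ p.2 ∧ p.2 < b)
    (h : (c : ℝ) * Real.exp (s * b) + (l.map fun p => (p.1 : ℝ) * Real.exp (s * p.2)).sum = 0) :
    IsIntegral ℤ (Real.exp s) := by
  have hpow : ∀ k : ℤ, a ≤ k →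
      Real.exp s ^ (k - a).toNat = Real.exp (s * k) * Real.exp (-(s * a)) := by
    intro k hk
    rw [← Real.exp_nat_mul, ← Real.exp_add]
    congr 1
    have h1 : (((k - a).toNat : ℕ) : ℝ) = (k : ℝ) - a := by
      have h2 : (((k - a).toNat : ℕ) : ℤ) = k - a := Int.toNat_of_nonneg (by omega)
      exact_mod_cast h2
    rw [h1]
    ring
  have hsum : ∀ l : List (ℤ × ℤ), (∀ p ∈ l, a ≤ p.2) →
      ((l.map fun p => (-c * p.1, (p.2 - a).toNat)).map
        fun p : ℤ × ℕ => (p.1 : ℝ) * Real.exp s ^ p.2).sum =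
      -(c : ℝ) * (l.map fun p => (p.1 : ℝ) * Real.exp (s * p.2)).sum * Real.exp (-(s * a)) := by
    intro l hl
    induction l with
    | nil => simp
    | cons p l ih =>
      simp only [List.map_cons, List.sum_cons]
      rw [ih fun p' hp' => hl p' (List.mem_cons_of_mem _ hp'), hpow _ (hl p List.mem_cons_self)]
      push_cast
      ring
  refine opt_integral_nat _ (b - a).toNat (l.map fun p => (-c * p.1, (p.2 - a).toNat)) ?_ ?_
  · intro p hp
    obtain ⟨p', hp', rfl⟩ := List.mem_map.1 hp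
    have := hl p' hp'
    dsimp only
    omega
  · rw [hsum l fun p hp => (hl p hp).1, hpow b hab.le, eq_neg_of_add_eq_zero_right h]
    rcases hc with rfl | rfl <;> push_cast <;> ring

/-- OPT. At a root on an integral ray of an exponential polynomial whose top and bottom
coefficients are units, all the exponentials are algebraic integers. -/
theorem isIntegral_exp (c₀ c₁ : ℤ) (e₀ e₁ : Fin m → ℤ) (l : List (ℤ × (Fin m → ℤ)))
    (h₀ : c₀ = 1 ∨ c₀ = -1) (h₁ : c₁ = 1 ∨ c₁ = -1) (n : Fin m → ℤ)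
    (h01 : linZ e₁ n < linZ e₀ n) (hl : ∀ p ∈ l, linZ e₁ n < linZ p.2 n ∧ linZ p.2 n < linZ e₀ n)
    (s : ℝ) (h : EP ((c₀, e₀) :: (c₁, e₁) :: l) (s • cst n) = 0) (k : ℤ) :
    IsIntegral ℤ (Real.exp (s * k)) := by
  simp only [EP, List.map_cons, List.sum_cons, lin_smul, lin_cst] at h
  have hp : IsIntegral ℤ (Real.exp s) := by
    refine opt_integral_int s c₀ h₀ (linZ e₁ n) (linZ e₀ n) h01
      ((c₁, linZ e₁ n) :: l.map fun p => (p.1, linZ p.2 n)) ?_ ?_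
    · intro p hp
      rcases List.mem_cons.1 hp with rfl | hp
      · exact ⟨le_rfl, h01⟩
      · obtain ⟨p', hp', rfl⟩ := List.mem_map.1 hp
        exact ⟨(hl p' hp').1.le, (hl p' hp').2⟩
    · simp only [List.map_cons, List.sum_cons, List.map_map, Function.comp_def]
      exact h
  have hn : IsIntegral ℤ (Real.exp (-s)) := by
    refine opt_integral_int (-s) c₁ h₁ (-linZ e₀ n) (-linZ e₁ n) (by omega)
      ((c₀, -linZ e₀ n) :: l.map fun p => (p.1, -linZ p.2 n)) ?_ ?_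
    · intro p hp
      rcases List.mem_cons.1 hp with rfl | hp
      · exact ⟨le_rfl, by dsimp only; omega⟩
      · obtain ⟨p', hp', rfl⟩ := List.mem_map.1 hp
        have := hl p' hp'
        dsimp only
        omega
    · simp only [List.map_cons, List.sum_cons, List.map_map, Function.comp_def, Int.cast_neg,
        neg_mul_neg]
      linarith
  obtain ⟨j, rfl | rfl⟩ := Int.eq_nat_or_neg k
  · have e : Real.exp (s * ((j : ℤ) : ℝ)) = Real.exp s ^ j := by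
      rw [← Real.exp_nat_mul]
      congr 1
      push_cast
      ring
    rw [e]
    exact hp.pow j
  · have e : Real.exp (s * ((-(j : ℤ) : ℤ) : ℝ)) = Real.exp (-s) ^ j := by
      rw [← Real.exp_nat_mul]
      congr 1
      push_cast
      ring
    rw [e]
    exact hn.pow j

end Pool.Agent.Lib.MP_14f458_gt
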