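import Pool.Agent.Lib.MP_14f458_gt.Chk
import Pool.Agent.Lib.MP_14f458_gt.Opt

namespace Pool.Agent.Lib.MP_14f458_gt

theorem lagB_lin (c : Fin 2 → ℤ) (ξ : Fin 2 → ℝ) : lin c ξ = c 0 * ξ 0 + c 1 * ξ 1 := by
  simp [lin, Fin.sum_univ_two]

theorem lagB_mat (ξ : Fin 2 → ℝ) : Mat sigB (mdB.a ξ) (mdB.b ξ) =
    (Real.exp (ξ 1))⁻¹ • !![1, 0, 0, Real.exp (ξ 0);
      1, 2 * Real.exp (ξ 0), Real.exp (ξ 0), Real.exp (ξ 0) + 1;
      0, 3, 1, (Real.exp (ξ 0))⁻¹; 0, 3, 0, 1] := by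
  have ha : mdB.a ξ = ![ξ 0, 0, -ξ 0, 0] := by
    funext i
    fin_cases i <;> simp [MD.a, mdB, lagB_lin]
  have hb : mdB.b ξ = ξ 1 := by simp [MD.b, mdB, lagB_lin]
  rw [ha, hb]
  ext i k
  fin_cases i <;> fin_cases k <;>
    simp [Mat, sigB, SS, Real.exp_add, Real.exp_neg] <;> ring

theorem lagB_EP (ξ : Fin 2 → ℝ) : EP thB ξ =
    Real.exp (ξ 1) ^ 3 + Real.exp (ξ 0) - 2 * Real.exp (ξ 0) * Real.exp (ξ 1) ^ 2
      - 2 * Real.exp (ξ 1) ^ 2 - 2 * Real.exp (ξ 0) * Real.exp (ξ 1) - 2 * Real.exp (ξ 1) := by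
  have h3 : Real.exp (3 * ξ 1) = Real.exp (ξ 1) ^ 3 := by
    rw [← Real.exp_nat_mul]; norm_num
  have h2 : Real.exp (2 * ξ 1) = Real.exp (ξ 1) ^ 2 := by
    rw [← Real.exp_nat_mul]; norm_num
  simp [EP, thB, lagB_lin, Real.exp_add, h2, h3]
  ring

theorem lagB_EPd (ξ : Fin 2 → ℝ) : EPd thB ξ ![3, 1] =
    3 * Real.exp (ξ 1) ^ 3 + 3 * Real.exp (ξ 0) - 10 * Real.exp (ξ 0) * Real.exp (ξ 1) ^ 2
      - 4 * Real.exp (ξ 1) ^ 2 - 8 * Real.exp (ξ 0) * Real.exp (ξ 1) - 2 * Real.exp (ξ 1) := by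
  have h3 : Real.exp (3 * ξ 1) = Real.exp (ξ 1) ^ 3 := by
    rw [← Real.exp_nat_mul]; norm_num
  have h2 : Real.exp (2 * ξ 1) = Real.exp (ξ 1) ^ 2 := by
    rw [← Real.exp_nat_mul]; norm_num
  simp [EPd, thB, lagB_lin, Real.exp_add, h2, h3]
  ring

theorem lagB_F (ξ : Fin 2 → ℝ) :
    mdB.F ξ = (Real.exp (ξ 1) - 1) * (Real.exp (ξ 1))⁻¹ ^ 4 * EP thB ξ := by
  have hσ : mdB.σ = sigB := rfl
  rw [MD.F, Fd, hσ, lagB_mat, lagB_EP]
  have hX := (Real.exp_pos (ξ 0)).ne'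
  have hY := (Real.exp_pos (ξ 1)).ne'
  generalize Real.exp (ξ 0) = X at *
  generalize Real.exp (ξ 1) = Y at *
  have : (1 : Matrix (Fin 4) (Fin 4) ℝ) - Y⁻¹ • !![1, 0, 0, X; 1, 2 * X, X, X + 1;
      0, 3, 1, X⁻¹; 0, 3, 0, 1] = !![1 - Y⁻¹, 0, 0, -(Y⁻¹ * X);
      -Y⁻¹, 1 - Y⁻¹ * (2 * X), -(Y⁻¹ * X), -(Y⁻¹ * (X + 1));
      0, -(Y⁻¹ * 3), 1 - Y⁻¹, -(Y⁻¹ * X⁻¹); 0, -(Y⁻¹ * 3), 0, 1 - Y⁻¹] := by
    ext i k
    fin_cases i <;> fin_cases k <;> simp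
  rw [this, Matrix.det_succ_row_zero]
  simp [Fin.sum_univ_succ, Matrix.det_fin_three, Fin.succAbove]
  field_simp
  ring

theorem lagB_alg (T : ℝ) (hT : IsIntegral ℤ T) (h : 2 * T ^ 2 - 5 * T - 16 = 0) : False := by
  open Polynomial in
  let p : ℚ[X] := X ^ 2 - C (5 / 2) * X - C 8
  have hm : p.Monic := by
    simp only [p]
    monicity!
  have hd : p.natDegree = 2 := by
    simp only [p]
    compute_degree!
  have hi : Irreducible p := by
    apply Polynomial.irreducible_of_degree_le_three_of_not_isRoot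
    · simp [hd]
    · intro q hq
      simp only [p, Polynomial.IsRoot, Polynomial.eval_sub, Polynomial.eval_pow, Polynomial.eval_X,
        Polynomial.eval_mul, Polynomial.eval_C] at hq
      have h1 : IsSquare ((153 : ℕ) : ℚ) := ⟨4 * q - 5, by push_cast; linear_combination (-16) * hq⟩
      rw [Rat.isSquare_natCast_iff] at h1
      obtain ⟨k, hk⟩ := h1
      have : k ≤ 13 := by nlinarith
      interval_cases k <;> omega
  have hr : Polynomial.aeval T p = 0 := by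
    simp only [p, map_sub, map_pow, Polynomial.aeval_X, map_mul, Polynomial.aeval_C]
    simp only [eq_ratCast]
    push_cast
    linear_combination (1 / 2) * h
  have e1 : p = minpoly ℚ T := minpoly.eq_of_irreducible_of_monic hi hr hm
  rw [minpoly.isIntegrallyClosed_eq_field_fractions' ℚ hT] at e1
  have e2 := congrArg (fun f => Polynomial.coeff f 1) e1
  simp only [p, Polynomial.coeff_map] at e2
  generalize (minpoly ℤ T).coeff 1 = z at e2
  simp [Polynomial.coeff_C] at e2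
  have e3 : ((2 * z : ℤ) : ℚ) = ((-5 : ℤ) : ℚ) := by push_cast; linarith
  have e4 : 2 * z = -5 := by exact_mod_cast e3
  omega

/-- LAGB. -/
theorem lagB : mdB.LagOK := by
  refine ⟨thB, ?_, ?_⟩
  · intro ξ hξ
    have h0 : 0 < ξ 1 := by simpa [mdB, lagB_lin] using hξ 0
    have h1 : Real.exp (ξ 1) - 1 ≠ 0 := (sub_pos.2 (Real.one_lt_exp_iff.2 h0)).ne'
    have h2 : (Real.exp (ξ 1))⁻¹ ^ 4 ≠ 0 := by positivity
    rw [lagB_F, mul_eq_zero, mul_eq_zero]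
    tauto
  · intro n s hn _ h
    refine ⟨![3, 1], by simp [mdB, lagB_lin], fun hd => ?_⟩
    have h0 : 0 < n 1 := by
      have := hn 0
      rw [lin_cst] at this
      simpa [mdB, linZ, Fin.sum_univ_two] using this
    have h1 : n 0 < n 1 := by
      have := hn 1
      rw [lin_cst] at this
      have h' : 0 < linZ (mdB.fa 1) n := by exact_mod_cast this
      simp [mdB, linZ, Fin.sum_univ_two] at h'
      omega
    have hI : ∀ k : ℤ, IsIntegral ℤ (Real.exp (s * k)) :=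
      isIntegral_exp 1 1 ![0, 3] ![1, 0]
        [(-2, ![1, 2]), (-2, ![0, 2]), (-2, ![1, 1]), (-2, ![0, 1])] (Or.inl rfl) (Or.inl rfl) n
        (by simp [linZ, Fin.sum_univ_two]; omega)
        (by simp [linZ, Fin.sum_univ_two]; omega) s h
    have hY : IsIntegral ℤ (Real.exp ((s • cst n) 1)) := hI (n 1)
    have hY' : IsIntegral ℤ (Real.exp ((s • cst n) 1))⁻¹ := by
      have := hI (-n 1)
      rwa [Int.cast_neg, mul_neg, Real.exp_neg] at this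
    rw [lagB_EP] at h
    rw [lagB_EPd] at hd
    have hY0 := (Real.exp_pos ((s • cst n) 1)).ne'
    generalize Real.exp ((s • cst n) 0) = X at *
    generalize Real.exp ((s • cst n) 1) = Y at *
    have hq : 2 * Y * (2 * Y ^ 4 - 5 * Y ^ 3 - 12 * Y ^ 2 - 5 * Y + 2) = 0 := by
      linear_combination (10 * Y ^ 2 + 8 * Y - 3) * h - (2 * Y ^ 2 + 2 * Y - 1) * hd
    have hq' : 2 * Y ^ 4 - 5 * Y ^ 3 - 12 * Y ^ 2 - 5 * Y + 2 = 0 :=
      (mul_eq_zero.1 hq).resolve_left (mul_ne_zero two_ne_zero hY0)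
    refine lagB_alg (Y + Y⁻¹) (hY.add hY') ?_
    field_simp
    linear_combination hq'

end Pool.Agent.Lib.MP_14f458_gt
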