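import Pool.Agent.Lib.MP_14f458_gt.Chk
import Pool.Agent.Lib.MP_14f458_gt.Opt

namespace Pool.Agent.Lib.MP_14f458_gt

/-- The multiplicative form of `SS`. -/
private noncomputable def lagC_SM {d : ℕ} (x v : Fin d → ℝ) : Wd d → ℝ → ℝ
  | [], _ => 0
  | (i, true) :: w, s => s * v i + lagC_SM x v w (s * x i)
  | (i, false) :: w, s => s * (x i)⁻¹ * v i + lagC_SM x v w (s * (x i)⁻¹)

private theorem lagC_SS {d : ℕ} (a v : Fin d → ℝ) (w : Wd d) (s : ℝ) :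
    SS a v w s = lagC_SM (fun i => Real.exp (a i)) v w (Real.exp s) := by
  induction w generalizing s with
  | nil => simp [SS, lagC_SM]
  | cons l w ih =>
    rcases l with ⟨i, _ | _⟩
    · simp only [SS, lagC_SM, ih, Real.exp_sub, div_eq_mul_inv]
    · simp only [SS, lagC_SM, ih, Real.exp_add]

/-- The polynomial `Θ`. -/
private def lagC_th (X Y Z W : ℝ) : ℝ :=
  X * Y * Z * W ^ 2 + Y - X * Y ^ 2 * W - 2 * X * Y * Z * W - X * Y * W - X * Z * W - Y ^ 2 * W -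
    Y * Z * W - 2 * Y * W - Z * W

private theorem lagC_exp_lin (a b c d : ℤ) (ξ : Fin 4 → ℝ) :
    Real.exp (lin ![a, b, c, d] ξ) =
      Real.exp (ξ 0) ^ a * Real.exp (ξ 1) ^ b * Real.exp (ξ 2) ^ c * Real.exp (ξ 3) ^ d := by
  have h : ∀ (k : ℤ) (x : ℝ), Real.exp (k * x) = Real.exp x ^ k := by
    intro k x
    rw [mul_comm, Real.exp_mul, Real.rpow_intCast]
  simp only [lin, Fin.sum_univ_four, Real.exp_add, h]
  rfl

private theorem lagC_lin (a b c d : ℤ) (ξ : Fin 4 → ℝ) :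
    lin ![a, b, c, d] ξ = a * ξ 0 + b * ξ 1 + c * ξ 2 + d * ξ 3 := by
  simp only [lin, Fin.sum_univ_four]
  rfl

private theorem lagC_linZ (a b c d : ℤ) (n : Fin 4 → ℤ) :
    linZ ![a, b, c, d] n = a * n 0 + b * n 1 + c * n 2 + d * n 3 := by
  simp only [linZ, Fin.sum_univ_four]
  rfl

private theorem lagC_EP (ξ : Fin 4 → ℝ) :
    EP thC ξ = lagC_th (Real.exp (ξ 0)) (Real.exp (ξ 1)) (Real.exp (ξ 2)) (Real.exp (ξ 3)) := by
  simp only [EP, thC, List.map_cons, List.map_nil, List.sum_cons, List.sum_nil, lagC_exp_lin,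
    lagC_th, zpow_ofNat]
  push_cast
  ring

private theorem lagC_EPd (ξ δ : Fin 4 → ℝ) (X Y Z W : ℝ) (hX : X = Real.exp (ξ 0))
    (hY : Y = Real.exp (ξ 1)) (hZ : Z = Real.exp (ξ 2)) (hW : W = Real.exp (ξ 3)) :
    EPd thC ξ δ =
      (δ 0 + δ 1 + δ 2 + 2 * δ 3) * (X * Y * Z * W ^ 2) + δ 1 * Y -
        (δ 0 + 2 * δ 1 + δ 3) * (X * Y ^ 2 * W) - 2 * (δ 0 + δ 1 + δ 2 + δ 3) * (X * Y * Z * W) -
        (δ 0 + δ 1 + δ 3) * (X * Y * W) - (δ 0 + δ 2 + δ 3) * (X * Z * W) -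
        (2 * δ 1 + δ 3) * (Y ^ 2 * W) - (δ 1 + δ 2 + δ 3) * (Y * Z * W) -
        2 * (δ 1 + δ 3) * (Y * W) - (δ 2 + δ 3) * (Z * W) := by
  simp only [EPd, thC, List.map_cons, List.map_nil, List.sum_cons, List.sum_nil, lagC_exp_lin,
    zpow_ofNat, ← hX, ← hY, ← hZ, ← hW]
  simp only [lagC_lin]
  push_cast
  ring

private theorem lagC_mat (ξ : Fin 4 → ℝ) (X Y Z W x y z w : ℝ) (hX : X = Real.exp (ξ 0))
    (hY : Y = Real.exp (ξ 1)) (hZ : Z = Real.exp (ξ 2)) (hW : W = Real.exp (ξ 3))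
    (hx : x = X⁻¹) (hy : y = Y⁻¹) (hz : z = Z⁻¹) (hw : w = W⁻¹) :
    1 - Mat mdC.σ (mdC.a ξ) (mdC.b ξ) =
      !![1 - (x * z + x * Y * z + 1 + Y * z + z) * w, 0, -(x * z + 1 + X + z) * w,
          -(z + Y * z + X * Y * z + X * z) * w;
        -(x * z + x * Y * z) * w, 1, -(x * z) * w, -(z + Y * z) * w;
        -(x * y + x) * w, -(x * z) * w, 1 - (y + x * y + x + 1) * w, -(x * z + x * Y * z) * w;
        -(x * y + x) * w, -(x * z) * w, -(y + x * y + x) * w, 1 - (x * z + x * Y * z + 1) * w] := by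
  have hX0 : X ≠ 0 := by rw [hX]; exact Real.exp_ne_zero _
  have hY0 : Y ≠ 0 := by rw [hY]; exact Real.exp_ne_zero _
  have hZ0 : Z ≠ 0 := by rw [hZ]; exact Real.exp_ne_zero _
  have hW0 : W ≠ 0 := by rw [hW]; exact Real.exp_ne_zero _
  have ha : (fun i => Real.exp (mdC.a ξ i)) = ![X, Y, Y, Z] := by
    funext i
    fin_cases i <;> simp [MD.a, mdC, lagC_lin, hX, hY, hZ]
  have hb : Real.exp (-mdC.b ξ) = W⁻¹ := by
    simp [MD.b, mdC, lagC_lin, hW, Real.exp_neg]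
  have hσ : mdC.σ = sigC := rfl
  ext i k
  simp only [Matrix.sub_apply, Mat, Matrix.of_apply, lagC_SS, ha, hb, hσ]
  subst hx hy hz hw
  fin_cases i <;> fin_cases k <;> simp [sigC, lagC_SM] <;> field_simp <;> ring

private theorem lagC_F (ξ : Fin 4 → ℝ) (X Y Z W : ℝ) (hX : X = Real.exp (ξ 0))
    (hY : Y = Real.exp (ξ 1)) (hZ : Z = Real.exp (ξ 2)) (hW : W = Real.exp (ξ 3)) :
    mdC.F ξ = (W - 1) * (X * Z * W * Y⁻¹ - 1) * (X⁻¹ ^ 2 * Z⁻¹ ^ 2 * W⁻¹ ^ 4) *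
      lagC_th X Y Z W := by
  have hX0 : X ≠ 0 := by rw [hX]; exact Real.exp_ne_zero _
  have hY0 : Y ≠ 0 := by rw [hY]; exact Real.exp_ne_zero _
  have hZ0 : Z ≠ 0 := by rw [hZ]; exact Real.exp_ne_zero _
  have hW0 : W ≠ 0 := by rw [hW]; exact Real.exp_ne_zero _
  rw [MD.F, Fd, lagC_mat ξ X Y Z W _ _ _ _ hX hY hZ hW rfl rfl rfl rfl]
  simp [Matrix.det_succ_row_zero, Fin.sum_univ_succ, Fin.succAbove, lagC_th]
  field_simp
  ring

/-- The polynomial consequence of the Lagrange equations. -/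
private theorem lagC_alg (X Y Z W : ℝ) (hX : 0 < X) (hY : 0 < Y) (hW : 0 < W)
    (h0 : lagC_th X Y Z W = 0)
    (h1 : (X * Y * Z * W ^ 2 - X * Y ^ 2 * W - 2 * X * Y * Z * W - X * Y * W - X * Z * W) -
      (X * Y * Z * W ^ 2 - 2 * X * Y * Z * W - X * Z * W - Y * Z * W - Z * W) = 0)
    (h2 : 3 * (X * Y * Z * W ^ 2) + 2 * Y - 5 * (X * Y ^ 2 * W) - 6 * (X * Y * Z * W) -
      3 * (X * Y * W) - X * Z * W - 4 * (Y ^ 2 * W) - 2 * (Y * Z * W) - 4 * (Y * W) = 0)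
    (h3 : 5 * (X * Y * Z * W ^ 2) + 3 * Y - 7 * (X * Y ^ 2 * W) - 8 * (X * Y * Z * W) -
      4 * (X * Y * W) - X * Z * W - 7 * (Y ^ 2 * W) - 4 * (Y * Z * W) - 8 * (Y * W) - Z * W = 0) :
    4 * X ^ 6 + 2 * X ^ 5 - 10 * X ^ 4 - 19 * X ^ 3 - 10 * X ^ 2 + 2 * X + 4 = 0 := by
  have hZ : Z = X * Y := by
    have : W * (Y + 1) * (Z - X * Y) = 0 := by linear_combination h1
    rcases mul_eq_zero.1 this with h | h
    · exact absurd h (by positivity)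
    · linarith
  subst hZ
  obtain ⟨P, hP⟩ : ∃ P, P = Y * W := ⟨_, rfl⟩
  obtain ⟨Q, hQ⟩ : ∃ Q, Q = X ^ 2 * P * W := ⟨_, rfl⟩
  have e1 : Q - P * (2 * X ^ 2 + 2 * X + 1) - W * (X ^ 2 + 2 * X + 2) + 1 = 0 := by
    apply mul_left_cancel₀ hY.ne'
    rw [hQ, hP]; unfold lagC_th at h0
    linear_combination h0
  have e2 : 3 * Q - P * (6 * X ^ 2 + 7 * X + 4) - W * (X ^ 2 + 3 * X + 4) + 2 = 0 := by
    apply mul_left_cancel₀ hY.ne'
    rw [hQ, hP]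
    linear_combination h2
  have e3 : 5 * Q - P * (8 * X ^ 2 + 11 * X + 7) - W * (X ^ 2 + 5 * X + 8) + 3 = 0 := by
    apply mul_left_cancel₀ hY.ne'
    rw [hQ, hP]
    linear_combination h3
  obtain ⟨D, hD⟩ : ∃ D, D = 2 + X - 6 * X ^ 2 - 8 * X ^ 3 - 4 * X ^ 4 := ⟨_, rfl⟩
  have dQ : D * Q = -(4 + 8 * X + 6 * X ^ 2 - X ^ 3 - 2 * X ^ 4) := by
    rw [hD]
    linear_combination (4 + 11 * X + 15 * X ^ 2 + 2 * X ^ 3 - 2 * X ^ 4) * e1 +
      (6 + 15 * X + 18 * X ^ 2 + 15 * X ^ 3 + 6 * X ^ 4) * e2 +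
      (-4 - 11 * X - 15 * X ^ 2 - 11 * X ^ 3 - 4 * X ^ 4) * e3
  have dP : D * P = -(2 + X) := by
    rw [hD]
    linear_combination (4 - 2 * X ^ 2) * e1 + (2 + 5 * X + 4 * X ^ 2) * e2 +
      (-2 - 3 * X - 2 * X ^ 2) * e3
  have dW : D * W = -(X + 2 * X ^ 2) := by
    rw [hD]
    linear_combination (-1 + 2 * X + 6 * X ^ 2) * e1 + (2 + X - 2 * X ^ 2) * e2 + (-1 - X) * e3
  have key : D * (D * Q) = X ^ 2 * (D * P) * (D * W) := by rw [hQ]; ring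
  rw [dQ, dP, dW, hD] at key
  have : (X + 1) ^ 2 *
      (4 * X ^ 6 + 2 * X ^ 5 - 10 * X ^ 4 - 19 * X ^ 3 - 10 * X ^ 2 + 2 * X + 4) = 0 := by
    linear_combination (-1 / 2 : ℝ) * key
  exact (mul_eq_zero.1 this).resolve_left (by positivity)

private theorem lagC_not_integral : ¬ IsIntegral ℤ (19 / 2 : ℝ) := by
  intro h
  have e : (19 / 2 : ℝ) = algebraMap ℚ ℝ (19 / 2 : ℚ) := by simp
  rw [e] at h
  have h' : IsIntegral ℤ (19 / 2 : ℚ) := (isIntegral_algebraMap_iff (algebraMap ℚ ℝ).injective).1 h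
  obtain ⟨k, hk⟩ := IsIntegrallyClosed.algebraMap_eq_of_integral h'
  have h2 : (2 * k : ℚ) = 19 := by
    have : (k : ℚ) = 19 / 2 := by simpa using hk
    rw [this]; norm_num
  have h3 : 2 * k = 19 := by exact_mod_cast h2
  omega

/-- LAGC. -/
theorem lagC : mdC.LagOK := by
  refine ⟨thC, fun ξ hξ => ?_, fun n s hn _ h0 => ?_⟩
  · rw [lagC_F ξ _ _ _ _ rfl rfl rfl rfl, lagC_EP]
    have f1 := hξ 1
    have f4 := hξ 4
    have g1 : 0 < ξ 3 := by simpa [mdC, lagC_lin] using f1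
    have g4 : 0 < ξ 0 - ξ 1 + ξ 2 + ξ 3 := by
      have : lin (mdC.fa 4) ξ = ξ 0 - ξ 1 + ξ 2 + ξ 3 := by
        change lin ![1, -1, 1, 1] ξ = _
        rw [lagC_lin]; push_cast; ring
      rwa [this] at f4
    have n1 : Real.exp (ξ 3) - 1 ≠ 0 := (sub_pos.2 (Real.one_lt_exp_iff.2 g1)).ne'
    have n2 : Real.exp (ξ 0) * Real.exp (ξ 2) * Real.exp (ξ 3) * (Real.exp (ξ 1))⁻¹ - 1 ≠ 0 := by
      have : Real.exp (ξ 0) * Real.exp (ξ 2) * Real.exp (ξ 3) * (Real.exp (ξ 1))⁻¹ =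
          Real.exp (ξ 0 - ξ 1 + ξ 2 + ξ 3) := by
        rw [Real.exp_add, Real.exp_add, Real.exp_sub]; field_simp
      rw [this]
      exact (sub_pos.2 (Real.one_lt_exp_iff.2 g4)).ne'
    have n3 : (Real.exp (ξ 0))⁻¹ ^ 2 * (Real.exp (ξ 2))⁻¹ ^ 2 * (Real.exp (ξ 3))⁻¹ ^ 4 ≠ 0 := by
      positivity
    rw [mul_eq_zero, or_iff_right (mul_ne_zero (mul_ne_zero n1 n2) n3)]
  · have hf : ∀ k, 0 < linZ (mdC.fa k) n := fun k => by
      have := hn k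
      rw [lin_cst] at this
      exact_mod_cast this
    have f0 : 0 < linZ ![0, -1, 1, 1] n := hf 0
    have f1 : 0 < linZ ![0, 0, 0, 1] n := hf 1
    have f2 : 0 < linZ ![0, 0, 1, 1] n := hf 2
    have f3 : 0 < linZ ![0, 1, 0, 1] n := hf 3
    have f4 : 0 < linZ ![1, -1, 1, 1] n := hf 4
    have f5 : 0 < linZ ![1, 0, 0, 1] n := hf 5
    have f6 : 0 < linZ ![1, 0, 1, 1] n := hf 6
    have f7 : 0 < linZ ![1, 1, 0, 1] n := hf 7
    rw [lagC_linZ] at f0 f1 f2 f3 f4 f5 f6 f7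
    have hint : ∀ k : ℤ, IsIntegral ℤ (Real.exp (s * k)) := by
      refine isIntegral_exp 1 1 _ _ _ (Or.inl rfl) (Or.inl rfl) n ?_ ?_ s h0
      · rw [lagC_linZ, lagC_linZ]; omega
      · intro p hp
        simp only [List.mem_cons, List.not_mem_nil, or_false] at hp
        rcases hp with rfl | rfl | rfl | rfl | rfl | rfl | rfl | rfl <;>
          simp only [lagC_linZ] <;> omega
    by_contra hcon
    have hδ : ∀ δ : Fin 4 → ℝ, lin mdC.xn δ = 0 → EPd thC (s • cst n) δ = 0 := fun δ h => by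
      by_contra h'
      exact hcon ⟨δ, h, h'⟩
    have hxn : ∀ δ : Fin 4 → ℝ, lin mdC.xn δ = 2 * δ 0 - δ 1 + 2 * δ 2 + 3 * δ 3 := fun δ => by
      change lin ![2, -1, 2, 3] δ = _
      rw [lagC_lin]; push_cast; ring
    obtain ⟨X, hX⟩ : ∃ X, X = Real.exp ((s • cst n) 0) := ⟨_, rfl⟩
    obtain ⟨Y, hY⟩ : ∃ Y, Y = Real.exp ((s • cst n) 1) := ⟨_, rfl⟩
    obtain ⟨Z, hZ⟩ : ∃ Z, Z = Real.exp ((s • cst n) 2) := ⟨_, rfl⟩
    obtain ⟨W, hW⟩ : ∃ W, W = Real.exp ((s • cst n) 3) := ⟨_, rfl⟩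
    have h1 := hδ ![1, 0, -1, 0] (by rw [hxn]; simp)
    have h2 := hδ ![1, 2, 0, 0] (by rw [hxn]; simp)
    have h3 := hδ ![0, 3, 0, 1] (by rw [hxn]; simp)
    rw [lagC_EPd _ _ X Y Z W hX hY hZ hW] at h1 h2 h3
    simp only [Matrix.cons_val_zero, Matrix.cons_val_one, Matrix.cons_val] at h1 h2 h3
    rw [lagC_EP, ← hX, ← hY, ← hZ, ← hW] at h0
    have hXp : 0 < X := by rw [hX]; exact Real.exp_pos _
    have hYp : 0 < Y := by rw [hY]; exact Real.exp_pos _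
    have hWp : 0 < W := by rw [hW]; exact Real.exp_pos _
    have hf6 := lagC_alg X Y Z W hXp hYp hWp h0 (by linear_combination h1)
      (by linear_combination h2) (by linear_combination h3)
    have iX : IsIntegral ℤ X := by rw [hX]; exact hint (n 0)
    have iXi : IsIntegral ℤ X⁻¹ := by
      have := hint (-n 0)
      rw [Int.cast_neg, mul_neg, Real.exp_neg] at this
      rw [hX]; exact this
    apply lagC_not_integral
    have e : (19 / 2 : ℝ) = (2 : ℤ) • X ^ 3 + X ^ 2 - (5 : ℤ) • X - (5 : ℤ) • X⁻¹ + X⁻¹ ^ 2 +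
        (2 : ℤ) • X⁻¹ ^ 3 := by
      simp only [zsmul_eq_mul]
      push_cast
      field_simp
      linear_combination (-1 : ℝ) * hf6
    rw [e]
    exact ((((((iX.pow 3).zsmul 2).add (iX.pow 2)).sub (iX.zsmul 5)).sub (iXi.zsmul 5)).add
      (iXi.pow 2)).add ((iXi.pow 3).zsmul 2)

end Pool.Agent.Lib.MP_14f458_gt
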