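import Pool.Agent.Lib.MP_14f458_gt.Chk
import Pool.Agent.Lib.MP_14f458_gt.Cross
import Pool.Agent.Lib.MP_14f458_gt.RankB

namespace Pool.Agent.Lib.MP_14f458_gt

theorem rk_det4 {R : Type} [CommRing R] (A : Matrix (Fin 4) (Fin 4) R) :
    A.det =
      A 0 0 * (A 1 1 * (A 2 2 * A 3 3 - A 2 3 * A 3 2) - A 1 2 * (A 2 1 * A 3 3 - A 2 3 * A 3 1) +
        A 1 3 * (A 2 1 * A 3 2 - A 2 2 * A 3 1)) -
      A 0 1 * (A 1 0 * (A 2 2 * A 3 3 - A 2 3 * A 3 2) - A 1 2 * (A 2 0 * A 3 3 - A 2 3 * A 3 0) +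
        A 1 3 * (A 2 0 * A 3 2 - A 2 2 * A 3 0)) +
      A 0 2 * (A 1 0 * (A 2 1 * A 3 3 - A 2 3 * A 3 1) - A 1 1 * (A 2 0 * A 3 3 - A 2 3 * A 3 0) +
        A 1 3 * (A 2 0 * A 3 1 - A 2 1 * A 3 0)) -
      A 0 3 * (A 1 0 * (A 2 1 * A 3 2 - A 2 2 * A 3 1) - A 1 1 * (A 2 0 * A 3 2 - A 2 2 * A 3 0) +
        A 1 2 * (A 2 0 * A 3 1 - A 2 1 * A 3 0)) := by
  rw [Matrix.det_succ_row_zero]
  simp only [Fin.sum_univ_four, Matrix.det_fin_three, Matrix.submatrix_apply]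
  simp [Fin.succAbove]
  ring

theorem rk_detB {K : Type} [Field K] (X Y : K) (hX : X ≠ 0) :
    (AlexM sigB ![X, 1, X⁻¹, 1] ![X⁻¹, 1, X, 1] Y).det =
      (Y - 1) * (Y ^ 3 + X - 2 * X * Y ^ 2 - 2 * Y ^ 2 - 2 * X * Y - 2 * Y) := by
  rw [rk_det4]
  simp [AlexM, sigB, fx]
  field_simp
  ring

theorem rk_detC {K : Type} [Field K] (X Y Z W : K) (hX : X ≠ 0) (hY : Y ≠ 0) (hZ : Z ≠ 0) :
    (AlexM sigC ![X, Y, Y, Z] ![X⁻¹, Y⁻¹, Y⁻¹, Z⁻¹] W).det =
      (W - 1) * (X * Z * W * Y⁻¹ - 1) * (X⁻¹ ^ 2 * Z⁻¹ ^ 2) *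
       (X * Y * Z * W ^ 2 - Y + X * Y ^ 2 * W - 2 * X * Y * Z * W - X * Y * W + X * Z * W - Y ^ 2 * W
         + Y * Z * W + 2 * Y * W - Z * W) := by
  rw [rk_det4]
  simp [AlexM, sigC, fx]
  field_simp
  ring

open LaurentPolynomial in
theorem rk_T_ne (n : ℤ) : algebraMap LR (FractionRing LR) (T n) ≠ 0 := by
  intro h
  have h1 : (T n : LR) = 0 := (IsFractionRing.injective LR (FractionRing LR)) (by rw [h, map_zero])
  exact (isUnit_T (R := ℚ) n).ne_zero h1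

open LaurentPolynomial in
theorem rk_T_add (n k : ℤ) : algebraMap LR (FractionRing LR) (T (n + k)) =
    algebraMap LR (FractionRing LR) (T n) * algebraMap LR (FractionRing LR) (T k) := by
  rw [T_add, map_mul]

open LaurentPolynomial in
theorem rk_T_neg (n : ℤ) : algebraMap LR (FractionRing LR) (T (-n)) =
    (algebraMap LR (FractionRing LR) (T n))⁻¹ := by
  apply eq_inv_of_mul_eq_one_left
  rw [← rk_T_add]; simp

open LaurentPolynomial in
theorem rk_alexB (a b : ℤ) :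
    (Alex sigB ![a, 0, -a, 0] b).det = LP [(1, b), (-1, 0)] *
      LP [(1, b + b + b), (1, a), (-2, a + b + b), (-2, b + b), (-2, a + b), (-2, b)] := by
  apply IsFractionRing.injective LR (FractionRing LR)
  rw [RingHom.map_det, RingHom.mapMatrix_apply, Alex, map_AlexM]
  have h := rk_detB _ (algebraMap LR (FractionRing LR) (T b)) (rk_T_ne a)
  have e1 : (fun i => algebraMap LR (FractionRing LR) (T ((![a, 0, -a, 0] : Fin 4 → ℤ) i))) =
      ![algebraMap LR (FractionRing LR) (T a), 1, (algebraMap LR (FractionRing LR) (T a))⁻¹, 1] := by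
    funext i; fin_cases i <;> simp [rk_T_neg]
  have e2 : (fun i => algebraMap LR (FractionRing LR) (T (-(![a, 0, -a, 0] : Fin 4 → ℤ) i))) =
      ![(algebraMap LR (FractionRing LR) (T a))⁻¹, 1, algebraMap LR (FractionRing LR) (T a), 1] := by
    funext i; fin_cases i <;> simp [rk_T_neg]
  rw [e1, e2, h]
  simp only [LP, List.map_cons, List.map_nil, List.sum_cons, List.sum_nil, map_mul, map_add,
    map_intCast, rk_T_add, T_zero, map_one, map_zero]
  push_cast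
  ring

open LaurentPolynomial in
theorem rk_alexC (x y z w : ℤ) :
    (Alex sigC ![x, y, y, z] w).det = LP [(1, w), (-1, 0)] * LP [(1, x + z + w + -y), (-1, 0)] *
      T (-x + -x + -z + -z) *
      LP [(1, x + y + z + w + w), (-1, y), (1, x + y + y + w), (-2, x + y + z + w), (-1, x + y + w),
        (1, x + z + w), (-1, y + y + w), (1, y + z + w), (2, y + w), (-1, z + w)] := by
  apply IsFractionRing.injective LR (FractionRing LR)
  rw [RingHom.map_det, RingHom.mapMatrix_apply, Alex, map_AlexM]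
  have h := rk_detC _ _ _ (algebraMap LR (FractionRing LR) (T w)) (rk_T_ne x) (rk_T_ne y)
    (rk_T_ne z)
  have e1 : (fun i => algebraMap LR (FractionRing LR) (T ((![x, y, y, z] : Fin 4 → ℤ) i))) =
      ![algebraMap LR (FractionRing LR) (T x), algebraMap LR (FractionRing LR) (T y),
        algebraMap LR (FractionRing LR) (T y), algebraMap LR (FractionRing LR) (T z)] := by
    funext i; fin_cases i <;> simp
  have e2 : (fun i => algebraMap LR (FractionRing LR) (T (-(![x, y, y, z] : Fin 4 → ℤ) i))) =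
      ![(algebraMap LR (FractionRing LR) (T x))⁻¹, (algebraMap LR (FractionRing LR) (T y))⁻¹,
        (algebraMap LR (FractionRing LR) (T y))⁻¹, (algebraMap LR (FractionRing LR) (T z))⁻¹] := by
    funext i; fin_cases i <;> simp [rk_T_neg]
  rw [e1, e2, h]
  simp only [LP, List.map_cons, List.map_nil, List.sum_cons, List.sum_nil, map_mul, map_add,
    map_intCast, rk_T_add, rk_T_neg, T_zero, map_one, map_zero]
  push_cast
  ring

/-- RKBC. -/
theorem rankB : mdB.RankOK := by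
  intro n hn
  have f0 := hn 0
  have f1 := hn 1
  rw [lin_cst] at f0 f1
  have g0 : 0 < linZ (mdB.fa 0) n := by exact_mod_cast f0
  have g1 : 0 < linZ (mdB.fa 1) n := by exact_mod_cast f1
  simp [mdB, linZ, Fin.sum_univ_two] at g0 g1
  have ea : (fun i => linZ (mdB.pa i) n) = ![n 0, 0, -n 0, 0] := by
    funext i; fin_cases i <;> simp [mdB, linZ, Fin.sum_univ_two]
  have eb : linZ mdB.pb n = n 1 := by simp [mdB, linZ, Fin.sum_univ_two]
  have ex : linZ mdB.xn n = -n 0 + 3 * n 1 := by simp [mdB, linZ, Fin.sum_univ_two]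
  have es : mdB.σ = sigB := rfl
  rw [ea, eb, ex, es, rk_alexB]
  obtain ⟨p1, q1⟩ := wd_LP 1 (n 1) (-1) 0 [] one_ne_zero (by norm_num) g0 (by simp)
  obtain ⟨p2, q2⟩ := wd_LP 1 (n 1 + n 1 + n 1) 1 (n 0)
    [(-2, n 0 + n 1 + n 1), (-2, n 1 + n 1), (-2, n 0 + n 1), (-2, n 1)] one_ne_zero one_ne_zero
    (by omega) (by simp; omega)
  refine ⟨mul_ne_zero p1 p2, ?_⟩
  rw [wd_mul p1 p2]
  push_cast
  rw [q1, q2]; ring

theorem rankC : mdC.RankOK := by
  intro n hn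
  have f : ∀ k, 0 < linZ (mdC.fa k) n := fun k => by
    have h := hn k
    rw [lin_cst] at h
    exact_mod_cast h
  have g0 := f 0
  have g1 := f 1
  have g2 := f 2
  have g3 := f 3
  have g4 := f 4
  have g5 := f 5
  have g6 := f 6
  have g7 := f 7
  simp [mdC, linZ, Fin.sum_univ_four] at g0 g1 g2 g3 g4 g5 g6 g7
  have ea : (fun i => linZ (mdC.pa i) n) = ![n 0, n 1, n 1, n 2] := by
    funext i; fin_cases i <;> simp [mdC, linZ, Fin.sum_univ_four]
  have eb : linZ mdC.pb n = n 3 := by simp [mdC, linZ, Fin.sum_univ_four]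
  have ex : linZ mdC.xn n = 2 * n 0 - n 1 + 2 * n 2 + 3 * n 3 := by
    simp [mdC, linZ, Fin.sum_univ_four]; ring
  have es : mdC.σ = sigC := rfl
  rw [ea, eb, ex, es, rk_alexC]
  obtain ⟨p1, q1⟩ := wd_LP 1 (n 3) (-1) 0 [] one_ne_zero (by norm_num) g1 (by simp)
  obtain ⟨p2, q2⟩ := wd_LP 1 (n 0 + n 2 + n 3 + -n 1) (-1) 0 [] one_ne_zero (by norm_num)
    (by omega) (by simp)
  obtain ⟨p4, q4⟩ := wd_LP 1 (n 0 + n 1 + n 2 + n 3 + n 3) (-1) (n 1)
    [(1, n 0 + n 1 + n 1 + n 3), (-2, n 0 + n 1 + n 2 + n 3), (-1, n 0 + n 1 + n 3),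
      (1, n 0 + n 2 + n 3), (-1, n 1 + n 1 + n 3), (1, n 1 + n 2 + n 3), (2, n 1 + n 3),
      (-1, n 2 + n 3)] one_ne_zero (by norm_num) (by omega) (by simp; omega)
  have p3 : (LaurentPolynomial.T (-n 0 + -n 0 + -n 2 + -n 2) : LR) ≠ 0 :=
    (LaurentPolynomial.isUnit_T (R := ℚ) _).ne_zero
  refine ⟨mul_ne_zero (mul_ne_zero (mul_ne_zero p1 p2) p3) p4, ?_⟩
  rw [wd_mul (mul_ne_zero (mul_ne_zero p1 p2) p3) p4, wd_mul (mul_ne_zero p1 p2) p3,
    wd_mul p1 p2, wd_T]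
  push_cast
  rw [q1, q2, q4]; ring

end Pool.Agent.Lib.MP_14f458_gt
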