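import Pool.Agent.Lib.MP_14f458_gt.FamB
import Pool.Agent.Lib.MP_14f458_gt.FamC2
import Pool.Agent.Lib.MP_14f458_gt.GoodB
import Pool.Agent.Lib.MP_14f458_gt.GoodC
import Pool.Agent.Lib.MP_14f458_gt.LagB
import Pool.Agent.Lib.MP_14f458_gt.LagC
import Pool.Agent.Lib.MP_14f458_gt.RkBC
import Pool.Agent.Lib.MP_14f458_gt.Irr3

namespace Pool.Agent.Lib.MP_14f458_gt

theorem cv_transport {K : Type} [Group K] {ψ : MulAut K} {G : Type} [Group G] (e : Torus ψ ≃* G)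
    {S : Cl G} (hS : ∀ u, S (e u) = rh ψ u) (u : Torus ψ) : cv S (e u) = cv (rh ψ) u := by
  simp only [cv, hS]

theorem famB (q : ℕ) : ∃ φ : MulAut (Pi1 ((q + 1) / 2 + 1) (3 - q % 2)),
    IsPA _ _ φ ∧ ¬ RatMin (rh φ) := by
  obtain ⟨ψ, Y, a, b, γ, h⟩ := exists_FB q
  refine assemble _ _ ψ _ h.sys h.perm h.ator fun G _ e S hS => ?_
  have P := (h.pres.change chgB).map e
  refine MD.irr (M := mdB) goodB rankB lagB P (nS := ![-(q : ℤ), 1]) ⟨fun i => ?_, ?_⟩ fun k => ?_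
  · rw [cv_transport e hS, cv_ev]
    fin_cases i <;> simp [xwB, wt, mdB, linZ]
  · rw [cv_transport e hS]
    simp [mdB, linZ]
  · fin_cases k <;> simp [mdB, lin, cst] <;> positivity

theorem famC (p q : ℕ) : ∃ φ : MulAut (Pi1 ((q + 1) / 2) (p + 5 - q % 2)),
    IsPA _ _ φ ∧ ¬ RatMin (rh φ) := by
  obtain ⟨ψ, d, Y, e', γ, h⟩ := exists_FC p q
  refine assemble _ _ ψ _ h.sys h.perm h.ator fun G _ e S hS => ?_
  have P := (h.pres.change chgC).map e
  refine MD.irr (M := mdC) goodC rankC lagC P (nS := ![-(p : ℤ), q, q, 1 + p])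
    ⟨fun i => ?_, ?_⟩ fun k => ?_
  · rw [cv_transport e hS, cv_ev]
    fin_cases i <;> simp [xwC, wt, mdC, linZ, Fin.sum_univ_four]
  · rw [cv_transport e hS, cv_mul, cv_inv, cv_ev]
    simp only [cv_ev]
    simp [uC, xwC, wt, mdC, linZ, Fin.sum_univ_four, add_comm]
  · have hp : (0 : ℝ) ≤ p := Nat.cast_nonneg p
    have hq : (0 : ℝ) ≤ q := Nat.cast_nonneg q
    fin_cases k <;> simp [mdC, lin, cst, Fin.sum_univ_four] <;> linarith

theorem main (g n : ℕ) (hn : 2 ≤ n) (hχ : 5 ≤ 2 * g + n) :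
    ∃ φ : MulAut (Pi1 g n), IsPA g n φ ∧ ¬ RatMin (rh φ) := by
  rcases (by omega : n = 2 ∨ n = 3 ∨ n = 4 ∨ 5 ≤ n) with h | h | h | h
  · have := famB (2 * g - 3)
    rwa [show (2 * g - 3 + 1) / 2 + 1 = g by omega, show 3 - (2 * g - 3) % 2 = n by omega] at this
  · have := famB (2 * g - 2)
    rwa [show (2 * g - 2 + 1) / 2 + 1 = g by omega, show 3 - (2 * g - 2) % 2 = n by omega] at this
  · have := famC 0 (2 * g - 1)
    rwa [show (2 * g - 1 + 1) / 2 = g by omega, show 0 + 5 - (2 * g - 1) % 2 = n by omega] at this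
  · have := famC (n - 5) (2 * g)
    rwa [show (2 * g + 1) / 2 = g by omega, show n - 5 + 5 - (2 * g) % 2 = n by omega] at this

end Pool.Agent.Lib.MP_14f458_gt
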