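import Pool.Agent.Lib.MP_14f458_gt.Small

namespace Pool.Agent.Lib.MP_14f458_gt

variable {d : ℕ}

/-- A commutative free group is cyclic. -/
theorem free_cyc {κ : Type} (hc : ∀ u v : FreeGroup κ, u * v = v * u) :
    ∃ ρ : FreeGroup κ, ∀ u, ∃ i : ℤ, u = ρ ^ i := by
  classical
  have hs : ∀ i j : κ, i = j := by
    intro i j
    by_contra hij
    let f : FreeGroup κ →* Equiv.Perm (Fin 3) :=
      FreeGroup.lift fun k => if k = i then Equiv.swap 0 1 else Equiv.swap 1 2
    have h1 := congrArg f (hc (FreeGroup.of i) (FreeGroup.of j))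
    have hji : j ≠ i := fun h => hij h.symm
    simp only [map_mul, f, FreeGroup.lift_apply_of, if_true, hji, if_false] at h1
    exact absurd h1 (by decide)
  rcases isEmpty_or_nonempty κ with he | ⟨⟨i0⟩⟩
  · refine ⟨1, fun u => ⟨0, ?_⟩⟩
    induction u using FreeGroup.induction_on with
    | C1 => simp
    | of x => exact he.elim x
    | inv_of x _ => exact he.elim x
    | mul x y hx hy => rw [hx, hy]; simp
  · refine ⟨FreeGroup.of i0, fun u => ?_⟩
    induction u using FreeGroup.induction_on with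
    | C1 => exact ⟨0, by simp⟩
    | of x => exact ⟨1, by rw [hs x i0]; simp⟩
    | inv_of x _ => exact ⟨-1, by rw [hs x i0]; simp⟩
    | mul x y hx hy =>
      obtain ⟨i, rfl⟩ := hx
      obtain ⟨j, rfl⟩ := hy
      exact ⟨i + j, (zpow_add _ _ _).symm⟩

/-- FREE. Commuting elements of a free group are powers of a common element. -/
theorem comm_root {ι : Type} (a b : FreeGroup ι) (h : Commute a b) :
    ∃ (ρ : FreeGroup ι) (i j : ℤ), a = ρ ^ i ∧ b = ρ ^ j := by
  let H : Subgroup (FreeGroup ι) := Subgroup.closure {a, b}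
  have hcomm : ∀ u ∈ H, ∀ v ∈ H, u * v = v * u := by
    have hgen : ∀ u ∈ ({a, b} : Set (FreeGroup ι)), ∀ v ∈ ({a, b} : Set (FreeGroup ι)),
        Commute u v := by
      rintro u (rfl | rfl) v (rfl | rfl)
      exacts [Commute.refl _, h, h.symm, Commute.refl _]
    intro u hu v hv
    change Commute u v
    induction hu using Subgroup.closure_induction with
    | mem x hx =>
      induction hv using Subgroup.closure_induction with
      | mem y hy => exact hgen x hx y hy
      | one => exact Commute.one_right _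
      | mul y z _ _ hy hz => exact hy.mul_right hz
      | inv y _ hy => exact hy.inv_right
    | one => exact Commute.one_left _
    | mul x y _ _ hx hy => exact hx.mul_left hy
    | inv x _ hx => exact hx.inv_left
  let e := IsFreeGroup.mulEquiv H
  obtain ⟨ρ, hρ⟩ := free_cyc (κ := IsFreeGroup.Generators H) fun u v => by
    apply e.injective
    rw [map_mul, map_mul]
    exact Subtype.ext (hcomm _ (e u).2 _ (e v).2)
  have ha : a ∈ H := Subgroup.subset_closure (by simp)
  have hb : b ∈ H := Subgroup.subset_closure (by simp)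
  obtain ⟨i, hi⟩ := hρ (e.symm ⟨a, ha⟩)
  obtain ⟨j, hj⟩ := hρ (e.symm ⟨b, hb⟩)
  refine ⟨(e ρ : FreeGroup ι), i, j, ?_, ?_⟩
  · have := congrArg (fun u => ((e u : H) : FreeGroup ι)) hi
    simpa using this
  · have := congrArg (fun u => ((e u : H) : FreeGroup ι)) hj
    simpa using this

/-- FREE. Roots are unique in a free group. -/
theorem zpow_inj {ι : Type} {a b : FreeGroup ι} {j : ℤ} (hj : j ≠ 0) (h : a ^ j = b ^ j) :
    a = b :=
  zpow_left_injective hj h

/-- The class counting the exponent sum of one letter. -/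
def free_cl (i : Fin d) : Cl (FreeGroup (Fin d)) :=
  FreeGroup.lift fun j => Multiplicative.ofAdd (if j = i then (1 : ℤ) else 0)

theorem free_cl_mk (i : Fin d) (w : Wd d) : cv (free_cl i) (FreeGroup.mk w) = ab i w := by
  rw [← ev_of, cv_ev, ab]
  congr 1
  funext j
  simp [cv, free_cl]

/-- FREE. The centralizer of a word with an exponent sum `±1`. -/
theorem cent_prim (c : Wd d) (hc : ∃ i, ab i c = 1 ∨ ab i c = -1) (a : FreeGroup (Fin d))
    (h : Commute a (FreeGroup.mk c)) : ∃ j : ℤ, a = FreeGroup.mk c ^ j := by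
  obtain ⟨ρ, i, j, hi, hj⟩ := comm_root a _ h
  obtain ⟨k, hk⟩ := hc
  have h1 : ab k c = j * cv (free_cl k) ρ := by rw [← free_cl_mk, hj, cv_zpow]
  have hj1 : j = 1 ∨ j = -1 := by
    rcases hk with hk | hk
    · exact Int.eq_one_or_neg_one_of_mul_eq_one (h1.symm.trans hk)
    · exact Int.eq_one_or_neg_one_of_mul_eq_neg_one (h1.symm.trans hk)
  rcases hj1 with rfl | rfl
  · exact ⟨i, by rw [hi, hj]; simp⟩
  · exact ⟨-i, by rw [hi, hj]; simp⟩

/-- FREE. Exponent sums are conjugacy invariants. -/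
theorem ab_eq_of_isConj {u w : Wd d} (h : IsConj (FreeGroup.mk u) (FreeGroup.mk w)) (i : Fin d) :
    ab i u = ab i w := by
  obtain ⟨g, hg⟩ := isConj_iff.1 h
  rw [← free_cl_mk, ← free_cl_mk, ← hg]
  simp

theorem free_conj_lift {G : Type} [Group G] {σ : Fin d → Wd d} {x : Fin d → G} {t : G}
    (rel : ∀ i, t * x i * t⁻¹ = ev x (σ i)) (y : FreeGroup (Fin d)) :
    t * FreeGroup.lift x y * t⁻¹ = FreeGroup.lift x (hom σ y) := by
  induction y using Quot.inductionOn with
  | h w =>
    change t * FreeGroup.lift x (FreeGroup.mk w) * t⁻¹ =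
      FreeGroup.lift x (hom σ (FreeGroup.mk w))
    rw [hom_mk, lift_mk_eq, lift_mk_eq, conj_ev_of_rel rel]

theorem free_hom_of (σ : Fin d → Wd d) (i : Fin d) :
    hom σ (FreeGroup.of i) = FreeGroup.mk (σ i) := by
  simp [hom]

theorem free_hom_comp {σ σi : Fin d → Wd d} (h1 : ∀ i, red (sub σ (σi i)) = [(i, true)]) :
    (hom σ).comp (hom σi) = MonoidHom.id _ := by
  ext i
  rw [MonoidHom.comp_apply, free_hom_of, hom_mk, ← mk_red, h1]
  rfl

/-- FREE. The structure of a presented group when the substitution is invertible. -/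
theorem Pres.struct {G : Type} [Group G] {σ σi : Fin d → Wd d} {x : Fin d → G} {t : G}
    (P : Pres σ x t) (h1 : ∀ i, red (sub σ (σi i)) = [(i, true)])
    (h2 : ∀ i, red (sub σi (σ i)) = [(i, true)]) :
    Function.Injective (FreeGroup.lift x) ∧ ∃ ω : Cl G, (∀ i, cv ω (x i) = 0) ∧ cv ω t = 1 ∧
      ∀ g : G, ∃ y : FreeGroup (Fin d), g = FreeGroup.lift x y * t ^ cv ω g := by
  let ψ : MulAut (FreeGroup (Fin d)) :=
    MonoidHom.toMulEquiv (hom σ) (hom σi) (free_hom_comp h2) (free_hom_comp h1)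
  have hψ : ∀ y, ψ y = hom σ y := fun y => rfl
  obtain ⟨f, hf, hft⟩ := P.univ (Torus ψ) (fun i => il ψ (FreeGroup.of i)) (tt ψ) fun i => by
    rw [tt_conj, hψ, free_hom_of, ← ev_of, map_ev]
  have hfl : ∀ y, f (FreeGroup.lift x y) = il ψ y := by
    have : f.comp (FreeGroup.lift x) = il ψ := by
      ext i <;> simp [hf]
    intro y
    exact DFunLike.congr_fun this y
  obtain ⟨F, hF, hFt⟩ := torus_lift ψ (FreeGroup.lift x) t fun k => by
    rw [free_conj_lift P.rel, hψ]
  have hFf : F.comp f = MonoidHom.id G :=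
    hom_ext_of_gen P.gen (fun i => by simp [hf, hF]) (by simp [hft, hFt])
  refine ⟨fun a b hab => il_injective ψ (by rw [← hfl, ← hfl, hab]), (rh ψ).comp f,
    fun i => ?_, ?_, fun g => ⟨(f g).left, ?_⟩⟩
  · change cv (rh ψ) (f (x i)) = 0
    rw [hf, cv_rh_il]
  · change cv (rh ψ) (f t) = 1
    rw [hft, cv_rh_tt]
  · change g = FreeGroup.lift x (f g).left * t ^ cv (rh ψ) (f g)
    have h3 : F (f g) = g := DFunLike.congr_fun hFf g
    conv_lhs => rw [← h3, torus_decomp ψ (f g), map_mul, map_zpow, hF, hFt]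

theorem pow_conj_lift {G : Type} [Group G] {σ : Fin d → Wd d} {x : Fin d → G} {t : G}
    (rel : ∀ i, t * x i * t⁻¹ = ev x (σ i)) (m : ℕ) (y : FreeGroup (Fin d)) :
    t ^ m * FreeGroup.lift x y * (t ^ m)⁻¹ = FreeGroup.lift x ((hom σ)^[m] y) := by
  induction m with
  | zero => simp
  | succ m ih =>
    rw [Function.iterate_succ_apply', ← free_conj_lift rel, ← ih, pow_succ']
    group

end Pool.Agent.Lib.MP_14f458_gt
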