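import Pool.Agent.Lib.MP_14f458_gt.Cross

namespace Pool.Agent.Lib.MP_14f458_gt

variable {G : Type} [Group G] {d : ℕ}

theorem low_abs {x : Fin d → G} {t : G} (gen : Subgroup.closure (Set.range x ∪ {t}) = ⊤)
    (χ : G →* ℝˣ) (β ω : Cl G) (s r : ℝ)
    (hx : ∀ i, |(χ (x i) : ℝ)| = Real.exp (s * cv β (x i) + r * cv ω (x i)))
    (ht : |(χ t : ℝ)| = Real.exp (s * cv β t + r * cv ω t)) (g : G) :
    |(χ g : ℝ)| = Real.exp (s * cv β g + r * cv ω g) := by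
  have hg : g ∈ Subgroup.closure (Set.range x ∪ {t}) := gen ▸ Subgroup.mem_top g
  induction hg using Subgroup.closure_induction with
  | mem y hy =>
    rcases hy with ⟨i, rfl⟩ | rfl
    · exact hx i
    · exact ht
  | one => simp
  | mul a b _ _ ha hb =>
    rw [map_mul, Units.val_mul, abs_mul, ha, hb, ← Real.exp_add]
    congr 1
    simp only [cv_mul, Int.cast_add]
    ring
  | inv a _ ha =>
    rw [map_inv, Units.val_inv_eq_inv_val, abs_inv, ha, ← Real.exp_neg]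
    congr 1
    simp only [cv_inv, Int.cast_neg]
    ring

theorem low_zpow {χ : G →* ℝˣ} {D : G → ℝ} (h : IsCross χ D) {τ : G} (hτ : D τ = 0) (k : ℤ) :
    D (τ ^ k) = 0 := by
  have h1 : ∀ g ∈ ({τ} : Set G), D g = 0 := by
    intro g hg
    rw [Set.mem_singleton_iff.1 hg]; exact hτ
  have h2 : τ ∈ Subgroup.closure ({τ} : Set G) :=
    Subgroup.subset_closure (Set.mem_singleton τ)
  exact IsCross.eq_zero_of_closure h h1 (Subgroup.zpow_mem _ h2 k)

theorem low_normal {χ : G →* ℝˣ} {D : G → ℝ} (h : IsCross χ D) {t τ g₁ : G} (β : Cl G)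
    (hτ : (χ τ : ℝ) ≠ 1) (hχt : (χ t : ℝ) ≠ 1) (ht : D t = 0) (hg₁ : D g₁ ≠ 0)
    (hβ : cv β τ = 1) :
    ∃ D' : G → ℝ, IsCross χ D' ∧ D' τ = 0 ∧ ∃ g ∈ β.ker, D' g ≠ 0 := by
  set m : ℝ := D τ / ((χ τ : ℝ) - 1) with hm
  have h1 : (χ τ : ℝ) - 1 ≠ 0 := sub_ne_zero.2 hτ
  have hc := h.sub (isCross_principal χ m)
  have h0 : D τ - ((χ τ : ℝ) • m - m) = 0 := by
    rw [smul_eq_mul, hm]; field_simp; ring
  refine ⟨_, hc, h0, ?_⟩
  by_contra hcon
  push Not at hcon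
  have hall : ∀ g, D g - ((χ g : ℝ) • m - m) = 0 := by
    intro g
    have hk : g * τ ^ (-cv β g) ∈ β.ker := by
      rw [mem_ker_iff_cv]; simp [hβ]
    have e : g = g * τ ^ (-cv β g) * τ ^ (cv β g) := by group
    have h2 := hc (g * τ ^ (-cv β g)) (τ ^ (cv β g))
    have h3 := low_zpow hc h0 (cv β g)
    have h4 := hcon _ hk
    simp only at h2 h3 h4
    rw [← e, h3, h4] at h2
    simpa using h2
  have hm0 : m = 0 := by
    have := hall t
    rw [ht, smul_eq_mul] at this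
    have h5 : ((χ t : ℝ) - 1) * m = 0 := by linarith
    rcases mul_eq_zero.1 h5 with h6 | h6
    · exact absurd (sub_eq_zero.1 h6) hχt
    · exact h6
  apply hg₁
  have := hall g₁
  rw [hm0] at this
  simpa using this

theorem low_conj {χ : G →* ℝˣ} {D : G → ℝ} (h : IsCross χ D) {τ : G} (hτ : D τ = 0) (g : G) :
    D (τ * g * τ⁻¹) = (χ τ : ℝ) * D g := by
  rw [h.conj, hτ]; simp

theorem low_list {χ : G →* ℝˣ} {D : G → ℝ} (h : IsCross χ D) {S : Set G} {Q M : ℝ} (hQ : 1 ≤ Q)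
    (hM : 0 ≤ M) (hS : ∀ s ∈ S, |(χ s : ℝ)| ≤ Q ∧ |(χ s⁻¹ : ℝ)| ≤ Q ∧ |D s| ≤ M) (l : List G)
    (hl : ∀ s ∈ l, s ∈ S ∨ s⁻¹ ∈ S) : |D l.prod| ≤ l.length * Q ^ l.length * M := by
  induction l with
  | nil => simp [h.one]
  | cons a l ih =>
    have ih' := ih fun s hs => hl s (List.mem_cons_of_mem _ hs)
    have ha : |(χ a : ℝ)| ≤ Q ∧ |D a| ≤ Q * M := by
      rcases hl a List.mem_cons_self with h1 | h1
      · exact ⟨(hS a h1).1, (hS a h1).2.2.trans (le_mul_of_one_le_left hM hQ)⟩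
      · obtain ⟨-, h3, h4⟩ := hS _ h1
        rw [inv_inv] at h3
        refine ⟨h3, ?_⟩
        have h5 := h.inv a⁻¹
        rw [inv_inv, map_inv, inv_inv] at h5
        rw [h5, smul_eq_mul, abs_mul, abs_neg]
        exact mul_le_mul h3 h4 (abs_nonneg _) (by linarith)
    rw [List.prod_cons, h a l.prod, List.length_cons]
    have hp : Q ≤ Q ^ (l.length + 1) := le_self_pow₀ hQ (by omega)
    calc |D a + (χ a : ℝ) • D l.prod| ≤ |D a| + |(χ a : ℝ)| * |D l.prod| := by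
          rw [smul_eq_mul, ← abs_mul]; exact abs_add_le _ _
      _ ≤ Q * M + Q * (l.length * Q ^ l.length * M) :=
          add_le_add ha.2 (mul_le_mul ha.1 ih' (abs_nonneg _) (by linarith))
      _ ≤ Q ^ (l.length + 1) * M + Q * (l.length * Q ^ l.length * M) := by
          gcongr
      _ = ((l.length + 1 : ℕ) : ℝ) * Q ^ (l.length + 1) * M := by push_cast; ring

theorem low_wt {σ : Fin d → Wd d} {x : Fin d → G} {t : G} (P : Pres σ x t) (β : Cl G) (s : ℝ)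
    (i : Fin d) : wt (fun i => s * (cv β (x i) : ℝ)) (σ i) = s * cv β (x i) := by
  have h1 := map_wt ((AddMonoidHom.mulLeft s).comp (Int.castAddHom ℝ))
    (fun k => cv β (x k)) (σ i)
  rw [wt_of_rel P.rel] at h1
  simpa using h1.symm

/-- LOW. The lower bound for the growth rate. -/
theorem low {σ : Fin d → Wd d} {x : Fin d → G} {t : G} (P : Pres σ x t)
    {ε η : Fin d → Bool} {εt : Bool} (hst : Straight σ ε η εt) (β : Cl G) (hb : 0 < cv β t)
    {s : ℝ} (hs : 0 < s) (hF : Fd σ (fun i => s * cv β (x i)) (s * cv β t) = 0) {h : ℝ}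
    (hh : h ∈ EntSet β) : s ≤ h := by
  obtain ⟨τ, hτ, S, hS, C, hC⟩ := hh
  obtain ⟨χ, D, hD, hDt, ⟨i, hi⟩, hx, ht⟩ := cross_of_det P hst _ _ (low_wt P β s) hF
  have habs : ∀ g, |(χ g : ℝ)| = Real.exp (s * cv β g) := by
    intro g
    have := low_abs P.gen χ β β s 0 (by simpa using hx) (by simpa using ht) g
    simpa using this
  have hβτ : cv β τ = 1 := cv_eq_iff.2 hτ
  have hne : ∀ g, 0 < cv β g → (χ g : ℝ) ≠ 1 := by
    intro g hg h1
    have h2 := habs g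
    rw [h1, abs_one, eq_comm, Real.exp_eq_one_iff] at h2
    have : (0 : ℝ) < cv β g := by exact_mod_cast hg
    nlinarith
  obtain ⟨D', hD', hD'τ, g, hg, hg'⟩ :=
    low_normal hD β (hne τ (by omega)) (hne t hb) hDt hi hβτ
  obtain ⟨g₀, hg₀, hg₀'⟩ : ∃ g₀ ∈ S, D' g₀ ≠ 0 := by
    by_contra hcon
    push Not at hcon
    exact hg' (hD'.eq_zero_of_closure (S := (S : Set G)) hcon (hS ▸ hg))
  set M : ℝ := ∑ g ∈ S, |D' g| with hM
  have hM0 : 0 ≤ M := Finset.sum_nonneg fun _ _ => abs_nonneg _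
  have hSb : ∀ a ∈ (S : Set G), |(χ a : ℝ)| ≤ 1 ∧ |(χ a⁻¹ : ℝ)| ≤ 1 ∧ |D' a| ≤ M := by
    intro a ha
    have h0 : cv β a = 0 := mem_ker_iff_cv.1 (hS ▸ Subgroup.subset_closure ha)
    refine ⟨by rw [habs, h0]; simp, by rw [habs, cv_inv, h0]; simp, ?_⟩
    exact Finset.single_le_sum (f := fun g => |D' g|) (fun _ _ => abs_nonneg _) ha
  have key : ∀ k : ℕ, Real.exp (s * k) * |D' g₀| ≤ C * Real.exp (h * k) * M := by
    intro k
    obtain ⟨l, hl, hp, hlen⟩ := hC g₀ hg₀ k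
    have h1 := low_list hD' le_rfl hM0 hSb l hl
    have h2 : D' (τ ^ k) = 0 := by simpa using low_zpow hD' hD'τ k
    rw [hp, low_conj hD' h2, abs_mul, habs, cv_pow, hβτ, one_pow, mul_one, mul_one] at h1
    push_cast at h1
    exact h1.trans (mul_le_mul_of_nonneg_right hlen hM0)
  by_contra hlt
  push Not at hlt
  have hpos : 0 < |D' g₀| := abs_pos.2 hg₀'
  obtain ⟨k, hk⟩ := exists_nat_gt (C * M / |D' g₀| / (s - h))
  have hsh : 0 < s - h := by linarith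
  rw [div_lt_iff₀ hsh, div_lt_iff₀ hpos] at hk
  have h3 := key k
  have h4 : Real.exp (s * k) = Real.exp (h * k) * Real.exp ((s - h) * k) := by
    rw [← Real.exp_add]; congr 1; ring
  have h5 : (s - h) * k + 1 ≤ Real.exp ((s - h) * k) := Real.add_one_le_exp _
  have h6 := Real.exp_pos (h * k)
  rw [h4] at h3
  have h7 : Real.exp ((s - h) * k) * |D' g₀| ≤ C * M := by
    apply le_of_mul_le_mul_left _ h6
    linarith
  nlinarith

/-- LOW. Classes on the boundary of the cone have infinitely generated kernel. -/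
theorem nonFG {σ : Fin d → Wd d} {x : Fin d → G} {t : G} (P : Pres σ x t)
    {ε η : Fin d → Bool} {εt : Bool} (hst : Straight σ ε η εt) (β ω : Cl G)
    (hβ : Function.Surjective β) (hωx : ∀ i, cv ω (x i) = 0) (hωt : cv ω t = 1) (R : ℝ)
    (h : ∀ s : ℝ, 0 < s → ∃ r : ℝ, 0 ≤ r ∧ r ≤ R ∧ s * cv β t + r ≠ 0 ∧
      Fd σ (fun i => s * cv β (x i)) (s * cv β t + r) = 0) : ¬ β.ker.FG := by
  rintro ⟨S, hS⟩
  obtain ⟨τ, hτ⟩ := hβ (Multiplicative.ofAdd 1)
  have hβτ : cv β τ = 1 := cv_eq_iff.2 hτ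
  have hker : ∀ a ∈ S, cv β a = 0 := fun a ha =>
    mem_ker_iff_cv.1 (hS ▸ Subgroup.subset_closure ha)
  have hlen : ∀ a ∈ S, ∃ r, Len (S : Set G) (τ * a * τ⁻¹) r := by
    intro a ha
    apply exists_len
    rw [hS, mem_ker_iff_cv]
    simp [hker a ha]
  choose! ρ hρ using hlen
  obtain ⟨n, hn⟩ := exists_nat_ge (∑ a ∈ S, ρ a)
  have hn' : ∀ a ∈ S, Len (S : Set G) (τ * a * τ⁻¹) n := fun a ha =>
    (hρ a ha).mono ((Finset.single_le_sum (fun b hb => (hρ b hb).nonneg) ha).trans hn)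
  set K : ℝ := ∑ a ∈ S, |(cv ω a : ℝ)| with hK
  have hK0 : 0 ≤ K := Finset.sum_nonneg fun _ _ => abs_nonneg _
  set Q : ℝ := Real.exp (|R| * K) with hQ
  have hQ1 : 1 ≤ Q := Real.one_le_exp (mul_nonneg (abs_nonneg _) hK0)
  set B : ℝ := n * Q ^ n with hB
  have hB0 : 0 ≤ B := by positivity
  set s : ℝ := |R| * |(cv ω τ : ℝ)| + B + 1 with hs
  have hs0 : 0 < s := by positivity
  obtain ⟨r, hr0, hrR, hne, hF⟩ := h s hs0
  have hrabs : r ≤ |R| := hrR.trans (le_abs_self R)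
  obtain ⟨χ, D, hD, hDt, ⟨i, hi⟩, hx, ht⟩ := cross_of_det P hst _ _ (low_wt P β s) hF
  have habs : ∀ g, |(χ g : ℝ)| = Real.exp (s * cv β g + r * cv ω g) :=
    low_abs P.gen χ β ω s r (by simpa [hωx] using hx) (by simpa [hωt] using ht)
  have hbig : B + 1 < |(χ τ : ℝ)| := by
    rw [habs, hβτ]
    have h1 : -(|R| * |(cv ω τ : ℝ)|) ≤ r * cv ω τ := by
      have h2 : |r * (cv ω τ : ℝ)| ≤ |R| * |(cv ω τ : ℝ)| := by
        rw [abs_mul, abs_of_nonneg hr0]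
        exact mul_le_mul_of_nonneg_right hrabs (abs_nonneg _)
      linarith [neg_abs_le (r * (cv ω τ : ℝ))]
    have h3 := Real.add_one_le_exp (s * ((1 : ℤ) : ℝ) + r * cv ω τ)
    push_cast at h3 ⊢
    linarith
  have hχτ : (χ τ : ℝ) ≠ 1 := by
    intro h1
    rw [h1, abs_one] at hbig
    linarith
  have hχt : (χ t : ℝ) ≠ 1 := by
    intro h1
    rw [h1, abs_one, eq_comm, Real.exp_eq_one_iff] at ht
    exact hne ht
  obtain ⟨D', hD', hD'τ, g, hg, hg'⟩ := low_normal hD β hχτ hχt hDt hi hβτ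
  obtain ⟨g₁, hg₁, hg₁'⟩ : ∃ g₁ ∈ S, D' g₁ ≠ 0 := by
    by_contra hcon
    push Not at hcon
    exact hg' (hD'.eq_zero_of_closure (S := (S : Set G)) hcon (hS ▸ hg))
  obtain ⟨g₀, hg₀, hmax⟩ := S.exists_max_image (fun a => |D' a|) ⟨g₁, hg₁⟩
  have hM : 0 < |D' g₀| := (abs_pos.2 hg₁').trans_le (hmax g₁ hg₁)
  have hSb : ∀ a ∈ (S : Set G), |(χ a : ℝ)| ≤ Q ∧ |(χ a⁻¹ : ℝ)| ≤ Q ∧ |D' a| ≤ |D' g₀| := by
    intro a ha
    have h0 := hker a ha
    have h1 : |(cv ω a : ℝ)| ≤ K :=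
      Finset.single_le_sum (f := fun a => |(cv ω a : ℝ)|) (fun _ _ => abs_nonneg _) ha
    have h2 : |r * (cv ω a : ℝ)| ≤ |R| * K := by
      rw [abs_mul, abs_of_nonneg hr0]
      exact mul_le_mul hrabs h1 (abs_nonneg _) (abs_nonneg _)
    refine ⟨?_, ?_, hmax a ha⟩
    · rw [habs, h0, hQ]
      apply Real.exp_le_exp.2
      push_cast
      linarith [le_abs_self (r * (cv ω a : ℝ))]
    · rw [habs, cv_inv, cv_inv, h0, hQ]
      apply Real.exp_le_exp.2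
      push_cast
      linarith [neg_abs_le (r * (cv ω a : ℝ))]
  obtain ⟨l, hl, hp, hlen⟩ := hn' g₀ hg₀
  have h1 := low_list hD' hQ1 hM.le hSb l hl
  rw [hp, low_conj hD' hD'τ, abs_mul] at h1
  have hln : l.length ≤ n := by exact_mod_cast hlen
  have h2 : (l.length : ℝ) * Q ^ l.length ≤ B :=
    mul_le_mul hlen (pow_le_pow_right₀ hQ1 hln) (by positivity) (Nat.cast_nonneg _)
  have h3 := le_of_mul_le_mul_right h1 hM
  linarith

end Pool.Agent.Lib.MP_14f458_gt
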