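import Pool.Agent.Lib.MP_14f458_gt.Small

namespace Pool.Agent.Lib.MP_14f458_gt

variable {d : ℕ} {σ : Fin d → Wd d}

theorem pf_cont_SS (v : Fin d → ℝ) (w : Wd d) {X : Type} [TopologicalSpace X] {a : X → Fin d → ℝ}
    {s : X → ℝ} (ha : Continuous a) (hs : Continuous s) :
    Continuous fun x => SS (a x) v w (s x) := by
  induction w generalizing s with
  | nil => exact continuous_const
  | cons l w ih =>
    have hi := (continuous_apply l.1).comp ha
    rcases l with ⟨i, _ | _⟩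
    · exact (((Real.continuous_exp.comp (hs.sub hi)).mul continuous_const).add (ih (hs.sub hi)) :)
    · exact (((Real.continuous_exp.comp hs).mul continuous_const).add (ih (hs.add hi)) :)

theorem pf_cont_Mat (σ : Fin d → Wd d) :
    Continuous fun p : (Fin d → ℝ) × ℝ => Mat σ p.1 p.2 :=
  continuous_matrix fun _ _ => pf_cont_SS _ _ continuous_fst continuous_snd.neg

theorem continuous_Fd (σ : Fin d → Wd d) :
    Continuous fun p : (Fin d → ℝ) × ℝ => Fd σ p.1 p.2 :=
  (continuous_const.sub (pf_cont_Mat σ)).matrix_det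

theorem isOpen_Sup (σ : Fin d → Wd d) : IsOpen {p : (Fin d → ℝ) × ℝ | Sup σ p.1 p.2} := by
  refine isOpen_iff_mem_nhds.2 fun p ⟨v, h1, h2⟩ => ?_
  have : ∀ᶠ q : (Fin d → ℝ) × ℝ in nhds p, ∀ i, SS q.1 v (σ i) (-q.2) < v i :=
    Filter.eventually_all.2 fun i =>
      (isOpen_lt (pf_cont_SS v (σ i) continuous_fst continuous_snd.neg) continuous_const).mem_nhds
        (h2 i)
  exact this.mono fun q hq => ⟨v, h1, hq⟩

theorem pf_lin (a v w : Fin d → ℝ) (c : ℝ) (u : Wd d) (s : ℝ) :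
    SS a (fun k => w k - c * v k) u s = SS a w u s - c * SS a v u s := by
  induction u generalizing s with
  | nil => simp [SS]
  | cons l u ih => rcases l with ⟨i, _ | _⟩ <;> simp only [SS, ih] <;> ring

/-- The minimum principle. -/
theorem Sup.pf_min {a : Fin d → ℝ} {b : ℝ} (h : Sup σ a b) {w : Fin d → ℝ}
    (hw : ∀ i, SS a w (σ i) (-b) ≤ w i) (i : Fin d) : 0 ≤ w i := by
  obtain ⟨v, h1, h2⟩ := h
  have : Nonempty (Fin d) := ⟨i⟩
  obtain ⟨j, hj⟩ := Finite.exists_min fun k => w k / v k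
  by_contra hi
  have h3 : w j / v j < 0 := (hj i).trans_lt (div_neg_of_neg_of_pos (not_le.1 hi) (h1 i))
  have h4 := SS_nonneg a (v := fun k => w k - w j / v j * v k)
    (fun k => sub_nonneg.2 ((le_div_iff₀ (h1 k)).1 (hj k))) (σ j) (-b)
  rw [pf_lin] at h4
  have h5 := mul_lt_mul_of_neg_left (h2 j) h3
  rw [div_mul_cancel₀ _ (h1 j).ne'] at h5
  linarith [hw j]

theorem Sup.det_ne {a : Fin d → ℝ} {b : ℝ} (h : Sup σ a b) : Fd σ a b ≠ 0 := by
  intro h0
  obtain ⟨w, hw, e⟩ := Matrix.exists_mulVec_eq_zero_iff.2 h0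
  have e1 : ∀ i, SS a w (σ i) (-b) = w i := fun i => by
    have := congrFun e i
    rw [Matrix.sub_mulVec, Matrix.one_mulVec, Pi.sub_apply, Mat_mulVec, Pi.zero_apply] at this
    linarith
  refine hw (funext fun i => le_antisymm ?_ (h.pf_min (fun i => (e1 i).le) i))
  have := h.pf_min (w := fun k => w k - 2 * w k) (fun i => by rw [pf_lin, e1]) i
  show w i ≤ 0
  linarith

/-- PF. `Sup` propagates along paths on which the determinant does not vanish. -/
theorem Sup.path (a : ℝ → Fin d → ℝ) (b : ℝ → ℝ) (ha : Continuous a) (hb : Continuous b)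
    (h0 : Sup σ (a 0) (b 0)) (hne : ∀ u ∈ Set.Icc (0 : ℝ) 1, Fd σ (a u) (b u) ≠ 0) :
    Sup σ (a 1) (b 1) := by
  have hM : Continuous fun u => 1 - Mat σ (a u) (b u) :=
    continuous_const.sub ((pf_cont_Mat σ).comp (ha.prodMk hb))
  obtain ⟨z, z1, z2⟩ : ∃ z : ℝ → Fin d → ℝ, Continuous z ∧
      ∀ u i, SS (a u) (z u) (σ i) (-b u) = z u i - Fd σ (a u) (b u) ^ 2 := by
    refine ⟨fun u => (1 - Mat σ (a u) (b u)).adjugate.mulVec fun _ => Fd σ (a u) (b u),
      hM.matrix_adjugate.matrix_mulVec (continuous_pi fun _ => hM.matrix_det), fun u i => ?_⟩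
    have := congrFun (Matrix.mulVec_mulVec (fun _ => Fd σ (a u) (b u)) (1 - Mat σ (a u) (b u))
      (1 - Mat σ (a u) (b u)).adjugate) i
    rw [Matrix.mul_adjugate, Matrix.sub_mulVec, Matrix.one_mulVec, Pi.sub_apply, Mat_mulVec,
      Matrix.smul_mulVec, Matrix.one_mulVec, Pi.smul_apply, smul_eq_mul] at this
    rw [sq]
    exact (sub_eq_iff_eq_add.2 (sub_eq_iff_eq_add'.1 this)).symm
  have hU : IsOpen {u | Sup σ (a u) (b u)} := (isOpen_Sup σ).preimage (ha.prodMk hb)
  have hC : IsClosed {u | 0 ≤ z u} := isClosed_le continuous_const z1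
  refine isPreconnected_Icc.subset_of_closure_inter_subset hU ⟨0, Set.left_mem_Icc.2 zero_le_one, h0⟩
    (fun u ⟨h1, h2⟩ => ?_) (Set.right_mem_Icc.2 zero_le_one)
  have hs : {u | Sup σ (a u) (b u)} ⊆ {u | 0 ≤ z u} := fun t ht i =>
    Sup.pf_min (w := z t) ht (fun k => by rw [z2]; exact sub_le_self _ (sq_nonneg _)) i
  have h3 : 0 ≤ z u := closure_minimal hs hC h1
  have h4 := sq_pos_of_ne_zero (hne u h2)
  refine ⟨z u, fun i => ?_, fun i => by rw [z2]; linarith⟩
  have := SS_nonneg (a u) h3 (σ i) (-b u)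
  rw [z2] at this
  linarith

theorem pf_pot {a a' θ v : Fin d → ℝ} (hv : ∀ i, 0 ≤ v i) {c : ℝ} (w : Wd d) (s s' : ℝ)
    (h : Pot a' θ c w s') :
    SS (a + a') (fun k => Real.exp (θ k) * v k) w (s + s') ≤ Real.exp c * SS a v w s := by
  have key : ∀ (i : Fin d) (t t' : ℝ), t' + θ i ≤ c →
      Real.exp (t + t') * (Real.exp (θ i) * v i) ≤ Real.exp c * (Real.exp t * v i) :=
    fun i t t' h => by
      rw [← mul_assoc, ← mul_assoc, ← Real.exp_add, ← Real.exp_add]
      exact mul_le_mul_of_nonneg_right (Real.exp_le_exp.2 (by linarith)) (hv i)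
  induction w generalizing s s' with
  | nil => simp [SS]
  | cons l w ih =>
    rcases l with ⟨i, _ | _⟩
    · simp only [SS, Pi.add_apply, mul_add]
      rw [show s + s' - (a i + a' i) = s - a i + (s' - a' i) by ring]
      exact add_le_add (key i _ _ h.1) (ih _ _ h.2)
    · simp only [SS, Pi.add_apply, mul_add]
      rw [show s + s' + (a i + a' i) = s + a i + (s' + a' i) by ring]
      exact add_le_add (key i _ _ h.1) (ih _ _ h.2)

/-- PF. Monotonicity from potentials. -/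
theorem Sup.pot {a a' θ : Fin d → ℝ} {b b' : ℝ} (h : Sup σ a b)
    (hθ : ∀ i, Pot a' θ (θ i) (σ i) (-b')) : Sup σ (a + a') (b + b') := by
  obtain ⟨v, h1, h2⟩ := h
  refine ⟨fun k => Real.exp (θ k) * v k, fun i => mul_pos (Real.exp_pos _) (h1 i), fun i => ?_⟩
  rw [neg_add]
  exact (pf_pot (fun i => (h1 i).le) _ _ _ (hθ i)).trans_lt
    (mul_lt_mul_of_pos_left (h2 i) (Real.exp_pos _))

theorem pf_len (w : Wd d) (s : ℝ) : SS 0 (fun _ => 1) w s = w.length * Real.exp s := by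
  induction w with
  | nil => simp [SS]
  | cons l w ih => rcases l with ⟨i, _ | _⟩ <;> simp [SS, ih] <;> ring

theorem sup_large (σ : Fin d → Wd d) : ∃ r : ℝ, 0 < r ∧ Sup σ 0 r := by
  have h0 : (0 : ℝ) ≤ ∑ i, ((σ i).length : ℝ) := Finset.sum_nonneg fun _ _ => Nat.cast_nonneg _
  refine ⟨∑ i, ((σ i).length : ℝ) + 1, by linarith, fun _ => 1, fun _ => one_pos, fun i => ?_⟩
  have h1 : ((σ i).length : ℝ) ≤ ∑ i, ((σ i).length : ℝ) :=
    Finset.single_le_sum (f := fun i => ((σ i).length : ℝ)) (fun _ _ => Nat.cast_nonneg _)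
      (Finset.mem_univ i)
  rw [pf_len, Real.exp_neg, mul_inv_lt_iff₀ (Real.exp_pos _)]
  linarith [Real.add_one_le_exp (∑ i, ((σ i).length : ℝ) + 1)]

end Pool.Agent.Lib.MP_14f458_gt
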