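import Pool.Agent.Lib.MP_14f458_gt.Up
import Pool.Agent.Lib.MP_14f458_gt.Low
import Pool.Agent.Lib.MP_14f458_gt.PF

namespace Pool.Agent.Lib.MP_14f458_gt

theorem irr1_wt_linZ {d m : ℕ} (p : Fin d → Fin m → ℤ) (n : Fin m → ℤ) (w : Wd d) :
    wt (fun k => linZ (p k) n) w = linZ (fun j => wt (fun k => p k j) w) n := by
  induction w with
  | nil => simp [wt, linZ]
  | cons l w ih =>
    rcases l with ⟨i, _ | _⟩ <;> simp only [wt, ih] <;>
      simp [linZ, add_mul, Finset.sum_add_distrib]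

theorem irr1_ev_ofAdd {d : ℕ} (a : Fin d → ℤ) (w : Wd d) :
    ev (fun i => Multiplicative.ofAdd (a i)) w = Multiplicative.ofAdd (wt a w) := by
  have := cv_ev (MonoidHom.id (Multiplicative ℤ)) (fun i => Multiplicative.ofAdd (a i)) w
  exact cv_eq_iff.1 this

theorem irr1_linZ_add {m : ℕ} (c n n' : Fin m → ℤ) : linZ c (n + n') = linZ c n + linZ c n' := by
  simp [linZ, mul_add, Finset.sum_add_distrib]

theorem irr1_linZ_sub {m : ℕ} (c n n' : Fin m → ℤ) : linZ c (n - n') = linZ c n - linZ c n' := by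
  simp [linZ, mul_sub, Finset.sum_sub_distrib]

theorem irr1_linZ_smul {m : ℕ} (c n : Fin m → ℤ) (k : ℤ) : linZ c (k • n) = k * linZ c n := by
  simp [linZ, Finset.mul_sum, mul_left_comm]

namespace MD
variable {d m f : ℕ} {M : MD d m f} {G : Type} [Group G] {x : Fin d → G} {t : G}

theorem irr1_cont_a (M : MD d m f) : Continuous M.a := continuous_pi fun _ => continuous_lin _

theorem irr1_cont_b (M : MD d m f) : Continuous M.b := continuous_lin _

theorem isOpen_R (M : MD d m f) : IsOpen M.R :=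
  (isOpen_Sup M.σ).preimage (M.irr1_cont_a.prodMk M.irr1_cont_b)

theorem isOpen_C (M : MD d m f) : IsOpen M.C := by
  rw [C, Set.ofPred_forall]
  exact isOpen_iInter_of_finite fun k => isOpen_lt continuous_const (continuous_lin _)

theorem continuous_F (M : MD d m f) : Continuous M.F :=
  (continuous_Fd M.σ).comp (M.irr1_cont_a.prodMk M.irr1_cont_b)

theorem Good.R_add (hM : M.Good) {ξ η : Fin m → ℝ} (hξ : ξ ∈ M.R) (hη : η ∈ M.Cb) :
    ξ + η ∈ M.R := by
  obtain ⟨θ, hθ⟩ := hM.pot η hη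
  have h := Sup.pot hξ hθ
  have ha : M.a (ξ + η) = M.a ξ + M.a η := funext fun i => lin_add _ _ _
  have hb : M.b (ξ + η) = M.b ξ + M.b η := lin_add _ _ _
  show Sup M.σ (M.a (ξ + η)) (M.b (ξ + η))
  rwa [ha, hb]

theorem R_seg {p q : Fin m → ℝ} (hp : p ∈ M.R) (h : ∀ ξ ∈ segment ℝ p q, M.F ξ ≠ 0) :
    q ∈ M.R := by
  have hc : Continuous fun u : ℝ => (1 - u) • p + u • q := by fun_prop
  have := Sup.path (σ := M.σ) (fun u => M.a ((1 - u) • p + u • q))
    (fun u => M.b ((1 - u) • p + u • q)) (M.irr1_cont_a.comp hc) (M.irr1_cont_b.comp hc)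
    (by simpa [R] using hp) fun u hu => h _ ⟨1 - u, u, sub_nonneg.2 hu.2, hu.1, by ring, rfl⟩
  simpa [R] using this

theorem Good.exists_om (hM : M.Good) : ∃ r : ℝ, 0 < r ∧ r • cst M.om ∈ M.R := by
  obtain ⟨r, hr, h⟩ := sup_large M.σ
  refine ⟨r, hr, ?_⟩
  have ha : M.a (r • cst M.om) = 0 := funext fun i => by
    simp [a, lin_smul, lin_cst, hM.om_a]
  have hb : M.b (r • cst M.om) = r := by simp [b, lin_smul, lin_cst, hM.om_b]
  show Sup M.σ (M.a (r • cst M.om)) (M.b (r • cst M.om))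
  rwa [ha, hb]

theorem Good.exists_has (hM : M.Good) (P : Pres M.σ x t) (β : Cl G) : ∃ n, M.Has x t β n :=
  hM.par (fun i => cv β (x i)) (cv β t) (wt_of_rel P.rel β)

theorem Good.exists_cl (hM : M.Good) (P : Pres M.σ x t) (n : Fin m → ℤ) :
    ∃ β : Cl G, M.Has x t β n := by
  obtain ⟨β, h1, h2⟩ := P.univ (Multiplicative ℤ)
    (fun i => Multiplicative.ofAdd (linZ (M.pa i) n)) (Multiplicative.ofAdd (linZ M.pb n))
    fun i => by
      rw [irr1_ev_ofAdd, irr1_wt_linZ, mul_inv_cancel_comm]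
      simp only [hM.cls]
  exact ⟨β, fun i => cv_eq_iff.2 (h1 i), cv_eq_iff.2 h2⟩

theorem Good.has_unique (hM : M.Good) {β : Cl G} {n n' : Fin m → ℤ} (h : M.Has x t β n)
    (h' : M.Has x t β n') : n = n' :=
  sub_eq_zero.1 (hM.inj _ (fun i => by rw [irr1_linZ_sub, ← h.1 i, ← h'.1 i, sub_self])
    (by rw [irr1_linZ_sub, ← h.2, ← h'.2, sub_self]))

theorem Has.mul {α β : Cl G} {n n' : Fin m → ℤ} (h : M.Has x t α n) (h' : M.Has x t β n') :
    M.Has x t (α * β) (n + n') :=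
  ⟨fun i => by rw [cv_cl_mul, irr1_linZ_add, h.1, h'.1],
    by rw [cv_cl_mul, irr1_linZ_add, h.2, h'.2]⟩

theorem Has.pow {α : Cl G} {n : Fin m → ℤ} (h : M.Has x t α n) (k : ℕ) :
    M.Has x t (α ^ k) ((k : ℤ) • n) :=
  ⟨fun i => by rw [cv_cl_pow, irr1_linZ_smul, h.1], by rw [cv_cl_pow, irr1_linZ_smul, h.2]⟩

theorem Good.irr1_fg (hM : M.Good) (P : Pres M.σ x t) {β : Cl G} (hβ : Function.Surjective β)
    {n : Fin m → ℤ} (hn : M.Has x t β n) (hb : 0 < cv β t) {s : ℝ} (hs : 0 < s)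
    (hsup : Sup M.σ (fun i => s * cv β (x i)) (s * cv β t)) : β.ker.FG := by
  obtain ⟨r, ri, h1, h2, h3⟩ := hM.rev
  refine fg_of_sup (x' := fun i => ev x (r i)) P.rel P.gen (fun i => ?_) ?_ β hβ hb (fun i => ?_)
    hs hsup
  · rw [← ev_sub, ← ev_eq_of_red x (h2 i), ← conj_ev_of_rel P.rel]
    group
  · rw [eq_top_iff, ← P.gen, Subgroup.closure_le]
    rintro _ (⟨i, rfl⟩ | rfl)
    · have e : x i = ev (fun i => ev x (r i)) (ri i) := by
        rw [← ev_sub, ← ev_red, h1]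
        simp
      rw [SetLike.mem_coe, e]
      refine ev_mem _ _ (fun k => ?_) _
      exact Subgroup.subset_closure (Or.inl ⟨k, rfl⟩)
    · exact (Subgroup.inv_mem_iff _).1 (Subgroup.subset_closure (Or.inr rfl))
  · rw [cv_ev]
    simp only [hn.1, irr1_wt_linZ, h3]
    simp [linZ]

/-- IRR1. The entropy of a primitive class of the cone. -/
theorem Good.ent_spec (hM : M.Good) (P : Pres M.σ x t) {β : Cl G} (hβ : Function.Surjective β)
    {n : Fin m → ℤ} (hn : M.Has x t β n) (hC : cst n ∈ M.C) :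
    β.ker.FG ∧ 0 < ent β ∧ M.F (ent β • cst n) = 0 ∧ (∀ s : ℝ, ent β < s → s • cst n ∈ M.R) ∧
      ∀ s : ℝ, s • cst n ∈ M.R → ent β ≤ s := by
  have ha : ∀ s : ℝ, M.a (s • cst n) = fun i => s * cv β (x i) := fun s => funext fun i => by
    rw [a, lin_smul, lin_cst, hn.1]
  have hb : ∀ s : ℝ, M.b (s • cst n) = s * cv β t := fun s => by
    rw [b, lin_smul, lin_cst, hn.2]
  have hbR : (0 : ℝ) < cv β t := by
    obtain ⟨k, hk⟩ := hM.bf
    have := hC k
    rwa [hk, lin_cst, ← hn.2] at this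
  have hbZ : 0 < cv β t := by exact_mod_cast hbR
  obtain ⟨r, hr, hsm⟩ := hM.small
  let A : Set ℝ := {s | s • cst n ∈ M.R}
  have hlow : ∀ s ∈ A, r / cv β t ≤ s := fun s hs => by
    have := hsm _ hs
    rw [hb] at this
    exact (div_le_iff₀ hbR).2 this.le
  have hbdd : BddBelow A := ⟨_, hlow⟩
  have hne : A.Nonempty := by
    obtain ⟨ρ, hρ, hom⟩ := hM.exists_om
    have hc : Continuous fun ε : ℝ => cst n - ε • cst M.om := by fun_prop
    have h1 : ∀ᶠ ε : ℝ in nhds 0, cst n - ε • cst M.om ∈ M.C :=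
      hc.continuousAt.eventually (M.isOpen_C.mem_nhds (by simpa using hC))
    obtain ⟨ε, hε, hε0⟩ := ((h1.filter_mono nhdsWithin_le_nhds).and
      (self_mem_nhdsWithin (a := (0 : ℝ)) (s := Set.Ioi 0))).exists
    have hε0' : 0 < ε := hε0
    refine ⟨ρ / ε, ?_⟩
    have e : (ρ / ε) • cst n = ρ • cst M.om + (ρ / ε) • (cst n - ε • cst M.om) := by
      rw [smul_sub, smul_smul, div_mul_cancel₀ _ hε0'.ne']
      abel
    show (ρ / ε) • cst n ∈ M.R
    rw [e]
    exact hM.R_add hom fun k => by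
      rw [lin_smul]
      exact mul_nonneg (div_pos hρ hε0').le (hε k).le
  have hup : ∀ s, sInf A < s → s ∈ A := fun s hs => by
    obtain ⟨s', hs', hlt⟩ := exists_lt_of_csInf_lt hne hs
    have e : s • cst n = s' • cst n + (s - s') • cst n := by
      rw [← add_smul]
      congr 1
      ring
    show s • cst n ∈ M.R
    rw [e]
    exact hM.R_add hs' fun k => by
      rw [lin_smul]
      exact mul_nonneg (sub_pos.2 hlt).le (hC k).le
  have hpos : 0 < sInf A := (div_pos hr hbR).trans_le (le_csInf hne hlow)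
  have hnot : sInf A ∉ A := fun h => by
    have hc : Continuous fun s : ℝ => s • cst n := by fun_prop
    have h1 : ∀ᶠ s : ℝ in nhds (sInf A), s ∈ A :=
      hc.continuousAt.eventually (M.isOpen_R.mem_nhds h)
    obtain ⟨s, hs, hs'⟩ := ((h1.filter_mono nhdsWithin_le_nhds).and
      (self_mem_nhdsWithin (a := sInf A) (s := Set.Iio (sInf A)))).exists
    exact absurd (csInf_le hbdd hs) (not_le.2 hs')
  have hF : M.F (sInf A • cst n) = 0 := by
    by_contra h
    refine hnot (R_seg (hup (sInf A + 1) (lt_add_one _)) ?_)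
    rintro _ ⟨u, v, hu, -, huv, rfl⟩
    have e : u • (sInf A + 1) • cst n + v • sInf A • cst n = (sInf A + u) • cst n := by
      rw [smul_smul, smul_smul, ← add_smul]
      congr 1
      linear_combination sInf A * huv
    rw [e]
    rcases hu.eq_or_lt with rfl | hu
    · rwa [add_zero]
    · exact Sup.det_ne (hup _ (lt_add_of_pos_right _ hu))
  have hsup : ∀ s, sInf A < s → Sup M.σ (fun i => s * cv β (x i)) (s * cv β t) := fun s hs => by
    rw [← ha, ← hb]
    exact hup s hs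
  have hfg : β.ker.FG :=
    hM.irr1_fg P hβ hn hbZ (hpos.trans (lt_add_one _)) (hsup _ (lt_add_one _))
  have hmem : ∀ s, sInf A < s → s ∈ EntSet β := fun s hs =>
    mem_entSet P.rel P.gen β hβ hbZ hfg (hpos.trans hs) (hsup s hs)
  have hlb : ∀ h ∈ EntSet β, sInf A ≤ h := fun h hh => by
    obtain ⟨ε, η, εt, hst⟩ := hM.str
    refine low P hst β hbZ hpos ?_ hh
    rw [← ha, ← hb]
    exact hF
  have he : ent β = sInf A :=
    le_antisymm (le_of_forall_gt_imp_ge_of_dense fun s hs => csInf_le ⟨_, hlb⟩ (hmem s hs))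
      (le_csInf ⟨_, hmem _ (lt_add_one _)⟩ hlb)
  rw [he]
  exact ⟨hfg, hpos, hF, hup, fun s hs => csInf_le hbdd hs⟩

end MD

end Pool.Agent.Lib.MP_14f458_gt
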