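import Pool.Agent.Lib.MP_14f458_gt.Irr1
import Pool.Agent.Lib.MP_14f458_gt.Opt

namespace Pool.Agent.Lib.MP_14f458_gt

theorem irr_linZ_add {m : ℕ} (c n n' : Fin m → ℤ) : linZ c (n + n') = linZ c n + linZ c n' := by
  simp [linZ, mul_add, Finset.sum_add_distrib]

theorem irr_linZ_smul {m : ℕ} (c n : Fin m → ℤ) (k : ℤ) : linZ c (k • n) = k * linZ c n := by
  simp [linZ, Finset.mul_sum, mul_left_comm]

theorem irr_cst_smul {m : ℕ} (n : Fin m → ℤ) (k : ℤ) : cst (k • n) = (k : ℝ) • cst n := by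
  funext j; simp [cst]

theorem irr_ker_pow {G : Type} [Group G] (γ : Cl G) {k : ℕ} (hk : 0 < k) :
    (γ ^ k).ker = γ.ker := by
  ext g
  rw [mem_ker_iff_cv, mem_ker_iff_cv, cv_cl_pow]
  constructor
  · intro h
    rcases mul_eq_zero.1 h with h | h
    · exact absurd h (by exact_mod_cast hk.ne')
    · exact h
  · intro h; rw [h, mul_zero]

namespace MD
variable {d m f : ℕ} {M : MD d m f} {G : Type} [Group G] {x : Fin d → G} {t : G}

theorem irr_mem_C {n : Fin m → ℤ} : cst n ∈ M.C ↔ ∀ k, 0 < linZ (M.fa k) n := by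
  simp only [C, Set.mem_ofPred_eq, lin_cst, Int.cast_pos]

theorem irr_smul_mem_C {ξ : Fin m → ℝ} {s : ℝ} (hs : 0 < s) : s • ξ ∈ M.C ↔ ξ ∈ M.C := by
  simp only [C, Set.mem_ofPred_eq, lin_smul, mul_pos_iff_of_pos_left hs]

theorem irr_C_sub : M.C ⊆ M.Cb := fun _ h k => (h k).le

theorem Good.irr_root (hM : M.Good) (P : Pres M.σ x t) {β : Cl G} {n : Fin m → ℤ}
    (hn : M.Has x t β n) (h1 : β ≠ 1) :
    ∃ (k : ℕ) (γ : Cl G) (n' : Fin m → ℤ), 0 < k ∧ Function.Surjective γ ∧ M.Has x t γ n' ∧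
      β = γ ^ k ∧ n = (k : ℤ) • n' := by
  obtain ⟨k, γ, hk, hγ, rfl⟩ := prim_root β h1
  obtain ⟨n', hn'⟩ := hM.exists_has P γ
  exact ⟨k, γ, n', hk, hγ, hn', rfl, hM.has_unique hn (hn'.pow k)⟩

theorem Good.irr_pos (hM : M.Good) {β : Cl G} {n : Fin m → ℤ} (hn : M.Has x t β n)
    (hC : cst n ∈ M.C) : 0 < cv β t := by
  obtain ⟨k, hk⟩ := hM.bf
  rw [hn.2, ← hk]
  exact irr_mem_C.1 hC k

/-- A class with coordinates in the cone is a power of a primitive class of the cone. -/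
theorem Good.irr_root_C (hM : M.Good) (P : Pres M.σ x t) {β : Cl G} {n : Fin m → ℤ}
    (hn : M.Has x t β n) (hC : cst n ∈ M.C) :
    β ≠ 1 ∧ ∃ (k : ℕ) (γ : Cl G) (n' : Fin m → ℤ), 0 < k ∧ Function.Surjective γ ∧
      M.Has x t γ n' ∧ β = γ ^ k ∧ n = (k : ℤ) • n' ∧ cst n' ∈ M.C := by
  have h1 : β ≠ 1 := by
    rintro rfl
    simpa using hM.irr_pos hn hC
  obtain ⟨k, γ, n', hk, hγ, hn', h2, h3⟩ := hM.irr_root P hn h1
  refine ⟨h1, k, γ, n', hk, hγ, hn', h2, h3, ?_⟩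
  rw [h3, irr_cst_smul] at hC
  exact (irr_smul_mem_C (by exact_mod_cast hk)).1 hC

/-- A primitive class on the boundary of the cone has infinitely generated kernel. -/
theorem Good.irr_bd (hM : M.Good) (P : Pres M.σ x t) {γ : Cl G} (hγ : Function.Surjective γ)
    {n : Fin m → ℤ} (hn : M.Has x t γ n) (hb : ∀ k, 0 ≤ linZ (M.fa k) n) {k : Fin f}
    (hk : linZ (M.fa k) n = 0) : ¬ γ.ker.FG := by
  obtain ⟨ε, η, εt, hst⟩ := hM.str
  obtain ⟨ω, hω⟩ := hM.exists_cl P M.om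
  obtain ⟨R, hR0, hR⟩ := hM.exists_om
  refine nonFG P hst γ ω hγ (fun i => (hω.1 i).trans (hM.om_a i)) (hω.2.trans hM.om_b) R
    fun s hs => ?_
  set ξ : ℝ → Fin m → ℝ := fun r => r • cst M.om + s • cst n with hξ
  have ha : ∀ r, M.a (ξ r) = fun i => s * cv γ (x i) := fun r => by
    funext i
    simp only [a, hξ, lin_add, lin_smul, lin_cst, hM.om_a, hn.1]
    simp
  have hbb : ∀ r, M.b (ξ r) = s * cv γ t + r := fun r => by
    simp only [b, hξ, lin_add, lin_smul, lin_cst, hM.om_b, hn.2]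
    simp [add_comm]
  have hξR : ξ R ∈ M.R := hM.R_add hR fun j => by
    rw [lin_smul, lin_cst]
    exact mul_nonneg hs.le (by exact_mod_cast hb j)
  have hb0 : 0 ≤ cv γ t := by
    obtain ⟨j, hj⟩ := hM.bf
    rw [hn.2, ← hj]
    exact hb j
  obtain ⟨r1, h0, h1, h2⟩ : ∃ r1 : ℝ, 0 ≤ r1 ∧ 0 < s * cv γ t + r1 ∧ ξ r1 ∉ M.R := by
    rcases hb0.eq_or_lt with h | h
    · obtain ⟨r, hr, hr'⟩ := hM.small
      refine ⟨r, hr.le, by rw [← h]; simpa using hr, fun h3 => ?_⟩
      have := hr' _ h3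
      rw [hbb, ← h] at this
      simp at this
    · refine ⟨0, le_rfl, ?_, fun h3 => ?_⟩
      · rw [add_zero]
        exact mul_pos hs (by exact_mod_cast h)
      · have := hM.supC h3 k
        simp only [hξ, lin_add, lin_smul, lin_cst, hk] at this
        simp at this
  have h3 : r1 ≤ R := by
    by_contra h3
    rw [not_le] at h3
    apply h2
    have : ξ r1 = ξ R + (r1 - R) • cst M.om := by
      simp only [hξ, sub_smul]; abel
    rw [this]
    refine hM.R_add hξR fun j => ?_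
    rw [lin_smul, lin_cst]
    exact mul_nonneg (by linarith) (by exact_mod_cast (hM.om_f j).le)
  by_contra h4
  refine h2 (R_seg hξR ?_)
  rintro _ ⟨u, v, hu, hv, huv, rfl⟩ hF
  have h5 : u • ξ R + v • ξ r1 = ξ (u * R + v * r1) := by
    have : s = u * s + v * s := by rw [← add_mul, huv, one_mul]
    simp only [hξ, smul_add, smul_smul, add_smul]
    conv_rhs => rw [this, add_smul]
    abel
  rw [h5, F, ha, hbb] at hF
  have h6 : r1 ≤ u * R + v * r1 := by nlinarith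
  exact h4 ⟨u * R + v * r1, h0.trans h6, by nlinarith, by linarith, hF⟩

/-- IRR2. The fibered cone is the cone `C`. -/
theorem Good.inCone_iff (hM : M.Good) (P : Pres M.σ x t) {S α : Cl G} {nS n : Fin m → ℤ}
    (hS : M.Has x t S nS) (hSC : cst nS ∈ M.C) (hα : M.Has x t α n) :
    InCone S α ↔ cst n ∈ M.C := by
  have hA := irr_mem_C.1 hSC
  constructor
  · intro h
    by_contra hn
    rw [irr_mem_C, not_forall] at hn
    obtain ⟨k0, hk0⟩ := hn
    rw [not_lt] at hk0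
    obtain ⟨k, -, hk⟩ := Finset.exists_max_image Finset.univ
      (fun k => (-linZ (M.fa k) n : ℚ) / linZ (M.fa k) nS) ⟨k0, Finset.mem_univ _⟩
    have hk' : ∀ j, -linZ (M.fa j) n * linZ (M.fa k) nS ≤ -linZ (M.fa k) n * linZ (M.fa j) nS :=
      fun j => by
        have := hk j (Finset.mem_univ _)
        rw [div_le_div_iff₀ (by exact_mod_cast hA j) (by exact_mod_cast hA k)] at this
        exact_mod_cast this
    have hB : 0 ≤ -linZ (M.fa k) n := by
      by_contra h1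
      rw [not_le] at h1
      nlinarith [hk' k0, hA k0, hA k, mul_pos (neg_pos.2 h1) (hA k0),
        mul_nonneg (neg_nonneg.2 hk0) (hA k).le]
    obtain ⟨a, ha⟩ := Int.eq_ofNat_of_zero_le hB
    obtain ⟨b, hb⟩ := Int.eq_ofNat_of_zero_le (hA k).le
    have hb0 : b ≠ 0 := by
      rintro rfl
      simpa [hb] using hA k
    obtain ⟨h1, h2⟩ := h a b (Or.inr hb0)
    obtain ⟨k', γ, n', hk0', hγ, hn', h3, h4⟩ := hM.irr_root P ((hS.pow a).mul (hα.pow b)) h1
    have h5 : ∀ j, -linZ (M.fa k) n * linZ (M.fa j) nS + linZ (M.fa k) nS * linZ (M.fa j) n =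
        k' * linZ (M.fa j) n' := fun j => by
      rw [← irr_linZ_smul _ n', ← h4, irr_linZ_add, irr_linZ_smul, irr_linZ_smul, ← ha, ← hb]
    have h6 : (0 : ℤ) < k' := by exact_mod_cast hk0'
    rw [h3, irr_ker_pow γ hk0'] at h2
    refine hM.irr_bd P hγ hn' (fun j => ?_) (k := k) ?_ h2
    · refine (mul_nonneg_iff_of_pos_left h6).1 ?_
      rw [← h5]
      linarith [hk' j]
    · refine (mul_eq_zero.1 ((h5 k).symm.trans (by ring))).resolve_left h6.ne'
  · intro hn a b hab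
    have hB := irr_mem_C.1 hn
    have hC : cst ((a : ℤ) • nS + (b : ℤ) • n) ∈ M.C := irr_mem_C.2 fun k => by
      rw [irr_linZ_add, irr_linZ_smul, irr_linZ_smul]
      have h1 := mul_nonneg (Int.natCast_nonneg a) (hA k).le
      have h2 := mul_nonneg (Int.natCast_nonneg b) (hB k).le
      rcases hab with h | h
      · exact add_pos_of_pos_of_nonneg
          (mul_pos (by exact_mod_cast Nat.pos_of_ne_zero h) (hA k)) h2
      · exact add_pos_of_nonneg_of_pos h1
          (mul_pos (by exact_mod_cast Nat.pos_of_ne_zero h) (hB k))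
    obtain ⟨h1, k, γ, n', hk, hγ, hn', h2, -, h3⟩ :=
      hM.irr_root_C P ((hS.pow a).mul (hα.pow b)) hC
    refine ⟨h1, ?_⟩
    rw [h2, irr_ker_pow γ hk]
    exact (hM.ent_spec P hγ hn' h3).1

end MD

end Pool.Agent.Lib.MP_14f458_gt
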