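import Pool.Agent.Lib.MP_14f458_gt.Small

namespace Pool.Agent.Lib.MP_14f458_gt

variable {d : ℕ}

section li1

variable {lo hi ε c : Lt d → ℝ}

theorem li1_mono {w : Wd d} : ∀ {p q r r' : ℝ}, Path lo hi ε c w p q r → r ≤ r' →
    Path lo hi ε c w p q r' := by
  induction w with
  | nil => intro p q r r' h hr; exact le_trans h hr
  | cons l w ih =>
    rintro p q r r' ⟨p', h1, h2, h3⟩ hr
    exact ⟨p', h1, h2, ih h3 (by linarith)⟩

theorem li1_nonneg {w : Wd d} : ∀ {p q r : ℝ}, Path lo hi ε c w p q r → 0 ≤ r := by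
  induction w with
  | nil => intro p q r h; exact (abs_nonneg _).trans h
  | cons l w ih =>
    rintro p q r ⟨p', -, -, h3⟩
    linarith [ih h3, abs_nonneg (p' - p)]

theorem li1_start {w : Wd d} {p q r : ℝ} (h : Path lo hi ε c w p q r) (p0 : ℝ) :
    Path lo hi ε c w p0 q (r + |p - p0|) := by
  cases w with
  | nil =>
    have h' : |q - p| ≤ r := h
    change |q - p0| ≤ _
    linarith [abs_sub_le q p p0]
  | cons l w =>
    obtain ⟨p', h1, h2, h3⟩ := h
    exact ⟨p', h1, h2, li1_mono h3 (by linarith [abs_sub_le p' p p0])⟩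

theorem li1_end {w : Wd d} : ∀ {p q r : ℝ}, Path lo hi ε c w p q r → ∀ q0 : ℝ,
    Path lo hi ε c w p q0 (r + |q0 - q|) := by
  induction w with
  | nil =>
    intro p q r h q0
    have h' : |q - p| ≤ r := h
    change |q0 - p| ≤ _
    linarith [abs_sub_le q0 q p]
  | cons l w ih =>
    rintro p q r ⟨p', h1, h2, h3⟩ q0
    exact ⟨p', h1, h2, li1_mono (ih h3 q0) (by linarith)⟩

theorem li1_split {u w : Wd d} : ∀ {p q r : ℝ}, Path lo hi ε c (u ++ w) p q r →
    ∃ z r1, Path lo hi ε c u p z r1 ∧ Path lo hi ε c w z q (r - r1) := by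
  induction u with
  | nil =>
    intro p q r h
    refine ⟨p, 0, ?_, by simpa using h⟩
    change |p - p| ≤ 0
    simp
  | cons l u ih =>
    rintro p q r ⟨p', h1, h2, h3⟩
    obtain ⟨z, r1, h4, h5⟩ := ih h3
    exact ⟨z, r1 + |p' - p|, ⟨p', h1, h2, li1_mono h4 (by linarith)⟩, li1_mono h5 (by linarith)⟩

theorem li1_append {u w : Wd d} : ∀ {p z q r1 r2 : ℝ}, Path lo hi ε c u p z r1 →
    Path lo hi ε c w z q r2 → Path lo hi ε c (u ++ w) p q (r1 + r2) := by
  induction u with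
  | nil =>
    intro p z q r1 r2 h1 h2
    have h' : |z - p| ≤ r1 := h1
    exact li1_mono (li1_start h2 p) (by linarith)
  | cons l u ih =>
    rintro p z q r1 r2 ⟨p', h1, h2, h3⟩ h4
    exact ⟨p', h1, h2, li1_mono (ih h3 h4) (by linarith)⟩

theorem li1_rot {u w : Wd d} {r : ℝ} (h : ∃ p, Path lo hi ε c (u ++ w) p p r) :
    ∃ p, Path lo hi ε c (w ++ u) p p r := by
  obtain ⟨p, h⟩ := h
  obtain ⟨z, r1, h1, h2⟩ := li1_split h
  exact ⟨z, li1_mono (li1_append h2 h1) (by linarith)⟩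

theorem li1_cancel (hε : ∀ l, ε l = 1 ∨ ε l = -1)
    (hinv : ∀ l p, ε (linv l) * (ε l * p + c l) + c (linv l) = p) {l : Lt d} {w : Wd d}
    {p q r : ℝ} (h : Path lo hi ε c (l :: linv l :: w) p q r) : Path lo hi ε c w p q r := by
  obtain ⟨p', -, -, p'', -, -, h3⟩ := h
  refine li1_mono (li1_start h3 p) ?_
  have e : ε (linv l) * p'' + c (linv l) - p' = ε (linv l) * (p'' - (ε l * p' + c l)) := by
    linarith [hinv l p']
  have e' : |ε (linv l) * p'' + c (linv l) - p'| = |p'' - (ε l * p' + c l)| := by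
    rw [e, abs_mul]
    rcases hε (linv l) with h | h <;> simp [h]
  linarith [abs_sub_le (ε (linv l) * p'' + c (linv l)) p' p]

theorem li1_red (hε : ∀ l, ε l = 1 ∨ ε l = -1)
    (hinv : ∀ l p, ε (linv l) * (ε l * p + c l) + c (linv l) = p) {u w : Wd d}
    (h : FreeGroup.Red u w) {p q r : ℝ} (hp : Path lo hi ε c u p q r) :
    Path lo hi ε c w p q r := by
  induction h with
  | refl => exact hp
  | tail _ hs ih =>
    cases hs with
    | @not L₁ L₂ x b =>
      obtain ⟨z, r1, h1, h2⟩ := li1_split ih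
      exact li1_mono (li1_append h1 (li1_cancel hε hinv (l := (x, b)) h2)) (by linarith)

theorem li1_red_of_mk {u w : Wd d} (h : FreeGroup.mk u = FreeGroup.mk w)
    (hw : FreeGroup.IsReduced w) : FreeGroup.Red u w := by
  have h1 := FreeGroup.reduce.sound h
  rw [hw.reduce_eq] at h1
  rw [← h1]
  exact FreeGroup.reduce.red

/-- Cyclic reduction keeps closed pseudo-orbits. -/
theorem li1_cyc (hε : ∀ l, ε l = 1 ∨ ε l = -1)
    (hinv : ∀ l p, ε (linv l) * (ε l * p + c l) + c (linv l) = p) {u : Wd d} {r : ℝ}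
    (h : ∃ p, Path lo hi ε c u p p r) : ∃ w : Wd d, FreeGroup.IsCyclicallyReduced w ∧
      IsConj (FreeGroup.mk u) (FreeGroup.mk w) ∧ ∃ p, Path lo hi ε c w p p r := by
  obtain ⟨p, hp⟩ := h
  have hL : FreeGroup.IsReduced (FreeGroup.reduce u) := by
    have := FreeGroup.isReduced_toWord (x := FreeGroup.mk u)
    rwa [FreeGroup.toWord_mk] at this
  have h1 := li1_red hε hinv (FreeGroup.reduce.red (L := u)) hp
  have h2 := FreeGroup.reduceCyclically.conj_conjugator_reduceCyclically (FreeGroup.reduce u)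
  have h3 := FreeGroup.reduceCyclically.isCyclicallyReduced hL
  have h0 : FreeGroup.mk (FreeGroup.reduce u) = FreeGroup.mk u := FreeGroup.reduce.self
  generalize FreeGroup.reduceCyclically.conjugator (FreeGroup.reduce u) = a at h2
  generalize FreeGroup.reduceCyclically (FreeGroup.reduce u) = w at h2 h3
  rw [← h2] at h1 h0
  refine ⟨w, h3, ?_, ?_⟩
  · rw [← h0, ← FreeGroup.mul_mk, ← FreeGroup.mul_mk, ← FreeGroup.inv_mk]
    exact (isConj_iff.2 ⟨FreeGroup.mk a, rfl⟩).symm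
  · obtain ⟨z, hz⟩ := li1_rot ⟨p, h1⟩
    refine ⟨z, li1_red hε hinv (li1_red_of_mk ?_ h3.isReduced) hz⟩
    rw [← FreeGroup.mul_mk, ← FreeGroup.mul_mk, ← FreeGroup.inv_mk, inv_mul_cancel_left]

theorem li1_of_orb {w : Wd d} : ∀ {p q : ℝ}, Orb lo hi ε c w p q → Path lo hi ε c w p q 0 := by
  induction w with
  | nil =>
    intro p q h
    have h' : q = p := h
    change |q - p| ≤ 0
    simp [h']
  | cons l w ih =>
    rintro p q ⟨h1, h2, h3⟩
    exact ⟨p, h1, h2, by simpa using ih h3⟩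

theorem li1_orb {w : Wd d} : ∀ {p q : ℝ}, Path lo hi ε c w p q 0 → Orb lo hi ε c w p q := by
  induction w with
  | nil =>
    intro p q h
    have h' : |q - p| ≤ 0 := h
    exact sub_eq_zero.1 (abs_nonpos_iff.1 h')
  | cons l w ih =>
    rintro p q ⟨p', h1, h2, h3⟩
    have h4 := li1_nonneg h3
    have h5 : p' = p := sub_eq_zero.1 (abs_nonpos_iff.1 (by linarith))
    subst h5
    exact ⟨h1, h2, ih (by simpa using h3)⟩

theorem li1_sub_cons (σ : Fin d → Wd d) (l : Lt d) (w : Wd d) :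
    sub σ (l :: w) = sub σ [l] ++ sub σ w := by
  rcases l with ⟨i, _ | _⟩ <;> simp [sub]

theorem li1_scale {σ : Fin d → Wd d} {μ : ℝ} (h0 : 0 ≤ μ)
    (hsc : ∀ l p, lo l ≤ p → p ≤ hi l →
      Orb lo hi ε c (sub σ [l]) (μ * p) (μ * (ε l * p + c l))) {w : Wd d} :
    ∀ {p q r : ℝ}, Path lo hi ε c w p q r →
      Path lo hi ε c (sub σ w) (μ * p) (μ * q) (μ * r) := by
  induction w with
  | nil =>
    intro p q r h
    have h' : |q - p| ≤ r := h
    change |μ * q - μ * p| ≤ _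
    rw [← mul_sub, abs_mul, abs_of_nonneg h0]
    exact mul_le_mul_of_nonneg_left h' h0
  | cons l w ih =>
    rintro p q r ⟨p', h1, h2, h3⟩
    rw [li1_sub_cons]
    refine li1_mono (li1_append (li1_start (li1_of_orb (hsc l p' h1 h2)) (μ * p)) (ih h3)) ?_
    rw [← mul_sub, abs_mul, abs_of_nonneg h0]
    linarith

theorem li1_exists (hne : ∀ l, lo l ≤ hi l) (w : Wd d) :
    ∀ p q : ℝ, ∃ r, Path lo hi ε c w p q r := by
  induction w with
  | nil => intro p q; exact ⟨|q - p|, le_refl |q - p|⟩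
  | cons l w ih =>
    intro p q
    obtain ⟨r, hr⟩ := ih (ε l * lo l + c l) q
    exact ⟨r + |lo l - p|, lo l, le_rfl, hne l, by simpa using hr⟩

theorem li1_closed (w : Wd d) :
    IsClosed {x : ℝ × ℝ × ℝ | Path lo hi ε c w x.1 x.2.1 x.2.2} := by
  induction w with
  | nil => exact isClosed_le (f := fun x : ℝ × ℝ × ℝ => |x.2.1 - x.1|) (by fun_prop) (by fun_prop)
  | cons l w ih =>
    have h1 := isClosedMap_snd_of_compactSpace (X := Set.Icc (lo l) (hi l)) (Y := ℝ × ℝ × ℝ) _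
      (ih.preimage (f := fun y : Set.Icc (lo l) (hi l) × ℝ × ℝ × ℝ =>
        (ε l * y.1.1 + c l, y.2.2.1, y.2.2.2 - |y.1.1 - y.2.1|)) (by fun_prop))
    refine (congrArg IsClosed ?_).mp h1
    ext x
    constructor
    · rintro ⟨⟨p', x'⟩, h, rfl⟩
      exact ⟨p'.1, p'.2.1, p'.2.2, h⟩
    · rintro ⟨p', h1, h2, h⟩
      exact ⟨(⟨p', h1, h2⟩, x), h, rfl⟩

theorem li1_limit {w : Wd d} (h : ∀ r : ℝ, 0 < r → ∃ p, Path lo hi ε c w p p r) :
    ∃ p, Orb lo hi ε c w p p := by
  cases w with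
  | nil => exact ⟨0, rfl⟩
  | cons l w =>
    have h1 := isClosedMap_snd_of_compactSpace (X := Set.Icc (lo l) (hi l)) (Y := ℝ) _
      ((li1_closed (lo := lo) (hi := hi) (ε := ε) (c := c) w).preimage
        (f := fun y : Set.Icc (lo l) (hi l) × ℝ => (ε l * y.1.1 + c l, y.1.1, y.2)) (by fun_prop))
    have h2 := (h1.closure_subset_iff (s := Set.Ioi 0)).2 (fun r hr => by
      obtain ⟨p, p', h1, h2, h3⟩ := h r hr
      exact ⟨(⟨p', h1, h2⟩, r), li1_mono (li1_end h3 p') (by linarith), rfl⟩)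
    rw [closure_Ioi] at h2
    obtain ⟨⟨p', r⟩, h3, h4⟩ := h2 (Set.mem_Ici.2 le_rfl)
    have h5 : r = 0 := h4
    subst h5
    exact ⟨p'.1, p'.2.1, p'.2.2, li1_orb h3⟩

end li1

/-- A cyclically reduced word is not longer than any conjugate. -/
theorem li1_len {w : Wd d} (hw : FreeGroup.IsCyclicallyReduced w) {y : FreeGroup (Fin d)}
    (h : IsConj y (FreeGroup.mk w)) : w.length ≤ y.norm := by
  obtain ⟨u, hu⟩ := isConj_iff.1 h
  have hpow : ∀ n : ℕ, (y ^ n).norm ≤ n * y.norm := by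
    intro n
    induction n with
    | zero => simp
    | succ n ih =>
      rw [pow_succ]
      have := FreeGroup.norm_mul_le (y ^ n) y
      nlinarith
  have key : ∀ n : ℕ, n * w.length ≤ 2 * u.norm + n * y.norm := by
    intro n
    have h1 : (FreeGroup.mk w ^ n).norm = n * w.length := by
      rw [FreeGroup.pow_mk, FreeGroup.norm, FreeGroup.toWord_mk,
        (hw.flatten_replicate n).isReduced.reduce_eq]
      simp
    rw [← h1, ← hu, conj_pow]
    have h2 := FreeGroup.norm_mul_le (u * y ^ n) u⁻¹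
    have h3 := FreeGroup.norm_mul_le u (y ^ n)
    rw [FreeGroup.norm_inv_eq] at h2
    have h4 := hpow n
    omega
  by_contra hc
  have h1 := key (2 * u.norm + 1)
  have h2 : y.norm + 1 ≤ w.length := by omega
  nlinarith [Nat.mul_le_mul_left (2 * u.norm + 1) h2]

/-- LI1. A periodic conjugacy class carries an exact closed orbit. -/
theorem exists_orb (lo hi ε c : Lt d → ℝ) (σ : Fin d → Wd d) (μ : ℝ) (h0 : 0 ≤ μ) (h1 : μ < 1)
    (hne : ∀ l, lo l ≤ hi l) (hε : ∀ l, ε l = 1 ∨ ε l = -1)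
    (hinv : ∀ l p, ε (linv l) * (ε l * p + c l) + c (linv l) = p)
    (hsc : ∀ l p, lo l ≤ p → p ≤ hi l →
      Orb lo hi ε c (sub σ [l]) (μ * p) (μ * (ε l * p + c l)))
    (y : FreeGroup (Fin d)) (m : ℕ) (hm : 0 < m) (hy : IsConj ((hom σ)^[m] y) y) :
    ∃ (w : Wd d) (p : ℝ), FreeGroup.IsCyclicallyReduced w ∧ IsConj y (FreeGroup.mk w) ∧
      Orb lo hi ε c w p p := by
  obtain ⟨r0, hr0⟩ := li1_exists (ε := ε) (c := c) hne y.toWord 0 0
  have hit : ∀ k : ℕ, ∃ u : Wd d, FreeGroup.mk u = (hom σ)^[k] y ∧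
      Path lo hi ε c u 0 0 (μ ^ k * r0) := by
    intro k
    induction k with
    | zero => exact ⟨y.toWord, FreeGroup.mk_toWord, by simpa using hr0⟩
    | succ k ih =>
      obtain ⟨u, h2, h3⟩ := ih
      refine ⟨sub σ u, by rw [← hom_mk, h2, Function.iterate_succ_apply'], ?_⟩
      have := li1_scale h0 hsc h3
      rwa [mul_zero, ← mul_assoc, ← pow_succ'] at this
  have hmap : ∀ (k : ℕ) (a b : FreeGroup (Fin d)), IsConj a b →
      IsConj ((hom σ)^[k] a) ((hom σ)^[k] b) := by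
    intro k
    induction k with
    | zero => intro a b h; exact h
    | succ k ih => intro a b h; exact ih _ _ ((hom σ).map_isConj h)
  have hconj : ∀ j : ℕ, IsConj ((hom σ)^[j * m] y) y := by
    intro j
    induction j with
    | zero => rw [Nat.zero_mul]; exact IsConj.refl y
    | succ j ih =>
      rw [Nat.succ_mul, Function.iterate_add_apply]
      exact (hmap _ _ _ hy).trans ih
  have hsmall : ∀ r : ℝ, 0 < r → ∃ w : Wd d, FreeGroup.IsCyclicallyReduced w ∧
      IsConj y (FreeGroup.mk w) ∧ ∃ p, Path lo hi ε c w p p r := by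
    intro r hr
    have ht : Filter.Tendsto (fun k : ℕ => μ ^ k * r0) Filter.atTop (nhds 0) := by
      simpa using (tendsto_pow_atTop_nhds_zero_of_lt_one h0 h1).mul_const r0
    obtain ⟨N, hN⟩ := Filter.eventually_atTop.1 (ht.eventually (ge_mem_nhds hr))
    obtain ⟨u, h2, h3⟩ := hit (N * m)
    obtain ⟨w, h4, h5, h6⟩ := li1_cyc hε hinv
      ⟨0, li1_mono h3 (hN _ (Nat.le_mul_of_pos_right N hm))⟩
    rw [h2] at h5
    exact ⟨w, h4, (hconj N).symm.trans h5, h6⟩
  by_contra hcon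
  have hfin : {w : Wd d | FreeGroup.IsCyclicallyReduced w ∧ IsConj y (FreeGroup.mk w)}.Finite :=
    (List.finite_length_le (Lt d) y.norm).subset fun w hw => li1_len hw.1 hw.2
  have hev : ∀ w ∈ {w : Wd d | FreeGroup.IsCyclicallyReduced w ∧ IsConj y (FreeGroup.mk w)},
      ∀ᶠ r in nhdsWithin (0 : ℝ) (Set.Ioi 0), ¬ ∃ p, Path lo hi ε c w p p r := by
    intro w hw
    have h2 : ¬ ∀ r : ℝ, 0 < r → ∃ p, Path lo hi ε c w p p r := fun h => by
      obtain ⟨p, hp⟩ := li1_limit h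
      exact hcon ⟨w, p, hw.1, hw.2, hp⟩
    push Not at h2
    obtain ⟨r, hr, h3⟩ := h2
    filter_upwards [mem_nhdsWithin_of_mem_nhds (ge_mem_nhds hr)] with r' hr'
    rintro ⟨p, hp⟩
    exact h3 p (li1_mono hp hr')
  obtain ⟨r, hr, hr'⟩ := (((Filter.eventually_all_finite hfin).2 hev).and
    self_mem_nhdsWithin).exists
  obtain ⟨w, h2, h3, h4⟩ := hsmall r hr'
  exact hr w ⟨h2, h3⟩ h4

end Pool.Agent.Lib.MP_14f458_gt
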