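import Pool.Agent.Lib.MP_14f458_gt.Small

namespace Pool.Agent.Lib.MP_14f458_gt

theorem ranka_add {V : Type} [AddCommGroup V] [Module ℚ V] (f g : V →ₗ[ℚ] V)
    (hg : Function.Surjective g) [FiniteDimensional ℚ (LinearMap.ker (f ∘ₗ g))] :
    Module.finrank ℚ (LinearMap.ker (f ∘ₗ g)) =
      Module.finrank ℚ (LinearMap.ker f) + Module.finrank ℚ (LinearMap.ker g) := by
  have h1 : ∀ x ∈ LinearMap.ker (f ∘ₗ g), g x ∈ LinearMap.ker f := fun x hx => hx
  have h2 : LinearMap.range (g.restrict h1) = ⊤ := by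
    rw [LinearMap.range_eq_top]
    rintro ⟨y, hy⟩
    obtain ⟨x, rfl⟩ := hg y
    exact ⟨⟨x, hy⟩, rfl⟩
  have h3 : LinearMap.ker g ≤ LinearMap.ker (f ∘ₗ g) := LinearMap.ker_le_ker_comp g f
  have h4 : LinearMap.ker (g.restrict h1) =
      (LinearMap.ker g).comap (LinearMap.ker (f ∘ₗ g)).subtype := by
    ext x
    simp [Subtype.ext_iff, LinearMap.restrict_apply]
  rw [← (g.restrict h1).finrank_range_add_finrank_ker, h2, finrank_top, h4,
    (Submodule.comapSubtypeEquivOfLe h3).finrank_eq]

variable {R M : Type} [CommRing R] [IsDomain R] [Algebra ℚ R] [AddCommGroup M] [Module R M]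
  [Module ℚ M] [IsScalarTower ℚ R M] {d : ℕ}

/-- Multiplication by a ring element as a rational linear map. -/
def ranka_mul (M : Type) [AddCommGroup M] [Module R M] [Module ℚ M] [IsScalarTower ℚ R M]
    (c : R) : M →ₗ[ℚ] M where
  toFun u := c • u
  map_add' := smul_add c
  map_smul' q u := smul_comm c q u

/-- The action of a matrix as a rational linear map. -/
def ranka_act (M : Type) [AddCommGroup M] [Module R M] [Module ℚ M] [IsScalarTower ℚ R M]
    (P : Matrix (Fin d) (Fin d) R) : (Fin d → M) →ₗ[ℚ] (Fin d → M) where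
  toFun u i := ∑ k, P i k • u k
  map_add' u v := by
    funext i
    simp only [Pi.add_apply, smul_add, Finset.sum_add_distrib]
  map_smul' q u := by
    funext i
    simp only [Pi.smul_apply, RingHom.id_apply, Finset.smul_sum]
    exact Finset.sum_congr rfl fun k _ => smul_comm (P i k) q (u k)

omit [IsDomain R] in
theorem ranka_tors (c : R) : tors M c = LinearMap.ker (ranka_mul M c) := rfl

omit [IsDomain R] in
theorem ranka_ker (P : Matrix (Fin d) (Fin d) R) :
    kerM M P = LinearMap.ker (ranka_act M P) := by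
  ext u
  exact funext_iff.symm

omit [IsDomain R] in
theorem ranka_act_mul (P Q : Matrix (Fin d) (Fin d) R) :
    ranka_act M (P * Q) = ranka_act M P ∘ₗ ranka_act M Q := by
  apply LinearMap.ext
  intro u
  funext i
  change ∑ k, (P * Q) i k • u k = ∑ j, P i j • ∑ k, Q j k • u k
  simp only [Matrix.mul_apply, Finset.sum_smul, Finset.smul_sum, mul_smul]
  exact Finset.sum_comm

omit [IsDomain R] in
theorem ranka_act_diag (c : Fin d → R) (u : Fin d → M) (i : Fin d) :
    ranka_act M (Matrix.diagonal c) u i = c i • u i := by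
  change ∑ k, Matrix.diagonal c i k • u k = _
  rw [Finset.sum_eq_single i]
  · simp
  · intro k _ hk
    rw [Matrix.diagonal_apply_ne _ hk.symm, zero_smul]
  · simp

theorem finrank_tors_mul (hsurj : ∀ c : R, c ≠ 0 → Function.Surjective fun u : M => c • u)
    (hfin : ∀ c : R, c ≠ 0 → FiniteDimensional ℚ (tors M c)) {a b : R} (ha : a ≠ 0) (hb : b ≠ 0) :
    Module.finrank ℚ (tors M (a * b)) =
      Module.finrank ℚ (tors M a) + Module.finrank ℚ (tors M b) := by
  have h : ranka_mul M (a * b) = ranka_mul M a ∘ₗ ranka_mul M b :=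
    LinearMap.ext fun u => mul_smul a b u
  have := hfin _ (mul_ne_zero ha hb)
  rw [ranka_tors, h] at this
  rw [ranka_tors, ranka_tors, ranka_tors, h]
  exact ranka_add _ _ (hsurj b hb)

/-- The kernel of a diagonal matrix is a product. -/
def ranka_diagEquiv (M : Type) [AddCommGroup M] [Module R M] [Module ℚ M] [IsScalarTower ℚ R M]
    (c : Fin d → R) : kerM M (Matrix.diagonal c) ≃ₗ[ℚ] ∀ i, tors M (c i) where
  toFun u i := ⟨u.1 i, (ranka_act_diag c u.1 i).symm.trans (u.2 i)⟩
  invFun v := ⟨fun i => (v i).1, fun i => (ranka_act_diag c _ i).trans (v i).2⟩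
  map_add' _ _ := rfl
  map_smul' _ _ := rfl
  left_inv _ := rfl
  right_inv _ := rfl

theorem finite_kerM (hfin : ∀ c : R, c ≠ 0 → FiniteDimensional ℚ (tors M c))
    (P : Matrix (Fin d) (Fin d) R) (hP : P.det ≠ 0) : FiniteDimensional ℚ (kerM M P) := by
  have := hfin _ hP
  have h1 : FiniteDimensional ℚ (kerM M (Matrix.diagonal fun _ : Fin d => P.det)) :=
    (ranka_diagEquiv M fun _ : Fin d => P.det).symm.finiteDimensional
  have h2 : kerM M P ≤ kerM M (Matrix.diagonal fun _ : Fin d => P.det) := by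
    rw [← Matrix.smul_one_eq_diagonal, ← Matrix.adjugate_mul, ranka_ker, ranka_ker, ranka_act_mul]
    exact LinearMap.ker_le_ker_comp _ _
  exact Submodule.finiteDimensional_of_le h2

omit [IsDomain R] in
theorem ranka_surj (hsurj : ∀ c : R, c ≠ 0 → Function.Surjective fun u : M => c • u)
    (P : Matrix (Fin d) (Fin d) R) (hP : P.det ≠ 0) : Function.Surjective (ranka_act M P) := by
  intro v
  choose w hw using fun i => hsurj _ hP (v i)
  refine ⟨ranka_act M P.adjugate w, ?_⟩
  rw [← LinearMap.comp_apply, ← ranka_act_mul, Matrix.mul_adjugate, Matrix.smul_one_eq_diagonal]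
  funext i
  rw [ranka_act_diag]
  exact hw i

theorem ranka_kadd (hsurj : ∀ c : R, c ≠ 0 → Function.Surjective fun u : M => c • u)
    (hfin : ∀ c : R, c ≠ 0 → FiniteDimensional ℚ (tors M c))
    {P Q : Matrix (Fin d) (Fin d) R} (hP : P.det ≠ 0) (hQ : Q.det ≠ 0) :
    Module.finrank ℚ (kerM M (P * Q)) =
      Module.finrank ℚ (kerM M P) + Module.finrank ℚ (kerM M Q) := by
  have := finite_kerM hfin (P * Q) (by rw [Matrix.det_mul]; exact mul_ne_zero hP hQ)
  rw [ranka_ker, ranka_act_mul] at this
  rw [ranka_ker, ranka_ker, ranka_ker, ranka_act_mul]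
  exact ranka_add _ _ (ranka_surj hsurj Q hQ)

/-- The statement for one matrix. -/
def ranka_Good (M : Type) [AddCommGroup M] [Module R M] [Module ℚ M] [IsScalarTower ℚ R M]
    (P : Matrix (Fin d) (Fin d) R) : Prop :=
  P.det ≠ 0 ∧ Module.finrank ℚ (kerM M P) = Module.finrank ℚ (tors M P.det)

section
variable (hsurj : ∀ c : R, c ≠ 0 → Function.Surjective fun u : M => c • u)
  (hfin : ∀ c : R, c ≠ 0 → FiniteDimensional ℚ (tors M c))
include hsurj hfin

theorem ranka_good_mul {P Q : Matrix (Fin d) (Fin d) R} (hP : ranka_Good M P)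
    (hQ : ranka_Good M Q) : ranka_Good M (P * Q) := by
  refine ⟨by rw [Matrix.det_mul]; exact mul_ne_zero hP.1 hQ.1, ?_⟩
  rw [ranka_kadd hsurj hfin hP.1 hQ.1, Matrix.det_mul, finrank_tors_mul hsurj hfin hP.1 hQ.1,
    hP.2, hQ.2]

theorem ranka_good_cancel {P Q : Matrix (Fin d) (Fin d) R} (hP : ranka_Good M P)
    (hPQ : ranka_Good M (P * Q)) : ranka_Good M Q := by
  have hQ : Q.det ≠ 0 := fun h => hPQ.1 (by rw [Matrix.det_mul, h, mul_zero])
  refine ⟨hQ, ?_⟩
  have := hPQ.2
  rw [ranka_kadd hsurj hfin hP.1 hQ, Matrix.det_mul, finrank_tors_mul hsurj hfin hP.1 hQ,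
    hP.2] at this
  omega

theorem ranka_one : Module.finrank ℚ (tors M (1 : R)) = 0 := by
  have := finrank_tors_mul hsurj hfin (one_ne_zero (α := R)) one_ne_zero
  rw [mul_one] at this
  omega

theorem ranka_prod (c : Fin d → R) (hc : ∀ i, c i ≠ 0) (s : Finset (Fin d)) :
    Module.finrank ℚ (tors M (∏ i ∈ s, c i)) = ∑ i ∈ s, Module.finrank ℚ (tors M (c i)) := by
  induction s using Finset.induction_on with
  | empty => rw [Finset.prod_empty, Finset.sum_empty]; exact ranka_one hsurj hfin
  | insert i s hi ih =>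
    rw [Finset.prod_insert hi, Finset.sum_insert hi, finrank_tors_mul hsurj hfin (hc i)
      (Finset.prod_ne_zero_iff.2 fun j _ => hc j), ih]

theorem ranka_good_diag (c : Fin d → R) (hc : ∀ i, c i ≠ 0) :
    ranka_Good M (Matrix.diagonal c) := by
  refine ⟨by rw [Matrix.det_diagonal]; exact Finset.prod_ne_zero_iff.2 fun j _ => hc j, ?_⟩
  have := fun i => hfin _ (hc i)
  rw [(ranka_diagEquiv M c).finrank_eq, Module.finrank_pi_fintype, Matrix.det_diagonal,
    ranka_prod hsurj hfin c hc]

theorem ranka_good_one {P : Matrix (Fin d) (Fin d) R} (hP : P.det = 1) : ranka_Good M P := by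
  have h0 : P.det ≠ 0 := by rw [hP]; exact one_ne_zero
  refine ⟨h0, ?_⟩
  have h1 : P.adjugate.det ≠ 0 := by
    intro h
    have := congrArg Matrix.det (Matrix.mul_adjugate P)
    rw [Matrix.det_mul, h, mul_zero, hP, one_smul, Matrix.det_one] at this
    exact zero_ne_one this
  have h2 := ranka_kadd hsurj hfin h0 h1
  have h3 := (ranka_good_diag hsurj hfin (fun _ : Fin d => (1 : R)) fun _ => one_ne_zero).2
  rw [Matrix.diagonal_one, Matrix.det_one, ranka_one hsurj hfin] at h3
  rw [Matrix.mul_adjugate, hP, one_smul, h3] at h2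
  rw [hP, ranka_one hsurj hfin]
  omega

theorem ranka_good_trans {i j : Fin d} (hij : i ≠ j) {c : R} (hc : c ≠ 0) (a : R) :
    ranka_Good M (c • (1 : Matrix (Fin d) (Fin d) R) + Matrix.single i j a) := by
  have hD := ranka_good_diag hsurj hfin (fun k : Fin d => if k = i then c else 1)
    (fun k => by split_ifs; exacts [hc, one_ne_zero])
  have hC := ranka_good_diag hsurj hfin (fun _ : Fin d => c) fun _ => hc
  have hT := ranka_good_one hsurj hfin (Matrix.det_transvection_of_ne i j hij a)
  apply ranka_good_cancel hsurj hfin hD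
  convert ranka_good_mul hsurj hfin (ranka_good_mul hsurj hfin hT hD) hC using 1
  ext k l
  simp only [Matrix.diagonal_mul, Matrix.mul_diagonal, Matrix.transvection, Matrix.add_apply,
    Matrix.smul_apply, Matrix.one_apply, Matrix.single_apply, smul_eq_mul]
  by_cases h1 : k = l
  · subst h1
    have : ¬(i = k ∧ j = k) := fun h => hij (h.1.trans h.2.symm)
    simp [this]
  · by_cases h2 : i = k ∧ j = l
    · obtain ⟨rfl, rfl⟩ := h2
      simp [hij, hij.symm, mul_comm]
    · simp [h1, h2]

end

/-- RANKA. The kernel of a matrix has the dimension of the kernel of its determinant. -/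
theorem finrank_kerM (hsurj : ∀ c : R, c ≠ 0 → Function.Surjective fun u : M => c • u)
    (hfin : ∀ c : R, c ≠ 0 → FiniteDimensional ℚ (tors M c))
    (P : Matrix (Fin d) (Fin d) R) (hP : P.det ≠ 0) :
    Module.finrank ℚ (kerM M P) = Module.finrank ℚ (tors M P.det) := by
  let φ := algebraMap R (FractionRing R)
  have hφ : Function.Injective φ := IsFractionRing.injective R _
  have key : ∀ A : Matrix (Fin d) (Fin d) (FractionRing R), A.det ≠ 0 →
      ∃ c : R, c ≠ 0 ∧ ∃ Q : Matrix (Fin d) (Fin d) R, Q.map φ = φ c • A ∧ ranka_Good M Q := by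
    intro A hA
    refine Matrix.diagonal_transvection_induction_of_det_ne_zero (fun A =>
      ∃ c : R, c ≠ 0 ∧ ∃ Q : Matrix (Fin d) (Fin d) R, Q.map φ = φ c • A ∧ ranka_Good M Q)
      A hA ?_ ?_ ?_
    · intro D hD
      rw [Matrix.det_diagonal, Finset.prod_ne_zero_iff] at hD
      obtain ⟨c, hc⟩ := IsLocalization.exist_integer_multiples_of_finite (nonZeroDivisors R) D
      choose e he using hc
      have hc0 : (c : R) ≠ 0 := nonZeroDivisors.ne_zero c.2
      have he' : ∀ i, φ (e i) = φ c * D i := fun i => (he i).trans (Algebra.smul_def _ _)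
      refine ⟨c, hc0, Matrix.diagonal e, ?_, ranka_good_diag hsurj hfin e fun i h => ?_⟩
      · rw [Matrix.diagonal_map (map_zero φ), ← Matrix.diagonal_smul]
        congr 1
        funext i
        exact he' i
      · have := he' i
        rw [h, map_zero] at this
        exact mul_ne_zero ((map_ne_zero_iff φ hφ).2 hc0) (hD i (Finset.mem_univ i)) this.symm
    · rintro ⟨i, j, hij, e⟩
      obtain ⟨c, a, ha⟩ := IsLocalization.exists_integer_multiple (nonZeroDivisors R) e
      have hc0 : (c : R) ≠ 0 := nonZeroDivisors.ne_zero c.2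
      have ha' : φ a = φ c * e := ha.trans (Algebra.smul_def _ _)
      refine ⟨c, hc0, _, ?_, ranka_good_trans hsurj hfin hij hc0 a⟩
      ext k l
      simp only [Matrix.TransvectionStruct.toMatrix_mk, Matrix.transvection, Matrix.map_apply,
        Matrix.add_apply, Matrix.smul_apply, Matrix.one_apply, Matrix.single_apply, smul_eq_mul]
      split_ifs <;> simp [ha', mul_add]
    · rintro A B - - ⟨c, hc, Q, hQ, gQ⟩ ⟨c', hc', Q', hQ', gQ'⟩
      refine ⟨c * c', mul_ne_zero hc hc', Q * Q', ?_, ranka_good_mul hsurj hfin gQ gQ'⟩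
      rw [Matrix.map_mul, hQ, hQ', map_mul, Matrix.smul_mul, Matrix.mul_smul, smul_smul]
  obtain ⟨c, hc, Q, hQ, gQ⟩ := key (P.map φ) (by
    rw [← RingHom.mapMatrix_apply, ← RingHom.map_det]
    exact (map_ne_zero_iff φ hφ).2 hP)
  have hQ' : Q = Matrix.diagonal (fun _ : Fin d => c) * P := by
    ext k l
    apply hφ
    have := congrFun (congrFun hQ k) l
    simpa [Matrix.diagonal_mul] using this
  rw [hQ'] at gQ
  exact (ranka_good_cancel hsurj hfin (ranka_good_diag hsurj hfin _ fun _ => hc) gQ).2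

end Pool.Agent.Lib.MP_14f458_gt
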