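import Pool.Agent.Lib.MP_14f458_gt.Base

/-! Small lemmas: word lengths, mapping tori, signs of quadratic numbers, crossed homomorphisms. -/

namespace Pool.Agent.Lib.MP_14f458_gt

/-! ### Word lengths -/

section len
variable {G : Type} [Group G] {S : Set G}

theorem Len.mono {g : G} {r r' : ℝ} (h : Len S g r) (hr : r ≤ r') : Len S g r' := by
  obtain ⟨l, h1, h2, h3⟩ := h
  exact ⟨l, h1, h2, h3.trans hr⟩

theorem Len.mono_set {S' : Set G} {g : G} {r : ℝ} (h : Len S g r) (hS : S ⊆ S') : Len S' g r := by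
  obtain ⟨l, h1, h2, h3⟩ := h
  exact ⟨l, fun s hs => (h1 s hs).imp (fun h => hS h) fun h => hS h, h2, h3⟩

theorem Len.nonneg {g : G} {r : ℝ} (h : Len S g r) : 0 ≤ r := by
  obtain ⟨l, -, -, h3⟩ := h
  exact (Nat.cast_nonneg _).trans h3

theorem Len.one {r : ℝ} (hr : 0 ≤ r) : Len S 1 r := ⟨[], by simp, rfl, by simpa using hr⟩

theorem Len.of_mem {g : G} (hg : g ∈ S) : Len S g 1 := ⟨[g], by simp [hg], by simp, by simp⟩

theorem Len.mul {g h : G} {r r' : ℝ} (hg : Len S g r) (hh : Len S h r') :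
    Len S (g * h) (r + r') := by
  obtain ⟨l, h1, h2, h3⟩ := hg
  obtain ⟨l', h1', h2', h3'⟩ := hh
  refine ⟨l ++ l', fun s hs => ?_, by simp [h2, h2'], by simp; linarith⟩
  rcases List.mem_append.1 hs with h | h
  exacts [h1 s h, h1' s h]

theorem Len.inv {g : G} {r : ℝ} (hg : Len S g r) : Len S g⁻¹ r := by
  obtain ⟨l, h1, h2, h3⟩ := hg
  refine ⟨(l.map fun s => s⁻¹).reverse, fun s hs => ?_, by rw [← h2, List.prod_inv_reverse],
    by simpa using h3⟩
  simp only [List.mem_reverse, List.mem_map] at hs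
  obtain ⟨s', hs', rfl⟩ := hs
  simpa [or_comm] using h1 s' hs'

theorem Len.mem_closure {g : G} {r : ℝ} (hg : Len S g r) : g ∈ Subgroup.closure S := by
  obtain ⟨l, h1, rfl, -⟩ := hg
  refine Subgroup.list_prod_mem _ fun s hs => ?_
  rcases h1 s hs with h | h
  · exact Subgroup.subset_closure h
  · simpa using (Subgroup.closure S).inv_mem (Subgroup.subset_closure h)

theorem exists_len {g : G} (hg : g ∈ Subgroup.closure S) : ∃ r, Len S g r := by
  induction hg using Subgroup.closure_induction with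
  | mem x hx => exact ⟨1, Len.of_mem hx⟩
  | one => exact ⟨0, Len.one le_rfl⟩
  | mul x y _ _ hx hy =>
    obtain ⟨r, hr⟩ := hx
    obtain ⟨r', hr'⟩ := hy
    exact ⟨_, hr.mul hr'⟩
  | inv x _ hx =>
    obtain ⟨r, hr⟩ := hx
    exact ⟨_, hr.inv⟩

end len

/-! ### Mapping tori -/

section torus
variable {K : Type} [Group K] (ψ : MulAut K)

theorem tt_zpow (n : ℤ) : tt ψ ^ n = SemidirectProduct.inr (Multiplicative.ofAdd n) := by
  rw [tt, ← map_zpow]; congr 1
  apply Multiplicative.toAdd.injective; simp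

theorem tt_zpow_conj (n : ℤ) (k : K) : tt ψ ^ n * il ψ k * (tt ψ ^ n)⁻¹ = il ψ ((ψ ^ n) k) := by
  rw [tt_zpow, ← map_inv, ← SemidirectProduct.inl_aut]; simp

theorem tt_conj (k : K) : tt ψ * il ψ k * (tt ψ)⁻¹ = il ψ (ψ k) := by
  simpa using tt_zpow_conj ψ 1 k

theorem tt_pow_conj (n : ℕ) (k : K) : tt ψ ^ n * il ψ k * (tt ψ ^ n)⁻¹ = il ψ ((ψ ^ n) k) := by
  simpa using tt_zpow_conj ψ n k

@[simp] theorem cv_rh_il (k : K) : cv (rh ψ) (il ψ k) = 0 := by simp [cv]

@[simp] theorem cv_rh_tt : cv (rh ψ) (tt ψ) = 1 := by simp [cv, tt]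

theorem il_injective : Function.Injective (il ψ) := SemidirectProduct.inl_injective

theorem torus_decomp (g : Torus ψ) : g = il ψ g.left * tt ψ ^ cv (rh ψ) g := by
  rw [tt_zpow]; exact (SemidirectProduct.inl_left_mul_inr_right g).symm

theorem exists_il_of_rh {g : Torus ψ} (hg : rh ψ g = 1) : ∃ k, g = il ψ k := by
  refine ⟨g.left, ?_⟩
  conv_lhs => rw [torus_decomp ψ g, cv_eq_zero.2 hg]
  simp

theorem torus_gen (S : Subgroup (Torus ψ)) (h : ∀ k, il ψ k ∈ S) (ht : tt ψ ∈ S) : S = ⊤ := by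
  rw [eq_top_iff]; intro g _
  rw [torus_decomp ψ g]; exact S.mul_mem (h _) (S.zpow_mem ht _)

theorem torus_lift {H : Type} [Group H] (f : K →* H) (s : H)
    (h : ∀ k, f (ψ k) = s * f k * s⁻¹) :
    ∃ F : Torus ψ →* H, (∀ k, F (il ψ k) = f k) ∧ F (tt ψ) = s := by
  have key : ∀ (n : ℤ) (k : K), f ((ψ ^ n) k) = s ^ n * f k * (s ^ n)⁻¹ := by
    intro n
    induction n using Int.induction_on with
    | zero => simp
    | succ n ih =>
      intro k
      rw [add_comm, zpow_add, zpow_one, MulAut.mul_apply, h, ih]; group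
    | pred n ih =>
      intro k
      have h1 : (ψ ^ (-(n : ℤ))) k = ψ ((ψ ^ (-(n : ℤ) - 1)) k) := by
        rw [← MulAut.mul_apply]; congr 1; group
      have h2 := ih k
      rw [h1, h] at h2
      have : f ((ψ ^ (-(n : ℤ) - 1)) k) = s⁻¹ * (s * f ((ψ ^ (-(n : ℤ) - 1)) k) * s⁻¹) * s := by
        group
      rw [this, h2]; group
  refine ⟨SemidirectProduct.lift f (zpowersHom H s) fun n => ?_, fun k => by simp, by simp [tt]⟩
  ext k
  simpa [← map_zpow] using key (Multiplicative.toAdd n) k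

end torus

/-! ### Quadratic numbers -/

variable {d nb : ℕ}

@[simp] theorem val_add (μ : ℝ) (z w : P2) : val μ (z + w) = val μ z + val μ w := by
  simp [val]; ring
@[simp] theorem val_sub (μ : ℝ) (z w : P2) : val μ (z - w) = val μ z - val μ w := by
  simp [val]; ring
@[simp] theorem val_zsmul (μ : ℝ) (k : ℤ) (z : P2) : val μ (k • z) = k * val μ z := by
  simp [val]; ring
@[simp] theorem val_zero (μ : ℝ) : val μ 0 = 0 := by simp [val]
@[simp] theorem val_int (μ : ℝ) (k : ℤ) : val μ (k, 0) = k := by simp [val]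

namespace LI
variable {L : LI d nb} {μ : ℝ}

theorem val_T (l : Lt d) (z : P2) : val μ (L.T l z) = L.eps l * val μ z + val μ (L.c l) := by
  simp [val, T]; ring

theorem T_eq (l : Lt d) (z : P2) : L.T l z = L.eps l • z + L.c l := by
  ext <;> simp [T]

theorem cj_add (z w : P2) : L.cj (z + w) = L.cj z + L.cj w := by
  ext <;> simp [cj] <;> ring

theorem cj_zsmul (k : ℤ) (z : P2) : L.cj (k • z) = k • L.cj z := by
  ext <;> simp [cj]; ring

theorem cj_zero : L.cj 0 = 0 := by ext <;> simp [cj]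

theorem Mu.val_mul (h : L.Mu μ) (z : P2) : val μ (L.mul z) = μ * val μ z := by
  simp only [val, mul]; push_cast; linear_combination (-(z.2 : ℝ)) * h.sq

theorem Mu.nn (h : L.Mu μ) (hN : 0 < L.N) {z : P2} (hz : L.nn z = true) : 0 ≤ val μ z := by
  simp only [LI.nn, Bool.and_eq_true, decide_eq_true_eq] at hz
  have h1 : (0 : ℝ) ≤ z.1 * L.N + z.2 * L.m := by exact_mod_cast hz.1
  have h2 : (0 : ℝ) ≤ z.1 * L.N + z.2 * (L.m + 1) := by exact_mod_cast hz.2
  have hN' : (0 : ℝ) < L.N := by exact_mod_cast hN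
  have : 0 ≤ val μ z * L.N := by
    simp only [val]
    rcases le_total 0 (z.2 : ℝ) with h3 | h3
    · nlinarith [h.lb]
    · nlinarith [h.ub]
  exact nonneg_of_mul_nonneg_left this hN'

theorem Mu.pos' (h : L.Mu μ) (hN : 0 < L.N) {z : P2} (hz : L.pos z = true) : 0 < val μ z := by
  simp only [LI.pos, Bool.and_eq_true, decide_eq_true_eq] at hz
  have h1 : (0 : ℝ) < z.1 * L.N + z.2 * L.m := by exact_mod_cast hz.1
  have h2 : (0 : ℝ) < z.1 * L.N + z.2 * (L.m + 1) := by exact_mod_cast hz.2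
  have hN' : (0 : ℝ) < L.N := by exact_mod_cast hN
  have : 0 < val μ z * L.N := by
    simp only [val]
    rcases le_total 0 (z.2 : ℝ) with h3 | h3
    · nlinarith [h.lb]
    · nlinarith [h.ub]
  exact (pos_iff_pos_of_mul_pos this).2 hN'

theorem Mu.val_eq_zero (h : L.Mu μ) {z : P2} (hz : val μ z = 0) : z = 0 := by
  have hint : IsIntegral ℤ μ := by
    refine ⟨Polynomial.X ^ 2 - Polynomial.C L.tr * Polynomial.X + 1, by monicity!, ?_⟩
    rw [Polynomial.eval₂_add, Polynomial.eval₂_sub, Polynomial.eval₂_mul, Polynomial.eval₂_C,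
      Polynomial.eval₂_pow, Polynomial.eval₂_X, Polynomial.eval₂_one]
    simp only [algebraMap_int_eq, eq_intCast]
    linarith [h.sq]
  have h2 : z.2 = 0 := by
    by_contra h2
    have h2' : (z.2 : ℝ) ≠ 0 := by exact_mod_cast h2
    have hμ : μ = ((-z.1 / z.2 : ℚ) : ℝ) := by
      simp only [val] at hz
      push_cast; field_simp; linarith
    have : IsIntegral ℤ (-z.1 / z.2 : ℚ) := by
      rw [hμ] at hint
      exact (isIntegral_algebraMap_iff (algebraMap ℚ ℝ).injective).1 hint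
    obtain ⟨k, hk⟩ := IsIntegrallyClosed.algebraMap_eq_of_integral this
    rw [← hk] at hμ
    have e : μ = k := by simpa using hμ
    have h0 := h.pos
    have h1 := h.lt
    rw [e] at h0 h1
    have h0' : 0 < k := by exact_mod_cast h0
    have h1' : k < 1 := by exact_mod_cast h1
    omega
  have h1 : z.1 = 0 := by simpa [val, h2] using hz
  exact Prod.ext h1 h2

theorem Mu.val_inj (h : L.Mu μ) {z w : P2} (hz : val μ z = val μ w) : z = w :=
  sub_eq_zero.1 (h.val_eq_zero (by rw [val_sub, hz, sub_self]))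

end LI

/-! ### Crossed homomorphisms -/

/-- `D` is a crossed homomorphism for the character `χ`. -/
def IsCross {G R M : Type} [Group G] [CommRing R] [AddCommGroup M] [Module R M] (χ : G →* Rˣ)
    (D : G → M) : Prop :=
  ∀ g h, D (g * h) = D g + (χ g : R) • D h

end Pool.Agent.Lib.MP_14f458_gt
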