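import Pool.Agent.Lib.MP_14f458_gt.Win

namespace Pool.Agent.Lib.MP_14f458_gt

variable {G : Type} [Group G] {d : ℕ}

/-- UP. A transversal adapted to `t`. -/
theorem exists_T (β : Cl G) (hβ : Function.Surjective β) (t : G) (ht : 0 < cv β t) :
    ∃ T : ℤ → G, T 0 = 1 ∧ (∀ j, cv β (T j) = j) ∧ ∀ j, T (j + cv β t) = T j * t := by
  obtain ⟨τ, hτ⟩ := hβ (Multiplicative.ofAdd 1)
  have hτ' : cv β τ = 1 := cv_eq_iff.2 hτ
  refine ⟨fun j => τ ^ (j % cv β t) * t ^ (j / cv β t), by simp, fun j => ?_, fun j => ?_⟩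
  · simp only [cv_mul, cv_zpow, hτ', mul_one]
    rw [mul_comm]; exact Int.emod_add_mul_ediv j (cv β t)
  · have h1 : (j + cv β t) % cv β t = j % cv β t := by simp
    have h2 : (j + cv β t) / cv β t = j / cv β t + 1 := by
      have := Int.add_mul_ediv_right j 1 ht.ne'
      simpa using this
    simp only [h1, h2, zpow_add, zpow_one, mul_assoc]

/-- The Schreier generator. -/
def up_phi (β : Cl G) (T : ℤ → G) (j : ℤ) (g : G) : G := T j * g * (T (j + cv β g))⁻¹

theorem up_phi_mul (β : Cl G) (T : ℤ → G) (j : ℤ) (g h : G) :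
    up_phi β T j (g * h) = up_phi β T j g * up_phi β T (j + cv β g) h := by
  simp only [up_phi, cv_mul, add_assoc]; group

theorem up_phi_inv (β : Cl G) (T : ℤ → G) (j : ℤ) (g : G) :
    up_phi β T j g⁻¹ = (up_phi β T (j - cv β g) g)⁻¹ := by
  simp only [up_phi, cv_inv, sub_add_cancel, ← sub_eq_add_neg]; group

theorem up_phi_one (β : Cl G) (T : ℤ → G) (j : ℤ) : up_phi β T j 1 = 1 := by
  simp [up_phi]

theorem up_phi_ker (β : Cl G) {T : ℤ → G} (hT : ∀ j, cv β (T j) = j) (j : ℤ) (g : G) :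
    up_phi β T j g ∈ β.ker := by
  rw [mem_ker_iff_cv]; simp [up_phi, hT]

theorem up_phi_zero (β : Cl G) {T : ℤ → G} (h0 : T 0 = 1) {g : G} (hg : g ∈ β.ker) :
    up_phi β T 0 g = g := by
  simp [up_phi, mem_ker_iff_cv.1 hg, h0]

/-- UP. Finite generation of the kernel from the forward and the backward model. -/
theorem fg_of_sup {σ : Fin d → Wd d} {x x' : Fin d → G} {t : G}
    (rel : ∀ i, t * x i * t⁻¹ = ev x (σ i)) (gen : Subgroup.closure (Set.range x ∪ {t}) = ⊤)
    (rel' : ∀ i, t⁻¹ * x' i * t⁻¹⁻¹ = ev x' (σ i))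
    (gen' : Subgroup.closure (Set.range x' ∪ {t⁻¹}) = ⊤) (β : Cl G)
    (hβ : Function.Surjective β) (hb : 0 < cv β t) (hx' : ∀ i, cv β (x' i) = -cv β (x i))
    {s : ℝ} (hs : 0 < s) (hsup : Sup σ (fun i => s * cv β (x i)) (s * cv β t)) : β.ker.FG := by
  classical
  obtain ⟨T, h0, hT, hTt⟩ := exists_T β hβ t hb
  obtain ⟨W1, hW1, H1⟩ := win rel gen β T hT hTt hs hsup
  have hT' : ∀ j, cv β⁻¹ (T (-j)) = j := fun j => by simp [hT]
  have hTt' : ∀ j, T (-(j + cv β⁻¹ t⁻¹)) = T (-j) * t⁻¹ := fun j => by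
    have h := hTt (-(j + cv β t))
    have e : -(j + cv β t) + cv β t = -j := by ring
    rw [e] at h
    rw [h]; simp
  have hsup' : Sup σ (fun i => s * cv β⁻¹ (x' i)) (s * cv β⁻¹ t⁻¹) := by
    simpa [hx'] using hsup
  obtain ⟨W2, hW2, H2⟩ := win rel' gen' β⁻¹ (fun j => T (-j)) hT' hTt' hs hsup'
  have hW2' : ∀ w ∈ W2, w ∈ β.ker := fun w hw => by
    have := mem_ker_iff_cv.1 (hW2 w hw)
    rw [mem_ker_iff_cv]; simpa using this
  have key : ∀ g : G, ∃ S : Finset G, (∀ w ∈ S, w ∈ β.ker) ∧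
      ∀ j, up_phi β T j g ∈ Subgroup.closure (S : Set G) := by
    intro g
    obtain ⟨C1, K1, h1⟩ := H1 g
    obtain ⟨C2, K2, h2⟩ := H2 g
    refine ⟨W1 ∪ W2 ∪ (Finset.Icc (-K2) K1).image fun j => up_phi β T j g, ?_, fun j => ?_⟩
    · intro w hw
      simp only [Finset.mem_union, Finset.mem_image] at hw
      rcases hw with (hw | hw) | ⟨j, -, rfl⟩
      exacts [hW1 w hw, hW2' w hw, up_phi_ker β hT j g]
    · by_cases hj1 : K1 ≤ j
      · refine Subgroup.closure_mono ?_ (h1 j hj1).mem_closure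
        intro w hw; simp [Finset.mem_coe.1 hw]
      by_cases hj2 : K2 ≤ -j
      · have h3 := (h2 (-j) hj2).mem_closure
        have e : -(-j + cv β⁻¹ g) = j + cv β g := by simp; ring
        simp only [neg_neg, e] at h3
        refine Subgroup.closure_mono ?_ h3
        intro w hw; simp [Finset.mem_coe.1 hw]
      · apply Subgroup.subset_closure
        simp only [Finset.coe_union, Finset.coe_image, Set.mem_union, Set.mem_image,
          Finset.mem_coe, Finset.mem_Icc]
        exact Or.inr ⟨j, ⟨by omega, by omega⟩, rfl⟩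
  choose S hS hSj using key
  let S0 : Finset G := S t ∪ Finset.univ.biUnion fun i => S (x i)
  have hS0 : Subgroup.closure (S0 : Set G) ≤ β.ker := by
    rw [Subgroup.closure_le]
    intro w hw
    simp only [S0, Finset.coe_union, Finset.coe_biUnion, Set.mem_union, Finset.mem_coe,
      Set.mem_iUnion] at hw
    rcases hw with hw | ⟨i, -, hw⟩
    exacts [hS t w hw, hS _ w hw]
  have all : ∀ g : G, ∀ j, up_phi β T j g ∈ Subgroup.closure (S0 : Set G) := by
    intro g
    have hg : g ∈ Subgroup.closure (Set.range x ∪ {t}) := gen ▸ Subgroup.mem_top g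
    induction hg using Subgroup.closure_induction with
    | mem y hy =>
      intro j
      refine Subgroup.closure_mono ?_ (hSj y j)
      intro w hw
      simp only [S0, Finset.coe_union, Finset.coe_biUnion, Set.mem_union, Finset.mem_coe,
        Set.mem_iUnion]
      rcases hy with ⟨i, rfl⟩ | rfl
      · exact Or.inr ⟨i, by simp, hw⟩
      · exact Or.inl hw
    | one => intro j; rw [up_phi_one]; exact Subgroup.one_mem _
    | mul y z _ _ hy hz => intro j; rw [up_phi_mul]; exact Subgroup.mul_mem _ (hy _) (hz _)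
    | inv y _ hy => intro j; rw [up_phi_inv]; exact Subgroup.inv_mem _ (hy _)
  refine ⟨S0, le_antisymm hS0 fun g hg => ?_⟩
  have := all g 0
  rwa [up_phi_zero β h0 hg] at this

theorem up_all {S : Set G} {f : ℕ → G} (hf : ∀ k, f k ∈ Subgroup.closure S) {s : ℝ} (hs : 0 < s)
    {C : ℝ} {K : ℕ} (h : ∀ k, K ≤ k → Len S (f k) (C * Real.exp (s * k))) :
    ∃ C' : ℝ, 0 ≤ C' ∧ ∀ k : ℕ, Len S (f k) (C' * Real.exp (s * k)) := by
  induction K generalizing C with
  | zero =>
    refine ⟨max C 0, le_max_right _ _, fun k => (h k k.zero_le).mono ?_⟩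
    exact mul_le_mul_of_nonneg_right (le_max_left _ _) (Real.exp_pos _).le
  | succ K ih =>
    obtain ⟨r, hr⟩ := exists_len (hf K)
    refine ih (C := max C r) fun k hk => ?_
    rcases hk.eq_or_lt with rfl | hk
    · refine hr.mono ?_
      have h1 : 1 ≤ Real.exp (s * K) := Real.one_le_exp (by positivity)
      have h2 : 0 ≤ max C r := hr.nonneg.trans (le_max_right _ _)
      calc r ≤ max C r := le_max_right _ _
        _ = max C r * 1 := (mul_one _).symm
        _ ≤ _ := mul_le_mul_of_nonneg_left h1 h2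
    · refine (h k hk).mono ?_
      exact mul_le_mul_of_nonneg_right (le_max_left _ _) (Real.exp_pos _).le

/-- UP. The upper bound for the growth rate. -/
theorem mem_entSet {σ : Fin d → Wd d} {x : Fin d → G} {t : G}
    (rel : ∀ i, t * x i * t⁻¹ = ev x (σ i)) (gen : Subgroup.closure (Set.range x ∪ {t}) = ⊤)
    (β : Cl G) (hβ : Function.Surjective β) (hb : 0 < cv β t) (hfg : β.ker.FG)
    {s : ℝ} (hs : 0 < s) (hsup : Sup σ (fun i => s * cv β (x i)) (s * cv β t)) :
    s ∈ EntSet β := by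
  classical
  obtain ⟨T, h0, hT, hTt⟩ := exists_T β hβ t hb
  obtain ⟨W, hW, H⟩ := win rel gen β T hT hTt hs hsup
  obtain ⟨S0, hS0⟩ := hfg
  obtain ⟨τ, hτ⟩ := hβ (Multiplicative.ofAdd 1)
  have hτ' : cv β τ = 1 := cv_eq_iff.2 hτ
  have hS : Subgroup.closure ((S0 ∪ W : Finset G) : Set G) = β.ker := by
    apply le_antisymm
    · rw [Subgroup.closure_le]
      intro w hw
      rcases Finset.mem_union.1 (Finset.mem_coe.1 hw) with hw | hw
      · rw [← hS0]; exact Subgroup.subset_closure hw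
      · exact hW w hw
    · rw [← hS0]; exact Subgroup.closure_mono (by simp)
  have key : ∀ g : G, ∃ C : ℝ, 0 ≤ C ∧ ∀ k : ℕ,
      Len ((S0 ∪ W : Finset G) : Set G) (up_phi β T k g) (C * Real.exp (s * k)) := by
    intro g
    obtain ⟨C, K, h⟩ := H g
    refine up_all (f := fun k : ℕ => up_phi β T k g) (fun k => hS ▸ up_phi_ker β hT k g) hs
      (C := C) (K := K.toNat) fun k hk => ?_
    have := (h k (by omega)).mono_set (S' := ((S0 ∪ W : Finset G) : Set G)) (by simp)
    simpa [up_phi] using this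
  choose C hC0 hC using key
  have he : 0 < Real.exp s - 1 := by
    have := Real.add_one_lt_exp hs.ne'
    linarith
  have hpow : ∀ k : ℕ, Len ((S0 ∪ W : Finset G) : Set G) (up_phi β T 0 (τ ^ k))
      (C τ / (Real.exp s - 1) * Real.exp (s * k)) := by
    intro k
    induction k with
    | zero =>
      rw [pow_zero, up_phi_one]
      exact Len.one (mul_nonneg (div_nonneg (hC0 τ) he.le) (Real.exp_pos _).le)
    | succ k ih =>
      rw [pow_succ, up_phi_mul]
      have e : (0 : ℤ) + cv β (τ ^ k) = k := by simp [hτ']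
      rw [e]
      refine (ih.mul (hC τ k)).mono (le_of_eq ?_)
      have e2 : Real.exp (s * ((k + 1 : ℕ) : ℝ)) = Real.exp (s * k) * Real.exp s := by
        rw [← Real.exp_add]; congr 1; push_cast; ring
      rw [e2]; field_simp; ring
  refine ⟨τ, hτ, S0 ∪ W, hS,
    2 * (C τ / (Real.exp s - 1)) + ∑ g ∈ S0 ∪ W, C g, fun g hg k => ?_⟩
  have hgk : cv β g = 0 := mem_ker_iff_cv.1 (hS ▸ Subgroup.subset_closure hg)
  have e : τ ^ k * g * (τ ^ k)⁻¹ =
      up_phi β T 0 (τ ^ k) * up_phi β T k g * (up_phi β T 0 (τ ^ k))⁻¹ := by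
    simp only [up_phi, hgk, h0, cv_pow, hτ', mul_one, zero_add, add_zero]; group
  rw [e]
  refine (((hpow k).mul (hC g k)).mul (hpow k).inv).mono ?_
  have h1 : C g ≤ ∑ g ∈ S0 ∪ W, C g := Finset.single_le_sum (fun g _ => hC0 g) hg
  have h2 := Real.exp_pos (s * k)
  nlinarith

end Pool.Agent.Lib.MP_14f458_gt
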