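import Pool.Agent.Lib.MP_14f458_gt.Small

namespace Pool.Agent.Lib.MP_14f458_gt

variable {G : Type} [Group G] {d : ℕ}

/-- The Schreier element of `g` at level `j`. -/
def winPhi (β : Cl G) (T : ℤ → G) (j : ℤ) (g : G) : G := T j * g * (T (j + cv β g))⁻¹

theorem winPhi_mul (β : Cl G) (T : ℤ → G) (j : ℤ) (g h : G) :
    winPhi β T j (g * h) = winPhi β T j g * winPhi β T (j + cv β g) h := by
  simp only [winPhi, cv_mul, add_assoc]; group

theorem winPhi_inv (β : Cl G) (T : ℤ → G) (j : ℤ) (g : G) :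
    winPhi β T j g⁻¹ = (winPhi β T (j - cv β g) g)⁻¹ := by
  simp only [winPhi, cv_inv, sub_add_cancel, ← sub_eq_add_neg]; group

theorem winPhi_one (β : Cl G) (T : ℤ → G) (j : ℤ) : winPhi β T j 1 = 1 := by simp [winPhi]

theorem win_SS_add (a v : Fin d → ℝ) (u : Wd d) (h h' : ℝ) :
    SS a v u (h' + h) = Real.exp h' * SS a v u h := by
  induction u generalizing h with
  | nil => simp [SS]
  | cons l u ih =>
    rcases l with ⟨i, _ | _⟩
    · simp only [SS]
      rw [add_sub_assoc, ih, Real.exp_add]; ring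
    · simp only [SS]
      rw [add_assoc, ih, Real.exp_add]; ring

theorem win_word {x : Fin d → G} (β : Cl G) (T : ℤ → G) {S : Set G} {s c : ℝ} {v : Fin d → ℝ}
    (hv : ∀ i, 0 ≤ v i) {A : ℤ} (hA : ∀ k, |cv β (x k)| ≤ A) (u : Wd d) (j : ℤ)
    (h : ∀ (j' : ℤ) (k : Fin d), j - u.length * A ≤ j' →
      Real.exp (s * j') * v k ≤ SS (fun i => s * cv β (x i)) v u (s * j) →
      Len S (winPhi β T j' (x k)) (c * (Real.exp (s * j') * v k))) :
    Len S (winPhi β T j (ev x u)) (c * SS (fun i => s * cv β (x i)) v u (s * j)) := by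
  induction u generalizing j with
  | nil => simpa [SS, winPhi_one] using Len.one (S := S) le_rfl
  | cons l u ih =>
    obtain ⟨i, b⟩ := l
    have hA0 : 0 ≤ A := (abs_nonneg _).trans (hA i)
    have hAi := abs_le.1 (hA i)
    have hl : 0 ≤ (u.length : ℤ) * A := by positivity
    have hlen : (((((i, b) :: u : Wd d).length : ℕ) : ℤ)) * A = u.length * A + A := by
      simp only [List.length_cons]; push_cast; ring
    rw [hlen] at h
    cases b
    · have e : s * (j : ℝ) - s * cv β (x i) = s * ((j - cv β (x i) : ℤ) : ℝ) := by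
        push_cast; ring
      simp only [SS] at h ⊢
      rw [e] at h ⊢
      have h0 := SS_nonneg (fun i => s * cv β (x i)) hv u (s * ((j - cv β (x i) : ℤ) : ℝ))
      have h1 : 0 ≤ Real.exp (s * ((j - cv β (x i) : ℤ) : ℝ)) * v i :=
        mul_nonneg (Real.exp_pos _).le (hv i)
      rw [ev_false, winPhi_mul, winPhi_inv, cv_inv, ← sub_eq_add_neg, mul_add]
      refine (h _ i (by omega) (by linarith)).inv.mul (ih _ fun j' k h2 h3 => h j' k ?_ ?_)
      · omega
      · linarith
    · have e : s * (j : ℝ) + s * cv β (x i) = s * ((j + cv β (x i) : ℤ) : ℝ) := by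
        push_cast; ring
      simp only [SS] at h ⊢
      rw [e] at h ⊢
      have h0 := SS_nonneg (fun i => s * cv β (x i)) hv u (s * ((j + cv β (x i) : ℤ) : ℝ))
      have h1 : 0 ≤ Real.exp (s * (j : ℝ)) * v i := mul_nonneg (Real.exp_pos _).le (hv i)
      rw [ev_true, winPhi_mul, mul_add]
      refine (h _ i (by omega) (by linarith)).mul (ih _ fun j' k h2 h3 => h j' k ?_ ?_)
      · omega
      · linarith

theorem win_rel {σ : Fin d → Wd d} {x : Fin d → G} {t : G}
    (rel : ∀ i, t * x i * t⁻¹ = ev x (σ i)) (β : Cl G) (T : ℤ → G)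
    (hTt : ∀ j, T (j + cv β t) = T j * t) (j : ℤ) (i : Fin d) :
    winPhi β T j (x i) = winPhi β T (j - cv β t) (ev x (σ i)) := by
  have h1 : T j = T (j - cv β t) * t := by rw [← hTt, sub_add_cancel]
  have h2 : T (j + cv β (x i)) = T (j - cv β t + cv β (x i)) * t := by
    rw [← hTt]; congr 1; ring
  have h3 : cv β (t * x i * t⁻¹) = cv β (x i) := by simp
  rw [← rel, winPhi, winPhi, h3, h2]
  conv_lhs => rw [h1]
  group

theorem win_gen {σ : Fin d → Wd d} {x : Fin d → G} {t : G}
    (rel : ∀ i, t * x i * t⁻¹ = ev x (σ i)) (β : Cl G) (T : ℤ → G)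
    (hTt : ∀ j, T (j + cv β t) = T j * t) {s : ℝ} (hs : 0 < s)
    (hsup : Sup σ (fun i => s * cv β (x i)) (s * cv β t)) :
    ∃ L : ℤ, ∀ S : Set G, (∀ j i, 0 ≤ j → j ≤ L → winPhi β T j (x i) ∈ S) →
      ∀ i, ∃ C : ℝ, ∀ j : ℤ, 0 ≤ j → Len S (winPhi β T j (x i)) (C * Real.exp (s * j)) := by
  obtain ⟨v, hv, hS⟩ := hsup
  obtain ⟨ε, hε, hεv⟩ := Pi.exists_forall_pos_add_lt hS
  obtain ⟨A, hA⟩ := Finite.exists_le fun k => |cv β (x k)|
  obtain ⟨L, hL⟩ := Finite.exists_le fun i => cv β t + (σ i).length * A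
  refine ⟨L, fun S hW i => ⟨ε⁻¹ * v i, ?_⟩⟩
  have hv' : ∀ i, 0 ≤ v i := fun i => (hv i).le
  have key : ∀ (n : ℕ) (j : ℤ) (k : Fin d), 0 ≤ j → Real.exp (s * j) * v k ≤ n * ε →
      Len S (winPhi β T j (x k)) (ε⁻¹ * (Real.exp (s * j) * v k)) := by
    intro n
    induction n with
    | zero =>
      intro j k _ h
      have := mul_pos (Real.exp_pos (s * j)) (hv k)
      simp only [Nat.cast_zero, zero_mul] at h
      linarith
    | succ n ih =>
      intro j k hj h
      have hj' : (0 : ℝ) ≤ j := by exact_mod_cast hj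
      have he : 1 ≤ Real.exp (s * j) := Real.one_le_exp (by positivity)
      have h0 := SS_nonneg (fun i => s * cv β (x i)) hv' (σ k) (-(s * cv β t))
      have hk := hεv k
      rcases le_or_gt j L with hjL | hjL
      · refine (Len.of_mem (hW j k hj hjL)).mono ?_
        rw [le_inv_mul_iff₀ hε]
        nlinarith [hv k]
      · have e : SS (fun i => s * cv β (x i)) v (σ k) (s * ((j - cv β t : ℤ) : ℝ)) =
            Real.exp (s * j) * SS (fun i => s * cv β (x i)) v (σ k) (-(s * cv β t)) := by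
          rw [← win_SS_add]; congr 1; push_cast; ring
        have hle : Real.exp (s * j) * SS (fun i => s * cv β (x i)) v (σ k) (-(s * cv β t)) + ε ≤
            Real.exp (s * j) * v k := by nlinarith
        rw [win_rel rel β T hTt]
        refine (win_word β T (c := ε⁻¹) hv' hA (σ k) _ fun j' k' h1 h2 => ih j' k' ?_ ?_).mono ?_
        · have := hL k
          omega
        · rw [e] at h2
          push_cast at h
          linarith
        · rw [e]
          exact mul_le_mul_of_nonneg_left (by linarith) (inv_pos.2 hε).le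
  intro j hj
  obtain ⟨n, hn⟩ := exists_nat_ge (Real.exp (s * j) * v i / ε)
  rw [div_le_iff₀ hε] at hn
  exact (key n j i hj hn).mono (le_of_eq (by ring))

/-- WIN. The Schreier generators at high level have small length in a finite window. -/
theorem win {σ : Fin d → Wd d} {x : Fin d → G} {t : G} (rel : ∀ i, t * x i * t⁻¹ = ev x (σ i))
    (gen : Subgroup.closure (Set.range x ∪ {t}) = ⊤) (β : Cl G) (T : ℤ → G)
    (hT : ∀ j, cv β (T j) = j) (hTt : ∀ j, T (j + cv β t) = T j * t) {s : ℝ} (hs : 0 < s)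
    (hsup : Sup σ (fun i => s * cv β (x i)) (s * cv β t)) :
    ∃ W : Finset G, (∀ w ∈ W, w ∈ β.ker) ∧ ∀ g : G, ∃ (C : ℝ) (K : ℤ), ∀ j : ℤ, K ≤ j →
      Len (W : Set G) (T j * g * (T (j + cv β g))⁻¹) (C * Real.exp (s * j)) := by
  classical
  obtain ⟨L, hL⟩ := win_gen rel β T hTt hs hsup
  refine ⟨(Finset.Icc 0 L ×ˢ Finset.univ).image fun p : ℤ × Fin d => winPhi β T p.1 (x p.2),
    fun w hw => ?_, fun g => ?_⟩
  · obtain ⟨p, -, rfl⟩ := Finset.mem_image.1 hw
    rw [mem_ker_iff_cv]
    simp [winPhi, hT]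
  · have hx := hL _ fun j i h0 h1 => Finset.mem_coe.2 (Finset.mem_image_of_mem
      (fun p : ℤ × Fin d => winPhi β T p.1 (x p.2))
      (show (j, i) ∈ Finset.Icc 0 L ×ˢ Finset.univ by simp [h0, h1]))
    generalize (((Finset.Icc 0 L ×ˢ Finset.univ).image
      fun p : ℤ × Fin d => winPhi β T p.1 (x p.2) : Finset G) : Set G) = S at hx ⊢
    have hg : g ∈ Subgroup.closure (Set.range x ∪ {t}) := by rw [gen]; trivial
    change ∃ (C : ℝ) (K : ℤ), ∀ j : ℤ, K ≤ j → Len S (winPhi β T j g) (C * Real.exp (s * j))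
    induction hg using Subgroup.closure_induction with
    | mem y hy =>
      rcases hy with ⟨i, rfl⟩ | rfl
      · obtain ⟨C, hC⟩ := hx i
        exact ⟨C, 0, hC⟩
      · refine ⟨0, 0, fun j _ => ?_⟩
        have : winPhi β T j y = 1 := by rw [winPhi, hTt]; group
        rw [this]
        exact Len.one (by simp)
    | one => exact ⟨0, 0, fun j _ => by rw [winPhi_one]; exact Len.one (by simp)⟩
    | mul y z _ _ hy hz =>
      obtain ⟨C, K, hC⟩ := hy
      obtain ⟨C', K', hC'⟩ := hz
      refine ⟨C + C' * Real.exp (s * cv β y), max K (K' - cv β y), fun j hj => ?_⟩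
      rw [winPhi_mul]
      refine ((hC j (by omega)).mul (hC' _ (by omega))).mono (le_of_eq ?_)
      push_cast
      rw [mul_add s, Real.exp_add]; ring
    | inv y _ hy =>
      obtain ⟨C, K, hC⟩ := hy
      refine ⟨C * Real.exp (-(s * cv β y)), K + cv β y, fun j hj => ?_⟩
      rw [winPhi_inv]
      refine (hC _ (by omega)).inv.mono (le_of_eq ?_)
      push_cast
      rw [mul_sub s, sub_eq_add_neg, Real.exp_add]; ring

end Pool.Agent.Lib.MP_14f458_gt
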